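import Pool.Agent.Helper74_MC.Gr

/-!
Transfer of `Good m K` to a graph on `Fin n` with `egirth`.
-/

set_option autoImplicit false

namespace Pool.Agent.Helper62FIN

open Pool.Agent.MC.H74

theorem six_le_egirth {V : Type} (G : SimpleGraph V) (h : NoShort G) : (6 : ℕ∞) ≤ G.egirth := by
  rw [SimpleGraph.le_egirth]
  intro a w hw
  by_contra hlt
  push Not at hlt
  have h5 : w.length ≤ 5 := by
    have : (w.length : ℕ∞) < ((6 : ℕ) : ℕ∞) := hlt
    have := ENat.natCast_lt_natCast.1 this
    omega
  have h3 : 3 ≤ w.length := hw.three_le_length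
  have hinj := hw.getVert_injOn
  have hadj : ∀ i, i < w.length → G.Adj (w.getVert i) (w.getVert (i + 1)) :=
    fun i hi => w.adj_getVert_succ hi
  have h0 : w.getVert 0 = a := w.getVert_zero
  have hl : w.getVert w.length = a := w.getVert_length
  have hne : ∀ i j, 1 ≤ i → i ≤ w.length → 1 ≤ j → j ≤ w.length → i ≠ j →
      w.getVert i ≠ w.getVert j := by
    intro i j h1 h2 h3 h4 hij he
    exact hij (hinj ⟨h1, h2⟩ ⟨h3, h4⟩ he)
  obtain ⟨H3, H4, H5⟩ := h
  have hc : w.length = 3 ∨ w.length = 4 ∨ w.length = 5 := by omega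
  rcases hc with hc | hc | hc
  · rw [hc] at hadj hne hl
    refine H3 a (w.getVert 1) (w.getVert 2) ?_ (hadj 1 (by norm_num)) ?_
    · have := hadj 0 (by norm_num)
      rwa [h0] at this
    · have := hadj 2 (by norm_num)
      rwa [hl] at this
  · rw [hc] at hadj hne hl
    refine H4 a (w.getVert 1) (w.getVert 2) (w.getVert 3) ?_ (hadj 1 (by norm_num))
      (hadj 2 (by norm_num)) ?_ ?_ (hne 1 3 (by norm_num) (by norm_num) (by norm_num)
        (by norm_num) (by norm_num))
    · have := hadj 0 (by norm_num)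
      rwa [h0] at this
    · have := hadj 3 (by norm_num)
      rwa [hl] at this
    · exact fun h => hne 4 2 (by norm_num) (by norm_num) (by norm_num) (by norm_num)
        (by norm_num) (hl.trans h)
  · rw [hc] at hadj hne hl
    refine H5 a (w.getVert 1) (w.getVert 2) (w.getVert 3) (w.getVert 4) ?_
      (hadj 1 (by norm_num)) (hadj 2 (by norm_num)) (hadj 3 (by norm_num)) ?_ ?_
      (hne 1 3 (by norm_num) (by norm_num) (by norm_num) (by norm_num) (by norm_num))
      (hne 2 4 (by norm_num) (by norm_num) (by norm_num) (by norm_num) (by norm_num)) ?_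
      (hne 4 1 (by norm_num) (by norm_num) (by norm_num) (by norm_num) (by norm_num))
    · have := hadj 0 (by norm_num)
      rwa [h0] at this
    · have := hadj 4 (by norm_num)
      rwa [hl] at this
    · exact fun h => hne 5 2 (by norm_num) (by norm_num) (by norm_num) (by norm_num)
        (by norm_num) (hl.trans h)
    · exact fun h => hne 3 5 (by norm_num) (by norm_num) (by norm_num) (by norm_num)
        (by norm_num) (h.trans hl.symm)

theorem ncard_pairs {V : Type} [Fintype V] (G : SimpleGraph V) :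
    {q : V × V | G.Adj q.1 q.2}.ncard = 2 * G.edgeSet.ncard := by
  classical
  have h1 : {q : V × V | G.Adj q.1 q.2} = Set.range (fun d : G.Dart => d.toProd) := by
    ext q
    constructor
    · intro hq
      exact ⟨⟨q, hq⟩, rfl⟩
    · rintro ⟨d, rfl⟩
      exact d.adj
  rw [h1, Set.ncard_range_of_injective (SimpleGraph.Dart.toProd_injective), Nat.card_eq_fintype_card,
    G.dart_card_eq_twice_card_edges, ← SimpleGraph.coe_edgeFinset, Set.ncard_coe_finset]

theorem fin {m : ℕ} {K : ℝ} (h : Good m K) :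
    ∃ (n : ℕ) (G : SimpleGraph (Fin n)), G.edgeSet.ncard = m ∧ (6 : ℕ∞) ≤ G.egirth ∧
      ∀ S : Set (Fin n),
        (({q : Fin n × Fin n | q.1 ∈ S ∧ q.2 ∉ S ∧ G.Adj q.1 q.2}.ncard : ℕ) : ℝ) ≤ m / 2 + K := by
  classical
  obtain ⟨V, hV, G, hm, hns, hcut⟩ := h
  let e : V ≃ Fin (Fintype.card V) := Fintype.equivFin V
  let G' : SimpleGraph (Fin (Fintype.card V)) := G.comap e.symm
  refine ⟨Fintype.card V, G', ?_, ?_, ?_⟩
  · have h1 := ncard_pairs G'
    have h2 : {q : Fin (Fintype.card V) × Fin (Fintype.card V) | G'.Adj q.1 q.2}.ncard =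
        {q : V × V | G.Adj q.1 q.2}.ncard := by
      apply Set.ncard_congr (fun q _ => (e.symm q.1, e.symm q.2))
      · intro q hq
        exact hq
      · intro q q' _ _ hqq
        have := Prod.ext_iff.1 hqq
        exact Prod.ext (e.symm.injective this.1) (e.symm.injective this.2)
      · intro q hq
        refine ⟨(e q.1, e q.2), ?_, ?_⟩
        · show G.Adj (e.symm (e q.1)) (e.symm (e q.2))
          simpa using hq
        · simp
    rw [h2, hm] at h1
    omega
  · apply six_le_egirth
    obtain ⟨H3, H4, H5⟩ := hns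
    refine ⟨?_, ?_, ?_⟩
    · intro a b c h1 h2 h3
      exact H3 _ _ _ h1 h2 h3
    · intro a b c d h1 h2 h3 h4 n1 n2
      exact H4 _ _ _ _ h1 h2 h3 h4 (fun h => n1 (e.symm.injective h))
        (fun h => n2 (e.symm.injective h))
    · intro a b c d f h1 h2 h3 h4 h5 n1 n2 n3 n4 n5
      exact H5 _ _ _ _ _ h1 h2 h3 h4 h5 (fun h => n1 (e.symm.injective h))
        (fun h => n2 (e.symm.injective h)) (fun h => n3 (e.symm.injective h))
        (fun h => n4 (e.symm.injective h)) (fun h => n5 (e.symm.injective h))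
  · intro S
    have h1 := hcut (e.symm '' S)
    have h2 : {q : Fin (Fintype.card V) × Fin (Fintype.card V) |
        q.1 ∈ S ∧ q.2 ∉ S ∧ G'.Adj q.1 q.2}.ncard =
        {q : V × V | q.1 ∈ e.symm '' S ∧ q.2 ∉ e.symm '' S ∧ G.Adj q.1 q.2}.ncard := by
      apply Set.ncard_congr (fun q _ => (e.symm q.1, e.symm q.2))
      · rintro q ⟨q1, q2, q3⟩
        refine ⟨⟨q.1, q1, rfl⟩, ?_, q3⟩
        rintro ⟨z, hz, hz'⟩
        exact q2 (e.symm.injective hz' ▸ hz)
      · intro q q' _ _ hqq
        have := Prod.ext_iff.1 hqq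
        exact Prod.ext (e.symm.injective this.1) (e.symm.injective this.2)
      · rintro q ⟨⟨z, hz, hz'⟩, q2, q3⟩
        refine ⟨(e q.1, e q.2), ⟨?_, ?_, ?_⟩, ?_⟩
        · rw [← hz']
          simpa using hz
        · intro h
          exact q2 ⟨e q.2, h, by simp⟩
        · show G.Adj (e.symm (e q.1)) (e.symm (e q.2))
          simpa using q3
        · simp
    rw [h2]
    exact h1

end Pool.Agent.Helper62FIN
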