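import Mathlib

/-!
Exponential moments of a linear form along a random permutation (sampling without
replacement): if the coefficients have sum zero and the sampled values are signs, then the
average of `exp (∑ a h * x (π h))` over all permutations is at most `exp (4 * ∑ (a h)^2)`.
-/

namespace Pool.Agent.Helper62SL

open Finset

variable {F : Type} [Fintype F] [DecidableEq F]

/-- The permutations sending `A` into `S`. -/
def PS (S A : Finset F) : Finset (Equiv.Perm F) :=
  Finset.univ.filter (fun π : Equiv.Perm F => ∀ h ∈ A, π h ∈ S)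

theorem mem_PS (S A : Finset F) (π : Equiv.Perm F) :
    π ∈ PS S A ↔ ∀ h ∈ A, π h ∈ S := by
  simp [PS]

theorem card_swap (S A : Finset F) (b c : F) (hb : b ∉ A) (hc : c ∉ A) :
    (PS S (insert b A)).card = (PS S (insert c A)).card := by
  apply Finset.card_bij' (fun π _ => π * Equiv.swap b c) (fun π _ => π * Equiv.swap b c)
  · intro π hπ
    rw [mem_PS] at hπ ⊢
    intro h hh
    rcases Finset.mem_insert.1 hh with rfl | hh
    · simpa using hπ b (Finset.mem_insert_self _ _)
    · have h1 : h ≠ b := fun h0 => hb (h0 ▸ hh)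
      have h2 : h ≠ c := fun h0 => hc (h0 ▸ hh)
      simpa [Equiv.swap_apply_of_ne_of_ne h1 h2] using hπ h (Finset.mem_insert_of_mem hh)
  · intro π hπ
    rw [mem_PS] at hπ ⊢
    intro h hh
    rcases Finset.mem_insert.1 hh with rfl | hh
    · simpa using hπ c (Finset.mem_insert_self _ _)
    · have h1 : h ≠ b := fun h0 => hb (h0 ▸ hh)
      have h2 : h ≠ c := fun h0 => hc (h0 ▸ hh)
      simpa [Equiv.swap_apply_of_ne_of_ne h1 h2] using hπ h (Finset.mem_insert_of_mem hh)
  · intro π _
    simp [mul_assoc]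
  · intro π _
    simp [mul_assoc]

theorem sum_insert (S A : Finset F) :
    ∑ c ∈ Aᶜ, ((PS S (insert c A)).card : ℝ) =
      ((S.card : ℝ) - A.card) * (PS S A).card := by
  classical
  have h1 : ∀ c : F, ((PS S (insert c A)).card : ℝ) =
      ∑ π ∈ PS S A, (if π c ∈ S then (1:ℝ) else 0) := by
    intro c
    rw [← Finset.sum_filter, Finset.sum_const, nsmul_eq_mul, mul_one]
    congr 2
    ext π
    rw [Finset.mem_filter, mem_PS, mem_PS]
    constructor
    · intro h
      exact ⟨fun k hk => h k (Finset.mem_insert_of_mem hk), h c (Finset.mem_insert_self _ _)⟩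
    · rintro ⟨h, hc⟩ k hk
      rcases Finset.mem_insert.1 hk with rfl | hk
      · exact hc
      · exact h k hk
  rw [Finset.sum_congr rfl (fun c _ => h1 c), Finset.sum_comm]
  have h2 : ∀ π ∈ PS S A, ∑ c ∈ Aᶜ, (if π c ∈ S then (1:ℝ) else 0) =
      (S.card : ℝ) - A.card := by
    intro π hπ
    rw [mem_PS] at hπ
    have e1 : ∑ c ∈ A, (if π c ∈ S then (1:ℝ) else 0) = A.card := by
      rw [Finset.sum_congr rfl (fun c hc => if_pos (hπ c hc))]
      simp
    have e2 : ∑ c : F, (if π c ∈ S then (1:ℝ) else 0) = S.card := by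
      rw [Equiv.sum_comp π (fun d => if d ∈ S then (1:ℝ) else 0)]
      rw [← Finset.sum_filter]
      simp
    have e3 := Finset.sum_add_sum_compl A (fun c => if π c ∈ S then (1:ℝ) else 0)
    linarith
  rw [Finset.sum_congr rfl h2, Finset.sum_const, nsmul_eq_mul]
  ring

theorem step (S A : Finset F) (b : F) (hb : b ∉ A) :
    (Fintype.card F : ℝ) * (PS S (insert b A)).card ≤ S.card * (PS S A).card := by
  have h1 := sum_insert S A
  have h2 : ∑ c ∈ Aᶜ, ((PS S (insert c A)).card : ℝ) =
      ((Fintype.card F : ℝ) - A.card) * (PS S (insert b A)).card := by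
    rw [Finset.sum_congr rfl (fun c hc => by
      rw [card_swap S A c b (Finset.mem_compl.1 hc) hb])]
    rw [Finset.sum_const, nsmul_eq_mul, Finset.card_compl, Nat.cast_sub (Finset.card_le_univ A)]
  have h3 : ((PS S (insert b A)).card : ℝ) ≤ (PS S A).card := by
    have : PS S (insert b A) ⊆ PS S A := by
      intro π hπ
      rw [mem_PS] at hπ ⊢
      exact fun h hh => hπ h (Finset.mem_insert_of_mem hh)
    exact_mod_cast Finset.card_le_card this
  have h4 : (0:ℝ) ≤ A.card := by positivity
  nlinarith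

theorem card_PS_le (S A : Finset F) (p : ℝ) (hp : p * Fintype.card F = S.card) :
    ((PS S A).card : ℝ) ≤ p ^ A.card * (Fintype.card (Equiv.Perm F)) := by
  classical
  rcases isEmpty_or_nonempty F with hF | hF
  · have : A = ∅ := Finset.eq_empty_of_isEmpty A
    subst this
    simp [PS]
  have hq : (0:ℝ) < Fintype.card F := by exact_mod_cast Fintype.card_pos
  have hp0 : 0 ≤ p := by
    by_contra h
    push Not at h
    have : p * Fintype.card F < 0 := mul_neg_of_neg_of_pos h hq
    have h2 : (0:ℝ) ≤ (S.card : ℝ) := Nat.cast_nonneg _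
    linarith
  induction A using Finset.induction_on with
  | empty =>
    simp only [Finset.card_empty, pow_zero, one_mul]
    exact_mod_cast Finset.card_le_univ _
  | insert b A hb ih =>
    rw [Finset.card_insert_of_notMem hb, pow_succ]
    have h1 := step S A b hb
    rw [← hp] at h1
    have h2 : ((PS S (insert b A)).card : ℝ) ≤ p * (PS S A).card := by
      have h3 : (Fintype.card F : ℝ) * (PS S (insert b A)).card ≤
          Fintype.card F * (p * (PS S A).card) := by linarith
      exact le_of_mul_le_mul_left h3 hq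
    calc ((PS S (insert b A)).card : ℝ) ≤ p * (PS S A).card := h2
      _ ≤ p * (p ^ A.card * Fintype.card (Equiv.Perm F)) := by gcongr
      _ = _ := by ring

theorem prod_le (S : Finset F) (p : ℝ) (hp : p * Fintype.card F = S.card)
    (t : F → ℝ) (ht : ∀ h, 0 ≤ t h) :
    ∑ π : Equiv.Perm F, ∏ h, (1 + t h * (if π h ∈ S then (1:ℝ) else 0)) ≤
      (Fintype.card (Equiv.Perm F)) * ∏ h, (1 + t h * p) := by
  classical
  have e1 : ∀ π : Equiv.Perm F, ∏ h, (1 + t h * (if π h ∈ S then (1:ℝ) else 0)) =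
      ∑ A : Finset F, (∏ h ∈ A, t h) * (if π ∈ PS S A then (1:ℝ) else 0) := by
    intro π
    rw [Finset.prod_one_add, Finset.powerset_univ]
    refine Finset.sum_congr rfl fun A _ => ?_
    rw [Finset.prod_mul_distrib]
    congr 1
    by_cases hA : π ∈ PS S A
    · rw [if_pos hA]
      rw [mem_PS] at hA
      exact Finset.prod_eq_one fun h hh => if_pos (hA h hh)
    · rw [if_neg hA]
      rw [mem_PS] at hA
      push Not at hA
      obtain ⟨h, hh, hs⟩ := hA
      exact Finset.prod_eq_zero hh (if_neg hs)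
  rw [Finset.sum_congr rfl (fun π _ => e1 π), Finset.sum_comm]
  rw [Finset.prod_one_add, Finset.powerset_univ, Finset.mul_sum]
  refine Finset.sum_le_sum fun A _ => ?_
  rw [← Finset.mul_sum]
  have e2 : ∑ π : Equiv.Perm F, (if π ∈ PS S A then (1:ℝ) else 0) = (PS S A).card := by
    rw [← Finset.sum_filter]
    simp
  rw [e2, Finset.prod_mul_distrib, Finset.prod_const]
  have h3 := card_PS_le S A p hp
  have h4 : 0 ≤ ∏ h ∈ A, t h := Finset.prod_nonneg fun h _ => ht h
  calc (∏ h ∈ A, t h) * ((PS S A).card : ℝ) ≤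
      (∏ h ∈ A, t h) * (p ^ A.card * Fintype.card (Equiv.Perm F)) := by gcongr
    _ = _ := by ring

theorem chord (s y : ℝ) (h1 : -2 ≤ y) (h2 : y ≤ 2) :
    Real.exp (s * y) ≤ ((2 + y) / 4) * Real.exp (2 * s) + ((2 - y) / 4) * Real.exp (-(2 * s)) := by
  have := convexOn_exp.2 (Set.mem_univ (2 * s)) (Set.mem_univ (-(2 * s)))
    (show 0 ≤ (2 + y) / 4 by linarith) (show 0 ≤ (2 - y) / 4 by linarith) (by ring)
  simp only [smul_eq_mul] at this
  have e : (2 + y) / 4 * (2 * s) + (2 - y) / 4 * -(2 * s) = s * y := by ring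
  rwa [e] at this

theorem two_point (p s : ℝ) (h0 : 0 ≤ p) (h1 : p ≤ 1) :
    (1 - p) * Real.exp (-s) + p * Real.exp s ≤ Real.exp (s * (2 * p - 1) + 2 * s ^ 2) := by
  have c1 := chord s (1 - (2 * p - 1)) (by linarith) (by linarith)
  have c2 := chord s (-1 - (2 * p - 1)) (by linarith) (by linarith)
  have c3 := Real.cosh_le_exp_half_sq (2 * s)
  have c4 : Real.cosh (2 * s) = (Real.exp (2 * s) + Real.exp (-(2 * s))) / 2 :=
    Real.cosh_eq _
  have e1 : Real.exp s = Real.exp (s * (2 * p - 1)) * Real.exp (s * (1 - (2 * p - 1))) := by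
    rw [← Real.exp_add]; congr 1; ring
  have e2 : Real.exp (-s) = Real.exp (s * (2 * p - 1)) * Real.exp (s * (-1 - (2 * p - 1))) := by
    rw [← Real.exp_add]; congr 1; ring
  have e3 : Real.exp (s * (2 * p - 1) + 2 * s ^ 2) =
      Real.exp (s * (2 * p - 1)) * Real.exp ((2 * s) ^ 2 / 2) := by
    rw [← Real.exp_add]; congr 1; ring
  rw [e1, e2, e3]
  have hE : 0 ≤ Real.exp (s * (2 * p - 1)) := (Real.exp_pos _).le
  have key : (1 - p) * Real.exp (s * (-1 - (2 * p - 1))) +
      p * Real.exp (s * (1 - (2 * p - 1))) ≤ Real.exp ((2 * s) ^ 2 / 2) := by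
    calc (1 - p) * Real.exp (s * (-1 - (2 * p - 1))) + p * Real.exp (s * (1 - (2 * p - 1)))
        ≤ (1 - p) * (((2 + (-1 - (2 * p - 1))) / 4) * Real.exp (2 * s) +
            ((2 - (-1 - (2 * p - 1))) / 4) * Real.exp (-(2 * s))) +
          p * (((2 + (1 - (2 * p - 1))) / 4) * Real.exp (2 * s) +
            ((2 - (1 - (2 * p - 1))) / 4) * Real.exp (-(2 * s))) := by
          gcongr
      _ = Real.cosh (2 * s) := by rw [c4]; ring
      _ ≤ _ := c3
  calc (1 - p) * (Real.exp (s * (2 * p - 1)) * Real.exp (s * (-1 - (2 * p - 1)))) +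
        p * (Real.exp (s * (2 * p - 1)) * Real.exp (s * (1 - (2 * p - 1))))
      = Real.exp (s * (2 * p - 1)) * ((1 - p) * Real.exp (s * (-1 - (2 * p - 1))) +
      p * Real.exp (s * (1 - (2 * p - 1)))) := by ring
    _ ≤ _ := mul_le_mul_of_nonneg_left key hE

/-- The one sided bound: nonnegative coefficients. -/
theorem pos_part [Nonempty F] (b x : F → ℝ) (hb : ∀ h, 0 ≤ b h) (hx : ∀ h, x h = 1 ∨ x h = -1)
    (μ : ℝ) (hμ : μ * Fintype.card F = ∑ h, x h) :
    ∑ π : Equiv.Perm F, Real.exp (2 * ∑ h, b h * x (π h)) ≤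
      (Fintype.card (Equiv.Perm F)) * Real.exp (2 * μ * ∑ h, b h + 8 * ∑ h, b h ^ 2) := by
  classical
  have hq : (0:ℝ) < Fintype.card F := by exact_mod_cast Fintype.card_pos
  set S : Finset F := Finset.univ.filter (fun h => x h = 1) with hS
  have hxS : ∀ h, x h = 2 * (if h ∈ S then (1:ℝ) else 0) - 1 := by
    intro h
    rcases hx h with h1 | h1
    · have : h ∈ S := Finset.mem_filter.2 ⟨Finset.mem_univ _, h1⟩
      rw [if_pos this, h1]; norm_num
    · have : h ∉ S := by
        rw [hS, Finset.mem_filter, h1]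
        norm_num
      rw [if_neg this, h1]; norm_num
  set p : ℝ := (1 + μ) / 2 with hp
  have hsum : ∑ h, x h = 2 * S.card - Fintype.card F := by
    rw [Finset.sum_congr rfl (fun h _ => hxS h), Finset.sum_sub_distrib, ← Finset.mul_sum,
      Finset.sum_boole, Finset.filter_mem_eq_inter, Finset.univ_inter, Finset.sum_const,
      Finset.card_univ, nsmul_eq_mul, mul_one]
  have hpS : p * Fintype.card F = S.card := by
    rw [hp]; nlinarith
  have hp0 : 0 ≤ p := by
    by_contra h
    push Not at h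
    have h1 : p * Fintype.card F < 0 := mul_neg_of_neg_of_pos h hq
    have h2 : (0:ℝ) ≤ (S.card : ℝ) := Nat.cast_nonneg _
    linarith
  have hp1 : p ≤ 1 := by
    have h2 : (S.card : ℝ) ≤ Fintype.card F := by exact_mod_cast Finset.card_le_univ S
    by_contra h
    push Not at h
    nlinarith
  have e1 : ∀ π : Equiv.Perm F, Real.exp (2 * ∑ h, b h * x (π h)) =
      (∏ h, Real.exp (-(2 * b h))) *
        ∏ h, (1 + (Real.exp (4 * b h) - 1) * (if π h ∈ S then (1:ℝ) else 0)) := by
    intro π
    rw [← Finset.prod_mul_distrib, Finset.mul_sum, Real.exp_sum]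
    refine Finset.prod_congr rfl fun h _ => ?_
    rw [hxS (π h)]
    by_cases hh : π h ∈ S
    · rw [if_pos hh]
      have : Real.exp (2 * (b h * (2 * 1 - 1))) = Real.exp (-(2 * b h)) * Real.exp (4 * b h) := by
        rw [← Real.exp_add]; congr 1; ring
      rw [this]; ring
    · rw [if_neg hh]
      have : Real.exp (2 * (b h * (2 * 0 - 1))) = Real.exp (-(2 * b h)) := by
        congr 1; ring
      rw [this]; ring
  rw [Finset.sum_congr rfl (fun π _ => e1 π), ← Finset.mul_sum]
  have e2 := prod_le S p hpS (fun h => Real.exp (4 * b h) - 1) (fun h => by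
    have : 1 ≤ Real.exp (4 * b h) := Real.one_le_exp (by linarith [hb h])
    linarith)
  have e3 : 0 ≤ ∏ h, Real.exp (-(2 * b h)) := Finset.prod_nonneg fun h _ => (Real.exp_pos _).le
  calc (∏ h, Real.exp (-(2 * b h))) * ∑ π : Equiv.Perm F,
        ∏ h, (1 + (Real.exp (4 * b h) - 1) * (if π h ∈ S then (1:ℝ) else 0))
      ≤ (∏ h, Real.exp (-(2 * b h))) * ((Fintype.card (Equiv.Perm F)) *
          ∏ h, (1 + (Real.exp (4 * b h) - 1) * p)) := mul_le_mul_of_nonneg_left e2 e3
    _ = (Fintype.card (Equiv.Perm F)) * ∏ h, (Real.exp (-(2 * b h)) *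
          (1 + (Real.exp (4 * b h) - 1) * p)) := by
        rw [Finset.prod_mul_distrib]; ring
    _ ≤ (Fintype.card (Equiv.Perm F)) * ∏ h, Real.exp ((2 * b h) * (2 * p - 1) +
          2 * (2 * b h) ^ 2) := by
        gcongr with h _
        · intro i _
          have : 1 ≤ Real.exp (4 * b i) := Real.one_le_exp (by linarith [hb i])
          have h5 : 0 ≤ (Real.exp (4 * b i) - 1) * p := mul_nonneg (by linarith) hp0
          have := (Real.exp_pos (-(2 * b i))).le
          positivity
        · have h6 := two_point p (2 * b h) hp0 hp1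
          refine le_trans (le_of_eq ?_) h6
          have : Real.exp (2 * b h) = Real.exp (-(2 * b h)) * Real.exp (4 * b h) := by
            rw [← Real.exp_add]; congr 1; ring
          rw [this]; ring
    _ = _ := by
        rw [← Real.exp_sum]
        congr 2
        rw [Finset.sum_add_distrib, Finset.mul_sum, Finset.mul_sum]
        congr 1
        · refine Finset.sum_congr rfl fun h _ => ?_
          rw [hp]; ring
        · refine Finset.sum_congr rfl fun h _ => ?_
          ring

/-- Main inequality. -/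
theorem slice (a x : F → ℝ) (ha : ∑ h, a h = 0) (hx : ∀ h, x h = 1 ∨ x h = -1) :
    ∑ π : Equiv.Perm F, Real.exp (∑ h, a h * x (π h)) ≤
      (Fintype.card (Equiv.Perm F)) * Real.exp (4 * ∑ h, a h ^ 2) := by
  classical
  rcases isEmpty_or_nonempty F with hF | hF
  · simp
  have hq : (0:ℝ) < Fintype.card F := by exact_mod_cast Fintype.card_pos
  set μ : ℝ := (∑ h, x h) / Fintype.card F with hμ
  have hμ' : μ * Fintype.card F = ∑ h, x h := by
    rw [hμ]; field_simp
  set b : F → ℝ := fun h => max (a h) 0 with hb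
  set c : F → ℝ := fun h => max (-(a h)) 0 with hc
  have hbc : ∀ h, a h = b h - c h := by
    intro h
    simp only [hb, hc]
    rcases le_total (a h) 0 with h1 | h1
    · rw [max_eq_right h1, max_eq_left (by linarith)]; ring
    · rw [max_eq_left h1, max_eq_right (by linarith)]; ring
  have hsq : ∀ h, b h ^ 2 + c h ^ 2 = a h ^ 2 := by
    intro h
    simp only [hb, hc]
    rcases le_total (a h) 0 with h1 | h1
    · rw [max_eq_right h1, max_eq_left (by linarith)]; ring
    · rw [max_eq_left h1, max_eq_right (by linarith)]; ring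
  have hsum : ∑ h, b h = ∑ h, c h := by
    have : ∑ h, (b h - c h) = 0 := by
      rw [← Finset.sum_congr rfl (fun h _ => hbc h)]; exact ha
    rw [Finset.sum_sub_distrib] at this
    linarith
  have P1 := pos_part b x (fun h => le_max_right _ _) hx μ hμ'
  have P2 := pos_part c (fun h => -x h) (fun h => le_max_right _ _)
    (fun h => by rcases hx h with h1 | h1 <;> simp [h1]) (-μ) (by
      rw [Finset.sum_neg_distrib, ← hμ']; ring)
  set M : ℝ := (Fintype.card (Equiv.Perm F) : ℝ) with hM
  have hM0 : 0 < M := by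
    rw [hM]; exact_mod_cast Fintype.card_pos
  set B : ℝ := ∑ h, b h
  have CS := Finset.sum_mul_sq_le_sq_mul_sq (Finset.univ : Finset (Equiv.Perm F))
    (fun π => Real.exp (∑ h, b h * x (π h))) (fun π => Real.exp (∑ h, c h * (-x (π h))))
  have e1 : ∀ π : Equiv.Perm F, Real.exp (∑ h, b h * x (π h)) *
      Real.exp (∑ h, c h * (-x (π h))) = Real.exp (∑ h, a h * x (π h)) := by
    intro π
    rw [← Real.exp_add, ← Finset.sum_add_distrib]
    congr 1
    refine Finset.sum_congr rfl fun h _ => ?_
    rw [hbc h]; ring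
  have e2 : ∀ π : Equiv.Perm F, Real.exp (∑ h, b h * x (π h)) ^ 2 =
      Real.exp (2 * ∑ h, b h * x (π h)) := by
    intro π
    rw [sq, ← Real.exp_add]; congr 1; ring
  have e3 : ∀ π : Equiv.Perm F, Real.exp (∑ h, c h * (-x (π h))) ^ 2 =
      Real.exp (2 * ∑ h, c h * (-x (π h))) := by
    intro π
    rw [sq, ← Real.exp_add]; congr 1; ring
  rw [Finset.sum_congr rfl (fun π _ => e1 π), Finset.sum_congr rfl (fun π _ => e2 π),
    Finset.sum_congr rfl (fun π _ => e3 π)] at CS
  set L : ℝ := ∑ π : Equiv.Perm F, Real.exp (∑ h, a h * x (π h)) with hL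
  have hL0 : 0 ≤ L := Finset.sum_nonneg fun π _ => (Real.exp_pos _).le
  have P1' : 0 ≤ ∑ π : Equiv.Perm F, Real.exp (2 * ∑ h, b h * x (π h)) :=
    Finset.sum_nonneg fun π _ => (Real.exp_pos _).le
  have P2' : 0 ≤ ∑ π : Equiv.Perm F, Real.exp (2 * ∑ h, c h * (-x (π h))) :=
    Finset.sum_nonneg fun π _ => (Real.exp_pos _).le
  have hfin : L ^ 2 ≤ (M * Real.exp (4 * ∑ h, a h ^ 2)) ^ 2 := by
    calc L ^ 2 ≤ (∑ π : Equiv.Perm F, Real.exp (2 * ∑ h, b h * x (π h))) *
          ∑ π : Equiv.Perm F, Real.exp (2 * ∑ h, c h * (-x (π h))) := CS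
      _ ≤ (M * Real.exp (2 * μ * B + 8 * ∑ h, b h ^ 2)) *
          (M * Real.exp (2 * (-μ) * ∑ h, c h + 8 * ∑ h, c h ^ 2)) := by
          apply mul_le_mul P1 P2 P2'
          positivity
      _ = (M * Real.exp (4 * ∑ h, a h ^ 2)) ^ 2 := by
          rw [mul_pow, ← Real.exp_nat_mul]
          have : ∑ h, a h ^ 2 = ∑ h, b h ^ 2 + ∑ h, c h ^ 2 := by
            rw [← Finset.sum_add_distrib]
            exact Finset.sum_congr rfl fun h _ => (hsq h).symm
          rw [this]
          have h7 : (M * Real.exp (2 * μ * B + 8 * ∑ h, b h ^ 2)) *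
              (M * Real.exp (2 * (-μ) * ∑ h, c h + 8 * ∑ h, c h ^ 2)) =
              M ^ 2 * (Real.exp (2 * μ * B + 8 * ∑ h, b h ^ 2) *
              Real.exp (2 * (-μ) * ∑ h, c h + 8 * ∑ h, c h ^ 2)) := by ring
          rw [h7, ← Real.exp_add]
          congr 2
          rw [← hsum]
          push_cast
          ring
  exact (pow_le_pow_iff_left₀ hL0 (by positivity) (by norm_num)).1 hfin

end Pool.Agent.Helper62SL
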