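import Pool.Statements.S00462
import Pool.Agent.Helper30_SkewP4.Assembly

/-!
No five dimensional space of complex skew-symmetric `n × n` matrices has constant rank `n - 2`.

Proof: for such a space the generic matrix `A = ∑ x_j A_j` on `ℂ⁵ ∖ {0}` has a rank two kernel
bundle.  On the affine variety `x·y = 1` (Jouanolou's trick) choose a global skew generalised
inverse `Q` of `A` and put `P = 1 - Q A`, `D = d_x A`, `q = ∂̄ Q`.  The Atiyah class of the kernel
is represented by `F = q D P` and `ω = P' D Q D P` is a symmetric holomorphic three-tensor; it
satisfies the relations `h F = F ^ 2 + ...` modulo exact forms, whose traces, together with the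
Cayley-Hamilton identity in rank two and the vanishing of `H^i(ℙ⁴, Ω^j(m))`, are contradictory.
-/

set_option autoImplicit false
open Pool Pool.MP_d1c004_ag

namespace Pool.Agent.S00462

/-- The negation of the preceding statement: For some n there is a 5-dimensional complex vector space of skew-symmetric n×n matrices (a projective 4-dimensional linear system) in which every nonzero matrix has rank exactly n−2. -/
theorem result :
    ¬ (∃ n : ℕ, ∃ V : Submodule ℂ (Matrix (Fin n) (Fin n) ℂ),
      Module.finrank ℂ V = 5 ∧
      (∀ A ∈ V, A.transpose = -A) ∧
      (∀ A ∈ V, A ≠ 0 → A.rank + 2 = n)) :=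
  Pool.Agent.SkewP4.not_main Pool.Agent.SkewP4.Asm.poly Pool.Agent.SkewP4.Asm.lam
    Pool.Agent.SkewP4.Asm.model Pool.Agent.SkewP4.Asm.contra

end Pool.Agent.S00462
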