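-- Disproof of the radicality conjecture for the off-diagonal ideal of X X^T:
-- the ideal L_12(13) over the complex numbers is not radical.
--
-- Idea.  In isotropic coordinates (A | w | B) of K^13 (A, B of size 12 x 6), relations lam, mu among
-- the rows of A satisfy (lam.w)(mu.w) = sum_i lam_i mu_i h_i modulo L, where h_i is the norm of the
-- i-th row.  So sum h_i h_j (lam ^ rho)_ij (mu ^ nu)_ij = 0.  At the point A_0 Gale dual to the twelve
-- points e_i + e_j (ij an edge of the octahedron) of P^5 these relations force h_i h_j to lie in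
-- (maximal ideal) * (all h_k h_l), hence by Nakayama r h_i h_j lies in L for some r with r(A_0) = 1.
-- If lam_e = 0, then g = r h_e (lam.w) has g^2 in L.  But g is not in L: on the point with values in
-- C[a,b,c]/(a^2,b^2,c^2) given by (a,-a,b,-b,c,-c) it takes the value -abc.
import Pool.Statements.S00518
import Pool.Agent.Helper6_XXT.Point
import Pool.Agent.Helper6_XXT.Dual

set_option autoImplicit false
open Pool Pool.MP_e86c89_ag

namespace Pool.Agent.S00518

/-- The negation of the preceding statement: For every field K of characteristic zero and all n, d, take the n×d matrix X of variables. The ideal in K[x_ik] generated by the off-diagonal entries ∑_k x_ik x_jk (i ≠ j) of XXᵀ is a radical ideal. -/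
theorem result :
    ¬ (∀ (K : Type) [Field K] [CharZero K] (n d : ℕ),
      (Ideal.span
        {p : MvPolynomial (Fin n × Fin d) K |
          ∃ i j : Fin n, i ≠ j ∧
            p = ∑ k : Fin d, MvPolynomial.X (i, k) * MvPolynomial.X (j, k)}).IsRadical) := by
  intro H
  have HL := H ℂ 12 13
  set L : Ideal (MvPolynomial (Fin 12 × Fin 13) ℂ) := Ideal.span
        {p : MvPolynomial (Fin 12 × Fin 13) ℂ |
          ∃ i j : Fin 12, i ≠ j ∧
            p = ∑ k : Fin 13, MvPolynomial.X (i, k) * MvPolynomial.X (j, k)} with hL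
  haveI : IsReduced (MvPolynomial (Fin 12 × Fin 13) ℂ ⧸ L) :=
    (Ideal.isRadical_iff_quotient_reduced L).1 HL
  set mk := Ideal.Quotient.mk L with hmk
  set x : Fin 12 → Fin 13 → (MvPolynomial (Fin 12 × Fin 13) ℂ ⧸ L) :=
    fun i k => mk (MvPolynomial.X (i, k)) with hxdef
  have hx : ∀ i j, i ≠ j → ∑ k, x i k * x j k = 0 := by
    intro i j hij
    have : (∑ k : Fin 13, MvPolynomial.X (i, k) * MvPolynomial.X (j, k) :
        MvPolynomial (Fin 12 × Fin 13) ℂ) ∈ L := Ideal.subset_span ⟨i, j, hij, rfl⟩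
    have h2 := Ideal.Quotient.eq_zero_iff_mem.2 this
    rw [map_sum] at h2
    simpa [hxdef, hmk] using h2
  set ηR : Helper6XXT.R3 := Helper6XXT.incC (1 / 2) with hηR
  set JR : Helper6XXT.R3 := Helper6XXT.incC Complex.I with hJR
  have h2ηR : 2 * ηR = 1 := by
    have : (2 : Helper6XXT.R3) = Helper6XXT.incC 2 := by rw [map_ofNat]
    rw [this, hηR, ← map_mul]
    norm_num
  have hJR2 : JR * JR = -1 := by
    rw [hJR, ← map_mul, Complex.I_mul_I, map_neg, map_one]
  set Ψ : MvPolynomial (Fin 12 × Fin 13) ℂ →+* Helper6XXT.R3 :=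
    MvPolynomial.eval₂Hom Helper6XXT.incC
      (fun p => Helper6XXT.val Helper6XXT.ea Helper6XXT.eb Helper6XXT.ec ηR JR p.1 p.2) with hΨ
  have hΨX : ∀ i k, Ψ (MvPolynomial.X (i, k))
      = Helper6XXT.val Helper6XXT.ea Helper6XXT.eb Helper6XXT.ec ηR JR i k := by
    intro i k
    rw [hΨ, MvPolynomial.coe_eval₂Hom, MvPolynomial.eval₂_X]
  have hΨL : ∀ p ∈ L, Ψ p = 0 := by
    intro p hp
    have hle : L ≤ RingHom.ker Ψ := by
      rw [hL]
      refine Ideal.span_le.2 ?_
      rintro _ ⟨i, j, hij, rfl⟩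
      change _ ∈ RingHom.ker Ψ
      rw [RingHom.mem_ker, map_sum]
      simp only [map_mul, hΨX]
      rw [Helper6XXT.val_dot _ _ _ _ _ h2ηR hJR2]
      exact Helper6XXT.gram_zero _ _ _ _ Helper6XXT.ea_sq Helper6XXT.eb_sq Helper6XXT.ec_sq h2ηR
        i j hij
    exact hle hp
  set ψ : (MvPolynomial (Fin 12 × Fin 13) ℂ ⧸ L) →+* Helper6XXT.R3 :=
    Ideal.Quotient.lift L Ψ hΨL with hψ
  have hψmk : ∀ p, ψ (mk p) = Ψ p := fun p => Ideal.Quotient.lift_mk L Ψ hΨL
  set J := mk (MvPolynomial.C Complex.I) with hJ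
  set η := mk (MvPolynomial.C (1 / 2)) with hη
  have h2η : 2 * η = 1 := by
    have : (2 : MvPolynomial (Fin 12 × Fin 13) ℂ ⧸ L) = mk (MvPolynomial.C 2) := by
      rw [map_ofNat, map_ofNat]
    rw [this, hη, ← map_mul, ← map_mul]
    norm_num
  have hJJ : J * J = -1 := by
    rw [hJ, ← map_mul, ← map_mul, Complex.I_mul_I, map_neg, map_neg, map_one, map_one]
  have hψJ : ψ J = JR := by
    rw [hJ, hψmk, hΨ, MvPolynomial.coe_eval₂Hom, MvPolynomial.eval₂_C]
  have hψη : ψ η = ηR := by
    rw [hη, hψmk, hΨ, MvPolynomial.coe_eval₂Hom, MvPolynomial.eval₂_C]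
  have hψx : ∀ i k, ψ (x i k)
      = Helper6XXT.val Helper6XXT.ea Helper6XXT.eb Helper6XXT.ec ηR JR i k := by
    intro i k
    rw [hxdef]
    simp only
    rw [hψmk, hΨX]
  have hdot : ∀ i j, ∑ t, ((x i (Helper6XXT.cA t) + J * x i (Helper6XXT.cB t)) *
        (η * (x j (Helper6XXT.cA t) - J * x j (Helper6XXT.cB t)))
        + (η * (x i (Helper6XXT.cA t) - J * x i (Helper6XXT.cB t))) *
        (x j (Helper6XXT.cA t) + J * x j (Helper6XXT.cB t)))
        + x i Helper6XXT.cW * x j Helper6XXT.cW = ∑ k, x i k * x j k := by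
    intro i j
    rw [Helper6XXT.sum_cols, ← Finset.sum_add_distrib]
    congr 1
    refine Finset.sum_congr rfl fun t _ => ?_
    linear_combination (x i (Helper6XXT.cA t) * x j (Helper6XXT.cA t)
      - J * J * (x i (Helper6XXT.cB t) * x j (Helper6XXT.cB t))) * h2η
      - (x i (Helper6XXT.cB t) * x j (Helper6XXT.cB t)) * hJJ
  refine Helper6XXT.core_false
    (A := fun i t => x i (Helper6XXT.cA t) + J * x i (Helper6XXT.cB t))
    (B := fun i t => η * (x i (Helper6XXT.cA t) - J * x i (Helper6XXT.cB t)))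
    (w := fun i => x i Helper6XXT.cW) (h := fun i => ∑ k, x i k * x i k) (η := η)
    ?_ h2η ψ Helper6XXT.resC ?_ Helper6XXT.ea Helper6XXT.eb Helper6XXT.ec ?_ ?_ ?_
    Helper6XXT.abc_ne Helper6XXT.mul_abc
  · intro i j
    rw [hdot i j]
    by_cases hij : i = j
    · subst hij; rw [if_pos rfl]
    · rw [if_neg hij, hx i j hij]
  · intro i t
    simp only [map_add, map_mul, hψJ, hψx, Helper6XXT.val_cA, Helper6XXT.val_cB, Helper6XXT.AR]
    linear_combination ((Helper6XXT.A0 i t : ℤ) : Helper6XXT.R3) * h2ηR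
      - (ηR * ((Helper6XXT.A0 i t : ℤ) : Helper6XXT.R3)
        - Helper6XXT.BR Helper6XXT.ea Helper6XXT.eb Helper6XXT.ec ηR i t) * hJR2
  · intro k
    simp only [hψx, Helper6XXT.val_cW]
    exact Helper6XXT.wR_rI _ _ _ k
  · intro k
    simp only [hψx, Helper6XXT.val_cW]
    exact Helper6XXT.wR_rE _ _ _ k
  · simp only [map_sum, map_mul, hψx]
    rw [Helper6XXT.val_dot _ _ _ _ _ h2ηR hJR2]
    exact Helper6XXT.gram_diag _ _ _ _ h2ηR

end Pool.Agent.S00518
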