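import Pool.Statements.S01201
import Pool.Agent.Helper78_FG.Main

set_option autoImplicit false
open Pool Pool.MP_38680a_al

namespace Pool.Agent.S01201

/-- With word length on F_k taken with respect to all conjugates of the free generators and their inverses, there is a quasi-isometry from F_2 to F_3 for the induced word metrics. -/
theorem result :
    ∀ (ℓ₂ : FreeGroup (Fin 2) → ℕ) (ℓ₃ : FreeGroup (Fin 3) → ℕ),
      (∀ g : FreeGroup (Fin 2), ℓ₂ g = sInf {n : ℕ | ∃ l : List (FreeGroup (Fin 2)),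
        l.length = n ∧
        (∀ x ∈ l, ∃ (i : Fin 2) (h : FreeGroup (Fin 2)),
          x = h * FreeGroup.of i * h⁻¹ ∨ x = h * (FreeGroup.of i)⁻¹ * h⁻¹) ∧
        l.prod = g}) →
      (∀ g : FreeGroup (Fin 3), ℓ₃ g = sInf {n : ℕ | ∃ l : List (FreeGroup (Fin 3)),
        l.length = n ∧
        (∀ x ∈ l, ∃ (i : Fin 3) (h : FreeGroup (Fin 3)),
          x = h * FreeGroup.of i * h⁻¹ ∨ x = h * (FreeGroup.of i)⁻¹ * h⁻¹) ∧
        l.prod = g}) →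
      ∃ (f : FreeGroup (Fin 2) → FreeGroup (Fin 3)) (K C : ℝ), 0 < K ∧ 0 ≤ C ∧
        (∀ x y : FreeGroup (Fin 2),
          (ℓ₂ (x⁻¹ * y) : ℝ) / K - C ≤ (ℓ₃ ((f x)⁻¹ * f y) : ℝ) ∧
          (ℓ₃ ((f x)⁻¹ * f y) : ℝ) ≤ K * (ℓ₂ (x⁻¹ * y) : ℝ) + C) ∧
        ∀ z : FreeGroup (Fin 3), ∃ x : FreeGroup (Fin 2), (ℓ₃ ((f x)⁻¹ * z) : ℝ) ≤ C := by
  intro ℓ₂ ℓ₃ h₂ h₃
  have e₂ : ∀ g, ℓ₂ g = Helper78_FG.nrm g := h₂
  have e₃ : ∀ g, ℓ₃ g = Helper78_FG.nrm g := h₃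
  obtain ⟨f, K, C, hK, hC, h1, h2⟩ :=
    ((Helper78_FG.main (α := Fin 2)).trans (Helper78_FG.main (α := Fin 3)).symm).unpack
  refine ⟨f, K, C, hK, hC, ?_, ?_⟩
  · intro x y
    rw [e₂, e₃]
    exact h1 x y
  · intro z
    obtain ⟨x, hx⟩ := h2 z
    refine ⟨x, ?_⟩
    rw [e₃]
    exact hx

end Pool.Agent.S01201
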