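import Pool.Statements.S01763
import Pool.Agent.Helper24_TOR.Glue
import Pool.Agent.Helper36_TOR.Glue
import Pool.Agent.Helper59_TOR.Cchf
import Pool.Agent.Helper20_TWS.All
import Pool.Agent.Helper76_TOR.TwZ

set_option autoImplicit false
open Pool Pool.MP_680ca2_al

namespace Pool.Agent.S01763

/-- For each i ≥ 1 and all large n, every class in H_i(Torelli group I_{n,1};ℚ) and in H_i(IA_n;ℚ) lies in a finite-dimensional subspace invariant under the conjugation action of the mapping class group, resp. Aut(F_n). -/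
theorem result :
  ∀ i : ℕ, 1 ≤ i → ∃ N₀ : ℕ, ∀ n : ℕ, N₀ ≤ n →
    (∀ T : Subgroup (MulAut (FreeGroup (Fin 2 × Fin n))),
      (∀ φ : MulAut (FreeGroup (Fin 2 × Fin n)), φ ∈ T ↔
        (φ ((List.finRange n).map (fun j => FreeGroup.of ((0 : Fin 2), j) * FreeGroup.of ((1 : Fin 2), j)
              * (FreeGroup.of ((0 : Fin 2), j))⁻¹ * (FreeGroup.of ((1 : Fin 2), j))⁻¹)).prod
          = ((List.finRange n).map (fun j => FreeGroup.of ((0 : Fin 2), j) * FreeGroup.of ((1 : Fin 2), j)
              * (FreeGroup.of ((0 : Fin 2), j))⁻¹ * (FreeGroup.of ((1 : Fin 2), j))⁻¹)).prod ∧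
         ∀ x : FreeGroup (Fin 2 × Fin n), Abelianization.of (φ x) = Abelianization.of x)) →
      ∀ x : groupHomology (Rep.trivial ℚ T ℚ) i,
        ∃ W : Submodule ℚ (groupHomology (Rep.trivial ℚ T ℚ) i),
          x ∈ W ∧ FiniteDimensional ℚ W ∧
          ∀ g : MulAut (FreeGroup (Fin 2 × Fin n)),
            g ((List.finRange n).map (fun j => FreeGroup.of ((0 : Fin 2), j) * FreeGroup.of ((1 : Fin 2), j)
              * (FreeGroup.of ((0 : Fin 2), j))⁻¹ * (FreeGroup.of ((1 : Fin 2), j))⁻¹)).prod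
            = ((List.finRange n).map (fun j => FreeGroup.of ((0 : Fin 2), j) * FreeGroup.of ((1 : Fin 2), j)
              * (FreeGroup.of ((0 : Fin 2), j))⁻¹ * (FreeGroup.of ((1 : Fin 2), j))⁻¹)).prod →
            ∀ f : T →* T,
              (∀ t : T, ((f t : T) : MulAut (FreeGroup (Fin 2 × Fin n)))
                  = g * (t : MulAut (FreeGroup (Fin 2 × Fin n))) * g⁻¹) →
              ∀ ψ, ∀ y ∈ W,
                (groupHomology.map f ψ i :
                  groupHomology (Rep.trivial ℚ T ℚ) i ⟶ groupHomology (Rep.trivial ℚ T ℚ) i).hom y ∈ W) ∧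
    (∀ N : Subgroup (MulAut (FreeGroup (Fin n))),
      (∀ φ : MulAut (FreeGroup (Fin n)), φ ∈ N ↔
        ∀ x : FreeGroup (Fin n), Abelianization.of (φ x) = Abelianization.of x) →
      ∀ x : groupHomology (Rep.trivial ℚ N ℚ) i,
        ∃ W : Submodule ℚ (groupHomology (Rep.trivial ℚ N ℚ) i),
          x ∈ W ∧ FiniteDimensional ℚ W ∧
          ∀ g : MulAut (FreeGroup (Fin n)),
            ∀ f : N →* N,
              (∀ t : N, ((f t : N) : MulAut (FreeGroup (Fin n)))
                  = g * (t : MulAut (FreeGroup (Fin n))) * g⁻¹) →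
              ∀ ψ, ∀ y ∈ W,
                (groupHomology.map f ψ i :
                  groupHomology (Rep.trivial ℚ N ℚ) i ⟶ groupHomology (Rep.trivial ℚ N ℚ) i).hom y ∈ W) := by
  exact Pool.Agent.TOR.H24.frozen_of Pool.Agent.TWS.H20.tr_final Pool.Agent.TOR.H59.cchSA
    Pool.Agent.TOR.SA.trv_final Pool.Agent.TOW.nu_final

end Pool.Agent.S01763

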