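import Pool.Statements.S01804
import Pool.Agent.Helper7_Serial.Final
import Pool.Agent.Helper96_TropD.Main

set_option autoImplicit false
open Pool Pool.MP_6b1727_al

namespace Pool.Agent.S01804

/-- The negation of the preceding statement: Over any ring, if a module is an internal direct sum of uniserial submodules, then every nonzero indecomposable direct summand of it is uniserial: any two of its submodules are comparable by inclusion. -/
theorem result :
    ¬ (∀ (R : Type) [Ring R] (M : Type) [AddCommGroup M] [Module R M],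
      (∃ (ι : Type) (U : ι → Submodule R M),
          iSupIndep U ∧ (⨆ i, U i) = ⊤ ∧
          ∀ i, ∀ A B : Submodule R M, A ≤ U i → B ≤ U i → A ≤ B ∨ B ≤ A) →
      ∀ N : Submodule R M,
        (∃ N' : Submodule R M, IsCompl N N') →
        N ≠ ⊥ →
        (∀ A B : Submodule R M, A ⊔ B = N → A ⊓ B = ⊥ → A = ⊥ ∨ B = ⊥) →
        ∀ A B : Submodule R M, A ≤ N → B ≤ N → A ≤ B ∨ B ≤ A) := by
  obtain ⟨D, i, x, t, act, hx, ht, hadd⟩ := Pool.Agent.Helper96_TropD.exists_tropD
  exact Helper7_Serial.not_main ⟨x, t, act, hx, ht, hadd⟩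

end Pool.Agent.S01804
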