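import Pool.Statements.S02240
import Pool.Agent.Helper8_Form.SL27

set_option autoImplicit false
open Pool Pool.MP_8ef39f_al
open Pool.Agent.Helper8Form

namespace Pool.Agent.S02240

/-- The negation of the preceding statement: For every finite group G, there are only finitely many formations of finite groups closed under subnormal (equivalently, normal) subgroups that are contained in the formation generated by G. -/
theorem result :
    ¬ (∀ (G : Type) [Group G] [Finite G],
      Set.Finite
        {F : ∀ (H : Type) [Group H], Prop |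
          (∀ (H : Type) [Group H], F H → Finite H) ∧
          (∀ (H K : Type) [Group H] [Group K], (H ≃* K) → F H → F K) ∧
          (∀ (H : Type) [Group H] (N : Subgroup H) [N.Normal], F H → F (H ⧸ N)) ∧
          (∀ (H : Type) [Group H] (N₁ N₂ : Subgroup H) [N₁.Normal] [N₂.Normal],
              F (H ⧸ N₁) → F (H ⧸ N₂) → F (H ⧸ (N₁ ⊓ N₂))) ∧
          (∀ (H : Type) [Group H] (N : Subgroup H), N.Normal → F H → F N) ∧
          (∀ (H : Type) [Group H], F H →
              ∀ F' : ∀ (K : Type) [Group K], Prop,
                (∀ (K : Type) [Group K], F' K → Finite K) →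
                (∀ (K L : Type) [Group K] [Group L], (K ≃* L) → F' K → F' L) →
                (∀ (K : Type) [Group K] (N : Subgroup K) [N.Normal], F' K → F' (K ⧸ N)) →
                (∀ (K : Type) [Group K] (N₁ N₂ : Subgroup K) [N₁.Normal] [N₂.Normal],
                    F' (K ⧸ N₁) → F' (K ⧸ N₂) → F' (K ⧸ (N₁ ⊓ N₂))) →
                F' G → F' H)}) := by
  intro hfin
  have h := hfin (AA × sys7.χ.ker)
  refine Set.infinite_of_injective_forall_mem sys7.Fam_injective ?_ h
  intro n
  have hF := sys7.Fam_isForm n
  refine ⟨hF.fin, fun H K _ _ e h => hF.iso H K e h, fun H _ N _ h => hF.quot H N h,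
    fun H _ N₁ N₂ _ _ a b => hF.sub H N₁ N₂ a b,
    fun H _ N hN h => sys7.Fam_normal n H N hN h, ?_⟩
  intro H _ hH F' h₁ h₂ h₃ h₄ hG
  exact hH.2 F' ⟨h₁, h₂, h₃, h₄⟩ hG

end Pool.Agent.S02240
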