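import Pool.Statements.S02905
import Pool.Agent.Helper69_SER.Final

set_option autoImplicit false
open Pool Pool.MP_bd34ba_al

namespace Pool.Agent.S02905

/-- For every ring R and every module M that is an internal direct sum of uniserial submodules, every nonzero direct summand N of M has a nonzero indecomposable direct summand K. -/
theorem result :
  ∀ (R : Type) [Ring R] (M : Type) [AddCommGroup M] [Module R M],
    (∃ (ι : Type) (U : ι → Submodule R M), iSupIndep U ∧ iSup U = ⊤ ∧
       ∀ i, ∀ A B : Submodule R M, A ≤ U i → B ≤ U i → A ≤ B ∨ B ≤ A) →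
    ∀ N : Submodule R M, N ≠ ⊥ → (∃ P : Submodule R M, IsCompl N P) →
      ∃ K L : Submodule R M, K ≠ ⊥ ∧ K ⊔ L = N ∧ K ⊓ L = ⊥ ∧
        ∀ A B : Submodule R M, A ⊔ B = K → A ⊓ B = ⊥ → A = ⊥ ∨ B = ⊥ := by
  exact SER.H21.conv SER.main_thm

end Pool.Agent.S02905
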