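import Pool.Statements.S03099
import Pool.Agent.Helper57_C3.Fin
import Pool.Agent.Helper52_TP.C245

set_option autoImplicit false
open Pool Pool.MP_ce3ba7_al

namespace Pool.Agent.S03099

/-- For every field F and set of identities S: if every associative alternative F-algebra satisfying S is nilpotent, then there is n with A^(n)=0 for every alternative F-algebra A satisfying S. -/
theorem result :
    ∀ (F : Type) [Field F] (S : Set (MonoidAlgebra F (FreeMagma ℕ))),
      (∀ (A : Type) [NonUnitalNonAssocRing A] [Module F A] [IsScalarTower F A A]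
          [SMulCommClass F A A],
          (∀ x y : A, (x * x) * y = x * (x * y)) →
          (∀ x y : A, (y * x) * x = y * (x * x)) →
          (∀ f ∈ S, ∀ φ : ℕ → A, MonoidAlgebra.liftMagma F (FreeMagma.lift φ) f = 0) →
          (∀ x y z : A, (x * y) * z = x * (y * z)) →
          ∃ n : ℕ, ∃ V : ℕ → Submodule F A, V 0 = ⊤ ∧
            (∀ i j : ℕ, ∀ x ∈ V i, ∀ y ∈ V j, x * y ∈ V (i + j + 1)) ∧ V n = ⊥) →
      ∃ n : ℕ, ∀ (A : Type) [NonUnitalNonAssocRing A] [Module F A] [IsScalarTower F A A]
          [SMulCommClass F A A],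
          (∀ x y : A, (x * x) * y = x * (x * y)) →
          (∀ x y : A, (y * x) * x = y * (x * x)) →
          (∀ f ∈ S, ∀ φ : ℕ → A, MonoidAlgebra.liftMagma F (FreeMagma.lift φ) f = 0) →
          ∃ V : ℕ → Submodule F A, V 0 = ⊤ ∧
            (∀ k : ℕ, ∀ x ∈ V k, ∀ y ∈ V k, x * y ∈ V (k + 1)) ∧ V n = ⊥ := by
  intro F _ S h
  exact Pool.Agent.TP.top Pool.Agent.TP.Chk2.char2 Pool.Agent.C3.char3 F S h

end Pool.Agent.S03099
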