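import Pool.Statements.S03116
import Pool.Agent.Helper9_Protasov.Main

set_option autoImplicit false
open Pointwise
open Pool Pool.MP_cfdc37_al

namespace Pool.Agent.S03116

/-- The negation of the preceding statement: For every n ≥ 1: any partition of any group into n cells has a cell A with G = F·A·A⁻¹ for some finite F of size at most n, and some group has an n-cell partition where every such F needs at least n elements. -/
theorem result :
    ¬ (∀ n : ℕ, 1 ≤ n →
    (∀ (G : Type) [Group G] (A : Fin n → Set G),
      (⋃ i, A i) = Set.univ → Pairwise (fun i j => Disjoint (A i) (A j)) →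
      ∃ i : Fin n, ∃ F : Finset G, F.card ≤ n ∧ (F : Set G) * A i * (A i)⁻¹ = Set.univ) ∧
    (∃ (G : Type) (_ : Group G), ∃ A : Fin n → Set G,
      (⋃ i, A i) = Set.univ ∧ Pairwise (fun i j => Disjoint (A i) (A j)) ∧
      ∀ i : Fin n, ∀ F : Finset G, (F : Set G) * A i * (A i)⁻¹ = Set.univ → n ≤ F.card)) := by
  intro h
  obtain ⟨A, hA1, hA2, hA3⟩ := Pool.Agent.Helper9_Protasov.main (n := 4) le_rfl
  obtain ⟨i, F, hF, hcov⟩ := (h 4 (by norm_num)).1 Pool.Agent.Helper9_Protasov.G A hA1 hA2
  exact hA3 i F hF hcov

end Pool.Agent.S03116
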