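import Pool.Statements.S03506
import Pool.Agent.Helper74_ExtAm.Final

set_option autoImplicit false
open Classical
open Pool Pool.MP_f09f42_al

namespace Pool.Agent.S03506

/-- The negation of the preceding statement: For every transitive action of a finitely generated group whose Schreier graph has polynomial growth, there is a mean on the finite subsets of X invariant under symmetric-difference translations and under the group action, i.e. the action is extensively amenable. -/
theorem result :
    ¬ (∀ (G X : Type) [Group G] [MulAction G X],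
      MulAction.IsPretransitive G X →
      (∃ S : Finset G, Subgroup.closure (S : Set G) = ⊤ ∧
        ∃ x₀ : X, ∃ C d : ℕ, ∀ n : ℕ,
          Set.ncard {y : X | ∃ l : List G, l.length ≤ n ∧
            (∀ s ∈ l, s ∈ S ∨ s⁻¹ ∈ S) ∧ l.prod • x₀ = y} ≤ C * (n + 1) ^ d) →
      ∃ m : Set (Finset X) → ℝ,
        (∀ A, 0 ≤ m A) ∧ m Set.univ = 1 ∧
        (∀ A B, Disjoint A B → m (A ∪ B) = m A + m B) ∧
        (∀ F : Finset X, ∀ A, m ((fun E : Finset X => symmDiff E F) ⁻¹' A) = m A) ∧
        (∀ g : G, ∀ A, m ((fun E : Finset X => E.image (fun x => g • x)) ⁻¹' A) = m A)) := by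
  intro h
  obtain ⟨m, m_nonneg, m_univ, m_add, m_tog, m_inv⟩ :=
    h (FreeGroup Pool.Agent.Helper74ExtAm.Gen) Pool.Agent.Helper74ExtAm.XX
      Pool.Agent.Helper74ExtAm.pretransitive
      ⟨Pool.Agent.Helper74ExtAm.SS, Pool.Agent.Helper74ExtAm.SS_closure,
        Pool.Agent.Helper74ExtAm.x00, 262144, 7, Pool.Agent.Helper74ExtAm.growth⟩
  refine Pool.Agent.Helper74ExtAm.no_mean m m_nonneg m_univ m_add
    Pool.Agent.Helper74ExtAm.x00 rfl ?_ ?_
  · intro i A
    refine (congrArg m ?_).trans (m_inv (FreeGroup.of i) A)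
    refine congrArg (fun f : Finset Pool.Agent.Helper74ExtAm.XX →
      Finset Pool.Agent.Helper74ExtAm.XX => f ⁻¹' A) ?_
    funext E
    ext x
    rw [Pool.Agent.Helper74ExtAm.mem_fc]
    simp only [Finset.mem_image]
    have h3 : Pool.Agent.Helper74ExtAm.act (FreeGroup.of i)
        = Pool.Agent.Helper74ExtAm.gen i := by
      simp [Pool.Agent.Helper74ExtAm.act]
    constructor
    · intro hx
      refine ⟨_, hx, ?_⟩
      rw [Pool.Agent.Helper74ExtAm.smul_eq, h3, Equiv.apply_symm_apply]
    · rintro ⟨y, hy, rfl⟩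
      rw [Pool.Agent.Helper74ExtAm.smul_eq, h3, Equiv.symm_apply_apply]
      exact hy
  · intro A
    refine (congrArg m ?_).trans (m_tog {Pool.Agent.Helper74ExtAm.x00} A)
    refine congrArg (fun f : Finset Pool.Agent.Helper74ExtAm.XX →
      Finset Pool.Agent.Helper74ExtAm.XX => f ⁻¹' A) ?_
    funext E
    ext x
    rw [Pool.Agent.Helper74ExtAm.tog_apply]
    simp only [Finset.mem_symmDiff]

end Pool.Agent.S03506
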