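import Pool.Statements.S03881
import Pool.Agent.Helper68_FAlg.Final

set_option autoImplicit false
open TopologicalSpace
open Pool Pool.MP_13a5bb_an

namespace Pool.Agent.S03881

/-- For k>1, take any subalgebra of complex power series in k variables containing all polynomials, with a complete metrizable algebra topology in which every coefficient map is continuous. Then every complete metrizable algebra topology on it equals that one. -/
theorem result :
    ∀ (k : ℕ), 1 < k →
    ∀ (S : Subalgebra ℂ (MvPowerSeries (Fin k) ℂ)),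
      (∀ p : MvPolynomial (Fin k) ℂ, (p : MvPowerSeries (Fin k) ℂ) ∈ S) →
      ∀ (t₁ t₂ : TopologicalSpace S),
        @IsTopologicalRing S t₁ _ →
        @ContinuousSMul ℂ S _ _ t₁ →
        @TopologicalSpace.IsCompletelyMetrizableSpace S t₁ →
        (∀ n : Fin k →₀ ℕ,
          @Continuous S ℂ t₁ _ (fun a => MvPowerSeries.coeff n (a : MvPowerSeries (Fin k) ℂ))) →
        @IsTopologicalRing S t₂ _ →
        @ContinuousSMul ℂ S _ _ t₂ →
        @TopologicalSpace.IsCompletelyMetrizableSpace S t₂ →
        t₁ = t₂ := by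
  intro k _ S hS t₁ t₂ hr1 hs1 hm1 hc hr2 hs2 hm2
  obtain ⟨h1, h2⟩ := Pool.Agent.Helper68_FAlg.id_continuous S hS t₁ t₂ hr1 hs1 hm1 hc hr2 hs2 hm2
  exact le_antisymm h2 h1

end Pool.Agent.S03881
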