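import Pool.Statements.S04205
import Pool.Agent.Helper92_LUR.Assemble

set_option autoImplicit false
open Filter Topology
open Pool Pool.MP_2d80d3_an

namespace Pool.Agent.S04205

/-- For every compact Hausdorff space with a network that is a countable union of isolated families (a descriptive compactum), the space C(K) of continuous real functions has a norm equivalent to the sup norm that is locally uniformly rotund. -/
theorem result :
    ∀ (K : Type) [TopologicalSpace K] [CompactSpace K] [T2Space K],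
      (∃ F : ℕ → Set (Set K),
        (∀ n : ℕ, ∀ N ∈ F n, ∀ x ∈ N, ∃ U : Set K, IsOpen U ∧ x ∈ U ∧
            ∀ M ∈ F n, M ≠ N → Disjoint U M) ∧
        (∀ x : K, ∀ U : Set K, IsOpen U → x ∈ U →
            ∃ n : ℕ, ∃ N ∈ F n, x ∈ N ∧ N ⊆ U)) →
      ∃ p : Seminorm ℝ C(K, ℝ),
        (∃ a b : ℝ, 0 < a ∧ 0 < b ∧ ∀ f : C(K, ℝ), a * ‖f‖ ≤ p f ∧ p f ≤ b * ‖f‖) ∧
        ∀ (f : C(K, ℝ)) (u : ℕ → C(K, ℝ)),
          Tendsto (fun n => p (u n)) atTop (𝓝 (p f)) →
          Tendsto (fun n => p (u n + f)) atTop (𝓝 (2 * p f)) →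
          Tendsto (fun n => p (u n - f)) atTop (𝓝 0) := by
  intro K _ _ _ h
  obtain ⟨F, h1, h2⟩ := h
  exact LUR.fin K F ⟨h1, h2⟩

end Pool.Agent.S04205
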