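import Pool.Statements.S04226

set_option autoImplicit false
open Pool Pool.MP_2eee10_an

/-!
Counterexample of order three, with all parameters positive integers except `α = A = 0`:

  `x n = (605 x(n-1) + 11 x(n-2) + 671 x(n-3)) / (351 x(n-1) + 117 x(n-2) + 13 x(n-3))`.

* every positive solution is bounded: from `n = 3` on the terms are at most `671/13 < 52`;
* the unique equilibrium is `99/37`; since
  `x n - 99/37 = (Σ_j (β_j - (99/37) B_j) (x(n-j) - 99/37)) / (Σ_j B_j x(n-j))` and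
  `Σ_j |β_j - (99/37) B_j| < Σ_j B_j (99/37)`, it is locally asymptotically stable
  (sup-norm contraction near the equilibrium);
* `1, 11, 2, 1, 11, 2, ...` is a positive periodic solution, which does not converge.
-/

namespace Pool.Agent.S04226

/-- One step of the recurrence, `a = x(n-3)`, `b = x(n-2)`, `c = x(n-1)`. -/
noncomputable def step (a b c : ℝ) : ℝ :=
  (605 * c + 11 * b + 671 * a) / (351 * c + 117 * b + 13 * a)

/-- The sliding window `(x n, x (n+1), x (n+2))` of a solution. -/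
noncomputable def win (y : ℕ → ℝ) : ℕ → ℝ × ℝ × ℝ
  | 0 => (y 0, y 1, y 2)
  | n + 1 => ((win y n).2.1, (win y n).2.2, step (win y n).1 (win y n).2.1 (win y n).2.2)

/-- The coefficient vector of the numerator. -/
noncomputable def bet : Fin 3 → ℝ := ![605, 11, 671]

/-- The coefficient vector of the denominator. -/
noncomputable def bB : Fin 3 → ℝ := ![351, 117, 13]

/-- The set of positive solutions. -/
def Sol (x : ℕ → ℝ) : Prop :=
  (∀ n, 0 < x n) ∧
    ∀ n : ℕ, 3 ≤ n →
      (0 < (0 : ℝ) + ∑ j : Fin 3, bB j * x (n - 1 - (j : ℕ)) ∧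
        x n = ((0 : ℝ) + ∑ j : Fin 3, bet j * x (n - 1 - (j : ℕ))) /
              ((0 : ℝ) + ∑ j : Fin 3, bB j * x (n - 1 - (j : ℕ))))

lemma step_pos {a b c : ℝ} (ha : 0 < a) (hb : 0 < b) (hc : 0 < c) : 0 < step a b c := by
  unfold step; positivity

lemma sol_step {x : ℕ → ℝ} (hx : Sol x) (n : ℕ) :
    x (n + 3) = step (x n) (x (n + 1)) (x (n + 2)) := by
  have h := (hx.2 (n + 3) (by omega)).2
  rw [h]
  have e1 : n + 3 - 1 - 0 = n + 2 := by omega
  have e2 : n + 3 - 1 - 1 = n + 1 := by omega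
  have e3 : n + 3 - 1 - 2 = n := by omega
  simp only [bB, bet, Fin.sum_univ_three, Matrix.cons_val_zero, Matrix.cons_val_one,
    Matrix.cons_val, Fin.val_zero, Fin.val_one, Fin.val_two, e1, e2, e3, zero_add, step]

lemma sol_of_step {x : ℕ → ℝ} (h0 : ∀ n, 0 < x n)
    (h : ∀ n, x (n + 3) = step (x n) (x (n + 1)) (x (n + 2))) : Sol x := by
  refine ⟨h0, ?_⟩
  intro n hn
  obtain ⟨m, rfl⟩ : ∃ m, n = m + 3 := ⟨n - 3, by omega⟩
  have e1 : m + 3 - 1 - 0 = m + 2 := by omega
  have e2 : m + 3 - 1 - 1 = m + 1 := by omega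
  have e3 : m + 3 - 1 - 2 = m := by omega
  have p0 := h0 m
  have p1 := h0 (m + 1)
  have p2 := h0 (m + 2)
  have hh := h m
  simp only [bB, bet, Fin.sum_univ_three, Matrix.cons_val_zero, Matrix.cons_val_one,
    Matrix.cons_val, Fin.val_zero, Fin.val_one, Fin.val_two, e1, e2, e3, zero_add]
  refine ⟨by positivity, ?_⟩
  rw [hh, step]

lemma win_pos {y : ℕ → ℝ} (h0 : 0 < y 0) (h1 : 0 < y 1) (h2 : 0 < y 2) (n : ℕ) :
    0 < (win y n).1 ∧ 0 < (win y n).2.1 ∧ 0 < (win y n).2.2 := by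
  induction n with
  | zero => exact ⟨h0, h1, h2⟩
  | succ n ih => exact ⟨ih.2.1, ih.2.2, step_pos ih.1 ih.2.1 ih.2.2⟩

lemma exists_sol (y : ℕ → ℝ) (hy : ∀ i : ℕ, i < 3 → 0 < y i) :
    ∃ x : ℕ → ℝ, Sol x ∧ ∀ i : ℕ, i < 3 → x i = y i := by
  have h0 := hy 0 (by norm_num)
  have h1 := hy 1 (by norm_num)
  have h2 := hy 2 (by norm_num)
  refine ⟨fun n => (win y n).1, ?_, ?_⟩
  · apply sol_of_step
    · intro n
      exact (win_pos h0 h1 h2 n).1
    · intro n
      rfl
  · intro i hi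
    interval_cases i <;> rfl

lemma step_le {a b c : ℝ} (ha : 0 < a) (hb : 0 < b) (hc : 0 < c) : step a b c ≤ 52 := by
  unfold step
  rw [div_le_iff₀ (by positivity)]
  nlinarith

lemma sol_bdd {x : ℕ → ℝ} (hx : Sol x) : ∃ M : ℝ, ∀ n, x n ≤ M := by
  refine ⟨52 + x 0 + x 1 + x 2, ?_⟩
  intro n
  have p0 := hx.1 0
  have p1 := hx.1 1
  have p2 := hx.1 2
  match n with
  | 0 => linarith
  | 1 => linarith
  | 2 => linarith
  | m + 3 =>
    rw [sol_step hx m]
    have := step_le (hx.1 m) (hx.1 (m + 1)) (hx.1 (m + 2))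
    linarith

/-- Contraction near the equilibrium `99/37`. -/
lemma step_contract {a b c r : ℝ} (hr : r ≤ 1 / 100)
    (ha : |a - 99 / 37| ≤ r) (hb : |b - 99 / 37| ≤ r) (hc : |c - 99 / 37| ≤ r) :
    |step a b c - 99 / 37| ≤ (999 / 1000) * r := by
  have hr0 : 0 ≤ r := le_trans (abs_nonneg _) ha
  rw [abs_le] at ha hb hc
  obtain ⟨a1, a2⟩ := ha
  obtain ⟨b1, b2⟩ := hb
  obtain ⟨c1, c2⟩ := hc
  have hD : (481 : ℝ) * (99 / 37 - r) ≤ 351 * c + 117 * b + 13 * a := by linarith
  have hDpos : (0 : ℝ) < 351 * c + 117 * b + 13 * a := by linarith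
  have key : step a b c - 99 / 37 =
      (605 * c + 11 * b + 671 * a - 99 / 37 * (351 * c + 117 * b + 13 * a)) /
        (351 * c + 117 * b + 13 * a) := by
    unfold step
    rw [sub_div, mul_div_assoc, div_self hDpos.ne', mul_one]
  rw [key, abs_div, abs_of_pos hDpos, div_le_iff₀ hDpos, abs_le]
  constructor
  · nlinarith
  · nlinarith

lemma sol_near {x : ℕ → ℝ} (hx : Sol x) {r : ℝ} (hr : r ≤ 1 / 100)
    (h : ∀ i : ℕ, i < 3 → |x i - 99 / 37| ≤ r) (n : ℕ) : |x n - 99 / 37| ≤ r := by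
  have hr0 : 0 ≤ r := le_trans (abs_nonneg _) (h 0 (by norm_num))
  induction n using Nat.strong_induction_on with
  | _ n ih =>
    match n, ih with
    | 0, _ => exact h 0 (by norm_num)
    | 1, _ => exact h 1 (by norm_num)
    | 2, _ => exact h 2 (by norm_num)
    | m + 3, ih =>
      rw [sol_step hx m]
      have := step_contract hr (ih m (by omega)) (ih (m + 1) (by omega)) (ih (m + 2) (by omega))
      linarith

lemma sol_decay {x : ℕ → ℝ} (hx : Sol x) {r : ℝ} (hr : r ≤ 1 / 100)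
    (h : ∀ i : ℕ, i < 3 → |x i - 99 / 37| ≤ r) (m : ℕ) :
    ∀ n, 3 * m ≤ n → |x n - 99 / 37| ≤ (999 / 1000) ^ m * r := by
  have hr0 : 0 ≤ r := le_trans (abs_nonneg _) (h 0 (by norm_num))
  induction m with
  | zero =>
    intro n _
    simpa using sol_near hx hr h n
  | succ m ih =>
    intro n hn
    obtain ⟨k, rfl⟩ : ∃ k, n = k + 3 := ⟨n - 3, by omega⟩
    rw [sol_step hx k]
    have hle : ((999 : ℝ) / 1000) ^ m * r ≤ 1 / 100 := by
      have : ((999 : ℝ) / 1000) ^ m ≤ 1 := pow_le_one₀ (by norm_num) (by norm_num)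
      nlinarith
    have := step_contract hle (ih k (by omega)) (ih (k + 1) (by omega)) (ih (k + 2) (by omega))
    rw [pow_succ]
    linarith

/-- The periodic solution `1, 11, 2, 1, 11, 2, ...`. -/
noncomputable def per (n : ℕ) : ℝ := if n % 3 = 0 then 1 else if n % 3 = 1 then 11 else 2

lemma per_sol : Sol per := by
  apply sol_of_step
  · intro n
    unfold per
    split_ifs <;> norm_num
  · intro n
    unfold per step
    have h3 : n % 3 = 0 ∨ n % 3 = 1 ∨ n % 3 = 2 := by omega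
    rcases h3 with h | h | h
    · have a1 : (n + 1) % 3 = 1 := by omega
      have a2 : (n + 2) % 3 = 2 := by omega
      have a3 : (n + 3) % 3 = 0 := by omega
      simp only [h, a1, a2, a3]
      norm_num
    · have a1 : (n + 1) % 3 = 2 := by omega
      have a2 : (n + 2) % 3 = 0 := by omega
      have a3 : (n + 3) % 3 = 1 := by omega
      simp only [h, a1, a2, a3]
      norm_num
    · have a1 : (n + 1) % 3 = 0 := by omega
      have a2 : (n + 2) % 3 = 1 := by omega
      have a3 : (n + 3) % 3 = 2 := by omega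
      simp only [h, a1, a2, a3]
      norm_num

lemma per_not_tendsto : ¬ Filter.Tendsto per Filter.atTop (nhds (99 / 37)) := by
  intro h
  rw [Metric.tendsto_atTop] at h
  obtain ⟨N, hN⟩ := h 1 one_pos
  have h1 := hN (3 * N) (by omega)
  have e : per (3 * N) = 1 := by
    unfold per
    have : (3 * N) % 3 = 0 := by omega
    simp [this]
  rw [e, Real.dist_eq] at h1
  rw [abs_lt] at h1
  linarith [h1.1, h1.2]

/-- The negation of the preceding statement: For any k ≥ 1 and nonnegative parameters where all positive initial values give positive, bounded solutions of the rational recurrence, any locally asymptotically stable equilibrium attracts every positive solution. -/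
theorem result :
    ¬ (∀ (k : ℕ), 1 ≤ k → ∀ (α A : ℝ) (β B : Fin k → ℝ), 0 ≤ α → 0 ≤ A →
    (∀ j, 0 ≤ β j) → (∀ j, 0 ≤ B j) →
    ∀ S : (ℕ → ℝ) → Prop,
      (∀ x : ℕ → ℝ, S x ↔ ((∀ n, 0 < x n) ∧
        ∀ n : ℕ, k ≤ n →
          (0 < A + ∑ j : Fin k, B j * x (n - 1 - (j : ℕ)) ∧
           x n = (α + ∑ j : Fin k, β j * x (n - 1 - (j : ℕ))) /
                 (A + ∑ j : Fin k, B j * x (n - 1 - (j : ℕ)))))) →
      (∀ y : ℕ → ℝ, (∀ i : ℕ, i < k → 0 < y i) →
        ∃ x : ℕ → ℝ, S x ∧ ∀ i : ℕ, i < k → x i = y i) →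
      (∀ x : ℕ → ℝ, S x → ∃ M : ℝ, ∀ n, x n ≤ M) →
      ∀ xbar : ℝ, 0 ≤ xbar →
        xbar * (A + ∑ j : Fin k, B j * xbar) = α + ∑ j : Fin k, β j * xbar →
        (∀ ε : ℝ, 0 < ε → ∃ δ : ℝ, 0 < δ ∧ ∀ x : ℕ → ℝ, S x →
          (∀ i : ℕ, i < k → |x i - xbar| < δ) → ∀ n : ℕ, k ≤ n → |x n - xbar| < ε) →
        (∃ γ : ℝ, 0 < γ ∧ ∀ x : ℕ → ℝ, S x →
          (∀ i : ℕ, i < k → |x i - xbar| < γ) →
          Filter.Tendsto x Filter.atTop (nhds xbar)) →
        ∀ x : ℕ → ℝ, S x → Filter.Tendsto x Filter.atTop (nhds xbar)) := by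
  intro H
  refine per_not_tendsto (H 3 (by norm_num) 0 0 bet bB le_rfl le_rfl ?_ ?_ Sol
    (fun x => Iff.rfl) exists_sol (fun x hx => sol_bdd hx) (99 / 37) (by norm_num) ?_ ?_ ?_ per
    per_sol)
  · intro j
    fin_cases j <;> simp [bet]
  · intro j
    fin_cases j <;> simp [bB]
  · simp only [bB, bet, Fin.sum_univ_three, Matrix.cons_val_zero, Matrix.cons_val_one,
      Matrix.cons_val]
    norm_num
  · intro ε hε
    refine ⟨min ε (1 / 100) / 2, by positivity, ?_⟩
    intro x hx h n _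
    have h1 : min ε (1 / 100) / 2 ≤ 1 / 100 := by
      have : min ε (1 / 100) ≤ 1 / 100 := min_le_right _ _
      have : 0 < min ε (1 / 100 : ℝ) := by positivity
      linarith
    have h2 := sol_near hx h1 (fun i hi => (h i hi).le) n
    have h3 : min ε (1 / 100) ≤ ε := min_le_left _ _
    linarith
  · refine ⟨1 / 100, by norm_num, ?_⟩
    intro x hx h
    have hd := sol_decay hx (le_refl (1 / 100 : ℝ)) (fun i hi => (h i hi).le)
    rw [Metric.tendsto_atTop]
    intro ε hε
    obtain ⟨m, hm⟩ := exists_pow_lt_of_lt_one hε (show (999 / 1000 : ℝ) < 1 by norm_num)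
    refine ⟨3 * m, ?_⟩
    intro n hn
    have h1 := hd m n hn
    rw [Real.dist_eq]
    have h2 : (0 : ℝ) < (999 / 1000) ^ m := by positivity
    nlinarith

end Pool.Agent.S04226
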