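import Pool.Statements.S04255
import Pool.Agent.Helper95_CM.Final

set_option autoImplicit false
open Pool Pool.MP_31342c_an

namespace Pool.Agent.S04255

/-- For every n and every complex polynomial f in n variables, if the integral of f^m over the unit cube [0,1]^n is zero for every m ≥ 1, then f is the zero polynomial. -/
theorem result :
    ∀ n : ℕ, ∀ f : MvPolynomial (Fin n) ℂ,
      (∀ m : ℕ, 1 ≤ m →
        ∫ x in Set.Icc (0 : Fin n → ℝ) 1,
          (MvPolynomial.eval (fun i => ((x i : ℝ) : ℂ)) f) ^ m = 0) →
      f = 0 := by
  exact Pool.Agent.Helper95_CM.final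

end Pool.Agent.S04255
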