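-- The negation: no coarse embedding of the bounded real sequences into any c_0(Γ).
import Pool.Statements.S04314
import Pool.Agent.Helper63_Linf.Color

set_option autoImplicit false
open scoped BoundedContinuousFunction
open Pool Pool.MP_355d06_an

namespace Pool.Agent.S04314

open Pool.Agent.Helper63_Linf

/-- The integer valued bounded sequence coded by a finite list of functions:
`(k, l) ↦ #{i | fᵢ k ≤ l}`. -/
noncomputable def pt (t : List Fn) : ℕ →ᵇ ℝ :=
  BoundedContinuousFunction.ofNormedAddCommGroupDiscrete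
    (fun m : ℕ => ((t.countP fun f => decide (f m.unpair.1 ≤ m.unpair.2) : ℕ) : ℝ)) t.length
    (fun m => by
      rw [Real.norm_of_nonneg (Nat.cast_nonneg _)]
      exact_mod_cast List.countP_le_length)

theorem pt_apply (t : List Fn) (m : ℕ) :
    pt t m = ((t.countP fun f => decide (f m.unpair.1 ≤ m.unpair.2) : ℕ) : ℝ) := rfl

theorem countP_le_of_bel (k l : ℕ) : ∀ (a : Fn) (s t : List Fn), Bel a s t →
    (t.countP fun f => decide (f k ≤ l)) ≤ ((a :: s).countP fun f => decide (f k ≤ l)) := by
  intro a s t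
  induction s generalizing a t with
  | nil =>
    intro h
    cases t with
    | nil => simp
    | cons b t => exact h.elim
  | cons c s ih =>
    intro h
    cases t with
    | nil => exact h.elim
    | cons b t =>
      obtain ⟨h1, h2⟩ := h
      have h3 := ih c t h2
      rw [List.countP_cons, List.countP_cons (l := c :: s)]
      have h4 : (if decide (b k ≤ l) = true then 1 else 0) ≤
          (if decide (a k ≤ l) = true then 1 else 0) := by
        by_cases hb : b k ≤ l
        · have := (h1 k).trans hb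
          simp [hb, this]
        · simp [hb]
      exact Nat.add_le_add h3 h4

theorem dist_pt_le {a : Fn} {s t : List Fn} (h1 : Bel a s t) (h2 : Bel a t s) :
    dist (pt s) (pt t) ≤ 1 := by
  rw [BoundedContinuousFunction.dist_le zero_le_one]
  intro m
  rw [pt_apply, pt_apply, Real.dist_eq, abs_le]
  have h3 := countP_le_of_bel m.unpair.1 m.unpair.2 a s t h1
  have h4 := countP_le_of_bel m.unpair.1 m.unpair.2 a t s h2
  rw [List.countP_cons] at h3 h4
  have h5 : (if decide (a m.unpair.1 ≤ m.unpair.2) = true then 1 else 0) ≤ 1 := by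
    split_ifs <;> omega
  have h6 : ((t.countP fun f => decide (f m.unpair.1 ≤ m.unpair.2) : ℕ) : ℝ) ≤
      ((s.countP fun f => decide (f m.unpair.1 ≤ m.unpair.2) : ℕ) : ℝ) + 1 := by
    exact_mod_cast h3.trans (Nat.add_le_add_left h5 _)
  have h7 : ((s.countP fun f => decide (f m.unpair.1 ≤ m.unpair.2) : ℕ) : ℝ) ≤
      ((t.countP fun f => decide (f m.unpair.1 ≤ m.unpair.2) : ℕ) : ℝ) + 1 := by
    exact_mod_cast h4.trans (Nat.add_le_add_left h5 _)
  constructor <;> linarith

/-- All entries of a chain starting above `a` are above `a`. -/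
theorem le_of_ch {a : Fn} {l : List Fn} (h : Ch a l) : ∀ f ∈ l, ∀ k, a k ≤ f k := by
  induction l generalizing a with
  | nil => simp
  | cons b l ih =>
    intro f hf k
    rcases List.mem_cons.mp hf with rfl | hf
    · exact h.1 k
    · exact (h.1 k).trans (ih h.2 f hf k)

/-- A positive tree contains two branches coding points at distance at least the height. -/
theorem exists_far {C : Set Fn} {n : ℕ} {P : Set (List Fn)} {a : Fn}
    (hP : PosT C (n + 1) P) (hch : ∀ l ∈ P, Ch a l) :
    ∃ s ∈ P, ∃ t ∈ P, (n : ℝ) + 1 ≤ dist (pt s) (pt t) := by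
  obtain ⟨s, hs, hlen⟩ := hP.exists_mem
  let φ : Fn := fun k => (s.map fun f => f k).foldr max 0
  have hφ : ∀ f ∈ s, ∀ k, f k ≤ φ k := by
    intro f hf k
    have : ∀ l : List ℕ, ∀ x ∈ l, x ≤ l.foldr max 0 := by
      intro l
      induction l with
      | nil => simp
      | cons y l ih =>
        intro x hx
        rcases List.mem_cons.mp hx with rfl | hx
        · exact le_max_left _ _
        · exact (ih x hx).trans (le_max_right _ _)
    exact this _ _ (List.mem_map.mpr ⟨f, hf, rfl⟩)
  have hbig : Big C {f | PosT C n (der P f)} := hP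
  have : ∃ f, PosT C n (der P f) ∧ ¬ EvLe f φ := by
    by_contra hcon
    push Not at hcon
    exact hbig ⟨φ, fun f _ hf => hcon f hf⟩
  obtain ⟨g, hg, hgφ⟩ := this
  obtain ⟨l, hl, -⟩ := hg.exists_mem
  unfold EvLe at hgφ
  push Not at hgφ
  obtain ⟨k, -, hk⟩ := hgφ 0
  refine ⟨s, hs, g :: l, hl, ?_⟩
  have h1 : pt s (Nat.pair k (φ k)) = (n : ℝ) + 1 := by
    rw [pt_apply, Nat.unpair_pair]
    have : (s.countP fun f => decide (f k ≤ φ k)) = s.length :=
      List.countP_eq_length.mpr fun f hf => by simpa using hφ f hf k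
    rw [this, hlen]
    push_cast
    rfl
  have h2 : pt (g :: l) (Nat.pair k (φ k)) = 0 := by
    rw [pt_apply, Nat.unpair_pair]
    have : ((g :: l).countP fun f => decide (f k ≤ φ k)) = 0 := by
      rw [List.countP_eq_zero]
      intro f hf
      have hgf : g k ≤ f k := by
        rcases List.mem_cons.mp hf with rfl | hf
        · exact le_rfl
        · exact le_of_ch (hch _ hl).2 f hf k
      simp
      omega
    rw [this]
    simp
  calc (n : ℝ) + 1 = dist (pt s (Nat.pair k (φ k))) (pt (g :: l) (Nat.pair k (φ k))) := by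
        rw [h1, h2, Real.dist_eq, sub_zero, abs_of_nonneg (by positivity)]
    _ ≤ dist (pt s) (pt (g :: l)) := BoundedContinuousFunction.dist_coe_le_dist _

/-- The negation of the preceding statement: There is an uncountable set Γ and a map from bounded real sequences (sup metric) into c_0(Γ) (sup metric) that is a coarse embedding: bounded distances go to bounded distances, and bounded image distances come from bounded distances. -/
theorem result :
    ¬ (∃ (Γ : Type), ¬ Countable Γ ∧ ∃ f : (ℕ →ᵇ ℝ) → (Γ → ℝ),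
      (∀ x : ℕ →ᵇ ℝ, ∀ ε : ℝ, 0 < ε → {i : Γ | ε ≤ |f x i|}.Finite) ∧
      (∀ R : ℝ, ∃ S : ℝ, ∀ x y : ℕ →ᵇ ℝ, dist x y ≤ R → ∀ i : Γ, |f x i - f y i| ≤ S) ∧
      (∀ S : ℝ, ∃ R : ℝ, ∀ x y : ℕ →ᵇ ℝ, (∀ i : Γ, |f x i - f y i| ≤ S) → dist x y ≤ R)) := by
  rintro ⟨Γ, -, F, hc0, hup, hlow⟩
  obtain ⟨C, hC⟩ := exists_good
  obtain ⟨S₀, hS₀⟩ := hup 1
  -- a positive bound
  obtain ⟨S, hSpos, hS⟩ : ∃ S : ℝ, 0 < S ∧ ∀ x y : ℕ →ᵇ ℝ, dist x y ≤ 1 →
      ∀ i : Γ, |F x i - F y i| ≤ S :=
    ⟨max S₀ 1, lt_of_lt_of_le one_pos (le_max_right _ _),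
      fun x y h i => (hS₀ x y h i).trans (le_max_left _ _)⟩
  -- the colour of a point
  let col : (ℕ →ᵇ ℝ) → Γ → ℤ := fun x i => if |F x i| < 2 * S then 0 else ⌊F x i / S⌋
  have hcol_eq : ∀ x y, col x = col y → ∀ i, |F x i - F y i| ≤ 4 * S := by
    intro x y hxy i
    have h := congrFun hxy i
    simp only [col] at h
    have hfl : ∀ z : ℝ, (⌊z / S⌋ : ℝ) * S ≤ z ∧ z < ((⌊z / S⌋ : ℝ) + 1) * S := by
      intro z
      constructor
      · have := Int.floor_le (z / S)
        rwa [le_div_iff₀ hSpos] at this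
      · have := Int.lt_floor_add_one (z / S)
        rwa [div_lt_iff₀ hSpos] at this
    have hx := hfl (F x i)
    have hy := hfl (F y i)
    split_ifs at h with h1 h2 h2
    · rw [abs_lt] at h1 h2
      rw [abs_le]
      constructor <;> linarith
    · rw [← h] at hy
      push_cast at hy
      push Not at h2
      exfalso
      rcases le_abs.mp h2 with h3 | h3 <;> linarith
    · rw [h] at hx
      push_cast at hx
      push Not at h1
      exfalso
      rcases le_abs.mp h1 with h3 | h3 <;> linarith
    · rw [h] at hx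
      rw [abs_le]
      constructor <;> linarith
  have hcol_fin : ∀ x : ℕ →ᵇ ℝ, (col '' {y | dist x y ≤ 1}).Finite := by
    intro x
    have hA := hc0 x S hSpos
    set A := hA.toFinset with hAdef
    -- bounds for the values of the colours
    let lo : Γ → ℤ := fun i => ⌊(-(|F x i| + S)) / S⌋
    let up : Γ → ℤ := fun i => ⌊(|F x i| + S) / S⌋
    have hfin : {g : Γ → ℤ | (∀ i, i ∉ A → g i = 0) ∧ ∀ i, g i ∈ Set.Icc (lo i) (up i)}.Finite := by
      classical
      let res : (Γ → ℤ) → (A → ℤ) := fun g i => g i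
      have hfin1 : (Set.univ.pi fun i : A => Set.Icc (lo i) (up i)).Finite :=
        Set.Finite.pi fun i => Set.finite_Icc _ _
      refine Set.Finite.of_finite_image (f := res) (hfin1.subset ?_) ?_
      · rintro _ ⟨g, ⟨-, hg⟩, rfl⟩
        intro i _
        exact hg i
      · intro g hg g' hg' hgg'
        funext i
        by_cases hi : i ∈ A
        · exact congrFun hgg' ⟨i, hi⟩
        · rw [hg.1 i hi, hg'.1 i hi]
    refine hfin.subset ?_
    rintro _ ⟨y, hy, rfl⟩
    have hxy : ∀ i, |F x i - F y i| ≤ S := hS x y hy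
    constructor
    · intro i hi
      have hi' : ¬ S ≤ |F x i| := fun hcon => hi (hA.mem_toFinset.mpr hcon)
      push Not at hi'
      have h1 := hxy i
      have h2 : |F y i| < 2 * S := by
        rw [abs_lt] at hi' ⊢
        rw [abs_le] at h1
        constructor <;> linarith
      simp only [col, if_pos h2]
    · intro i
      have h1 := abs_le.mp (hxy i)
      have h2 := neg_abs_le (F x i)
      have h3 := le_abs_self (F x i)
      have h4 : 0 ≤ |F x i| + S := by positivity
      simp only [col, Set.mem_Icc, lo, up]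
      split_ifs with h5
      · constructor
        · have h6 : (-(|F x i| + S)) / S ≤ 0 :=
            div_nonpos_of_nonpos_of_nonneg (by linarith) hSpos.le
          calc ⌊(-(|F x i| + S)) / S⌋ ≤ ⌊(0 : ℝ)⌋ := Int.floor_le_floor h6
            _ = 0 := Int.floor_zero
        · exact Int.floor_nonneg.mpr (div_nonneg h4 hSpos.le)
      · constructor
        · exact Int.floor_le_floor (div_le_div_of_nonneg_right (by linarith) hSpos.le)
        · exact Int.floor_le_floor (div_le_div_of_nonneg_right (by linarith) hSpos.le)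
  -- the diameter of the colour classes
  obtain ⟨R, hR⟩ := hlow (4 * S)
  obtain ⟨n, hn⟩ := exists_nat_gt R
  obtain ⟨a, ha, -⟩ := exists_large hC 0
  obtain ⟨c, hc⟩ := exists_color hC (n + 1) a ha (fun t => col (pt t)) (by
    intro t ht
    refine (hcol_fin (pt (t 0))).subset ?_
    rintro _ ⟨j, rfl⟩
    exact ⟨pt (t j), dist_pt_le (ht 0 j) (ht j 0), rfl⟩)
  obtain ⟨s, hs, t, ht, hst⟩ := exists_far hc fun l hl => hl.1
  have h1 := hR (pt s) (pt t) (hcol_eq _ _ (hs.2.trans ht.2.symm))
  linarith

end Pool.Agent.S04314
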