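import Pool.Statements.S04407
import Pool.Agent.Helper47_Angle.Final

set_option autoImplicit false
open Pool Pool.MP_3ccd08_an

namespace Pool.Agent.S04407

/-- There is a real constant C such that for every n, every Borel set in R^n of Hausdorff dimension at least n/2 + C contains three distinct points x, y, z with angle xyz equal to θ, for every θ strictly between 0 and π. -/
theorem result :
    ∃ C : ℝ, ∀ n : ℕ, ∀ E : Set (EuclideanSpace ℝ (Fin n)),
      MeasurableSet E →
      ENNReal.ofReal ((n : ℝ) / 2 + C) ≤ dimH E →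
      ∀ θ : ℝ, 0 < θ → θ < Real.pi →
        ∃ x ∈ E, ∃ y ∈ E, ∃ z ∈ E,
          x ≠ y ∧ z ≠ y ∧ x ≠ z ∧ EuclideanGeometry.angle x y z = θ := by
  refine ⟨5, fun n E hE hd θ hθ hθπ => ?_⟩
  exact Pool.Agent.H47A.main θ hθ hθπ E hE hd

end Pool.Agent.S04407
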