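import Pool.Statements.S04573
import Pool.Agent.Helper44_Ball.Final

set_option autoImplicit false
open Pool Pool.MP_49b044_an

namespace Pool.Agent.S04573

/-- If a bounded domain in C^n is biholomorphic to the unit ball and has a C^2 defining function, then it has a C^2 defining function whose Levi form is positive definite on the complex tangent space at every boundary point. -/
theorem result : ∀ n : ℕ, ∀ Ω : Set (EuclideanSpace ℂ (Fin n)),
    Bornology.IsBounded Ω →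
    (∃ φ ψ : EuclideanSpace ℂ (Fin n) → EuclideanSpace ℂ (Fin n),
        DifferentiableOn ℂ φ (Metric.ball 0 1) ∧ DifferentiableOn ℂ ψ Ω ∧
        Set.MapsTo φ (Metric.ball 0 1) Ω ∧ Set.MapsTo ψ Ω (Metric.ball 0 1) ∧
        (∀ z ∈ Metric.ball (0 : EuclideanSpace ℂ (Fin n)) 1, ψ (φ z) = z) ∧
        (∀ w ∈ Ω, φ (ψ w) = w)) →
    (∃ ρ : EuclideanSpace ℂ (Fin n) → ℝ, ContDiff ℝ 2 ρ ∧ Ω = {z | ρ z < 0} ∧
        ∀ z, ρ z = 0 → fderiv ℝ ρ z ≠ 0) →
    ∃ ρ : EuclideanSpace ℂ (Fin n) → ℝ, ContDiff ℝ 2 ρ ∧ Ω = {z | ρ z < 0} ∧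
        (∀ z, ρ z = 0 → fderiv ℝ ρ z ≠ 0) ∧
        ∀ p, ρ p = 0 → ∀ w : EuclideanSpace ℂ (Fin n), w ≠ 0 →
          fderiv ℝ ρ p w = 0 → fderiv ℝ ρ p (Complex.I • w) = 0 →
          0 < fderiv ℝ (fderiv ℝ ρ) p w w
                + fderiv ℝ (fderiv ℝ ρ) p (Complex.I • w) (Complex.I • w) := by
  intro n Ω hΩ hbih hdef
  obtain ⟨φ, ψ, hφ, hψ, mφ, mψ, hl, hr⟩ := hbih
  obtain ⟨ρ, hρ, rfl, hgrad⟩ := hdef
  refine ⟨ρ, hρ, rfl, hgrad, ?_⟩
  intro p hp w hw h1 h2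
  have hn : 0 < n := by
    rcases Nat.eq_zero_or_pos n with h | h
    · subst h
      exact absurd (Subsingleton.elim w 0) hw
    · exact h
  have S : Pool.Agent.Ball44.Setup n ρ φ ψ :=
    { hn := hn
      smooth := hρ
      bdd := hΩ
      grad := hgrad
      hφ := hφ
      hψ := hψ
      mφ := mφ
      mψ := mψ
      left := hl
      right := hr }
  exact S.levi_pos hp hw h1 h2

end Pool.Agent.S04573
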