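import Pool.Statements.S04666
import Pool.Agent.Helper23_Squeeze.Main
-- import your own Pool.Agent.* helpers here

set_option autoImplicit false
open Pool Pool.MP_512514_an

namespace Pool.Agent.S04666

/-- The negation of the preceding statement: For every bounded connected open set in C^2 with smooth boundary that is pseudoconvex (as holomorphic convexity), some c>0 works for all z: an injective holomorphic map into the unit ball sends z to 0 with image containing the c-ball. -/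
theorem result :
    ¬ (∀ Ω : Set (EuclideanSpace ℂ (Fin 2)),
    IsOpen Ω → IsConnected Ω → Bornology.IsBounded Ω →
    (∃ ρ : EuclideanSpace ℂ (Fin 2) → ℝ,
      (∀ n : ℕ, ContDiff ℝ n ρ) ∧ Ω = {z | ρ z < 0} ∧
      ∀ z, ρ z = 0 → fderiv ℝ ρ z ≠ 0) →
    (∀ K : Set (EuclideanSpace ℂ (Fin 2)), IsCompact K → K ⊆ Ω →
      IsCompact {z ∈ Ω | ∀ f : EuclideanSpace ℂ (Fin 2) → ℂ, DifferentiableOn ℂ f Ω →
        ∀ c : ℝ, (∀ w ∈ K, ‖f w‖ ≤ c) → ‖f z‖ ≤ c}) →
    ∃ c : ℝ, 0 < c ∧ ∀ z ∈ Ω,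
      ∃ f : EuclideanSpace ℂ (Fin 2) → EuclideanSpace ℂ (Fin 2),
        DifferentiableOn ℂ f Ω ∧ Set.InjOn f Ω ∧
        Set.MapsTo f Ω (Metric.ball 0 1) ∧ f z = 0 ∧
        Metric.ball 0 c ⊆ f '' Ω) := by
  exact Pool.Agent.Squeeze.counterexample

end Pool.Agent.S04666
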