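import Pool.Statements.S04750
import Pool.Agent.Helper94_SQS.Main
import Pool.Agent.Helper94_SQS.Tame
import Pool.Agent.Helper92_SQS.Ad
import Pool.Agent.Helper51_SQS.Small
import Pool.Agent.Helper81_SQS.Big
import Pool.Agent.Helper81_SQS.Clo
import Pool.Agent.Helper44_SQS.Fil
import Pool.Agent.Helper44_SQS.Inj
import Pool.Agent.Helper41_SQS.Cap
import Pool.Agent.Helper41_SQS.Sqc
import Pool.Agent.Helper75_SQS.Mu
import Pool.Agent.Helper75_SQS.SqA
import Pool.Agent.Helper75_SQS.SqB
import Pool.Agent.Helper75_SQS.Sub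
import Pool.Agent.Helper47_SQS.Top
import Pool.Agent.Helper18_SQS.Los
import Pool.Agent.Helper18_SQS.LosCD
import Pool.Agent.Helper18_SQS.Uni
import Pool.Agent.Helper40_SQS.Losa
import Pool.Agent.Helper40_SQS.Losb

set_option autoImplicit false
open Pool Pool.MP_5a6e11_an

namespace Pool.Agent.S04750

/-- The negation of the preceding statement: For compact Hausdorff K whose pointwise and weak Baire σ-algebras on C(K) agree, the smallest weak*-sequentially closed set containing convex combinations of Dirac functionals equals the set of positive functionals sending 1 to 1. -/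
theorem result :
    ¬ (∀ (K : Type) [TopologicalSpace K] [CompactSpace K] [T2Space K],
      (⨆ (g : C(K, ℝ) → ℝ) (_ : @Continuous C(K, ℝ) ℝ
          (TopologicalSpace.induced (fun (f : C(K, ℝ)) (x : K) => f x) inferInstance) _ g),
          MeasurableSpace.comap g (borel ℝ))
        = (⨆ (g : C(K, ℝ) → ℝ) (_ : @Continuous C(K, ℝ) ℝ
          (⨅ (φ : C(K, ℝ) →L[ℝ] ℝ), TopologicalSpace.induced (⇑φ) inferInstance) _ g),
          MeasurableSpace.comap g (borel ℝ)) →
      ⋂₀ {S : Set (C(K, ℝ) →L[ℝ] ℝ) |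
          convexHull ℝ {φ : C(K, ℝ) →L[ℝ] ℝ | ∃ x : K, ∀ f : C(K, ℝ), φ f = f x} ⊆ S ∧
          ∀ (u : ℕ → C(K, ℝ) →L[ℝ] ℝ) (φ : C(K, ℝ) →L[ℝ] ℝ), (∀ n, u n ∈ S) →
            (∀ f : C(K, ℝ), Filter.Tendsto (fun n => u n f) Filter.atTop (nhds (φ f))) →
            φ ∈ S}
        = {φ : C(K, ℝ) →L[ℝ] ℝ | (∀ f : C(K, ℝ), 0 ≤ f → 0 ≤ φ f) ∧ φ 1 = 1}) := by
  have small : SQS.SmallStmt := SQS.H51.small
  have act : SQS.ActStmt := SQS.H51.active small
  have inj : SQS.InjStmt := SQS.H44.inj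
  have big : SQS.BigStmt := SQS.H81.big small
  have cap : SQS.CapStmt := SQS.H41.cap
  have top : SQS.TopStmt := SQS.H47.top act
  have clo : SQS.CloStmt := SQS.H81.clo
  have sub : SQS.SubStmt := SQS.H75.sub
  have uni : SQS.UniStmt := SQS.H18.uni
  have measf : SQS.MeasfStmt := SQS.H18.measf uni
  have rep : SQS.RepStmt := SQS.H18.rep measf
  have mu : SQS.MuStmt := SQS.H75.mu top measf
  have sqa : SQS.SqAStmt := SQS.H75.sqa
  have sqb : SQS.SqBStmt := SQS.H75.sqb act
  have sqc : SQS.SqCStmt := SQS.H41.sqc act sub cap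
  have los : SQS.LosStmt := SQS.H18.los uni measf (SQS.H40.losb SQS.H40.losa) SQS.H18.losc SQS.H18.losd
  have fil : SQS.FilStmt := SQS.H44.fil big
  have tame : SQS.TameStmt := SQS.H94.tame top clo big inj uni measf rep los fil
  exact SQS.main_of top tame SQS.H92.jor SQS.H92.edg mu sqa sqb sqc

end Pool.Agent.S04750
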