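import Pool.Statements.S05466
import Pool.Agent.Helper38_Gas.Basic

set_option autoImplicit false
open MeasureTheory Filter Topology
open Pool Pool.MP_95eb0c_an

namespace Pool.Agent.S05466

/-- The negation of the preceding statement: For ideal gas γ>1, any sequence of bounded weak solutions of 1D Lagrangian gas dynamics on t>0 with uniform bounds τ,p bounded away from 0 and ∣v∣≤V, converging weak-* in L^∞, has velocity and pressure converging in L¹ on every compact subset. -/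
theorem result :
    ¬ (∀ (γ : ℝ), 1 < γ →
  ∀ (τe ve pe : ℕ → ℝ × ℝ → ℝ) (τ v p : ℝ × ℝ → ℝ) (τm τM pm pM V : ℝ),
  0 < τm → τm ≤ τM → 0 < pm → pm ≤ pM →
  (∀ n, AEStronglyMeasurable (τe n) (volume.restrict {z : ℝ × ℝ | 0 < z.2}) ∧
        AEStronglyMeasurable (ve n) (volume.restrict {z : ℝ × ℝ | 0 < z.2}) ∧
        AEStronglyMeasurable (pe n) (volume.restrict {z : ℝ × ℝ | 0 < z.2})) →
  (∀ n, ∀ᵐ z ∂(volume.restrict {z : ℝ × ℝ | 0 < z.2}),
        τm ≤ τe n z ∧ τe n z ≤ τM ∧ pm ≤ pe n z ∧ pe n z ≤ pM ∧ |ve n z| ≤ V) →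
  (∀ n, ∀ φ : ℝ × ℝ → ℝ, ContDiff ℝ ((⊤ : ℕ∞) : WithTop ℕ∞) φ → HasCompactSupport φ →
      tsupport φ ⊆ {z : ℝ × ℝ | 0 < z.2} →
      (∫ z in {z : ℝ × ℝ | 0 < z.2},
          (τe n z * fderiv ℝ φ z (0, 1) - ve n z * fderiv ℝ φ z (1, 0))) = 0 ∧
      (∫ z in {z : ℝ × ℝ | 0 < z.2},
          (ve n z * fderiv ℝ φ z (0, 1) + pe n z * fderiv ℝ φ z (1, 0))) = 0 ∧
      (∫ z in {z : ℝ × ℝ | 0 < z.2},
          ((ve n z ^ 2 / 2 + pe n z * τe n z / (γ - 1)) * fderiv ℝ φ z (0, 1)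
            + pe n z * ve n z * fderiv ℝ φ z (1, 0))) = 0) →
  AEStronglyMeasurable τ (volume.restrict {z : ℝ × ℝ | 0 < z.2}) →
  AEStronglyMeasurable v (volume.restrict {z : ℝ × ℝ | 0 < z.2}) →
  AEStronglyMeasurable p (volume.restrict {z : ℝ × ℝ | 0 < z.2}) →
  (∃ C : ℝ, ∀ᵐ z ∂(volume.restrict {z : ℝ × ℝ | 0 < z.2}),
      |τ z| ≤ C ∧ |v z| ≤ C ∧ |p z| ≤ C) →
  (∀ g : ℝ × ℝ → ℝ, Integrable g (volume.restrict {z : ℝ × ℝ | 0 < z.2}) →
      Tendsto (fun n => ∫ z in {z : ℝ × ℝ | 0 < z.2}, τe n z * g z) atTop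
        (𝓝 (∫ z in {z : ℝ × ℝ | 0 < z.2}, τ z * g z)) ∧
      Tendsto (fun n => ∫ z in {z : ℝ × ℝ | 0 < z.2}, ve n z * g z) atTop
        (𝓝 (∫ z in {z : ℝ × ℝ | 0 < z.2}, v z * g z)) ∧
      Tendsto (fun n => ∫ z in {z : ℝ × ℝ | 0 < z.2}, pe n z * g z) atTop
        (𝓝 (∫ z in {z : ℝ × ℝ | 0 < z.2}, p z * g z))) →
  ∀ K : Set (ℝ × ℝ), IsCompact K → K ⊆ {z : ℝ × ℝ | 0 < z.2} →
    Tendsto (fun n => ∫ z in K, |ve n z - v z|) atTop (𝓝 0) ∧
    Tendsto (fun n => ∫ z in K, |pe n z - p z|) atTop (𝓝 0)) := by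
  open Pool.Agent.Helper38_Gas in
  intro H
  have hH := measurableSet_H
  -- reduce half-plane integrals of test-function expressions to the whole plane
  have hzero : ∀ (φ : ℝ × ℝ → ℝ), tsupport φ ⊆ {z : ℝ × ℝ | 0 < z.2} →
      ∀ z, z ∉ {z : ℝ × ℝ | 0 < z.2} → fderiv ℝ φ z = 0 := by
    intro φ hφ z hz
    have h1 : z ∉ tsupport φ := fun h => hz (hφ h)
    have h2 : φ =ᶠ[𝓝 z] 0 := notMem_tsupport_iff_eventuallyEq.1 h1
    rw [h2.fderiv_eq]
    simp
  have hr : ∀ (n : ℕ) (φ : ℝ × ℝ → ℝ), ContDiff ℝ ((⊤ : ℕ∞) : WithTop ℕ∞) φ →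
      HasCompactSupport φ → ∫ z, r n z * fderiv ℝ φ z (2, 1) = 0 := by
    intro n φ hφ hc
    exact ibp (2, 1) (measurable_r n) (fun z => (abs_r n z).le) (fun z t => r_line n z t) hφ hc
  have h1 : ∀ (w : ℝ × ℝ) (φ : ℝ × ℝ → ℝ), ContDiff ℝ ((⊤ : ℕ∞) : WithTop ℕ∞) φ →
      HasCompactSupport φ → ∫ z, fderiv ℝ φ z w = 0 := by
    intro w φ hφ hc
    have := ibp (f := fun _ => 1) w measurable_const (fun z => by simp) (fun z t => rfl) hφ hc
    simpa using this
  -- the basic identity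
  have main : ∀ (n : ℕ) (φ : ℝ × ℝ → ℝ), ContDiff ℝ ((⊤ : ℕ∞) : WithTop ℕ∞) φ →
      HasCompactSupport φ → tsupport φ ⊆ {z : ℝ × ℝ | 0 < z.2} → ∀ a b c : ℝ,
      ∫ z in {z : ℝ × ℝ | 0 < z.2}, (a * (r n z * fderiv ℝ φ z (2, 1)) +
        b * fderiv ℝ φ z (1, 0) + c * fderiv ℝ φ z (0, 1)) = 0 := by
    intro n φ hφ hc hs a b c
    have hcf : Continuous (fderiv ℝ φ) := hφ.continuous_fderiv (by simp)
    have hi : ∀ w : ℝ × ℝ, Integrable fun z => fderiv ℝ φ z w := fun w =>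
      (hcf.clm_apply continuous_const).integrable_of_hasCompactSupport
        (hc.fderiv_apply (𝕜 := ℝ) w)
    rw [setIntegral_eq_integral_of_forall_compl_eq_zero]
    · rw [integral_add, integral_add, integral_const_mul, integral_const_mul, integral_const_mul,
        hr n φ hφ hc, h1 _ φ hφ hc, h1 _ φ hφ hc]
      · simp
      · exact (integrable_r_mul n (hi _)).const_mul _
      · exact (hi _).const_mul _
      · exact ((integrable_r_mul n (hi _)).const_mul _).add ((hi _).const_mul _)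
      · exact (hi _).const_mul _
    · intro z hz
      rw [hzero φ hs z hz]
      simp
  have hlin : ∀ (φ : ℝ × ℝ → ℝ) (z : ℝ × ℝ),
      fderiv ℝ φ z (2, 1) = 2 * fderiv ℝ φ z (1, 0) + fderiv ℝ φ z (0, 1) := by
    intro φ z
    have : ((2 : ℝ), (1 : ℝ)) = (2 : ℝ) • ((1 : ℝ), (0 : ℝ)) + ((0 : ℝ), (1 : ℝ)) := by
      ext <;> simp
    rw [this, map_add, map_smul, smul_eq_mul]
  have key := H 2 (by norm_num) (fun n z => (3 - r n z) / 2) (fun n z => r n z)
    (fun n z => 3 + 2 * r n z) (fun _ => 3 / 2) (fun _ => 0) (fun _ => 3) 1 2 1 5 1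
    (by norm_num) (by norm_num) (by norm_num) (by norm_num)
    (fun n => ⟨((measurable_const.sub (measurable_r n)).div_const 2).aestronglyMeasurable,
      (measurable_r n).aestronglyMeasurable,
      (measurable_const.add ((measurable_r n).const_mul 2)).aestronglyMeasurable⟩)
    (fun n => Eventually.of_forall fun z => by
      rcases r_cases n z with h | h <;> rw [h] <;> norm_num)
    (fun n φ hφ hc hs => by
      refine ⟨?_, ?_, ?_⟩
      · refine (setIntegral_congr_fun hH fun z _ => ?_).trans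
          (main n φ hφ hc hs (-1 / 2) 0 (3 / 2))
        simp only [hlin]; ring
      · refine (setIntegral_congr_fun hH fun z _ => ?_).trans
          (main n φ hφ hc hs 1 3 0)
        simp only [hlin]; ring
      · refine (setIntegral_congr_fun hH fun z _ => ?_).trans
          (main n φ hφ hc hs (3 / 2) 2 4)
        have h2 : r n z ^ 2 = 1 := by rw [pow_two]; exact r_sq n z
        simp only [hlin]
        have e1 : r n z ^ 2 / 2 + (3 + 2 * r n z) * ((3 - r n z) / 2) / (2 - 1) =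
            4 + 3 / 2 * r n z := by
          nlinarith [h2]
        have e2 : (3 + 2 * r n z) * r n z = 2 + 3 * r n z := by nlinarith [h2]
        rw [e1, e2]; ring)
    aestronglyMeasurable_const aestronglyMeasurable_const aestronglyMeasurable_const
    ⟨3, Eventually.of_forall fun z => by norm_num⟩
    (fun g hg => by
      have hw := weak hg
      have hsplit : ∀ (a b : ℝ), Tendsto (fun n => ∫ z in {z : ℝ × ℝ | 0 < z.2},
          (a + b * r n z) * g z) atTop (𝓝 (∫ z in {z : ℝ × ℝ | 0 < z.2}, a * g z)) := by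
        intro a b
        have : ∀ n, ∫ z in {z : ℝ × ℝ | 0 < z.2}, (a + b * r n z) * g z =
            (∫ z in {z : ℝ × ℝ | 0 < z.2}, a * g z) +
              b * ∫ z in {z : ℝ × ℝ | 0 < z.2}, r n z * g z := by
          intro n
          rw [← integral_const_mul, ← integral_add (hg.const_mul a)
            ((integrable_r_mul n hg).const_mul b)]
          congr 1; ext z; ring
        simp_rw [this]
        have h3 := (hw.const_mul b).const_add (∫ z in {z : ℝ × ℝ | 0 < z.2}, a * g z)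
        simpa using h3
      refine ⟨?_, ?_, ?_⟩
      · refine (hsplit (3 / 2) (-1 / 2)).congr fun n => ?_
        congr 1; ext z; ring
      · refine (hsplit 0 1).congr fun n => ?_
        congr 1; ext z; ring
      · exact hsplit 3 2)
  have hK : IsCompact (Set.Icc (0 : ℝ) 1 ×ˢ Set.Icc (1 : ℝ) 2) := isCompact_Icc.prod isCompact_Icc
  have hKH : Set.Icc (0 : ℝ) 1 ×ˢ Set.Icc (1 : ℝ) 2 ⊆ {z : ℝ × ℝ | 0 < z.2} := by
    rintro ⟨x, t⟩ ⟨_, ht⟩
    have : (1 : ℝ) ≤ t := ht.1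
    show (0 : ℝ) < t
    linarith
  have hv := (key _ hK hKH).1
  have hval : ∀ n, ∫ z in Set.Icc (0 : ℝ) 1 ×ˢ Set.Icc (1 : ℝ) 2, |r n z - 0| = 1 := by
    intro n
    have : ∀ z, |r n z - 0| = 1 := fun z => by rw [sub_zero]; exact abs_r n z
    simp_rw [this]
    rw [setIntegral_const, smul_eq_mul, mul_one, Measure.volume_eq_prod, measureReal_prod_prod]
    norm_num
  simp only [hval] at hv
  exact one_ne_zero (tendsto_nhds_unique tendsto_const_nhds hv)

end Pool.Agent.S05466
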