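import Pool.Statements.S05747
import Pool.Agent.Helper27_Cap.Newton
import Pool.Agent.Helper27_Cap.LogEnergy
import Pool.Agent.Helper28_Disc.Log

set_option autoImplicit false
open Classical MeasureTheory
open Pool Pool.MP_a9e9e6_an

namespace Pool.Agent.S05747

open Pool.Agent.Helper27.Cap

/-- the isometry between `ℂ` and the Euclidean plane -/
noncomputable def T : ℂ ≃ₗᵢ[ℝ] EuclideanSpace ℝ (Fin 2) := Complex.orthonormalBasisOneI.repr

theorem lintegral_map_T (ν : Measure ℂ) (f : EuclideanSpace ℝ (Fin 2) → ENNReal) :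
    ∫⁻ x, f x ∂(ν.map T) = ∫⁻ x, f (T x) ∂ν :=
  T.toHomeomorph.measurableEmbedding.lintegral_map f

theorem lintegral_map_Tsymm (μ : Measure (EuclideanSpace ℝ (Fin 2))) (f : ℂ → ENNReal) :
    ∫⁻ x, f x ∂(μ.map T.symm) = ∫⁻ x, f (T.symm x) ∂μ :=
  T.symm.toHomeomorph.measurableEmbedding.lintegral_map f

/-- The inequality between the two capacities. -/
theorem ineq (K : Set (EuclideanSpace ℝ (Fin 2))) (hK : IsCompact K)
    (μ : Measure (EuclideanSpace ℝ (Fin 2))) (hμ : IsProbabilityMeasure μ) (hμK : μ Kᶜ = 0) :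
    (∫⁻ x, ∫⁻ y, (edist x y)⁻¹ ∂μ ∂μ)⁻¹ = 0 ∨
    ∃ ν : Measure (EuclideanSpace ℝ (Fin 2)), IsProbabilityMeasure ν ∧ ν Kᶜ = 0 ∧
      (∫⁻ x, ∫⁻ y, (if x = y then (⊤ : ENNReal)
                    else ENNReal.ofReal (-Real.log (dist x y))) ∂ν ∂ν) ≠ ⊤ ∧
      (∫⁻ x, ∫⁻ y, (edist x y)⁻¹ ∂μ ∂μ)⁻¹ ≤ ENNReal.ofReal (2 / Real.pi) *
        ENNReal.ofReal (Real.exp
              ((∫⁻ x, ∫⁻ y, ENNReal.ofReal (Real.log (dist x y)) ∂ν ∂ν).toReal
                - (∫⁻ x, ∫⁻ y, (if x = y then (⊤ : ENNReal)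
                    else ENNReal.ofReal (-Real.log (dist x y))) ∂ν ∂ν).toReal)) := by
  by_cases htop : (∫⁻ x, ∫⁻ y, (edist x y)⁻¹ ∂μ ∂μ) = ⊤
  · left; rw [htop, ENNReal.inv_top]
  right
  set K' : Set ℂ := T ⁻¹' K with hK'
  have hK'c : IsCompact K' := T.toHomeomorph.isCompact_preimage.2 hK
  have hpi := Real.pi_pos
  -- the measure on ℂ
  set μ' : Measure ℂ := μ.map T.symm with hμ'
  have hμ'p : IsProbabilityMeasure μ' :=
    Measure.isProbabilityMeasure_map T.symm.continuous.measurable.aemeasurable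
  have hμ'K : μ' K'ᶜ = 0 := by
    rw [hμ', Measure.map_apply T.symm.continuous.measurable hK'c.measurableSet.compl, hK']
    have : T.symm ⁻¹' (T ⁻¹' K)ᶜ = Kᶜ := by
      ext x; simp
    rw [this, hμK]
  have hE : (∫⁻ x, (∫⁻ y, (‖x - y‖ₑ)⁻¹ ∂μ') ∂μ') = ∫⁻ x, ∫⁻ y, (edist x y)⁻¹ ∂μ ∂μ := by
    rw [hμ', lintegral_map_Tsymm]
    refine lintegral_congr fun x => ?_
    rw [lintegral_map_Tsymm]
    refine lintegral_congr fun y => ?_
    rw [← edist_eq_enorm_sub, T.symm.edist_map]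
  obtain ⟨σ, hσf, hσ0, hσK, hσU, hσmax⟩ := newton_equilibrium hK'c
    ⟨μ', hμ'p, hμ'K, by rw [hE]; exact htop⟩
  have hne : K'.Nonempty := by
    by_contra h
    rw [Set.not_nonempty_iff_eq_empty] at h
    rw [h, Set.compl_empty] at hσK
    exact hσ0 (Measure.measure_univ_eq_zero.1 hσK)
  obtain ⟨ν', hν'p, hν'K, hν'N, hν'E⟩ := log_energy hK'c hne hσ0 hσK hσU
  refine ⟨ν'.map T, Measure.isProbabilityMeasure_map T.continuous.measurable.aemeasurable, ?_, ?_⟩
  · rw [Measure.map_apply T.continuous.measurable hK.measurableSet.compl]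
    exact hν'K
  have hN : (∫⁻ x, ∫⁻ y, (if x = y then (⊤ : ENNReal)
      else ENNReal.ofReal (-Real.log (dist x y))) ∂(ν'.map T) ∂(ν'.map T)) =
      ∫⁻ x, (∫⁻ y, (if x = y then ⊤ else ENNReal.ofReal (-Real.log (dist x y))) ∂ν') ∂ν' := by
    rw [lintegral_map_T]
    refine lintegral_congr fun x => ?_
    rw [lintegral_map_T]
    refine lintegral_congr fun y => ?_
    by_cases h : x = y
    · simp [h]
    · have h' : T x ≠ T y := fun h2 => h (T.injective h2)
      simp [h, h']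
  have hP : (∫⁻ x, ∫⁻ y, ENNReal.ofReal (Real.log (dist x y)) ∂(ν'.map T) ∂(ν'.map T)) =
      ∫⁻ x, (∫⁻ y, ENNReal.ofReal (Real.log (dist x y)) ∂ν') ∂ν' := by
    rw [lintegral_map_T]
    refine lintegral_congr fun x => ?_
    rw [lintegral_map_T]
    refine lintegral_congr fun y => ?_
    rw [T.dist_map]
  rw [hN, hP]
  refine ⟨hν'N, ?_⟩
  have h1 := hσmax μ' hμ'p hμ'K
  rw [hE] at h1
  refine h1.trans ?_
  rw [← ENNReal.ofReal_mul (by positivity), ← ENNReal.ofReal_toReal (measure_ne_top σ Set.univ)]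
  refine ENNReal.ofReal_le_ofReal ?_
  rw [div_mul_eq_mul_div, le_div_iff₀ hpi]
  linarith

/-- For every compact planar set K, its Newtonian capacity (1/min energy with kernel 1/∣x−y∣) is at most 2/π times its logarithmic capacity (exp of minus the min log energy), with equality when K is a closed disk. -/
theorem result :
  ∀ K : Set (EuclideanSpace ℝ (Fin 2)), IsCompact K →
    ∀ a b : ENNReal,
      a = (⨆ (μ : Measure (EuclideanSpace ℝ (Fin 2))) (_ : IsProbabilityMeasure μ)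
            (_ : μ Kᶜ = 0),
            (∫⁻ x, ∫⁻ y, (edist x y)⁻¹ ∂μ ∂μ)⁻¹) →
      b = (⨆ (μ : Measure (EuclideanSpace ℝ (Fin 2))) (_ : IsProbabilityMeasure μ)
            (_ : μ Kᶜ = 0)
            (_ : (∫⁻ x, ∫⁻ y, (if x = y then (⊤ : ENNReal)
                    else ENNReal.ofReal (-Real.log (dist x y))) ∂μ ∂μ) ≠ ⊤),
            ENNReal.ofReal (Real.exp
              ((∫⁻ x, ∫⁻ y, ENNReal.ofReal (Real.log (dist x y)) ∂μ ∂μ).toReal
                - (∫⁻ x, ∫⁻ y, (if x = y then (⊤ : ENNReal)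
                    else ENNReal.ofReal (-Real.log (dist x y))) ∂μ ∂μ).toReal))) →
      (a ≤ ENNReal.ofReal (2 / Real.pi) * b ∧
        ((∃ (c : EuclideanSpace ℝ (Fin 2)) (r : ℝ), 0 < r ∧ K = Metric.closedBall c r) →
          a = ENNReal.ofReal (2 / Real.pi) * b)) := by
  intro K hK a b ha hb
  have hab : a ≤ ENNReal.ofReal (2 / Real.pi) * b := by
    rw [ha]
    refine iSup_le fun μ => iSup_le fun hμ => iSup_le fun hμK => ?_
    rcases ineq K hK μ hμ hμK with h | ⟨ν, hν, hνK, hνN, hle⟩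
    · rw [h]; exact zero_le
    · refine hle.trans ?_
      gcongr
      rw [hb]
      exact le_iSup_of_le ν (le_iSup_of_le hν (le_iSup_of_le hνK (le_iSup_of_le hνN le_rfl)))
  exact ⟨hab, fun hdisk => le_antisymm hab
    (Pool.Agent.Helper28Disc.disc_final K a b ha hb hdisk)⟩

end Pool.Agent.S05747
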