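import Pool.Statements.S06070
import Pool.Agent.Helper15_MM.Main
-- import your own Pool.Agent.* helpers here

set_option autoImplicit false
open Pool Pool.MP_c4dd1f_an

namespace Pool.Agent.S06070

/-- The negation of the preceding statement: For every real Banach space X and every maximally monotone set-valued map A from X to its continuous dual, the closure of the domain of A (points where A is nonempty) is a convex set. -/
theorem result :
    ¬ (∀ (X : Type) [NormedAddCommGroup X] [NormedSpace ℝ X] [CompleteSpace X]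
      (A : X → Set (X →L[ℝ] ℝ)),
      (∀ (x y : X) (xs ys : X →L[ℝ] ℝ), xs ∈ A x → ys ∈ A y → 0 ≤ (xs - ys) (x - y)) →
      (∀ (x : X) (xs : X →L[ℝ] ℝ),
          (∀ (y : X) (ys : X →L[ℝ] ℝ), ys ∈ A y → 0 ≤ (xs - ys) (x - y)) → xs ∈ A x) →
      Convex ℝ (closure {x : X | (A x).Nonempty})) := by
  intro h
  obtain ⟨G, hG, hmax, hnc⟩ := Pool.Agent.Helper15_MM.exists_nonconvex
  refine hnc ?_
  have h1 := h Pool.Agent.Helper15_MM.XX (fun x => {f | (x, f) ∈ G})
    (fun x y xs ys hx hy => hG (x, xs) hx (y, ys) hy)
    (fun x xs hx => hmax (x, xs) (fun p hp => hx p.1 p.2 hp))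
  exact h1

end Pool.Agent.S06070
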