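import Pool.Statements.S06103
import Pool.Agent.Helper54_ConvexBase.Main

set_option autoImplicit false
open Pool Pool.MP_c77722_an

namespace Pool.Agent.S06103

/-- Every real Banach space has a base for its norm topology consisting of convex sets that is a countable union of discrete families, i.e. each point has a neighbourhood meeting at most one set of each family. -/
theorem result :
    ∀ (X : Type) [NormedAddCommGroup X] [NormedSpace ℝ X] [CompleteSpace X],
      ∃ B : Set (Set X), TopologicalSpace.IsTopologicalBasis B ∧
        (∀ s ∈ B, Convex ℝ s) ∧
        ∃ F : ℕ → Set (Set X), B = ⋃ n, F n ∧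
          ∀ n : ℕ, ∀ x : X, ∃ U ∈ nhds x,
            Set.Subsingleton {s : Set X | s ∈ F n ∧ (s ∩ U).Nonempty} := by
  intro X _ _ _
  exact Pool.Agent.Helper54_ConvexBase.exists_convex_sigma_discrete_base X

end Pool.Agent.S06103
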