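import Pool.Statements.S06138
-- import your own Pool.Agent.* helpers here
import Pool.Agent.Helper87_CpFree.Final

set_option autoImplicit false
open Pool Pool.MP_c9b9fd_an

namespace Pool.Agent.S06138

/-- The negation of the preceding statement: There are infinite metric spaces M, N such that continuous real functions on M with the pointwise topology are homeomorphic to the Lipschitz-free space of N with its weak topology, i.e. pointwise convergence against Lipschitz functions vanishing at a base point. -/
theorem result :
    ¬ (∃ (M N : Type) (_ : MetricSpace M) (_ : MetricSpace N) (_ : Infinite M) (_ : Infinite N)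
      (n0 : N),
      Nonempty ({g : M → ℝ // Continuous g} ≃ₜ
        {Φ : {f : N → ℝ // f n0 = 0 ∧ ∃ K : NNReal, LipschitzWith K f} → ℝ //
          ∀ ε : ℝ, 0 < ε → ∃ c : N →₀ ℝ,
            ∀ f : {f : N → ℝ // f n0 = 0 ∧ ∃ K : NNReal, LipschitzWith K f},
              ∀ K : NNReal, LipschitzWith K f.1 →
                |Φ f - c.sum (fun x a => a * f.1 x)| ≤ ε * (K : ℝ)})) := by
  rintro ⟨M, N, _, _, _, _, n0, ⟨h⟩⟩
  exact Pool.Agent.Helper87_CpFree.not_homeo (M := M) (N := N) (n0 := n0) h

end Pool.Agent.S06138
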