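import Pool.Statements.S06247
-- import your own Pool.Agent.* helpers here
import Pool.Agent.Helper50_NAL.Fin

set_option autoImplicit false
open Pool Pool.MP_d20576_an

namespace Pool.Agent.S06247

/-- Every separable real Banach space admitting a Lipschitz map from the reals that fails a.e. differentiability (i.e. failing RNP) has a closed subspace with a Schauder basis that also admits such a map (also fails RNP). -/
theorem result :
  ∀ (X : Type) [NormedAddCommGroup X] [NormedSpace ℝ X] [CompleteSpace X]
    [TopologicalSpace.SeparableSpace X],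
    (∃ f : ℝ → X, (∃ K : NNReal, LipschitzWith K f) ∧
        ¬ (∀ᵐ t ∂MeasureTheory.volume, DifferentiableAt ℝ f t)) →
    ∃ Y : Submodule ℝ X, IsClosed (Y : Set X) ∧
      (∃ e : ℕ → X, (∀ i, e i ∈ Y) ∧
        ∀ y ∈ Y, ∃! a : ℕ → ℝ,
          Filter.Tendsto (fun n => ∑ i ∈ Finset.range n, a i • e i) Filter.atTop (nhds y)) ∧
      ∃ f : ℝ → X, (∀ t, f t ∈ Y) ∧ (∃ K : NNReal, LipschitzWith K f) ∧
        ¬ (∀ᵐ t ∂MeasureTheory.volume, DifferentiableAt ℝ f t) := by
  intro X _ _ _ _ h
  exact Pool.Agent.NA.H50.final X h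

end Pool.Agent.S06247
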