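import Pool.Statements.S06452
import Pool.Agent.Helper46_CZDS.Basic

set_option autoImplicit false
open Pool Pool.MP_e12d7b_an

namespace Pool.Agent.S06452

open Polynomial Pool.Agent.Helper46_CZDS

/-- coefficients of `(X - 1)^20 * (4 X^2 + 7 X + 4)` -/
def pL : List ℤ := mulL (powL [-1, 1] 20) [4, 7, 4]

/-- numerator of the sequence -/
def gN (k : ℕ) : ℕ := 63 ^ ((k - 10) + (k - 12)) * 256 ^ (10 * k + 11)

/-- denominator of the sequence -/
def gD (k : ℕ) : ℕ := 256 ^ (k.choose 2)

/-- integer values of the sequence for indices up to 22 -/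
def gI (k : ℕ) : ℤ := ((gN k / gD k : ℕ) : ℤ)

/-- coefficients of the transformed polynomial -/
def fL : List ℤ := (List.range 23).map (fun k => gI k * pL.getD k 0)

/-- the multiplier -/
def mL : List ℤ :=
  mulL [241, 42668, 5481107, 610086539, 62018749511, 5834041200000, 513828126720000,
    41877541748736000, 3117115464744960000, 201040687365818941440, 9444732965739290427392]
  [5056947169, 1703971328, 418225781, 88944414, 17275672, 3105032, 522515, 81366, 11571, 1426, 128]

/-- the sequence -/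
noncomputable def γ (k : ℕ) : ℝ := (gN k : ℝ) / (gD k : ℝ)

lemma γ_pos (k : ℕ) : 0 < γ k := by
  unfold γ gN gD
  positivity

lemma γ_cond (k : ℕ) : 4 * γ k * γ (k + 2) < γ (k + 1) ^ 2 := by
  unfold γ gN gD
  have h1 : (k + 1).choose 2 = k.choose 2 + k := by
    rw [Nat.choose_succ_succ' k 1, Nat.choose_one_right]; ring
  have h2 : (k + 2).choose 2 = k.choose 2 + k + (k + 1) := by
    rw [Nat.choose_succ_succ' (k + 1) 1, Nat.choose_one_right, ← h1]; ring
  rw [h1, h2]
  have hc : (0 : ℝ) < 256 ^ (k.choose 2) := by positivity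
  have hk : (0 : ℝ) < 256 ^ k := by positivity
  simp only [Nat.cast_mul, Nat.cast_pow, Nat.cast_ofNat]
  have e1 : (256 : ℝ) ^ (10 * (k + 1) + 11) = 256 ^ (10 * k + 11) * 256 ^ 10 := by
    rw [← pow_add]; congr 1
  have e2 : (256 : ℝ) ^ (10 * (k + 2) + 11) = 256 ^ (10 * k + 11) * 256 ^ 20 := by
    rw [← pow_add]; congr 1
  have e3 : (256 : ℝ) ^ (k.choose 2 + k) = 256 ^ (k.choose 2) * 256 ^ k := pow_add _ _ _
  have e4 : (256 : ℝ) ^ (k.choose 2 + k + (k + 1)) = 256 ^ (k.choose 2) * 256 ^ k * 256 ^ k * 256 := by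
    rw [pow_add, pow_add, pow_succ]; ring
  rw [e1, e2, e3, e4]
  have hb : (0 : ℝ) < 256 ^ (10 * k + 11) := by positivity
  generalize (256 : ℝ) ^ (10 * k + 11) = b at *
  generalize (256 : ℝ) ^ (k.choose 2) = c at *
  generalize (256 : ℝ) ^ k = d at *
  -- the exponent of 63
  have key : 4 * (63 : ℝ) ^ ((k - 10) + (k - 12)) * 63 ^ ((k + 2 - 10) + (k + 2 - 12)) <
      256 * (63 ^ ((k + 1 - 10) + (k + 1 - 12))) ^ 2 := by
    have hcase : (k - 10) + (k - 12) + ((k + 2 - 10) + (k + 2 - 12)) =
        2 * ((k + 1 - 10) + (k + 1 - 12)) ∨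
        (k - 10) + (k - 12) + ((k + 2 - 10) + (k + 2 - 12)) =
        2 * ((k + 1 - 10) + (k + 1 - 12)) + 1 := by omega
    rw [mul_assoc, ← pow_add, ← pow_mul, mul_comm _ 2]
    rcases hcase with h | h
    · rw [h]
      have : (0 : ℝ) < 63 ^ (2 * ((k + 1 - 10) + (k + 1 - 12))) := by positivity
      linarith
    · rw [h, pow_succ]
      have : (0 : ℝ) < 63 ^ (2 * ((k + 1 - 10) + (k + 1 - 12))) := by positivity
      linarith
  generalize (63 : ℝ) ^ ((k - 10) + (k - 12)) = u at *
  generalize (63 : ℝ) ^ ((k + 2 - 10) + (k + 2 - 12)) = v at *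
  generalize (63 : ℝ) ^ ((k + 1 - 10) + (k + 1 - 12)) = w at *
  have l : 4 * (u * b / c) * (v * (b * 256 ^ 20) / (c * d * d * 256)) =
      (b ^ 2 * 256 ^ 20 / (c ^ 2 * d ^ 2 * 256)) * (4 * u * v) := by
    field_simp
  have r : (w * (b * 256 ^ 10) / (c * d)) ^ 2 =
      (b ^ 2 * 256 ^ 20 / (c ^ 2 * d ^ 2 * 256)) * (256 * w ^ 2) := by
    field_simp
  rw [l, r]
  exact mul_lt_mul_of_pos_left key (by positivity)

lemma pL_length : pL.length = 22 + 1 := by decide +kernel
lemma pL_last : pL.getD 22 0 ≠ 0 := by decide +kernel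
lemma fL_length : fL.length = 22 + 1 := by decide +kernel
lemma fL_last : fL.getD 22 0 ≠ 0 := by decide +kernel
lemma fL_alt : alt true fL = true := by decide +kernel
lemma fL_ne : fL ≠ [] := by decide +kernel
lemma prod_length : (mulL fL mL).length = 42 + 1 := by decide +kernel
lemma prod_last : (mulL fL mL).getD 42 0 ≠ 0 := by decide +kernel
lemma prod_sv : sv (mulL fL mL).reverse ≤ 18 := by decide +kernel
lemma fL_coeff : ∀ k < 23, fL.getD k 0 * (gD k : ℤ) = (gN k : ℤ) * pL.getD k 0 := by
  decide +kernel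

lemma toPoly_pL : toPoly pL = (X - C 1) ^ 20 * toPoly [4, 7, 4] := by
  have : toPoly [-1, 1] = X - C 1 := by
    simp; ring
  rw [pL, toPoly_mulL, toPoly_powL, this]

lemma card_roots_pL : 20 ≤ (toPoly pL).roots.card := by
  have hne : toPoly pL ≠ 0 := by
    intro h
    have := coeff_toPoly pL 22
    rw [h, coeff_zero] at this
    exact pL_last (by exact_mod_cast this.symm)
  rw [toPoly_pL] at hne ⊢
  rw [roots_mul hne, roots_pow, roots_X_sub_C]
  simp

/-- The negation of the preceding statement: For every positive real sequence with γ_{k+1}² > 4γ_kγ_{k+2} for all k, multiplying the coefficients of any real polynomial termwise by γ_k never increases the number of nonreal zeros, counted with multiplicity. -/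
theorem result :
    ¬ (∀ γ : ℕ → ℝ, (∀ k, 0 < γ k) →
      (∀ k, 4 * γ k * γ (k + 2) < γ (k + 1) ^ 2) →
      ∀ p q : Polynomial ℝ, (∀ k, q.coeff k = γ k * p.coeff k) →
        q.natDegree - q.roots.card ≤ p.natDegree - p.roots.card) := by
  intro H
  have h := H γ γ_pos γ_cond (toPoly pL) (toPoly fL) ?_
  · rw [natDegree_toPoly 22 pL_length pL_last, natDegree_toPoly 22 fL_length fL_last] at h
    have h1 := card_roots_pL
    have h2 : (toPoly fL).roots.card ≤ 18 :=
      card_roots_le 42 18 fL_alt fL_ne prod_length prod_last prod_sv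
    omega
  · intro k
    rw [coeff_toPoly, coeff_toPoly]
    by_cases hk : k < 23
    · have := fL_coeff k hk
      have h3 : ((fL.getD k 0 : ℤ) : ℝ) * (gD k : ℝ) = (gN k : ℝ) * ((pL.getD k 0 : ℤ) : ℝ) := by
        exact_mod_cast this
      have hd : (0 : ℝ) < (gD k : ℝ) := by
        unfold gD; positivity
      unfold γ
      field_simp
      linarith
    · rw [List.getD_eq_default _ _ (by rw [fL_length]; omega),
        List.getD_eq_default _ _ (by rw [pL_length]; omega)]
      simp

end Pool.Agent.S06452
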