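import Pool.Statements.S06515
import Pool.Agent.Helper95_PSC.Final

set_option autoImplicit false
open Pool Pool.MP_e732b0_an

namespace Pool.Agent.S06515

/-- Every unimodular irreducible Pisot substitution's subshift with the left shift maps continuously onto some torus, intertwining the shift with a minimal translation, and the map is one-to-one off a Haar-null set. -/
theorem result :
    ∀ (d : ℕ), 2 ≤ d →
    ∀ σ : Fin d → List (Fin d), (∀ a, σ a ≠ []) →
    ∀ M : Matrix (Fin d) (Fin d) ℤ, (∀ i j, M i j = ((σ j).count i : ℤ)) →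
    (∃ r : ℝ, 1 < r ∧ Polynomial.aeval (r : ℂ) M.charpoly = 0 ∧
      ∀ μ : ℂ, Polynomial.aeval μ M.charpoly = 0 → μ ≠ (r : ℂ) → 0 < ‖μ‖ ∧ ‖μ‖ < 1) →
    Irreducible (M.charpoly.map (Int.castRingHom ℚ)) →
    (M.det = 1 ∨ M.det = -1) →
    ∀ X : Set (ℤ → Fin d),
      (∀ x : ℤ → Fin d, x ∈ X ↔
        ∀ (i : ℤ) (k : ℕ), ∃ (n : ℕ) (a : Fin d), 1 ≤ n ∧
          List.IsInfix (List.ofFn (fun j : Fin k => x (i + ((j : ℕ) : ℤ))))
            ((fun w : List (Fin d) => w.flatMap σ)^[n] [a])) →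
    ∃ (m : ℕ) (γ : Fin m → UnitAddCircle),
      (∀ y : Fin m → UnitAddCircle, Dense (Set.range (fun n : ℤ => y + n • γ))) ∧
      ∃ π : (ℤ → Fin d) → (Fin m → UnitAddCircle),
        ContinuousOn π X ∧ π '' X = Set.univ ∧
        (∀ x ∈ X, π (fun n => x (n + 1)) = π x + γ) ∧
        ∃ N : Set (Fin m → UnitAddCircle), MeasureTheory.volume N = 0 ∧
          ∀ y ∉ N, ∃! x, x ∈ X ∧ π x = y := by
  exact Pool.Agent.PSC.pisot_ok

end Pool.Agent.S06515
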