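import Pool.Statements.S06646
import Pool.Agent.Helper72_Valence.Arith

set_option autoImplicit false
open Pool Pool.MP_f04b5a_an

namespace Pool.Agent.S06646

/-- The negation of the preceding statement: For every α with 0<α≤1/(1+e^π) there is N such that for all normalized univalent f, g on the unit disk, αf+(1−α)g takes each complex value at most N times in the disk. -/
theorem result :
    ¬ (∀ α : ℝ, 0 < α → α ≤ 1 / (1 + Real.exp Real.pi) →
      ∃ N : ℕ, ∀ f g : ℂ → ℂ,
        (DifferentiableOn ℂ f (Metric.ball (0 : ℂ) 1) ∧ Set.InjOn f (Metric.ball (0 : ℂ) 1) ∧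
          f 0 = 0 ∧ deriv f 0 = 1) →
        (DifferentiableOn ℂ g (Metric.ball (0 : ℂ) 1) ∧ Set.InjOn g (Metric.ball (0 : ℂ) 1) ∧
          g 0 = 0 ∧ deriv g 0 = 1) →
        ∀ w : ℂ,
          {z : ℂ | z ∈ Metric.ball (0 : ℂ) 1 ∧
              (α : ℂ) * f z + (1 - (α : ℂ)) * g z = w}.encard ≤ (N : ℕ∞)) := by
  intro h
  have hpos : (0 : ℝ) < 1 / (1 + Real.exp Real.pi) := by positivity
  have hlt : (1 : ℝ) / (1 + Real.exp Real.pi) < 1 := by
    rw [div_lt_one (by positivity)]
    have := Real.exp_pos Real.pi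
    linarith
  obtain ⟨N, hN⟩ := h _ hpos le_rfl
  obtain ⟨f, g, hf, hg, w, hw⟩ := Pool.Agent.Helper72_Valence.arith _ hpos hlt
  have h1 := hN f g hf hg w
  rw [hw.encard_eq] at h1
  exact absurd h1 (by simp)

end Pool.Agent.S06646
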