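import Pool.Statements.S06688
-- import your own Pool.Agent.* helpers here
import Pool.Agent.Helper18_Henkin.Main

set_option autoImplicit false
open Pool Pool.MP_f36430_an

namespace Pool.Agent.S06688

/-- The negation of the preceding statement: For every n, every bounded holomorphic f on the unit ball of ℂⁿ, and every representing measure ρ for the origin of the ball algebra (on the sphere), the set of sphere points where f(rζ) has no limit as r→1⁻ is ρ-null. -/
theorem result :
    ¬ (∀ (n : ℕ) (f : EuclideanSpace ℂ (Fin n) → ℂ),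
      DifferentiableOn ℂ f (Metric.ball 0 1) →
      (∃ C : ℝ, ∀ z ∈ Metric.ball (0 : EuclideanSpace ℂ (Fin n)) 1, ‖f z‖ ≤ C) →
      ∀ ρ : MeasureTheory.Measure (EuclideanSpace ℂ (Fin n)),
        MeasureTheory.IsFiniteMeasure ρ →
        ρ (Metric.sphere (0 : EuclideanSpace ℂ (Fin n)) 1)ᶜ = 0 →
        (∀ g : EuclideanSpace ℂ (Fin n) → ℂ,
            ContinuousOn g (Metric.closedBall 0 1) →
            DifferentiableOn ℂ g (Metric.ball 0 1) →
            ∫ z, g z ∂ρ = g 0) →
        ρ {ζ | ζ ∈ Metric.sphere (0 : EuclideanSpace ℂ (Fin n)) 1 ∧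
            ¬ ∃ L : ℂ, Filter.Tendsto (fun r : ℝ => f ((r : ℂ) • ζ))
                (nhdsWithin 1 (Set.Iio 1)) (nhds L)} = 0) := by
  intro h
  obtain ⟨F, hF, hC, ρ, hfin, hsph, hrep, hne⟩ := Pool.Agent.Helper18_Henkin.counterexample
  exact hne (h 2 F hF hC ρ hfin hsph hrep)

end Pool.Agent.S06688
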