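import Pool.Statements.S07103
import Pool.Agent.Helper62_CoverFree.Upper
import Pool.Agent.Common_PNT.PNT

set_option autoImplicit false
open Filter
open Pool Pool.MP_0b1105_co

namespace Pool.Agent.S07103

/-- Let N(t) be the least n such that some family of more than n subsets of an n-set has no member inside the union of at most t other members; then N(t)/t^2 tends to 1 as t tends to infinity. -/
theorem result :
    Tendsto
      (fun t : ℕ =>
        ((sInf {n : ℕ | ∃ F : Finset (Finset (Fin n)), n < F.card ∧
            ∀ A ∈ F, ∀ S ⊆ F.erase A, S.card ≤ t → ¬ A ⊆ S.sup id} : ℕ) : ℝ)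
          / ((t : ℝ) ^ 2))
      atTop (nhds 1) := by
  refine Pool.Agent.Helper62_CoverFree.tendsto_of_primes ?_
  intro ε hε
  filter_upwards [Pool.Agent.Common_PNT.eventually_exists_prime_nat ε hε] with t ht
  obtain ⟨p, hp, h1, h2⟩ := ht
  exact ⟨p, hp.isPrimePow, h1, h2⟩

end Pool.Agent.S07103
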