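import Pool.Statements.S07391
import Pool.Agent.Helper40_Tri.T13

set_option autoImplicit false
open Pool Pool.MP_185e9d_co

namespace Pool.Agent.S07391

/-- For every 3-graph H and ε>0, for all large n, every induced-H-free 3-graph on n vertices has disjoint sets A,B,C, each of size at least (log n)^(1-ε), with all or none of the triples abc (a∈A,b∈B,c∈C) being edges. -/
theorem result :
    ∀ (k : ℕ) (H : Finset (Finset (Fin k))), (∀ e ∈ H, e.card = 3) →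
    ∀ ε : ℝ, 0 < ε → ∃ N : ℕ, ∀ n : ℕ, N ≤ n →
    ∀ G : Finset (Finset (Fin n)), (∀ e ∈ G, e.card = 3) →
    (¬ ∃ f : Fin k ↪ Fin n, ∀ s : Finset (Fin k), s.card = 3 → (s ∈ H ↔ s.map f ∈ G)) →
    ∃ A B C : Finset (Fin n), Disjoint A B ∧ Disjoint A C ∧ Disjoint B C ∧
      (Real.log (n : ℝ)) ^ (1 - ε) ≤ (A.card : ℝ) ∧
      (Real.log (n : ℝ)) ^ (1 - ε) ≤ (B.card : ℝ) ∧
      (Real.log (n : ℝ)) ^ (1 - ε) ≤ (C.card : ℝ) ∧
      ((∀ a ∈ A, ∀ b ∈ B, ∀ c ∈ C, ({a, b, c} : Finset (Fin n)) ∈ G) ∨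
       (∀ a ∈ A, ∀ b ∈ B, ∀ c ∈ C, ({a, b, c} : Finset (Fin n)) ∉ G)) :=
  Pool.Agent.Tri.final

end Pool.Agent.S07391
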