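import Pool.Statements.S08123
import Pool.Agent.Helper90_LPV.Final2
import Pool.Agent.Helper90_SOS.Cert

set_option autoImplicit false
open Pool Pool.MP_37fa12_co

namespace Pool.Agent.S08123

/-- There is a dimension n in which the supremum of upper densities of unit-ball packings centered on lattices is strictly less than the supremum over all unit-ball packings of R^n. -/
theorem result :
    ∃ n : ℕ,
      (⨆ (L : AddSubgroup (EuclideanSpace ℝ (Fin n)))
          (_ : (L : Set (EuclideanSpace ℝ (Fin n))).Pairwise (fun x y => 2 ≤ dist x y)),
          Filter.limsup (fun R : ℝ =>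
            MeasureTheory.volume
                ((⋃ x ∈ (L : Set (EuclideanSpace ℝ (Fin n))), Metric.ball x 1) ∩
                  Metric.ball (0 : EuclideanSpace ℝ (Fin n)) R) /
              MeasureTheory.volume (Metric.ball (0 : EuclideanSpace ℝ (Fin n)) R))
            Filter.atTop)
      <
      (⨆ (X : Set (EuclideanSpace ℝ (Fin n)))
          (_ : X.Pairwise (fun x y => 2 ≤ dist x y)),
          Filter.limsup (fun R : ℝ =>
            MeasureTheory.volume
                ((⋃ x ∈ X, Metric.ball x 1) ∩
                  Metric.ball (0 : EuclideanSpace ℝ (Fin n)) R) /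
              MeasureTheory.volume (Metric.ball (0 : EuclideanSpace ℝ (Fin n)) R))
            Filter.atTop) :=
  Pool.Agent.LPV.H90.goal Pool.Agent.SOS.H90.d22.W Pool.Agent.SOS.H90.cert

end Pool.Agent.S08123
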