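import Pool.Statements.S08406

set_option autoImplicit false
open Pool Pool.MP_4366b5_co

namespace Pool.Agent.S08406

/-- `G` has a vertex cover with at most `t` vertices. -/
def Cov {V : Type} (G : SimpleGraph V) (t : ℕ) : Prop :=
  ∃ C : Finset V, C.card ≤ t ∧ ∀ a b, G.Adj a b → a ∈ C ∨ b ∈ C

/-- a graph without a small vertex cover has a bounded set of vertices witnessing this. -/
theorem cov_witness {V : Type} [DecidableEq V] (t : ℕ) : ∀ G : SimpleGraph V, ¬ Cov G t →
    ∃ S : Finset V, S.card + 2 ≤ 2 ^ (t + 2) ∧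
      ∀ C : Finset V, C.card ≤ t → ∃ a ∈ S, ∃ b ∈ S, G.Adj a b ∧ a ∉ C ∧ b ∉ C := by
  induction t with
  | zero =>
    intro G hG
    have hex : ∃ a b, G.Adj a b := by
      by_contra hno
      push Not at hno
      exact hG ⟨∅, by simp, fun a b hab => absurd hab (hno a b)⟩
    obtain ⟨a, b, hab⟩ := hex
    refine ⟨{a, b}, ?_, ?_⟩
    · have := Finset.card_le_two (a := a) (b := b)
      omega
    · intro C hC
      have hC0 : C = ∅ := by
        apply Finset.card_eq_zero.mp
        omega
      subst hC0
      exact ⟨a, by simp, b, by simp, hab, by simp, by simp⟩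
  | succ t ih =>
    intro G hG
    have hex : ∃ a b, G.Adj a b := by
      by_contra hno
      push Not at hno
      exact hG ⟨∅, by simp, fun a b hab => absurd hab (hno a b)⟩
    obtain ⟨u, v, huv⟩ := hex
    -- deletion of a vertex
    have key : ∀ w : V, ∃ S : Finset V, S.card + 2 ≤ 2 ^ (t + 2) ∧
        ∀ C : Finset V, C.card ≤ t →
          ∃ a ∈ S, ∃ b ∈ S, (G.Adj a b ∧ a ≠ w ∧ b ≠ w) ∧ a ∉ C ∧ b ∉ C := by
      intro w
      let Gw : SimpleGraph V :=
        { Adj := fun a b => G.Adj a b ∧ a ≠ w ∧ b ≠ w
          symm := ⟨fun a b h => ⟨h.1.symm, h.2.2, h.2.1⟩⟩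
          loopless := ⟨fun a h => G.loopless.irrefl a h.1⟩ }
      have hGw : ¬ Cov Gw t := by
        rintro ⟨C, hC, hcov⟩
        apply hG
        refine ⟨insert w C, ?_, ?_⟩
        · have := Finset.card_insert_le w C
          omega
        · intro a b hab
          by_cases ha : a = w
          · left; simp [ha]
          by_cases hb : b = w
          · right; simp [hb]
          rcases hcov a b ⟨hab, ha, hb⟩ with h | h
          · left; simp [h]
          · right; simp [h]
      exact ih Gw hGw
    obtain ⟨Su, hSu, hSu'⟩ := key u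
    obtain ⟨Sv, hSv, hSv'⟩ := key v
    refine ⟨{u, v} ∪ (Su ∪ Sv), ?_, ?_⟩
    · have h1 := Finset.card_union_le ({u, v} : Finset V) (Su ∪ Sv)
      have h2 := Finset.card_union_le Su Sv
      have h3 := Finset.card_le_two (a := u) (b := v)
      have h4 : 2 ^ (t + 1 + 2) = 2 * 2 ^ (t + 2) := by ring
      omega
    · intro C hC
      by_cases hu : u ∈ C
      · have hc : (C.erase u).card ≤ t := by
          rw [Finset.card_erase_of_mem hu]; omega
        obtain ⟨a, ha, b, hb, ⟨hab, hau, hbu⟩, haC, hbC⟩ := hSu' (C.erase u) hc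
        refine ⟨a, by simp [ha], b, by simp [hb], hab, ?_, ?_⟩
        · intro h; exact haC (Finset.mem_erase.mpr ⟨hau, h⟩)
        · intro h; exact hbC (Finset.mem_erase.mpr ⟨hbu, h⟩)
      by_cases hv : v ∈ C
      · have hc : (C.erase v).card ≤ t := by
          rw [Finset.card_erase_of_mem hv]; omega
        obtain ⟨a, ha, b, hb, ⟨hab, hau, hbu⟩, haC, hbC⟩ := hSv' (C.erase v) hc
        refine ⟨a, by simp [ha], b, by simp [hb], hab, ?_, ?_⟩
        · intro h; exact haC (Finset.mem_erase.mpr ⟨hau, h⟩)
        · intro h; exact hbC (Finset.mem_erase.mpr ⟨hbu, h⟩)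
      · exact ⟨u, by simp, v, by simp, huv, hu, hv⟩

/-- the forbidden property: a clique on seven vertices, or no vertex cover of size five and
at least 63 ordered adjacent pairs (that is, at least 32 edges). -/
def Bad {V : Type} (G : SimpleGraph V) : Prop :=
  (∃ g : Fin 7 ↪ V, ∀ a b, a ≠ b → G.Adj (g a) (g b)) ∨
    (¬ Cov G 5 ∧ ∃ P : Finset (V × V), 63 ≤ P.card ∧ ∀ p ∈ P, G.Adj p.1 p.2)

/-- a bad graph on at least `M0` vertices contains a bad graph on exactly `M0` vertices. -/
theorem bad_extract {M0 N : ℕ} (hM : 300 ≤ M0) (hN : M0 ≤ N) (G : SimpleGraph (Fin N)) (hG : Bad G) :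
    ∃ H : SimpleGraph (Fin M0), Bad H ∧
      ∃ f : Fin M0 ↪ Fin N, ∀ a b, H.Adj a b → G.Adj (f a) (f b) := by
  -- a general extraction from a vertex set
  have ext : ∀ S : Finset (Fin N), S.card ≤ M0 →
      ∃ f : Fin M0 ↪ Fin N, ∀ s ∈ S, ∃ x, f x = s := by
    intro S hS
    obtain ⟨S', hSS', hcard⟩ := Finset.exists_superset_card_eq hS (by simpa using hN)
    refine ⟨(S'.orderEmbOfFin hcard).toEmbedding, ?_⟩
    intro s hs
    have : s ∈ Set.range (S'.orderEmbOfFin hcard) := by
      rw [Finset.range_orderEmbOfFin]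
      exact hSS' hs
    exact this
  rcases hG with ⟨g, hg⟩ | ⟨hcov, P, hP, hPadj⟩
  · obtain ⟨f, hf⟩ := ext (Finset.univ.map g) (by simp; omega)
    refine ⟨G.comap f, Or.inl ?_, f, fun a b hab => hab⟩
    have hx : ∀ a : Fin 7, ∃ x, f x = g a := fun a => hf (g a) (by simp)
    choose x hx using hx
    refine ⟨⟨x, ?_⟩, ?_⟩
    · intro a b hab
      apply g.injective
      rw [← hx a, ← hx b, hab]
    · intro a b hab
      show G.Adj (f (x a)) (f (x b))
      rw [hx a, hx b]
      exact hg a b hab
  · obtain ⟨S, hS, hS'⟩ := cov_witness 5 G hcov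
    obtain ⟨P', hP'P, hP'⟩ := Finset.exists_subset_card_eq hP
    have hcard : (S ∪ (P'.image Prod.fst ∪ P'.image Prod.snd)).card ≤ M0 := by
      have h1 := Finset.card_union_le S (P'.image Prod.fst ∪ P'.image Prod.snd)
      have h2 := Finset.card_union_le (P'.image Prod.fst) (P'.image Prod.snd)
      have h3 : (P'.image Prod.fst).card ≤ P'.card := Finset.card_image_le
      have h4 : (P'.image Prod.snd).card ≤ P'.card := Finset.card_image_le
      have h5 : (2 : ℕ) ^ (5 + 2) = 128 := by norm_num
      omega
    obtain ⟨f, hf⟩ := ext _ hcard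
    refine ⟨G.comap f, Or.inr ⟨?_, ?_⟩, f, fun a b hab => hab⟩
    · rintro ⟨C, hC, hCov⟩
      obtain ⟨a, ha, b, hb, hab, haC, hbC⟩ := hS' (C.map f) (by simpa using hC)
      obtain ⟨x, rfl⟩ := hf a (by simp [ha])
      obtain ⟨y, rfl⟩ := hf b (by simp [hb])
      rcases hCov x y hab with h | h
      · exact haC (by simpa using h)
      · exact hbC (by simpa using h)
    · classical
      refine ⟨Finset.univ.filter fun p : Fin M0 × Fin M0 => (f p.1, f p.2) ∈ P', ?_, ?_⟩
      · rw [← hP']
        apply Finset.card_le_card_of_surjOn (fun p : Fin M0 × Fin M0 => (f p.1, f p.2))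
        rintro ⟨a, b⟩ hp
        have hp' : (a, b) ∈ P' := Finset.mem_coe.mp hp
        obtain ⟨x, hx⟩ := hf a (by
          simp only [Finset.mem_union, Finset.mem_image]
          right; left; exact ⟨(a, b), hp', rfl⟩)
        obtain ⟨y, hy⟩ := hf b (by
          simp only [Finset.mem_union, Finset.mem_image]
          right; right; exact ⟨(a, b), hp', rfl⟩)
        subst hx; subst hy
        exact ⟨(x, y), Finset.mem_coe.mpr (Finset.mem_filter.mpr ⟨Finset.mem_univ _, hp'⟩), rfl⟩
      · intro p hp
        have hp' : (f p.1, f p.2) ∈ P' := (Finset.mem_filter.mp hp).2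
        exact hPadj _ (hP'P hp')

/-- colour class `i` of an edge colouring of a complete graph. -/
def cls {N k : ℕ} (c : Sym2 (Fin N) → Fin k) (i : Fin k) : SimpleGraph (Fin N) where
  Adj a b := a ≠ b ∧ c s(a, b) = i
  symm := ⟨fun a b h => ⟨h.1.symm, by rw [Sym2.eq_swap]; exact h.2⟩⟩
  loopless := ⟨fun _ h => h.1 rfl⟩

/-- every `k`-colouring of a complete graph on at least `5 k + 2` vertices has a bad class. -/
theorem exists_bad {N k : ℕ} (hN : 5 * k + 2 ≤ N) (c : Sym2 (Fin N) → Fin k) :
    ∃ i, Bad (cls c i) := by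
  classical
  by_contra hno
  push Not at hno
  let T : Finset (Fin k) := Finset.univ.filter fun i => Cov (cls c i) 5
  have hC : ∀ i : Fin k, ∃ C : Finset (Fin N), C.card ≤ 5 ∧
      (i ∈ T → ∀ a b, (cls c i).Adj a b → a ∈ C ∨ b ∈ C) := by
    intro i
    by_cases hi : i ∈ T
    · obtain ⟨C, hC1, hC2⟩ := (Finset.mem_filter.mp hi).2
      exact ⟨C, hC1, fun _ => hC2⟩
    · exact ⟨∅, by simp, fun h => absurd h hi⟩
  choose C hCcard hCcov using hC
  let X : Finset (Fin N) := T.biUnion C
  have hX : X.card ≤ T.card * 5 := Finset.card_biUnion_le_card_mul _ _ _ fun i _ => hCcard i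
  let W : Finset (Fin N) := Xᶜ
  let L : Finset (Fin k) := Tᶜ
  have hLc : L.card = k - T.card := by
    show (Tᶜ).card = _
    rw [Finset.card_compl, Fintype.card_fin]
  have hTk : T.card ≤ k := by
    have := Finset.card_le_univ T
    simpa using this
  have hW : 5 * L.card + 2 ≤ W.card := by
    have : W.card = N - X.card := by
      show (Xᶜ).card = _
      rw [Finset.card_compl, Fintype.card_fin]
    omega
  have hWc : ∀ a ∈ W, ∀ b ∈ W, a ≠ b → c s(a, b) ∈ L := by
    intro a ha b hb hab
    by_contra hcon
    have hT : c s(a, b) ∈ T := by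
      by_contra h
      exact hcon (Finset.mem_compl.mpr h)
    have hadj : (cls c (c s(a, b))).Adj a b := ⟨hab, rfl⟩
    rcases hCcov _ hT a b hadj with h | h
    · exact (Finset.mem_compl.mp ha) (Finset.mem_biUnion.mpr ⟨_, hT, h⟩)
    · exact (Finset.mem_compl.mp hb) (Finset.mem_biUnion.mpr ⟨_, hT, h⟩)
  have hL : ∀ i ∈ L, (W.offDiag.filter (fun p => c s(p.1, p.2) = i)).card ≤ 62 := by
    intro i hi
    by_contra hcon
    push Not at hcon
    apply hno i
    right
    refine ⟨?_, W.offDiag.filter (fun p => c s(p.1, p.2) = i), by omega, ?_⟩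
    · intro hcov
      exact (Finset.mem_compl.mp hi) (Finset.mem_filter.mpr ⟨Finset.mem_univ _, hcov⟩)
    · intro p hp
      rw [Finset.mem_filter, Finset.mem_offDiag] at hp
      exact ⟨hp.1.2.2, hp.2⟩
  have hsum : W.offDiag.card ≤ 62 * L.card := by
    apply Finset.card_le_mul_card_image_of_maps_to (f := fun p => c s(p.1, p.2)) (t := L)
    · intro p hp
      rw [Finset.mem_offDiag] at hp
      exact hWc _ hp.1 _ hp.2.1 hp.2.2
    · exact hL
  rw [Finset.offDiag_card] at hsum
  have hsq : W.card * W.card ≤ 62 * L.card + W.card := by omega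
  rcases Nat.lt_or_ge L.card 2 with h2 | h2
  · rcases Nat.eq_zero_or_pos L.card with h0 | h0
    · rw [h0] at hW hsq
      nlinarith
    · have h1 : L.card = 1 := by omega
      obtain ⟨i, hi⟩ := Finset.card_eq_one.mp h1
      have hW7 : 7 ≤ W.card := by omega
      obtain ⟨W', hW'W, hW'⟩ := Finset.exists_subset_card_eq hW7
      apply hno i
      left
      refine ⟨(W'.orderEmbOfFin hW').toEmbedding, ?_⟩
      intro a b hab
      have hab' : (W'.orderEmbOfFin hW') a ≠ (W'.orderEmbOfFin hW') b := by
        intro h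
        exact hab ((W'.orderEmbOfFin hW').injective h)
      refine ⟨hab', ?_⟩
      have := hWc _ (hW'W (Finset.orderEmbOfFin_mem W' hW' a)) _
        (hW'W (Finset.orderEmbOfFin_mem W' hW' b)) hab'
      rw [hi] at this
      exact Finset.mem_singleton.mp this
  · nlinarith

/-- the host graph: all pairs are adjacent except the five pairs at distance two or three inside
the last five vertices, which therefore induce a five-cycle. -/
def host (k : ℕ) : SimpleGraph (Fin (5 * k + 4)) where
  Adj a b := a ≠ b ∧ ¬ (5 * k ≤ a.val + 1 ∧ 5 * k ≤ b.val + 1 ∧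
    (a.val + 2 = b.val ∨ b.val + 2 = a.val ∨ a.val + 3 = b.val ∨ b.val + 3 = a.val))
  symm := ⟨fun _ _ h => ⟨h.1.symm, by omega⟩⟩
  loopless := ⟨fun _ h => h.1 rfl⟩

/-- the host graph needs at least `5 k + 2` colours. -/
theorem host_colors {k N : ℕ} (hk : 1 ≤ k) (h : (host k).Colorable N) : 5 * k + 2 ≤ N := by
  classical
  obtain ⟨φ⟩ := h
  let v : ℕ → Fin (5 * k + 4) := fun j => ⟨min j (5 * k + 3), by omega⟩
  have hv : ∀ j, j < 5 * k + 4 → (v j).val = j := by
    intro j hj
    show min j (5 * k + 3) = j
    omega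
  let g : ℕ → Fin N := fun j => φ (v j)
  have hne : ∀ i j, i < 5 * k + 4 → j < 5 * k + 4 → i ≠ j →
      ¬ (5 * k ≤ i + 1 ∧ 5 * k ≤ j + 1 ∧ (i + 2 = j ∨ j + 2 = i ∨ i + 3 = j ∨ j + 3 = i)) →
      g i ≠ g j := by
    intro i j hi hj hij hn
    apply φ.valid
    refine ⟨?_, ?_⟩
    · intro he
      have := congrArg Fin.val he
      rw [hv i hi, hv j hj] at this
      exact hij this
    · rw [hv i hi, hv j hj]
      exact hn
  -- three distinct colours on the five-cycle
  have h3 : ∃ x y z : ℕ, (5 * k ≤ x + 1 ∧ x < 5 * k + 4) ∧ (5 * k ≤ y + 1 ∧ y < 5 * k + 4) ∧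
      (5 * k ≤ z + 1 ∧ z < 5 * k + 4) ∧ g x ≠ g y ∧ g y ≠ g z ∧ g x ≠ g z := by
    have e01 := hne (5 * k - 1) (5 * k) (by omega) (by omega) (by omega) (by omega)
    have e12 := hne (5 * k) (5 * k + 1) (by omega) (by omega) (by omega) (by omega)
    have e23 := hne (5 * k + 1) (5 * k + 2) (by omega) (by omega) (by omega) (by omega)
    have e34 := hne (5 * k + 2) (5 * k + 3) (by omega) (by omega) (by omega) (by omega)
    have e40 := hne (5 * k + 3) (5 * k - 1) (by omega) (by omega) (by omega) (by omega)
    by_cases h02 : g (5 * k - 1) = g (5 * k + 1)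
    · refine ⟨5 * k + 2, 5 * k + 3, 5 * k - 1, by omega, by omega, by omega, e34, e40, ?_⟩
      rw [h02]
      exact e23.symm
    · exact ⟨5 * k - 1, 5 * k, 5 * k + 1, by omega, by omega, by omega, e01, e12, h02⟩
  obtain ⟨x, y, z, hx, hy, hz, hxy, hyz, hxz⟩ := h3
  have hA : ((Finset.range (5 * k - 1)).image g).card = 5 * k - 1 := by
    rw [Finset.card_image_of_injOn, Finset.card_range]
    intro i hi j hj hij
    by_contra hcon
    have hi' : i < 5 * k - 1 := by simpa using hi
    have hj' : j < 5 * k - 1 := by simpa using hj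
    exact hne i j (by omega) (by omega) hcon (by omega) hij
  have hB : ({g x, g y, g z} : Finset (Fin N)).card = 3 := by
    rw [Finset.card_eq_three]
    exact ⟨g x, g y, g z, hxy, hxz, hyz, rfl⟩
  have hdisj : Disjoint ((Finset.range (5 * k - 1)).image g) ({g x, g y, g z} : Finset (Fin N)) := by
    rw [Finset.disjoint_left]
    intro w hw hw'
    rw [Finset.mem_image] at hw
    obtain ⟨i, hi, rfl⟩ := hw
    have hi' : i < 5 * k - 1 := by simpa using hi
    simp only [Finset.mem_insert, Finset.mem_singleton] at hw'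
    rcases hw' with h | h | h
    · exact hne i x (by omega) (by omega) (by omega) (by omega) h
    · exact hne i y (by omega) (by omega) (by omega) (by omega) h
    · exact hne i z (by omega) (by omega) (by omega) (by omega) h
  have hcard := Finset.card_union_of_disjoint hdisj
  have hle := Finset.card_le_univ
    ((Finset.range (5 * k - 1)).image g ∪ ({g x, g y, g z} : Finset (Fin N)))
  rw [Fintype.card_fin] at hle
  omega

/-- a clique on seven vertices has no vertex cover of size five. -/
theorem clique_not_cov {V : Type} (G : SimpleGraph V) (g : Fin 7 ↪ V)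
    (hg : ∀ a b, a ≠ b → G.Adj (g a) (g b)) : ¬ Cov G 5 := by
  classical
  rintro ⟨C, hC, hcov⟩
  let D : Finset (Fin 7) := Finset.univ.filter fun j => g j ∈ C
  have hD : D.card ≤ 5 := by
    refine le_trans ?_ hC
    apply Finset.card_le_card_of_injOn g
    · intro j hj
      exact (Finset.mem_filter.mp hj).2
    · exact g.injective.injOn
  have hDc : 1 < (Dᶜ).card := by
    rw [Finset.card_compl, Fintype.card_fin]; omega
  obtain ⟨a, ha, b, hb, hab⟩ := Finset.one_lt_card.mp hDc
  rcases hcov _ _ (hg a b hab) with h | h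
  · exact (Finset.mem_compl.mp ha) (Finset.mem_filter.mpr ⟨Finset.mem_univ _, h⟩)
  · exact (Finset.mem_compl.mp hb) (Finset.mem_filter.mpr ⟨Finset.mem_univ _, h⟩)

theorem small_clique : ∀ x y : Fin 9, ∃ a b : Fin 9, a ≠ x ∧ a ≠ y ∧ b ≠ x ∧ b ≠ y ∧
    (4 ≤ a.val ∧ 4 ≤ b.val ∧ (a.val + 2 = b.val ∨ a.val + 3 = b.val)) := by
  decide

theorem small_edges : (Finset.univ.filter fun p : Fin 9 × Fin 9 => p.1 ≠ p.2 ∧
    ¬ (4 ≤ p.1.val ∧ 4 ≤ p.2.val ∧ (p.1.val + 2 = p.2.val ∨ p.2.val + 2 = p.1.val ∨
      p.1.val + 3 = p.2.val ∨ p.2.val + 3 = p.1.val))).card = 62 := by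
  decide

/-- the edge colouring of the host graph: blocks of five consecutive vertices are the covers of
the first `k - 1` colours, the last colour is used inside the last nine vertices. -/
def hostCol (k : ℕ) (hk : 1 ≤ k) : Sym2 (Fin (5 * k + 4)) → Fin k :=
  Sym2.lift ⟨fun a b => ⟨min (min a.val b.val / 5) (k - 1), by omega⟩, fun a b => by
    apply Fin.ext
    show min (min a.val b.val / 5) (k - 1) = min (min b.val a.val / 5) (k - 1)
    rw [min_comm a.val b.val]⟩

theorem hostCol_val (k : ℕ) (hk : 1 ≤ k) (a b : Fin (5 * k + 4)) :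
    (hostCol k hk s(a, b)).val = min (min a.val b.val / 5) (k - 1) := rfl

/-- no colour class of the host graph contains a bad graph. -/
theorem host_free {k M : ℕ} (hk : 1 ≤ k) (H : SimpleGraph (Fin M)) (hH : Bad H) :
    ¬ ∃ (f : Fin M ↪ Fin (5 * k + 4)) (col : Fin k), ∀ a b : Fin M, H.Adj a b →
      (host k).Adj (f a) (f b) ∧ hostCol k hk s(f a, f b) = col := by
  classical
  rintro ⟨f, col, hf⟩
  have hval : ∀ a b, H.Adj a b →
      min (min (f a).val (f b).val / 5) (k - 1) = col.val := by
    intro a b hab
    rw [← hostCol_val k hk, (hf a b hab).2]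
  rcases Nat.lt_or_ge col.val (k - 1) with hcol | hcol
  · -- small cover
    have hcov : Cov H 5 := by
      refine ⟨Finset.univ.filter fun x => 5 * col.val ≤ (f x).val ∧
        (f x).val < 5 * col.val + 5, ?_, ?_⟩
      · have h5 : (Finset.Ico (5 * col.val) (5 * col.val + 5)).card = 5 := by
          rw [Nat.card_Ico]; omega
        refine le_trans ?_ h5.le
        apply Finset.card_le_card_of_injOn (fun x => (f x).val)
        · intro x hx
          have := (Finset.mem_filter.mp hx).2
          simpa using this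
        · intro x _ y _ hxy
          exact f.injective (Fin.ext hxy)
      · intro a b hab
        have h := hval a b hab
        simp only [Finset.mem_filter, Finset.mem_univ, true_and]
        omega
    rcases hH with ⟨g, hg⟩ | ⟨hnc, _⟩
    · exact clique_not_cov H g hg hcov
    · exact hnc hcov
  · -- the last colour
    have hlast : ∀ a b, H.Adj a b → 5 * k ≤ (f a).val + 5 ∧ 5 * k ≤ (f b).val + 5 := by
      intro a b hab
      have h := hval a b hab
      omega
    let s : Fin M → Fin 9 := fun x => ⟨min ((f x).val + 5 - 5 * k) 8, by omega⟩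
    have hs : ∀ x, 5 * k ≤ (f x).val + 5 → (s x).val = (f x).val + 5 - 5 * k := by
      intro x _
      show min ((f x).val + 5 - 5 * k) 8 = _
      have := (f x).isLt
      omega
    have hsadj : ∀ a b, H.Adj a b → s a ≠ s b ∧
        ¬ (4 ≤ (s a).val ∧ 4 ≤ (s b).val ∧ ((s a).val + 2 = (s b).val ∨ (s b).val + 2 = (s a).val ∨
          (s a).val + 3 = (s b).val ∨ (s b).val + 3 = (s a).val)) := by
      intro a b hab
      obtain ⟨ha, hb⟩ := hlast a b hab
      have h1 := hs a ha
      have h2 := hs b hb
      obtain ⟨⟨hne, hnn⟩, _⟩ := hf a b hab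
      have hne' : (f a).val ≠ (f b).val := fun e => hne (Fin.ext e)
      refine ⟨?_, ?_⟩
      · intro e
        have e' := congrArg Fin.val e
        omega
      · omega
    rcases hH with ⟨g, hg⟩ | ⟨_, P, hP, hPadj⟩
    · -- seven-clique
      let I : Finset (Fin 9) := Finset.univ.image fun j => s (g j)
      have hinj : Function.Injective fun j => s (g j) := by
        intro a b hab
        by_contra hcon
        exact (hsadj _ _ (hg a b hcon)).1 hab
      have hI : I.card = 7 := by
        show (Finset.univ.image fun j => s (g j)).card = 7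
        rw [Finset.card_image_of_injective _ hinj]
        simp
      have hIc : (Iᶜ).card = 2 := by
        rw [Finset.card_compl, Fintype.card_fin, hI]
      obtain ⟨x, y, hxy, hIxy⟩ := Finset.card_eq_two.mp hIc
      obtain ⟨a, b, hax, hay, hbx, hby, h4⟩ := small_clique x y
      have haI : a ∈ I := by
        by_contra h
        have : a ∈ Iᶜ := Finset.mem_compl.mpr h
        rw [hIxy] at this
        simp at this
        rcases this with h | h
        · exact hax h
        · exact hay h
      have hbI : b ∈ I := by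
        by_contra h
        have : b ∈ Iᶜ := Finset.mem_compl.mpr h
        rw [hIxy] at this
        simp at this
        rcases this with h | h
        · exact hbx h
        · exact hby h
      obtain ⟨i, _, hi⟩ := Finset.mem_image.mp haI
      obtain ⟨j, _, hj⟩ := Finset.mem_image.mp hbI
      have hij : i ≠ j := by
        intro e
        subst e
        rw [hi] at hj
        have := congrArg Fin.val hj
        omega
      have h := (hsadj _ _ (hg i j hij)).2
      rw [hi, hj] at h
      apply h
      omega
    · -- too many edges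
      have hle : P.card ≤ 62 := by
        rw [← small_edges]
        apply Finset.card_le_card_of_injOn (fun p => (s p.1, s p.2))
        · intro p hp
          have hp' : p ∈ P := hp
          have := hsadj _ _ (hPadj p hp')
          exact Finset.mem_coe.mpr (Finset.mem_filter.mpr ⟨Finset.mem_univ _, this⟩)
        · intro p hp q hq hpq
          have hp' : p ∈ P := hp
          have hq' : q ∈ P := hq
          obtain ⟨hp1, hp2⟩ := hlast _ _ (hPadj p hp')
          obtain ⟨hq1, hq2⟩ := hlast _ _ (hPadj q hq')
          have e1 : (s p.1).val = (s q.1).val := congrArg (fun t => (Prod.fst t).val) hpq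
          have e2 : (s p.2).val = (s q.2).val := congrArg (fun t => (Prod.snd t).val) hpq
          rw [hs _ hp1, hs _ hq1] at e1
          rw [hs _ hp2, hs _ hq2] at e2
          apply Prod.ext
          · apply f.injective
            apply Fin.ext
            omega
          · apply f.injective
            apply Fin.ext
            omega
      omega

/-- the perfect matching on `Fin 300`. -/
def mat : SimpleGraph (Fin 300) where
  Adj a b := a ≠ b ∧ a.val / 2 = b.val / 2
  symm := ⟨fun _ _ h => ⟨h.1.symm, h.2.symm⟩⟩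
  loopless := ⟨fun _ h => h.1 rfl⟩

theorem mat_acyclic : mat.IsAcyclic := by
  intro v c hc
  have h3 := hc.three_le_length
  cases c with
  | nil => simp at h3
  | cons h p =>
    cases p with
    | nil => simp at h3
    | cons h' q =>
      rename_i w x
      have h1 : v ≠ w ∧ v.val / 2 = w.val / 2 := h
      have h2 : w ≠ x ∧ w.val / 2 = x.val / 2 := h'
      have hvx : v = x := by
        have h11 : v.val ≠ w.val := fun e => h1.1 (Fin.ext e)
        have h22 : w.val ≠ x.val := fun e => h2.1 (Fin.ext e)
        apply Fin.ext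
        omega
      subst hvx
      have := hc.edges_nodup
      simp [Sym2.eq_swap] at this

theorem mat_bad : Bad mat := by
  classical
  right
  constructor
  · rintro ⟨C, hC, hcov⟩
    have hj : ∀ j : Fin 150, ∃ x ∈ C, x.val / 2 = j.val := by
      intro j
      have hj := j.isLt
      have hadj : mat.Adj ⟨2 * j.val, by omega⟩ ⟨2 * j.val + 1, by omega⟩ := by
        refine ⟨?_, ?_⟩
        · intro h
          have := congrArg Fin.val h
          simp at this
        · show 2 * j.val / 2 = (2 * j.val + 1) / 2
          omega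
      rcases hcov _ _ hadj with h | h
      · exact ⟨_, h, by show 2 * j.val / 2 = j.val; omega⟩
      · exact ⟨_, h, by show (2 * j.val + 1) / 2 = j.val; omega⟩
    choose x hxC hx using hj
    have : (Finset.univ : Finset (Fin 150)).card ≤ C.card := by
      apply Finset.card_le_card_of_injOn x
      · intro j _
        exact hxC j
      · intro i _ j _ hij
        apply Fin.ext
        rw [← hx i, ← hx j, hij]
    rw [Finset.card_univ, Fintype.card_fin] at this
    omega
  · refine ⟨(Finset.univ : Finset (Fin 150)).image fun j =>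
      ((⟨2 * j.val, by have := j.isLt; omega⟩, ⟨2 * j.val + 1, by have := j.isLt; omega⟩) :
        Fin 300 × Fin 300), ?_, ?_⟩
    · rw [Finset.card_image_of_injective, Finset.card_univ, Fintype.card_fin]
      · omega
      · intro i j hij
        have := congrArg (fun t => (Prod.fst t).val) hij
        simp only at this
        apply Fin.ext
        omega
    · intro p hp
      obtain ⟨j, _, rfl⟩ := Finset.mem_image.mp hp
      refine ⟨?_, ?_⟩
      · intro h
        have := congrArg Fin.val h
        simp at this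
      · show 2 * j.val / 2 = (2 * j.val + 1) / 2
        omega

/-- The negation of the preceding statement: For every finite family of finite graphs containing a forest, there is k0 such that for all k ≥ k0, any graph whose edges can be k-coloured without a monochromatic member has chromatic number at most some N for which K_N is so colourable. -/
theorem result :
    ¬ (∀ (ι : Type) [Fintype ι] (m : ι → ℕ) (H : ∀ i, SimpleGraph (Fin (m i))),
      (∃ i, (H i).IsAcyclic) →
      ∃ k0 : ℕ, ∀ k : ℕ, k0 ≤ k →
        ∀ (n : ℕ) (G : SimpleGraph (Fin n)) (c : Sym2 (Fin n) → Fin k),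
          (∀ i : ι, ¬ ∃ (f : Fin (m i) ↪ Fin n) (col : Fin k),
              ∀ a b : Fin (m i), (H i).Adj a b →
                G.Adj (f a : Fin n) (f b : Fin n) ∧
                  c s((f a : Fin n), (f b : Fin n)) = col) →
          ∃ N : ℕ, G.Colorable N ∧
            ∃ c' : Sym2 (Fin N) → Fin k,
              ∀ i : ι, ¬ ∃ (f : Fin (m i) ↪ Fin N) (col : Fin k),
                ∀ a b : Fin (m i), (H i).Adj a b →
                  c' s((f a : Fin N), (f b : Fin N)) = col) := by
  classical
  intro hall
  have : Fintype {H : SimpleGraph (Fin 300) // Bad H} := Fintype.ofFinite _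
  obtain ⟨k0, hk0⟩ := hall {H : SimpleGraph (Fin 300) // Bad H} (fun _ => 300) (fun i => i.1)
    ⟨⟨mat, mat_bad⟩, mat_acyclic⟩
  have hk : 1 ≤ k0 + 60 := by omega
  obtain ⟨N, hN, c', hc'⟩ := hk0 (k0 + 60) (by omega) _ (host (k0 + 60)) (hostCol (k0 + 60) hk)
    (fun i => host_free hk i.1 i.2)
  have hN' := host_colors hk hN
  obtain ⟨i, hi⟩ := exists_bad hN' c'
  obtain ⟨H, hH, f, hf⟩ := bad_extract (M0 := 300) le_rfl (by omega) _ hi
  exact hc' ⟨H, hH⟩ ⟨f, i, fun a b hab => (hf a b hab).2⟩

end Pool.Agent.S08406
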