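import Pool.Statements.S08884
import Pool.Agent.Helper12_TF.Asm

set_option autoImplicit false
open scoped Pointwise
open Pool Pool.MP_589914_co

namespace Pool.Agent.S08884

/-- The negation of the preceding statement: For every ε>0 and every N there is n ≥ N, a finite abelian group H with n^(2−ε) ≤ ∣H∣ ≤ n^(2+ε), and sets A_i, B_i (i<n) with ∣A_i∣∣B_i∣ ≥ n^(2−ε), ∣A_i+B_i∣ = ∣A_i∣∣B_i∣, and A_i+B_j disjoint from A_j+B_k whenever i ≠ k. -/
theorem result :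
    ¬ (∀ ε : ℝ, 0 < ε → ∀ N : ℕ, ∃ n : ℕ, N ≤ n ∧
      ∃ (H : Type) (_ : AddCommGroup H) (_ : Fintype H) (A B : Fin n → Set H),
        (n : ℝ) ^ (2 - ε) ≤ (Fintype.card H : ℝ) ∧
        (Fintype.card H : ℝ) ≤ (n : ℝ) ^ (2 + ε) ∧
        (∀ i : Fin n,
          (n : ℝ) ^ (2 - ε) ≤ ((A i).ncard : ℝ) * ((B i).ncard : ℝ) ∧
          (A i + B i).ncard = (A i).ncard * (B i).ncard) ∧
        (∀ i j k : Fin n, i ≠ k → Disjoint (A i + B j) (A j + B k))) := by
  exact Pool.Agent.TF.asyS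

end Pool.Agent.S08884
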