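import Pool.Statements.S09483
import Pool.Agent.Helper22_TC.Final
import Pool.Agent.Helper16_TC.Geometry
import Pool.Agent.Helper22_TC_Upper.Upper

set_option autoImplicit false
open MeasureTheory
open Pool Pool.MP_736e6a_co

namespace Pool.Agent.S09483

/-- The infimum of the areas of convex plane sets containing a translate of every plane set of diameter 1 equals pi/6 + 2*sqrt(3) - 3. -/
theorem result :
    sInf {a : ENNReal | ∃ K : Set (EuclideanSpace ℝ (Fin 2)), Convex ℝ K ∧
      (∀ S : Set (EuclideanSpace ℝ (Fin 2)), EMetric.diam S = 1 →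
        ∃ v : EuclideanSpace ℝ (Fin 2), (fun x => x + v) '' S ⊆ K) ∧
      volume K = a}
      = ENNReal.ofReal (Real.pi / 6 + 2 * Real.sqrt 3 - 3) := by
  apply le_antisymm
  · -- upper bound: the truncated square is a cover
    obtain ⟨Q, hQ, hcov, hvol⟩ := Pool.Agent.TCUpper.upper_cover
    exact sInf_le ⟨Q, hQ, hcov, hvol⟩
  · -- lower bound
    refine le_sInf ?_
    rintro a ⟨K, hK, hcov, rfl⟩
    by_cases hv : volume K = ⊤
    · rw [hv]; exact le_top
    · obtain ⟨ε, T, U, hF, hle⟩ := Pool.Agent.Helper16TC.frame_of_cover K hK hcov hv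
      refine le_trans ?_ hle
      apply ENNReal.ofReal_le_ofReal
      have h := Pool.Agent.Helper22TC.area_bound hF
      unfold Pool.Agent.Helper22TC.Astar at h
      exact h

end Pool.Agent.S09483
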