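import Pool.Statements.S09774
import Pool.Agent.Helper39_CD.Dyadic

set_option autoImplicit false
open Pool Pool.MP_8148b3_co

namespace Pool.Agent.S09774

/-- The negation of the preceding statement: There is k such that every finite loopless k-arc-connected digraph, with any pairing of in- and out-edges at each vertex, splits into closed trails none of which contains both edges of any pair. -/
theorem result :
    ¬ (∃ k : ℕ, ∀ (V E : Type) [Fintype V] [DecidableEq V] [Fintype E] (head tail : E → V),
      (∀ e, head e ≠ tail e) →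
      (∀ S : Finset V, S.Nonempty → S ≠ Finset.univ →
        k ≤ (Finset.univ.filter (fun e : E => tail e ∈ S ∧ head e ∉ S)).card) →
      ∀ σ : Equiv.Perm E, (∀ e, tail (σ e) = head e) →
        ∃ τ : Equiv.Perm E, (∀ e, tail (τ e) = head e) ∧
          ∀ e, ¬ τ.SameCycle e (σ e)) := by
  rintro ⟨k, hk⟩
  have hn : 2 ≤ k + 2 := by omega
  obtain ⟨τ, hτ, hno⟩ := hk (Helper39CD.V (k + 2)) (Helper39CD.E (k + 2))
    (Helper39CD.head (k + 2)) (Helper39CD.tail (k + 2))
    (by
      intro e h
      have h1 := congrArg Fin.val h
      rw [Helper39CD.head_val, Helper39CD.tail_val] at h1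
      exact Helper39CD.hd_ne_tl _ _ _ e.1.2 (Nat.le_of_lt_succ e.2.2) h1)
    (by
      intro S hS hS'
      have h1 := Helper39CD.cut_card (k + 2) hn S hS hS'
      have h2 : k ≤ k + 2 := by omega
      refine le_trans h2 (le_trans h1 (le_of_eq ?_))
      congr 1)
    (Helper39CD.sig (k + 2)) (fun e => rfl)
  obtain ⟨e, he⟩ := Helper39CD.no_dec (k + 2) hn τ hτ
  exact hno e he

end Pool.Agent.S09774
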