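import Pool.Statements.S11007
import Pool.Agent.Helper91_Hyp.Main

set_option autoImplicit false
open Pool Pool.MP_b7e382_co

namespace Pool.Agent.S11007

/-- For each r ≥ 3 there is c > 0 such that every finite r-uniform, d-degenerate (d ≥ 2), triangle-free hypergraph has a fractional coloring by independent sets of total weight at most c·(d/log d)^(1/(r−1)). -/
theorem result :
    ∀ r : ℕ, 3 ≤ r → ∃ c : ℝ, 0 < c ∧
      ∀ (V : Type) [Fintype V] [DecidableEq V] (E : Finset (Finset V)) (d : ℕ),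
        2 ≤ d →
        (∀ e ∈ E, e.card = r) →
        (∀ S : Finset V, S.Nonempty →
          ∃ v ∈ S, (E.filter (fun e => v ∈ e ∧ e ⊆ S)).card ≤ d) →
        (¬ ∃ e ∈ E, ∃ f ∈ E, ∃ g ∈ E, ∃ u v w : V,
            u ∈ e ∧ u ∈ f ∧ v ∈ f ∧ v ∈ g ∧ w ∈ e ∧ w ∈ g ∧
            u ∉ g ∧ v ∉ e ∧ w ∉ f) →
        ∃ wt : Finset V → ℝ,
          (∀ S, 0 ≤ wt S) ∧
          (∀ S, wt S ≠ 0 → ∀ e ∈ E, ¬ e ⊆ S) ∧
          (∀ v : V, 1 ≤ ∑ S : Finset V, (if v ∈ S then wt S else 0)) ∧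
          (∑ S : Finset V, wt S) ≤
            c * ((d : ℝ) / Real.log (d : ℝ)) ^ (1 / ((r : ℝ) - 1)) := by
  intro r hr
  exact Pool.Agent.Helper91Hyp.main r hr

end Pool.Agent.S11007
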