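import Pool.Statements.S11204
import Pool.Agent.Helper80_Bent.Final

set_option autoImplicit false
open Pool Pool.MP_c08ec8_co

namespace Pool.Agent.S11204

/-- The negation of the preceding statement: For every even n ≥ 2, the number of bent Boolean functions on n variables (all Walsh coefficients squared equal 2^n) lies between 2^(2^(n-2) + C(n,n/2)/4) and 2^(2^(n-1) + C(n,n/2)/2). -/
theorem result :
    ¬ (∀ n : ℕ, 2 ≤ n → Even n →
      (2 : ℝ) ^ ((2 : ℝ) ^ ((n : ℝ) - 2) + ((n.choose (n / 2) : ℕ) : ℝ) / 4)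
          ≤ (({f : (Fin n → ZMod 2) → ZMod 2 |
                ∀ a : Fin n → ZMod 2,
                  (∑ x : Fin n → ZMod 2,
                      (-1 : ℤ) ^ ((f x + ∑ i, a i * x i).val)) ^ 2 = (2 : ℤ) ^ n}.ncard : ℕ) : ℝ)
        ∧ (({f : (Fin n → ZMod 2) → ZMod 2 |
                ∀ a : Fin n → ZMod 2,
                  (∑ x : Fin n → ZMod 2,
                      (-1 : ℤ) ^ ((f x + ∑ i, a i * x i).val)) ^ 2 = (2 : ℤ) ^ n}.ncard : ℕ) : ℝ)
          ≤ (2 : ℝ) ^ ((2 : ℝ) ^ ((n : ℝ) - 1) + ((n.choose (n / 2) : ℕ) : ℝ) / 2)) := by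
  intro H
  obtain ⟨h, hh⟩ : ∃ h : ℕ, 10 ^ 13 ≤ h := ⟨10 ^ 13, le_refl _⟩
  have h1 := (H (2 * h) (by omega) (even_two_mul h)).1
  have h2 := Pool.Agent.Helper80Bent.card_lt (n := 2 * h) (h := h) rfl hh
  have hset : {f : (Fin (2 * h) → ZMod 2) → ZMod 2 |
                ∀ a : Fin (2 * h) → ZMod 2,
                  (∑ x : Fin (2 * h) → ZMod 2,
                      (-1 : ℤ) ^ ((f x + ∑ i, a i * x i).val)) ^ 2 = (2 : ℤ) ^ (2 * h)}
      = {f : (Fin (2 * h) → ZMod 2) → ZMod 2 | Pool.Agent.Helper80Bent.IsBent f} := by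
    ext f
    simp only [Set.mem_setOf_eq]
    unfold Pool.Agent.Helper80Bent.IsBent
    rw [Fintype.card_fin]
    rfl
  have h3 : {f : (Fin (2 * h) → ZMod 2) → ZMod 2 | Pool.Agent.Helper80Bent.IsBent f}.ncard
      = Fintype.card (Pool.Agent.Helper80Bent.B (Fin (2 * h))) := by
    rw [← Nat.card_coe_set_eq, ← Nat.card_eq_fintype_card]
    rfl
  rw [hset, h3] at h1
  have h4 : (2 * h).choose (2 * h / 2) = Nat.centralBinom h := by
    rw [Nat.mul_div_cancel_left h (by norm_num)]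
    rfl
  have h5 : (2 : ℝ) ^ (((2 * h : ℕ) : ℝ) - 2) = (2 : ℝ) ^ (2 * h) / 4 := by
    rw [Real.rpow_sub (by norm_num), Real.rpow_natCast]
    norm_num
  rw [h4, h5] at h1
  exact absurd h1 (not_le.2 h2)

end Pool.Agent.S11204
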