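import Pool.Statements.S11734
import Pool.Agent.Helper56_Markov.Example

set_option autoImplicit false
open Pool Pool.MP_d7b467_co

namespace Pool.Agent.S11734

/-- The negation of the preceding statement: For all sizes I,J,K, any two minimal finite Markov bases of the no-3-way interaction model (moves with zero two-way margins connecting every fiber of nonnegative tables) coincide up to the signs of the moves. -/
theorem result :
    ¬ (∀ I J K : ℕ,
    ∀ IsMB : Finset (Fin I → Fin J → Fin K → ℤ) → Prop,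
      (∀ B : Finset (Fin I → Fin J → Fin K → ℤ), IsMB B ↔
        ((∀ m ∈ B, (∀ i j, ∑ k, m i j k = 0) ∧ (∀ i k, ∑ j, m i j k = 0) ∧
            (∀ j k, ∑ i, m i j k = 0)) ∧
          ∀ u v : Fin I → Fin J → Fin K → ℕ,
            (∀ i j, ∑ k, u i j k = ∑ k, v i j k) →
            (∀ i k, ∑ j, u i j k = ∑ j, v i j k) →
            (∀ j k, ∑ i, u i j k = ∑ i, v i j k) →
            Relation.ReflTransGen
              (fun w w' : Fin I → Fin J → Fin K → ℕ =>
                ∃ m ∈ B, (∀ i j k, (w' i j k : ℤ) = (w i j k : ℤ) + m i j k) ∨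
                  (∀ i j k, (w' i j k : ℤ) = (w i j k : ℤ) - m i j k))
              u v)) →
    ∀ B B' : Finset (Fin I → Fin J → Fin K → ℤ),
      (IsMB B ∧ ∀ C, C ⊂ B → ¬ IsMB C) →
      (IsMB B' ∧ ∀ C, C ⊂ B' → ¬ IsMB C) →
      ∀ m : Fin I → Fin J → Fin K → ℤ, (m ∈ B ∨ -m ∈ B) ↔ (m ∈ B' ∨ -m ∈ B')) := by
  intro h
  obtain ⟨B, B', hB, hB', m, hm⟩ := Pool.Agent.Helper56Markov.two_minimal
    (a := Pool.Agent.Helper56Markov.tab Pool.Agent.Helper56Markov.colA)
    (b := Pool.Agent.Helper56Markov.tab Pool.Agent.Helper56Markov.colB)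
    (c := Pool.Agent.Helper56Markov.tab Pool.Agent.Helper56Markov.colC)
    Pool.Agent.Helper56Markov.same_ac Pool.Agent.Helper56Markov.same_bc
    (by
      intro hab
      have := congrFun (congrFun (congrFun hab 0) 0) 1
      revert this
      decide +kernel)
    Pool.Agent.Helper56Markov.disj_a Pool.Agent.Helper56Markov.disj_b
    Pool.Agent.Helper56Markov.fibre (i₀ := 0) (j₀ := 0) (k₀ := 0) (by decide +kernel)
  exact hm (h 12 12 3 Pool.Agent.Helper56Markov.MB (fun _ => Iff.rfl) B B' hB hB' m)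

end Pool.Agent.S11734
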