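import Pool.Statements.S11799
import Pool.Agent.Helper3_DA.Fin
import Pool.Agent.Helper3_DA.FufDone
import Pool.Agent.Helper91_DA.M5I
import Pool.Agent.Helper95_CLB.EndC

set_option autoImplicit false
open Pool Pool.MP_da6743_co

namespace Pool.Agent.S11799

/-- Every finite triangle-free 3-regular simple graph has a 5-colouring of its edges such that, for each colour, the graph formed by all edges not of that colour is bipartite. -/
theorem result :
    ∀ (V : Type) [Fintype V] (G : SimpleGraph V) [DecidableRel G.Adj],
      G.IsRegularOfDegree 3 → G.CliqueFree 3 →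
        ∃ c : Sym2 V → Fin 5, ∀ i : Fin 5,
          (SimpleGraph.fromEdgeSet {e | e ∈ G.edgeSet ∧ c e ≠ i}).Colorable 2 := by
  intro V _ G _ hreg hcl
  exact CLB.H3.good_of CLB.H91.five_all CLB.H3.fuf_all CLB.H95.end_all V G hreg hcl

end Pool.Agent.S11799
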