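import Pool.Statements.S12348

set_option autoImplicit false
open Pool Pool.MP_f13a95_co

namespace Pool.Agent.S12348

/-- A very fast growing sequence. -/
def z (i : ℕ) : ℤ := 8 ^ (3 ^ i)

theorem z_succ (i : ℕ) : z (i + 1) = z i ^ 3 := by
  unfold z
  rw [← pow_mul, pow_succ]

theorem z_ge (i : ℕ) : 8 ≤ z i := by
  unfold z
  calc (8 : ℤ) = 8 ^ 1 := by norm_num
    _ ≤ 8 ^ (3 ^ i) := pow_le_pow_right₀ (by norm_num) (Nat.one_le_pow _ _ (by norm_num))

theorem z_mono : Monotone z := by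
  apply monotone_nat_of_le_succ
  intro n
  rw [z_succ]
  have h := z_ge n
  nlinarith [mul_self_nonneg (z n), mul_self_nonneg (z n - 1)]

theorem z_ge_self (i : ℕ) : (i : ℤ) ≤ z i := by
  induction i with
  | zero => have := z_ge 0; push_cast; linarith
  | succ n ih =>
    rw [z_succ]
    have h := z_ge n
    push_cast
    nlinarith [mul_self_nonneg (z n), mul_self_nonneg (z n - 1)]

/-- `N` is a product of a large factor `u` near `z s` and a small factor `v` near `z t`. -/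
structure Rep (N : ℤ) (s t : ℕ) (u v : ℤ) : Prop where
  lt : t < s
  u1 : z s ≤ u
  u2 : u ≤ z s + s
  v1 : z t ≤ v
  v2 : v ≤ z t + t
  eq : N = u * v

/-- If `t < s` then `z t ^ 3 ≤ z s`. -/
theorem z_lt {t s : ℕ} (h : t < s) : z t ^ 3 ≤ z s := by
  rw [← z_succ]
  exact z_mono h

theorem Rep.bounds {N : ℤ} {s t : ℕ} {u v : ℤ} (h : Rep N s t u v) :
    z s * z t ≤ N ∧ N ≤ 4 * (z s * z t) ∧ 4 * (z s * z t) ≤ z s ^ 2 := by
  have hs := z_ge s
  have ht := z_ge t
  have hss := z_ge_self s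
  have htt := z_ge_self t
  have h3 := z_lt h.lt
  have hu1 := h.u1
  have hu2 := h.u2
  have hv1 := h.v1
  have hv2 := h.v2
  refine ⟨?_, ?_, ?_⟩
  · rw [h.eq]
    exact mul_le_mul hu1 hv1 (by linarith) (by linarith)
  · rw [h.eq]
    calc u * v ≤ (2 * z s) * (2 * z t) :=
          mul_le_mul (by linarith) (by linarith) (by linarith) (by linarith)
      _ = 4 * (z s * z t) := by ring
  · have h4 : 4 * z t ≤ z s := by nlinarith [mul_self_nonneg (z t), mul_self_nonneg (z t - 2)]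
    nlinarith

theorem key {N m : ℤ} {s t : ℕ} {u v : ℤ} {s' t' : ℕ} {u' v' : ℤ}
    (h : Rep N s t u v) (h' : Rep (N + m) s' t' u' v') (hm : 0 < m) (hN : 4 * m ^ 2 < N) :
    s' = s ∧ t' = t ∧ v' = v := by
  have hb := h.bounds
  have hb' := h'.bounds
  obtain ⟨b1, b2, b3⟩ := hb
  obtain ⟨b1', b2', b3'⟩ := hb'
  have hs := z_ge s
  have ht := z_ge t
  have hs' := z_ge s'
  have ht' := z_ge t'
  have hzs : 2 * m < z s := by
    by_contra hcon
    push Not at hcon
    nlinarith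
  have hst : s' = s := by
    rcases lt_trichotomy s' s with hlt | heq | hgt
    · exfalso
      have h3 := z_lt hlt
      -- N ≥ z s * 8 ≥ 8 z_{s'}^3 > z_{s'}^2 ≥ N + m
      have : z s' ^ 2 < z s' ^ 3 := by nlinarith [mul_self_nonneg (z s')]
      nlinarith
    · exact heq
    · exfalso
      have h3 := z_lt hgt
      have h5 : 8 * z s ^ 2 ≤ z s ^ 3 := by nlinarith [mul_self_nonneg (z s)]
      nlinarith
  subst hst
  have htt : t' = t := by
    rcases lt_trichotomy t' t with hlt | heq | hgt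
    · exfalso
      have h3 := z_lt hlt
      have h6 : 4 * z t' ≤ z t := by nlinarith [mul_self_nonneg (z t'), mul_self_nonneg (z t' - 2)]
      nlinarith
    · exact heq
    · exfalso
      have h3 := z_lt hgt
      have h6 : 4 * z t + 1 ≤ z t' := by
        nlinarith [mul_self_nonneg (z t), mul_self_nonneg (z t - 2)]
      nlinarith
  subst htt
  refine ⟨rfl, rfl, ?_⟩
  have hlt := h.lt
  -- 2 * (s * v) ≤ z s
  have hsv : ∀ w : ℤ, 0 ≤ w → w ≤ z t' + t' → 2 * ((s' : ℤ) * w) ≤ z s' := by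
    intro w hw0 hw
    obtain ⟨p, rfl⟩ : ∃ p, s' = p + 1 := ⟨s' - 1, by omega⟩
    have hp := z_ge p
    have hpp := z_ge_self p
    have htp : z t' ≤ z p := z_mono (by omega)
    have htp2 : (t' : ℤ) ≤ z p := (z_ge_self t').trans htp
    rw [z_succ]
    push_cast
    have h1 : ((p : ℤ) + 1) * w ≤ (z p + 1) * (2 * z p) :=
      mul_le_mul (by linarith) (by linarith) hw0 (by linarith)
    have h2 : 2 * ((z p + 1) * (2 * z p)) ≤ z p ^ 3 := by
      nlinarith [mul_self_nonneg (z p), mul_self_nonneg (z p - 1)]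
    linarith
  have e1 := h.eq
  have e2 := h'.eq
  have hu1 := h.u1
  have hu2 := h.u2
  have hu1' := h'.u1
  have hu2' := h'.u2
  have hv1 := h.v1
  have hv2 := h.v2
  have hv1' := h'.v1
  have hv2' := h'.v2
  rcases lt_trichotomy v' v with hvlt | hveq | hvgt
  · exfalso
    have q := hsv v' (by linarith) hv2'
    -- N + m = u' v' ≤ (z s + s) v' , N = u v ≥ z s (v' + 1)
    have q1 : u' * v' ≤ (z s' + s') * v' := mul_le_mul_of_nonneg_right hu2' (by linarith)
    have q2 : z s' * (v' + 1) ≤ u * v := mul_le_mul hu1 (by linarith) (by linarith) (by linarith)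
    nlinarith
  · exact hveq
  · exfalso
    have q := hsv v (by linarith) hv2
    have q1 : u * v ≤ (z s' + s') * v := mul_le_mul_of_nonneg_right hu2 (by linarith)
    have q2 : z s' * (v + 1) ≤ u' * v' := mul_le_mul hu1' (by linarith) (by linarith) (by linarith)
    nlinarith


/-- The Bohr condition used for both sets. -/
def P (n : ℤ) : Prop := |(n : ℝ) * √2 - (round ((n : ℝ) * √2) : ℝ)| < 1 / 10

theorem no_long_AP (m' b : ℤ) (hm' : 0 < m') (K : ℕ) (hK : 4 * m' ≤ (K : ℤ))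
    (h : ∀ k : ℕ, k ≤ K → P (b + k * m')) : False := by
  have hq : ∀ k : ℕ, k ≤ K → ∃ q : ℤ, |(k : ℝ) * ((m' : ℝ) * √2) - q| < 1 / 5 := by
    intro k hk
    refine ⟨round (((b + k * m' : ℤ) : ℝ) * √2) - round ((b : ℝ) * √2), ?_⟩
    have h1 := h k hk
    have h0 := h 0 (Nat.zero_le _)
    unfold P at h1 h0
    rw [abs_lt] at h1 h0 ⊢
    push_cast at h1 h0 ⊢
    simp only [zero_mul, add_zero] at h0
    constructor
    · nlinarith [h1.1, h1.2, h0.1, h0.2]
    · nlinarith [h1.1, h1.2, h0.1, h0.2]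
  have hK1 : 1 ≤ K := by
    by_contra hcon
    have : K = 0 := by omega
    subst this
    push_cast at hK
    linarith
  obtain ⟨q1, hq1⟩ := hq 1 hK1
  set δ : ℝ := (m' : ℝ) * √2 - q1 with hδ
  have hδk : ∀ k : ℕ, k ≤ K → |(k : ℝ) * δ| < 1 / 5 := by
    intro k
    induction k with
    | zero => intro _; norm_num
    | succ n ih =>
      intro hn
      have ih' := ih (by omega)
      obtain ⟨q, hqq⟩ := hq (n + 1) hn
      have hd1 : |δ| < 1 / 5 := by
        have := hq1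
        simpa [hδ] using this
      have habs : |((q - (n + 1) * q1 : ℤ) : ℝ)| < 1 := by
        rw [abs_lt] at *
        push_cast at *
        constructor
        · nlinarith [ih'.1, ih'.2, hqq.1, hqq.2, hd1.1, hd1.2]
        · nlinarith [ih'.1, ih'.2, hqq.1, hqq.2, hd1.1, hd1.2]
      have hz : q - (n + 1) * q1 = 0 := by
        rw [← Int.cast_abs] at habs
        have : |q - (n + 1) * q1| < 1 := by exact_mod_cast habs
        exact Int.abs_lt_one_iff.mp this
      have hq' : q = (n + 1) * q1 := by linarith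
      rw [hq'] at hqq
      rw [abs_lt] at hqq ⊢
      push_cast at hqq ⊢
      constructor
      · have := hqq.1
        rw [hδ]
        nlinarith
      · have := hqq.2
        rw [hδ]
        nlinarith
  have hfin := hδk K le_rfl
  -- lower bound for |δ|
  have hm'r : (1 : ℝ) ≤ m' := by exact_mod_cast hm'
  have hs2 : √2 ^ 2 = (2 : ℝ) := Real.sq_sqrt (by norm_num)
  have hs2pos : 0 < √2 := Real.sqrt_pos.mpr (by norm_num)
  have hs2lt : √2 < 3 / 2 := by nlinarith
  have hd1 : |δ| < 1 / 5 := by simpa using hδk 1 hK1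
  have hprod : δ * ((m' : ℝ) * √2 + q1) = ((2 * m' ^ 2 - q1 ^ 2 : ℤ) : ℝ) := by
    rw [hδ]
    push_cast
    nlinarith
  have hne : 2 * m' ^ 2 - q1 ^ 2 ≠ 0 := by
    intro h0
    have h1 : q1 ^ 2 = 2 * m' ^ 2 := by linarith
    have hirr : Irrational (√2) := irrational_sqrt_two
    apply hirr
    refine ⟨|q1| / m', ?_⟩
    have h2 : ((q1 : ℝ)) ^ 2 = 2 * (m' : ℝ) ^ 2 := by exact_mod_cast h1
    have h3 : (|(q1 : ℝ)| / m') ^ 2 = 2 := by
      rw [div_pow, sq_abs, h2]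
      field_simp
    push_cast
    rw [← h3]
    rw [Real.sqrt_sq (by positivity)]
  have hge1 : (1 : ℝ) ≤ |δ * ((m' : ℝ) * √2 + q1)| := by
    rw [hprod, ← Int.cast_abs]
    exact_mod_cast Int.one_le_abs hne
  rw [abs_mul] at hge1
  have hub : |(m' : ℝ) * √2 + q1| ≤ 4 * m' := by
    have e : (m' : ℝ) * √2 + q1 = 2 * (m' * √2) - δ := by rw [hδ]; ring
    rw [e]
    rw [abs_lt] at hd1
    rw [abs_le]
    constructor
    · nlinarith
    · nlinarith
  have hKr : 4 * (m' : ℝ) ≤ K := by exact_mod_cast hK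
  have : (1 : ℝ) ≤ |(K : ℝ) * δ| := by
    rw [abs_mul, Nat.abs_cast]
    calc (1 : ℝ) ≤ |δ| * |(m' : ℝ) * √2 + q1| := hge1
      _ ≤ |δ| * K := mul_le_mul_of_nonneg_left (hub.trans hKr) (abs_nonneg _)
      _ = K * |δ| := by ring
  linarith

/-- The two thick sets: `par = 0` even scales, `par = 1` odd scales. -/
def T (par : ℕ) : Set ℤ := {n | ∃ i : ℕ, i % 2 = par ∧ z i ≤ n ∧ n ≤ z i + i}

theorem T_thick (par : ℕ) (hp : par < 2) :
    ∀ L : ℕ, ∃ a : ℤ, ∀ k : ℕ, k < L → a + (k : ℤ) ∈ T par := by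
  intro L
  refine ⟨z (2 * L + par), ?_⟩
  intro k hk
  refine ⟨2 * L + par, by omega, by omega, ?_⟩
  push_cast
  omega

theorem result :
    ¬ (∀ B D : Set ℤ,
      (∃ (d : ℕ) (α : Fin d → ℝ) (ε : ℝ) (n₀ : ℤ) (T : Set ℤ), 0 < ε ∧
        (∀ L : ℕ, ∃ a : ℤ, ∀ k : ℕ, k < L → a + (k : ℤ) ∈ T) ∧
        ∀ n ∈ T, (∀ i : Fin d,
          |((n - n₀ : ℤ) : ℝ) * α i - (round (((n - n₀ : ℤ) : ℝ) * α i) : ℝ)| < ε) → n ∈ B) →
      (∃ (d : ℕ) (α : Fin d → ℝ) (ε : ℝ) (n₀ : ℤ) (T : Set ℤ), 0 < ε ∧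
        (∀ L : ℕ, ∃ a : ℤ, ∀ k : ℕ, k < L → a + (k : ℤ) ∈ T) ∧
        ∀ n ∈ T, (∀ i : Fin d,
          |((n - n₀ : ℤ) : ℝ) * α i - (round (((n - n₀ : ℤ) : ℝ) * α i) : ℝ)| < ε) → n ∈ D) →
      ∃ (m r : ℤ) (T : Set ℤ), 0 < m ∧
        (∀ L : ℕ, ∃ a : ℤ, ∀ k : ℕ, k < L → a + (k : ℤ) ∈ T) ∧
        ∀ n ∈ T, n ≡ r [ZMOD m] → ∃ b ∈ B, ∃ c ∈ D, n = b * c) := by
  intro H
  have hB : ∀ par : ℕ, par < 2 →
      ∃ (d : ℕ) (α : Fin d → ℝ) (ε : ℝ) (n₀ : ℤ) (S : Set ℤ), 0 < ε ∧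
        (∀ L : ℕ, ∃ a : ℤ, ∀ k : ℕ, k < L → a + (k : ℤ) ∈ S) ∧
        ∀ n ∈ S, (∀ i : Fin d,
          |((n - n₀ : ℤ) : ℝ) * α i - (round (((n - n₀ : ℤ) : ℝ) * α i) : ℝ)| < ε) →
          n ∈ {n : ℤ | n ∈ T par ∧ P n} := by
    intro par hp
    refine ⟨1, fun _ => √2, 1 / 10, 0, T par, by norm_num, T_thick par hp, ?_⟩
    intro n hn hi
    refine ⟨hn, ?_⟩
    have := hi 0
    rw [sub_zero] at this
    exact this
  obtain ⟨m, r, S, hm, hthick, hS⟩ := H {n | n ∈ T 0 ∧ P n} {n | n ∈ T 1 ∧ P n}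
    (hB 0 (by norm_num)) (hB 1 (by norm_num))
  -- every element of S in the class is represented
  have hrep : ∀ n ∈ S, n ≡ r [ZMOD m] → ∃ s t u v, Rep n s t u v ∧ P u ∧ P v := by
    intro n hn hr
    obtain ⟨b, ⟨⟨i, hi, hi1, hi2⟩, hPb⟩, c, ⟨⟨j, hj, hj1, hj2⟩, hPc⟩, hbc⟩ := hS n hn hr
    rcases lt_trichotomy i j with hlt | heq | hgt
    · exact ⟨j, i, c, b, ⟨hlt, hj1, hj2, hi1, hi2, by rw [hbc]; ring⟩, hPc, hPb⟩
    · exfalso; omega
    · exact ⟨i, j, b, c, ⟨hgt, hi1, hi2, hj1, hj2, hbc⟩, hPb, hPc⟩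
  have hpos : ∀ n ∈ S, n ≡ r [ZMOD m] → 0 < n := by
    intro n hn hr
    obtain ⟨s, t, u, v, h, -, -⟩ := hrep n hn hr
    have hb := h.bounds
    have := z_ge s
    have := z_ge t
    nlinarith [hb.1]
  -- choose a long interval
  obtain ⟨M, hM⟩ : ∃ M : ℕ, (M : ℤ) = m := ⟨m.toNat, Int.toNat_of_nonneg hm.le⟩
  set R : ℕ := 4 * M ^ 2 + M + 1 with hR
  set K : ℕ := 4 * M with hK
  obtain ⟨a, ha⟩ := hthick (R + (K + 1) * M + M)
  -- an element of the class in any window of length m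
  have hwin : ∀ x : ℤ, ∃ j : ℕ, j < M ∧ x + j ≡ r [ZMOD m] := by
    intro x
    refine ⟨((r - x) % m).toNat, ?_, ?_⟩
    · have h1 := Int.emod_lt_of_pos (r - x) hm
      have h2 := Int.emod_nonneg (r - x) hm.ne'
      omega
    · have h2 := Int.emod_nonneg (r - x) hm.ne'
      rw [Int.toNat_of_nonneg h2]
      have h3 : x + (r - x) % m ≡ x + (r - x) [ZMOD m] := (Int.mod_modEq _ _).add_left x
      simpa using h3
  -- a > -m
  have haM : -(M : ℤ) < a := by
    obtain ⟨j, hj, hjr⟩ := hwin a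
    have := hpos (a + j) (ha j (by nlinarith)) hjr
    omega
  obtain ⟨j, hj, hjr⟩ := hwin (a + R)
  set N₀ : ℤ := a + R + j with hN₀
  have hN0 : 4 * m ^ 2 < N₀ := by
    rw [hN₀, hR, ← hM]
    push_cast
    nlinarith
  have hmem : ∀ k : ℕ, k ≤ K → (N₀ + k * m ∈ S ∧ N₀ + k * m ≡ r [ZMOD m]) := by
    intro k hk
    constructor
    · have := ha (R + j + k * M) (by nlinarith)
      rw [hN₀, ← hM]
      push_cast at this
      convert this using 1
      ring
    · have h1 : N₀ + k * m ≡ N₀ [ZMOD m] := by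
        have : (k : ℤ) * m ≡ 0 [ZMOD m] := (Int.modEq_zero_iff_dvd).mpr (dvd_mul_left _ _)
        simpa using this.add_left N₀
      exact h1.trans hjr
  obtain ⟨s, t, u, v, h0, hPu, hPv⟩ := hrep N₀ (by simpa using (hmem 0 (Nat.zero_le _)).1)
    (by simpa using (hmem 0 (Nat.zero_le _)).2)
  have hvpos : 0 < v := by have := h0.v1; have := z_ge t; linarith
  have hall : ∀ k : ℕ, k ≤ K → ∃ w, Rep (N₀ + k * m) s t w v ∧ P w := by
    intro k
    induction k with
    | zero => intro _; exact ⟨u, by simpa using h0, hPu⟩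
    | succ n ih =>
      intro hn
      obtain ⟨w, hw, hPw⟩ := ih (by omega)
      obtain ⟨s', t', u', v', h', hPu', hPv'⟩ := hrep _ (hmem (n + 1) hn).1 (hmem (n + 1) hn).2
      have e : N₀ + ((n + 1 : ℕ) : ℤ) * m = (N₀ + n * m) + m := by push_cast; ring
      rw [e] at h'
      have hN' : 4 * m ^ 2 < N₀ + n * m := by nlinarith
      obtain ⟨rfl, rfl, rfl⟩ := key hw h' hm hN'
      refine ⟨u', ?_, hPu'⟩
      rw [e]
      exact h'
  have hK1 : 1 ≤ K := by
    rw [hK]; omega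
  obtain ⟨u1, hu1, -⟩ := hall 1 hK1
  have hdiv : m = (u1 - u) * v := by
    have e1 := hu1.eq
    have e0 := h0.eq
    push_cast at e1
    linarith
  set m' : ℤ := u1 - u with hm'
  have hm'pos : 0 < m' := by
    by_contra hcon
    push Not at hcon
    nlinarith
  have hm'le : m' ≤ m := by nlinarith
  apply no_long_AP m' u hm'pos K
  · rw [hK]; push_cast; rw [hM]; linarith
  · intro k hk
    obtain ⟨w, hw, hPw⟩ := hall k hk
    have : w = u + k * m' := by
      have e1 := hw.eq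
      have e0 := h0.eq
      have : (w - (u + k * m')) * v = 0 := by
        rw [hdiv] at e1
        linear_combination e0 - e1
      rcases mul_eq_zero.mp this with h | h
      · linarith
      · omega
    rw [← this]
    exact hPw

end Pool.Agent.S12348
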