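import Pool.Statements.S12371
import Pool.Agent.Helper20_Rig.Final

set_option autoImplicit false
open Pool Pool.MP_f2128c_co

namespace Pool.Agent.S12371

/-- In generic planar frameworks, if R is a maximal redundantly rigid subgraph of a finite graph G containing x and y, and the pair x,y is globally linked in G, then x,y is globally linked in R. -/
theorem result :
    ∀ (V : Type) [Fintype V] (G : SimpleGraph V)
      (D : (Fin 2 → ℝ) → (Fin 2 → ℝ) → ℝ)
      (Rigid : G.Subgraph → Prop) (RedRigid : G.Subgraph → Prop)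
      (GLinked : G.Subgraph → V → V → Prop),
      (∀ a b : Fin 2 → ℝ, D a b = (a 0 - b 0) ^ 2 + (a 1 - b 1) ^ 2) →
      (∀ H : G.Subgraph, Rigid H ↔
        ∀ p : V → Fin 2 → ℝ,
          AlgebraicIndependent ℚ (fun i : V × Fin 2 => p i.1 i.2) →
          ∃ ε > (0 : ℝ), ∀ q : V → Fin 2 → ℝ,
            (∀ v ∈ H.verts, ∀ i : Fin 2, |q v i - p v i| < ε) →
            (∀ u v : V, H.Adj u v → D (q u) (q v) = D (p u) (p v)) →
            ∀ u ∈ H.verts, ∀ v ∈ H.verts, D (q u) (q v) = D (p u) (p v)) →
      (∀ H : G.Subgraph, RedRigid H ↔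
        (Rigid H ∧ ∀ u v : V, H.Adj u v → Rigid (H.deleteEdges {s(u, v)}))) →
      (∀ (H : G.Subgraph) (x y : V), GLinked H x y ↔
        ∀ p : V → Fin 2 → ℝ,
          AlgebraicIndependent ℚ (fun i : V × Fin 2 => p i.1 i.2) →
          ∀ q : V → Fin 2 → ℝ,
            (∀ u v : V, H.Adj u v → D (q u) (q v) = D (p u) (p v)) →
            D (q x) (q y) = D (p x) (p y)) →
      ∀ R : G.Subgraph, RedRigid R →
        (∀ R' : G.Subgraph, R ≤ R' → RedRigid R' → R' = R) →
        ∀ x y : V, x ∈ R.verts → y ∈ R.verts →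
          GLinked ⊤ x y → GLinked R x y := by
  intro V _ G D Rigid RedRigid GLinked hD hRigid hRed hGL R hR hmax x y hx hy hlink
  classical
  exact Pool.Agent.Helper20_Rig.main G D Rigid RedRigid GLinked hD hRigid hRed hGL R hR hmax x y
    hx hy hlink

end Pool.Agent.S12371
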