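import Pool.Statements.S12650
import Pool.Agent.Helper40_NS.Final

set_option autoImplicit false
open scoped Classical
open Pool Pool.MP_ff6f12_co

namespace Pool.Agent.S12650

/-- The negation of the preceding statement: For every finite bipartite graph H with no isolated vertices, the least minimum degree over all minimal 2-Ramsey graphs for H (no proper subgraph is Ramsey) equals 2·δ(H) − 1. -/
theorem result :
    ¬ (∀ (n : ℕ) (H : SimpleGraph (Fin n)), 0 < n → H.Colorable 2 → (∀ v, ∃ w, H.Adj v w) →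
      (∃ (V : Type) (_ : Fintype V) (G : SimpleGraph V),
        (∀ c : Sym2 V → Fin 2, ∃ i : Fin 2,
          H.IsContained (SimpleGraph.fromEdgeSet {e | e ∈ G.edgeSet ∧ c e = i})) ∧
        (∀ G' : G.Subgraph, G' ≠ ⊤ →
          ¬ ∀ c : Sym2 G'.verts → Fin 2, ∃ i : Fin 2,
            H.IsContained (SimpleGraph.fromEdgeSet {e | e ∈ G'.coe.edgeSet ∧ c e = i})) ∧
        G.minDegree = 2 * H.minDegree - 1) ∧
      (∀ (V : Type) (_ : Fintype V) (G : SimpleGraph V),
        (∀ c : Sym2 V → Fin 2, ∃ i : Fin 2,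
          H.IsContained (SimpleGraph.fromEdgeSet {e | e ∈ G.edgeSet ∧ c e = i})) →
        (∀ G' : G.Subgraph, G' ≠ ⊤ →
          ¬ ∀ c : Sym2 G'.verts → Fin 2, ∃ i : Fin 2,
            H.IsContained (SimpleGraph.fromEdgeSet {e | e ∈ G'.coe.edgeSet ∧ c e = i})) →
        2 * H.minDegree - 1 ≤ G.minDegree)) := by
  obtain ⟨t, p, hp, ht, h1, h2⟩ := Pool.Agent.NS40.params
  haveI : Nonempty (Pool.Agent.NS40.HV t (4 * t)) := ⟨Sum.inr (Sum.inr ())⟩
  exact Pool.Agent.NS40.Wrap.wrap (Pool.Agent.NS40.HG t (4 * t))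
    (Pool.Agent.NS40.HG_colorable t (4 * t)) (Pool.Agent.NS40.HG_noIso t (4 * t))
    (Pool.Agent.NS40.HG_leaf t (4 * t))
    (Pool.Agent.NS40.closedH ht rfl
      (fun V W hW => Pool.Agent.NS40.goodJ t p hp h1 h2 W hW))

end Pool.Agent.S12650
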