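import Pool.Statements.S13035
import Pool.Agent.Helper52_Triod.Global3

set_option autoImplicit false
open Pool Pool.MP_3ae40e_gt

namespace Pool.Agent.S13035

/-- Every nondegenerate metric continuum in which any two subcontinua with nonempty interior meet, and which has no weak cut point, contains an uncountable family of pairwise disjoint triods. -/
theorem result :
    ∀ (X : Type) [TopologicalSpace X] [TopologicalSpace.MetrizableSpace X]
      [CompactSpace X] [ConnectedSpace X] [Nontrivial X],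
      (∀ A B : Set X, IsCompact A → IsConnected A → (interior A).Nonempty →
        IsCompact B → IsConnected B → (interior B).Nonempty → (A ∩ B).Nonempty) →
      (¬ ∃ x p q : X, p ≠ x ∧ q ≠ x ∧
        ∀ K : Set X, IsCompact K → IsConnected K → p ∈ K → q ∈ K → x ∈ K) →
      ∃ 𝒯 : Set (Set X), ¬ 𝒯.Countable ∧ 𝒯.PairwiseDisjoint id ∧
        ∀ T ∈ 𝒯, IsCompact T ∧ IsConnected T ∧
          ∃ Z : Set X, Z ⊆ T ∧ IsCompact Z ∧ IsConnected Z ∧
            ∃ A B C : Set X, A.Nonempty ∧ B.Nonempty ∧ C.Nonempty ∧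
              T \ Z = A ∪ B ∪ C ∧
              closure A ∩ B = ∅ ∧ A ∩ closure B = ∅ ∧
              closure A ∩ C = ∅ ∧ A ∩ closure C = ∅ ∧
              closure B ∩ C = ∅ ∧ B ∩ closure C = ∅ := by
  intro X _ _ _ _ _ hmeet hnwc
  let _ : MetricSpace X := TopologicalSpace.metrizableSpaceMetric X
  by_contra hcon
  refine Pool.Agent.Helper52Triod.final (X := X) ⟨?_, ?_, ?_⟩
  · intro A B hA hB
    exact hmeet A B hA.1.1.isCompact hA.1.2 hA.2 hB.1.1.isCompact hB.1.2 hB.2
  · intro x p q hp hq
    by_contra h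
    apply hnwc
    refine ⟨x, p, q, hp, hq, ?_⟩
    intro K hK hKc hpK hqK
    by_contra hx
    exact h ⟨K, ⟨hK.isClosed, hKc⟩, hpK, hqK, hx⟩
  · intro 𝒯 hd hT
    by_contra hc
    exact hcon ⟨𝒯, hc, hd, fun T hT' => hT T hT'⟩

end Pool.Agent.S13035
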