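import Pool.Statements.S13205
import Pool.Agent.Helper41_Ban.All
import Pool.Agent.Helper81_BAN.MAINA

set_option autoImplicit false
open Pool Pool.MP_592924_gt

namespace Pool.Agent.S13205

/-- For n at least 3, if a compact convex body in R^n containing the origin in its interior has all sections by hyperplanes through the origin affinely equivalent, then it is an affine image of the closed unit ball. -/
theorem result :
    ∀ n : ℕ, 3 ≤ n →
    ∀ B : Set (EuclideanSpace ℝ (Fin n)),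
      Convex ℝ B → IsCompact B →
      (0 : EuclideanSpace ℝ (Fin n)) ∈ interior B →
      (∀ H₁ H₂ : Submodule ℝ (EuclideanSpace ℝ (Fin n)),
        Module.finrank ℝ H₁ = n - 1 → Module.finrank ℝ H₂ = n - 1 →
        ∃ f : EuclideanSpace ℝ (Fin n) ≃ᵃ[ℝ] EuclideanSpace ℝ (Fin n),
          f '' (B ∩ (H₁ : Set (EuclideanSpace ℝ (Fin n)))) =
            B ∩ (H₂ : Set (EuclideanSpace ℝ (Fin n)))) →
      ∃ g : EuclideanSpace ℝ (Fin n) ≃ᵃ[ℝ] EuclideanSpace ℝ (Fin n),
        B = g '' Metric.closedBall (0 : EuclideanSpace ℝ (Fin n)) 1 :=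
  Pool.Agent.Ban.H41.afterMain (Pool.Agent.BAN.H81.maina Pool.Agent.Ban.H41.sANA2
    Pool.Agent.Ban.H41.sSEC2 Pool.Agent.BAN.H20.mapa Pool.Agent.BAN.H20.mapb
    Pool.Agent.BAN.H46.mapc Pool.Agent.Ban.H41.sCAP2 Pool.Agent.BAN.H48.bas2)

end Pool.Agent.S13205
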