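import Pool.Statements.S13226
import Pool.Agent.Helper10_Oh.Final
-- import your own Pool.Agent.* helpers here

set_option autoImplicit false
open scoped MeasureTheory
open Pool Pool.MP_5a8125_gt

namespace Pool.Agent.S13226

/-- The negation of the preceding statement: For all 1≤k≤n and 0<a≤b, the torus in C^n with k circle radii a and n−k radii b has n-dim volume no larger than its image under any compactly supported Hamiltonian flow. -/
theorem result :
    ¬ (∀ (n k : ℕ) (a b : ℝ), 1 ≤ k → k ≤ n → 0 < a → a ≤ b →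
      ∀ (H : ℝ → EuclideanSpace ℂ (Fin n) → ℝ)
        (φ : ℝ → EuclideanSpace ℂ (Fin n) → EuclideanSpace ℂ (Fin n)),
        ContDiff ℝ ((⊤ : ℕ∞) : WithTop ℕ∞) (Function.uncurry H) →
        HasCompactSupport (Function.uncurry H) →
        (∀ x, φ 0 x = x) →
        (∀ (t : ℝ) (x : EuclideanSpace ℂ (Fin n)),
          ∃ v : EuclideanSpace ℂ (Fin n),
            HasDerivAt (fun s => φ s x) v t ∧
            ∀ w : EuclideanSpace ℂ (Fin n),
              fderiv ℝ (H t) (φ t x) w = (inner ℂ v w).im) →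
        μH[(n : ℝ)] {z : EuclideanSpace ℂ (Fin n) |
            ∀ i : Fin n, ‖z i‖ = if (i : ℕ) < k then a else b}
          ≤ μH[(n : ℝ)] (φ 1 '' {z : EuclideanSpace ℂ (Fin n) |
            ∀ i : Fin n, ‖z i‖ = if (i : ℕ) < k then a else b})) := by
  intro h
  obtain ⟨H, φ, hH, hc, h0, hφ, hlt⟩ := Pool.Agent.Helper10_Oh.main_ineq
    (ρ := 1 / 10 ^ 8) (a := (1 / 10 ^ 8) ^ 2 / 10) (T := 1 - (1 / 10 ^ 8) ^ 2)
    (by norm_num) (by norm_num) (by norm_num) le_rfl rfl
  exact absurd (h 4 1 ((1 / 10 ^ 8) ^ 2 / 10) 1 le_rfl (by norm_num) (by norm_num) (by norm_num)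
    H φ hH hc h0 hφ) (not_le.mpr hlt)

end Pool.Agent.S13226
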