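import Pool.Statements.S13592

set_option autoImplicit false
universe u
open Pool Pool.MP_93f147_gt

namespace Pool.Agent.S13592

open Set Filter Topology

/-- The Cantor space. -/
abbrev C : Type := ℕ → Bool

/-- Agreement of two points of the Cantor space on the first `k` coordinates. -/
def Agr (k : ℕ) (x y : C) : Prop := ∀ l, l < k → x l = y l

theorem Agr.refl (k : ℕ) (x : C) : Agr k x x := fun _ _ => rfl

theorem Agr.mono {k m : ℕ} (h : k ≤ m) {x y : C} (hxy : Agr m x y) : Agr k x y :=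
  fun l hl => hxy l (lt_of_lt_of_le hl h)

theorem Agr.trans {k : ℕ} {x y z : C} (h1 : Agr k x y) (h2 : Agr k y z) : Agr k x z :=
  fun l hl => (h1 l hl).trans (h2 l hl)

theorem exists_not_agr {x y : C} (h : x ≠ y) : ∃ m, ∀ m', m ≤ m' → ¬ Agr m' x y := by
  obtain ⟨l, hl⟩ := Function.ne_iff.1 h
  exact ⟨l + 1, fun m' hm' ha => hl (ha l (by omega))⟩

/-- `IsDiff b b' d` says that `d` is the least point (for a fixed well-ordering of the Cantor space)
at which `b` and `b'` differ. -/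
def IsDiff (b b' : C → Bool) (d : C) : Prop :=
  b d ≠ b' d ∧ ∀ c, WellOrderingRel c d → b c = b' c

theorem IsDiff.ne {b b' : C → Bool} {d : C} (h : IsDiff b b' d) : b ≠ b' := by
  rintro rfl
  exact h.1 rfl

theorem exists_isDiff {b b' : C → Bool} (h : b ≠ b') : ∃ d, IsDiff b b' d := by
  obtain ⟨l, hl⟩ := Function.ne_iff.1 h
  have wf : WellFounded (WellOrderingRel (α := C)) := IsWellFounded.wf
  refine ⟨wf.min {c | b c ≠ b' c} ⟨l, hl⟩, wf.min_mem {c | b c ≠ b' c} ⟨l, hl⟩, ?_⟩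
  intro c hc
  by_contra hne
  exact wf.not_lt_min {c | b c ≠ b' c} hne hc

/-- The underlying set of the space. -/
structure Pt : Type where
  /-- the branch -/
  b : C → Bool
  /-- the number of active points -/
  n : ℕ
  /-- the points -/
  r : ℕ → C

/-- The basic neighbourhoods. -/
def V (k : ℕ) (x : Pt) : Set Pt :=
  {y | (y.b = x.b ∧ y.n = x.n ∧ ∀ i, i < x.n + k → Agr k (y.r i) (x.r i)) ∨
    (∃ d, IsDiff x.b y.b d ∧ (∃ i, i < x.n ∧ Agr k d (x.r i)) ∧ (∀ i, i < x.n → d ≠ x.r i) ∧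
      ∀ j, j < y.n → ∃ i, i < x.n ∧ Agr k (y.r j) (x.r i))}

theorem self_mem_V (k : ℕ) (x : Pt) : x ∈ V k x :=
  Or.inl ⟨rfl, rfl, fun _ _ => Agr.refl _ _⟩

theorem V_anti {k m : ℕ} (h : k ≤ m) (x : Pt) : V m x ⊆ V k x := by
  rintro y (⟨h1, h2, h3⟩ | ⟨d, hd, ⟨i, hi, hi'⟩, h2, h3⟩)
  · exact Or.inl ⟨h1, h2, fun i hi => (h3 i (by omega)).mono h⟩
  · refine Or.inr ⟨d, hd, ⟨i, hi, hi'.mono h⟩, h2, fun j hj => ?_⟩
    obtain ⟨i, hi, hi'⟩ := h3 j hj
    exact ⟨i, hi, hi'.mono h⟩

/-- Separation of a point of the Cantor space from finitely many others. -/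
theorem exists_sep (n : ℕ) (r : ℕ → C) (p : C) :
    ∃ m, ∀ m', m ≤ m' → ∀ j, j < n → p ≠ r j → ¬ Agr m' p (r j) := by
  induction n with
  | zero => exact ⟨0, fun m' _ j hj => absurd hj (by omega)⟩
  | succ n ih =>
    obtain ⟨m, hm⟩ := ih
    by_cases hp : p = r n
    · refine ⟨m, fun m' hm' j hj hne => ?_⟩
      rcases Nat.lt_succ_iff_lt_or_eq.1 hj with h | h
      · exact hm m' hm' j h hne
      · subst h; exact absurd hp hne
    · obtain ⟨m2, hm2⟩ := exists_not_agr hp
      refine ⟨max m m2, fun m' hm' j hj hne => ?_⟩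
      rcases Nat.lt_succ_iff_lt_or_eq.1 hj with h | h
      · exact hm m' (le_trans (le_max_left _ _) hm') j h hne
      · subst h; exact hm2 m' (le_trans (le_max_right _ _) hm')

theorem exists_sep2 (n n' : ℕ) (r r' : ℕ → C) :
    ∃ m, ∀ m', m ≤ m' → ∀ i, i < n → ∀ j, j < n' → r i ≠ r' j → ¬ Agr m' (r i) (r' j) := by
  induction n with
  | zero => exact ⟨0, fun m' _ i hi => absurd hi (by omega)⟩
  | succ n ih =>
    obtain ⟨m, hm⟩ := ih
    obtain ⟨m2, hm2⟩ := exists_sep n' r' (r n)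
    refine ⟨max m m2, fun m' hm' i hi j hj hne => ?_⟩
    rcases Nat.lt_succ_iff_lt_or_eq.1 hi with h | h
    · exact hm m' (le_trans (le_max_left _ _) hm') i h j hj hne
    · subst h; exact hm2 m' (le_trans (le_max_right _ _) hm') j hj hne

theorem V_open (k : ℕ) (x y : Pt) (hy : y ∈ V k x) : ∃ m, V m y ⊆ V k x := by
  obtain ⟨m1, hm1⟩ := exists_sep2 x.n y.n x.r y.r
  rcases hy with ⟨h1, h2, h3⟩ | ⟨d, hd, ⟨i, hi, hi'⟩, h2, h3⟩
  · refine ⟨max k m1, ?_⟩
    have hk : k ≤ max k m1 := le_max_left _ _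
    have hm : m1 ≤ max k m1 := le_max_right _ _
    rintro z (⟨g1, g2, g3⟩ | ⟨d, hd, ⟨i, hi, hi'⟩, g2, g3⟩)
    · exact Or.inl ⟨g1.trans h1, g2.trans h2,
        fun i hi => ((g3 i (by omega)).mono hk).trans (h3 i hi)⟩
    · refine Or.inr ⟨d, h1 ▸ hd, ⟨i, by omega, (hi'.mono hk).trans (h3 i (by omega))⟩, ?_, ?_⟩
      · intro i' hi'' hdi
        have hne : x.r i' ≠ y.r i := by
          rw [← hdi]; exact g2 i hi
        apply hm1 _ hm i' hi'' i hi hne
        rw [← hdi]; exact hi'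
      · intro j hj
        obtain ⟨i, hi, hi'⟩ := g3 j hj
        exact ⟨i, by omega, (hi'.mono hk).trans (h3 i (by omega))⟩
  · obtain ⟨m2, hm2⟩ := exists_sep y.n y.r d
    refine ⟨max k (max m1 m2), ?_⟩
    have hk : k ≤ max k (max m1 m2) := le_max_left _ _
    have hmm1 : m1 ≤ max k (max m1 m2) := le_trans (le_max_left _ _) (le_max_right _ _)
    have hmm2 : m2 ≤ max k (max m1 m2) := le_trans (le_max_right _ _) (le_max_right _ _)
    rintro z (⟨g1, g2, g3⟩ | ⟨e, he, ⟨i', hi'', hi3⟩, g2, g3⟩)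
    · refine Or.inr ⟨d, g1 ▸ hd, ⟨i, hi, hi'⟩, h2, fun j hj => ?_⟩
      rw [g2] at hj
      obtain ⟨i2, hi2, hi2'⟩ := h3 j hj
      exact ⟨i2, hi2, ((g3 j (by omega)).mono hk).trans hi2'⟩
    · have hde : d ≠ e := by
        intro h
        apply hm2 _ hmm2 i' hi''
        · rw [h]; exact g2 i' hi''
        · rw [h]; exact hi3
      have hz : ∀ j, j < z.n → ∃ i, i < x.n ∧ Agr k (z.r j) (x.r i) := by
        intro j hj
        obtain ⟨i2, hi2, hi2'⟩ := g3 j hj
        obtain ⟨i4, hi4, hi4'⟩ := h3 i2 hi2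
        exact ⟨i4, hi4, (hi2'.mono hk).trans hi4'⟩
      rcases trichotomous_of WellOrderingRel d e with h | h | h
      · -- d before e
        refine Or.inr ⟨d, ⟨?_, ?_⟩, ⟨i, hi, hi'⟩, h2, hz⟩
        · rw [← he.2 d h]; exact hd.1
        · intro c hc
          rw [hd.2 c hc, he.2 c (_root_.trans hc h)]
      · exact absurd h hde
      · -- e before d
        obtain ⟨i5, hi5, hi5'⟩ := h3 i' hi''
        refine Or.inr ⟨e, ⟨?_, ?_⟩, ⟨i5, hi5, (hi3.mono hk).trans hi5'⟩, ?_, hz⟩
        · rw [hd.2 e h]; exact he.1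
        · intro c hc
          rw [hd.2 c (_root_.trans hc h), he.2 c hc]
        · intro i6 hi6 hei
          have hne : x.r i6 ≠ y.r i' := by
            rw [← hei]; exact g2 i' hi''
          apply hm1 _ hmm1 i6 hi6 i' hi'' hne
          rw [← hei]; exact hi3

instance : TopologicalSpace Pt where
  IsOpen U := ∀ x ∈ U, ∃ k, V k x ⊆ U
  isOpen_univ := fun _ _ => ⟨0, subset_univ _⟩
  isOpen_inter := by
    intro s t hs ht x hx
    obtain ⟨k, hk⟩ := hs x hx.1
    obtain ⟨m, hm⟩ := ht x hx.2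
    exact ⟨max k m, subset_inter ((V_anti (le_max_left _ _) x).trans hk)
      ((V_anti (le_max_right _ _) x).trans hm)⟩
  isOpen_sUnion := by
    intro S hS x hx
    obtain ⟨s, hs, hxs⟩ := hx
    obtain ⟨k, hk⟩ := hS s hs x hxs
    exact ⟨k, hk.trans (subset_sUnion_of_mem hs)⟩

theorem isOpen_V (k : ℕ) (x : Pt) : IsOpen (V k x) := fun y hy => V_open k x y hy

theorem hasBasis_nhds (x : Pt) : (𝓝 x).HasBasis (fun _ : ℕ => True) (fun k => V k x) := by
  refine ⟨fun t => ⟨fun ht => ?_, ?_⟩⟩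
  · obtain ⟨U, hU, hUo, hx⟩ := mem_nhds_iff.1 ht
    obtain ⟨k, hk⟩ := hUo x hx
    exact ⟨k, trivial, hk.trans hU⟩
  · rintro ⟨k, -, hk⟩
    exact mem_of_superset ((isOpen_V k x).mem_nhds (self_mem_V k x)) hk

instance : FirstCountableTopology Pt :=
  ⟨fun x => (hasBasis_nhds x).isCountablyGenerated⟩

theorem exists_notMem_V {x y : Pt} (h : y ≠ x) : ∃ k, y ∉ V k x := by
  by_contra hcon
  push Not at hcon
  by_cases hb : y.b = x.b
  · have key : ∀ k, y.n = x.n ∧ ∀ i, i < x.n + k → Agr k (y.r i) (x.r i) := by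
      intro k
      rcases hcon k with ⟨_, h2, h3⟩ | ⟨d, hd, _⟩
      · exact ⟨h2, h3⟩
      · exact absurd hb.symm hd.ne
    apply h
    cases x; cases y
    simp only at hb key
    have hn := (key 0).1
    subst hb; subst hn
    congr 1
    funext i l
    exact (key (i + l + 1)).2 i (by omega) l (by omega)
  · obtain ⟨d, hd⟩ := exists_isDiff (b := x.b) (b' := y.b) (fun h => hb h.symm)
    obtain ⟨m, hm⟩ := exists_sep x.n x.r d
    rcases hcon m with ⟨h1, _⟩ | ⟨d', hd', ⟨i, hi, hi'⟩, h2, _⟩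
    · exact hb h1
    · have : d' = d := by
        rcases trichotomous_of WellOrderingRel d' d with h | h | h
        · exact absurd (hd.2 d' h) hd'.1
        · exact h
        · exact absurd (hd'.2 d h) hd.1
      subst this
      exact hm m le_rfl i hi (h2 i hi) hi'

instance : T1Space Pt := by
  refine ⟨fun y => ⟨fun x hx => ?_⟩⟩
  obtain ⟨k, hk⟩ := exists_notMem_V (x := x) (y := y) (fun h => hx (by simp [h]))
  refine ⟨k, fun z hz => ?_⟩
  intro hzy
  rw [mem_singleton_iff] at hzy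
  subst hzy
  exact hk hz

theorem eventually_agr {α : Type} {f : α → C} {l : Filter α} {c : C} (h : Tendsto f l (𝓝 c))
    (k : ℕ) : ∀ᶠ a in l, Agr k (f a) c := by
  have h1 : ∀ j ∈ Finset.range k, ∀ᶠ a in l, f a j = c j := by
    intro j _
    have h2 : Tendsto (fun a => f a j) l (𝓝 (c j)) := ((continuous_apply j).tendsto c).comp h
    rw [nhds_discrete] at h2
    exact h2.eventually (p := fun b => b = c j) (eventually_pure.2 rfl)
  have h2 := (Filter.eventually_all_finset (Finset.range k)).2 h1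
  filter_upwards [h2] with a ha j hj
  exact ha j (Finset.mem_range.2 hj)

/-- Every ultrafilter concentrating on the points with `n` active points converges. -/
theorem ultrafilter_converges (n : ℕ) (p : Ultrafilter Pt) (hp : {y : Pt | y.n = n} ∈ p) :
    ∃ x : Pt, (p : Filter Pt) ≤ 𝓝 x := by
  classical
  -- the limit of the branches
  let t : C → Bool := fun c => decide ({y : Pt | y.b c = true} ∈ p)
  have ht : ∀ c : C, ∀ᶠ y in (p : Filter Pt), y.b c = t c := by
    intro c
    by_cases hc : {y : Pt | y.b c = true} ∈ p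
    · have : t c = true := by simp [t, hc]
      rw [this]; exact hc
    · have h2 : t c = false := by simp [t, hc]
      have h3 : {y : Pt | y.b c = true}ᶜ ∈ p := Ultrafilter.compl_mem_iff_notMem.2 hc
      rw [h2]
      filter_upwards [h3] with y hy
      simpa using hy
  -- the limit of the sequences
  obtain ⟨r, hr⟩ : ∃ r : ℕ → C, Tendsto (fun y : Pt => y.r) p (𝓝 r) := by
    obtain ⟨r, -, hr⟩ := isCompact_univ.ultrafilter_le_nhds (p.map (fun y : Pt => y.r))
      (by simp)
    exact ⟨r, hr⟩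
  have hri : ∀ i, Tendsto (fun y : Pt => y.r i) p (𝓝 (r i)) := fun i =>
    ((continuous_apply i).tendsto r).comp hr
  have hagr : ∀ N k : ℕ, ∀ᶠ y in (p : Filter Pt), ∀ i, i < N → Agr k (y.r i) (r i) := by
    intro N k
    have h1 : ∀ j ∈ Finset.range N, ∀ᶠ y in (p : Filter Pt), Agr k (y.r j) (r j) :=
      fun j _ => eventually_agr (hri j) k
    filter_upwards [(Filter.eventually_all_finset (Finset.range N)).2 h1] with y hy i hi
    exact hy i (Finset.mem_range.2 hi)
  by_cases hA : {y : Pt | y.b = t} ∈ p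
  · refine ⟨⟨t, n, r⟩, (hasBasis_nhds _).ge_iff.2 fun k _ => ?_⟩
    filter_upwards [hA, hp, hagr (n + k) k] with y h1 h2 h3
    exact Or.inl ⟨h1, h2, h3⟩
  · have hB : {y : Pt | y.b = t}ᶜ ∈ p := Ultrafilter.compl_mem_iff_notMem.2 hA
    -- the first difference
    have hex : ∀ y : Pt, ∃ d : C, t ≠ y.b → IsDiff t y.b d := by
      intro y
      by_cases h : t = y.b
      · exact ⟨fun _ => false, fun h' => absurd h h'⟩
      · obtain ⟨d, hd⟩ := exists_isDiff h
        exact ⟨d, fun _ => hd⟩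
    choose D hD using hex
    obtain ⟨c, hc⟩ : ∃ c : C, Tendsto D p (𝓝 c) := by
      obtain ⟨c, -, hc⟩ := isCompact_univ.ultrafilter_le_nhds (p.map D) (by simp)
      exact ⟨c, hc⟩
    let r' : ℕ → C := fun i => Nat.casesOn i c r
    have hne : ∀ᶠ y in (p : Filter Pt), ∀ i, i < n + 1 → y.b (r' i) = t (r' i) := by
      have h1 : ∀ j ∈ Finset.range (n + 1), ∀ᶠ y in (p : Filter Pt), y.b (r' j) = t (r' j) :=
        fun j _ => ht (r' j)
      filter_upwards [(Filter.eventually_all_finset (Finset.range (n + 1))).2 h1] with y hy i hi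
      exact hy i (Finset.mem_range.2 hi)
    refine ⟨⟨t, n + 1, r'⟩, (hasBasis_nhds _).ge_iff.2 fun k _ => ?_⟩
    filter_upwards [hB, hp, hagr n k, hne, eventually_agr hc k] with y h1 h2 h3 h4 h5
    have hd : IsDiff t y.b (D y) := hD y (fun h => h1 h.symm)
    refine Or.inr ⟨D y, hd, ⟨0, Nat.succ_pos _, h5⟩, ?_, ?_⟩
    · intro i hi hdi
      apply hd.1
      rw [hdi]
      exact (h4 i hi).symm
    · intro j hj
      have hj' : j < n := by
        have : y.n = n := h2
        omega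
      exact ⟨j + 1, by simpa using hj', h3 j hj'⟩

instance : LindelofSpace Pt := by
  refine ⟨fun f hf hcf _ => ?_⟩
  -- some level is positive
  have hn : ∃ n : ℕ, (f ⊓ 𝓟 {y : Pt | y.n = n}).NeBot := by
    by_contra hcon
    push Not at hcon
    have h1 : ∀ n : ℕ, {y : Pt | y.n = n}ᶜ ∈ f := by
      intro n
      have := hcon n
      rw [Filter.inf_principal_eq_bot] at this
      exact this
    have h2 : (⋂ n : ℕ, {y : Pt | y.n = n}ᶜ) ∈ f := countable_iInter_mem.2 h1
    have h3 : (⋂ n : ℕ, {y : Pt | y.n = n}ᶜ) = (∅ : Set Pt) := by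
      ext y
      simp
    rw [h3] at h2
    exact hf.ne (Filter.empty_mem_iff_bot.1 h2)
  obtain ⟨n, hn⟩ := hn
  obtain ⟨p, hp⟩ := Ultrafilter.exists_le (f ⊓ 𝓟 {y : Pt | y.n = n})
  have hpn : {y : Pt | y.n = n} ∈ p := hp (mem_inf_of_right (mem_principal_self _))
  obtain ⟨x, hx⟩ := ultrafilter_converges n p hpn
  refine ⟨x, mem_univ _, ?_⟩
  exact NeBot.mono p.neBot (le_inf hx (hp.trans inf_le_left))

theorem continuum_lt : Cardinal.continuum.{0} < Cardinal.mk Pt := by
  have h1 : Cardinal.mk C = Cardinal.continuum := by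
    simp [C]
  have h2 : Cardinal.mk (C → Bool) = 2 ^ Cardinal.continuum.{0} := by
    rw [← h1]
    simp
  have h3 : Cardinal.mk (C → Bool) ≤ Cardinal.mk Pt := by
    refine Cardinal.mk_le_of_injective (f := fun b => (⟨b, 0, fun _ _ => false⟩ : Pt)) ?_
    intro b b' h
    exact congrArg Pt.b h
  calc Cardinal.continuum.{0} < 2 ^ Cardinal.continuum.{0} := Cardinal.cantor _
    _ = Cardinal.mk (C → Bool) := h2.symm
    _ ≤ _ := h3

/-- The negation of the preceding statement: Every topological space that is T1, first countable and Lindelöf has cardinality at most the continuum 2^aleph_0. -/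
theorem result :
    ¬ (∀ (X : Type u) [TopologicalSpace X] [T1Space X] [FirstCountableTopology X]
      [LindelofSpace X], Cardinal.mk X ≤ Cardinal.continuum.{u}) := by
  intro h
  have : T1Space (ULift.{u} Pt) := (Homeomorph.ulift (X := Pt)).isEmbedding.t1Space
  have : FirstCountableTopology (ULift.{u} Pt) :=
    (Homeomorph.ulift (X := Pt)).isEmbedding.toIsInducing.firstCountableTopology
  have : LindelofSpace (ULift.{u} Pt) :=
    (Homeomorph.ulift (X := Pt)).isClosedEmbedding.LindelofSpace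
  have h1 := h (ULift.{u} Pt)
  rw [Cardinal.mk_uLift] at h1
  rw [← Cardinal.lift_continuum.{u, 0}, Cardinal.lift_le] at h1
  exact absurd continuum_lt (not_lt.2 h1)

end Pool.Agent.S13592
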