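import Pool.Statements.S13824
import Pool.Agent.Helper31_Elliptic.Bound
import Pool.Agent.Helper31_Elliptic.Space

set_option autoImplicit false
open Pool Pool.MP_ba31d6_gt

namespace Pool.Agent.S13824

/-- The negation of the preceding statement: For r ≥ 2, with N the maximum number of equiangular lines in R^r: a metric space embeds isometrically in elliptic space RP^(r-1) whenever all its subsets of at most N+1 points do, but this fails with N in place of N+1. -/
theorem result :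
    ¬ (∀ r : ℕ, 2 ≤ r → ∀ N : ℕ,
    IsGreatest {n : ℕ | ∃ v : Fin n → EuclideanSpace ℝ (Fin r), ∃ c : ℝ, c < 1 ∧
        (∀ i, ‖v i‖ = 1) ∧ ∀ i j, i ≠ j → |@inner ℝ _ _ (v i) (v j)| = c} N →
    ((∀ (M : Type) [MetricSpace M],
        (∀ s : Finset M, s.card ≤ N + 1 →
          ∃ f : M → EuclideanSpace ℝ (Fin r), (∀ x ∈ s, ‖f x‖ = 1) ∧
            ∀ x ∈ s, ∀ y ∈ s, Real.arccos |@inner ℝ _ _ (f x) (f y)| = dist x y) →
        ∃ f : M → EuclideanSpace ℝ (Fin r), (∀ x, ‖f x‖ = 1) ∧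
          ∀ x y, Real.arccos |@inner ℝ _ _ (f x) (f y)| = dist x y) ∧
     ¬ (∀ (M : Type) [MetricSpace M],
        (∀ s : Finset M, s.card ≤ N →
          ∃ f : M → EuclideanSpace ℝ (Fin r), (∀ x ∈ s, ‖f x‖ = 1) ∧
            ∀ x ∈ s, ∀ y ∈ s, Real.arccos |@inner ℝ _ _ (f x) (f y)| = dist x y) →
        ∃ f : M → EuclideanSpace ℝ (Fin r), (∀ x, ‖f x‖ = 1) ∧
          ∀ x y, Real.arccos |@inner ℝ _ _ (f x) (f y)| = dist x y))) := by
  classical
  intro H
  set A : Set ℕ := {n : ℕ | ∃ v : Fin n → EuclideanSpace ℝ (Fin 13), ∃ c : ℝ, c < 1 ∧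
        (∀ i, ‖v i‖ = 1) ∧ ∀ i j, i ≠ j → |@inner ℝ _ _ (v i) (v j)| = c} with hA
  have hle : ∀ n ∈ A, n ≤ 32 := by
    rintro n ⟨v, c, hc, hv, hvv⟩
    by_contra hn
    push Not at hn
    have h33 : 33 ≤ n := hn
    exact Pool.Agent.Helper31_Elliptic.no_33 (fun i => v (Fin.castLE h33 i)) c hc
      (fun i => hv _)
      (fun i j hij => hvv _ _ (fun h => hij (Fin.castLE_injective h33 h)))
  have hne : A.Nonempty := by
    refine ⟨0, fun i => i.elim0, 0, by norm_num, fun i => i.elim0, fun i => i.elim0⟩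
  have hbdd : BddAbove A := ⟨32, hle⟩
  have hN : IsGreatest A (sSup A) := ⟨Nat.sSup_mem hne hbdd, fun n hn => le_csSup hbdd hn⟩
  have hN32 : sSup A ≤ 32 := hle _ hN.1
  have h1 := (H 13 (by norm_num) (sSup A) hN).1 Pool.Agent.Helper31_Elliptic.Pt
  obtain ⟨f, hf, hd⟩ := h1 (by
    intro s hs
    have hcard : s.card < (Finset.univ : Finset Pool.Agent.Helper31_Elliptic.Pt).card := by
      rw [Finset.card_univ, Pool.Agent.Helper31_Elliptic.card_Pt]
      omega
    obtain ⟨p, -, hp⟩ := Finset.exists_mem_notMem_of_card_lt_card hcard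
    refine ⟨Pool.Agent.Helper31_Elliptic.place p, ?_, ?_⟩
    · intro x hx
      exact Pool.Agent.Helper31_Elliptic.place_norm p x (fun h => hp (h ▸ hx))
    · intro x hx y hy
      exact Pool.Agent.Helper31_Elliptic.place_inner p x y (fun h => hp (h ▸ hx))
        (fun h => hp (h ▸ hy)))
  exact Pool.Agent.Helper31_Elliptic.no_place f hf hd

end Pool.Agent.S13824
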