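import Pool.Statements.S14036
import Pool.Agent.Helper94_CpHewitt.Basic

set_option autoImplicit false
open Pool Pool.MP_d88d39_gt

namespace Pool.Agent.S14036

open Set Topology
open Pool.Agent.Helper94_CpHewitt

/-- The negation of the preceding statement: For every Tychonoff space X: if every point-finite family of nonempty open sets in C_p(X) is countable, then the same holds for C_p of the Hewitt realcompactification of X, taken as a subspace of the Stone–Čech compactification. -/
theorem result :
    ¬ (∀ (X : Type) [TopologicalSpace X] [T35Space X],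
      (∀ 𝒰 : Set (Set {f : X → ℝ // Continuous f}),
          (∀ U ∈ 𝒰, IsOpen U ∧ U.Nonempty) →
          (∀ y : {f : X → ℝ // Continuous f}, {U | U ∈ 𝒰 ∧ y ∈ U}.Finite) →
          𝒰.Countable) →
      (∀ 𝒰 : Set (Set {f : {p : StoneCech X //
              ∀ (g : X → Set.Icc (-1 : ℝ) 1) (hg : Continuous g),
                (∀ x, ((g x : ℝ)) ∈ Set.Ioo (-1 : ℝ) 1) →
                ((stoneCechExtend hg p : Set.Icc (-1 : ℝ) 1) : ℝ) ∈ Set.Ioo (-1 : ℝ) 1}
              → ℝ // Continuous f}),
          (∀ U ∈ 𝒰, IsOpen U ∧ U.Nonempty) →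
          (∀ y, {U | U ∈ 𝒰 ∧ y ∈ U}.Finite) →
          𝒰.Countable)) := by
  classical
  intro hall
  have h := hall Helper94_CpHewitt.X stepA
  -- the point of the Hewitt realcompactification over a point of the cube
  choose pre hpre using Phi_surj
  set V : Type := {p : StoneCech Helper94_CpHewitt.X //
              ∀ (g : Helper94_CpHewitt.X → Set.Icc (-1 : ℝ) 1) (hg : Continuous g),
                (∀ x, ((g x : ℝ)) ∈ Set.Ioo (-1 : ℝ) 1) →
                ((stoneCechExtend hg p : Set.Icc (-1 : ℝ) 1) : ℝ) ∈ Set.Ioo (-1 : ℝ) 1} with hV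
  let P : (Crd → Bool) → V := fun y => ⟨pre y, in_upsilon (pre y)⟩
  let z0 : V := P (fun _ => false)
  let e : Crd → (Crd → Bool) := fun k l => if l = k then true else false
  let U : Crd → Set {f : V → ℝ // Continuous f} := fun k => {f | 1 < f.1 (P (e k)) ∧ f.1 z0 < 0}
  have hopen : ∀ k, IsOpen (U k) := by
    intro k
    have h1 : ∀ v : V, Continuous (fun f : {f : V → ℝ // Continuous f} => f.1 v) :=
      fun v => (continuous_apply v).comp continuous_subtype_val
    exact (isOpen_lt continuous_const (h1 _)).inter (isOpen_lt (h1 _) continuous_const)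
  -- test functions
  have hc : ∀ k : Crd, Continuous (fun v : V => if Phi v.1 k = true then (2 : ℝ) else -1) := by
    intro k
    have h1 : Continuous (fun b : Bool => if b = true then (2 : ℝ) else -1) :=
      continuous_of_discreteTopology
    exact h1.comp ((continuous_apply k).comp (Phi_cont.comp continuous_subtype_val))
  let t : Crd → {f : V → ℝ // Continuous f} := fun k => ⟨_, hc k⟩
  have htv : ∀ k y, (t k).1 (P y) = if y k = true then (2 : ℝ) else -1 := by
    intro k y
    show (if Phi (pre y) k = true then (2 : ℝ) else -1) = _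
    rw [hpre]
  have hmem : ∀ k, t k ∈ U k := by
    intro k
    refine ⟨?_, ?_⟩
    · rw [htv]
      simp [e]
    · show (t k).1 (P (fun _ => false)) < 0
      rw [htv]
      simp
  have hinj : Function.Injective U := by
    intro k l hkl
    by_contra hne
    have h1 : t k ∈ U l := by rw [← hkl]; exact hmem k
    have h2 := h1.1
    rw [htv] at h2
    have h3 : (e l) k = false := by simp [e, hne]
    rw [h3] at h2
    norm_num at h2
  have hcount := h (Set.range U) ?_ ?_
  · -- the cube has uncountably many coordinates
    have h1 : Countable (Set.range U) := hcount.to_subtype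
    have h2 : Countable Crd := by
      have := (Equiv.ofInjective U hinj).countable_iff.2 h1
      exact this
    have h3 := Cardinal.mk_le_aleph0_iff.2 h2
    have h4 : Cardinal.mk Crd = Cardinal.continuum := by
      clear h3 h2 h1
      simp [Jdx, Crd]
    rw [h4] at h3
    exact absurd h3 (not_le.2 Cardinal.aleph0_lt_continuum)
  · rintro _ ⟨k, rfl⟩
    exact ⟨hopen k, ⟨t k, hmem k⟩⟩
  · intro f
    -- the function `f` comes from the cube
    let ι : Helper94_CpHewitt.X → V := fun x => ⟨stoneCechUnit x, in_upsilon _⟩
    have hι : Continuous ι := Continuous.subtype_mk continuous_stoneCechUnit _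
    obtain ⟨G, hG, hGg, -⟩ := stepB (fun x => f.1 (ι x)) (f.2.comp hι)
    have hdense : DenseRange ι := by
      intro v
      rw [mem_closure_iff]
      intro W hW hv
      obtain ⟨W', hW', rfl⟩ := isOpen_induced_iff.1 hW
      obtain ⟨x, hx⟩ := (denseRange_stoneCechUnit (α := Helper94_CpHewitt.X)).exists_mem_open
        hW' ⟨v.1, hv⟩
      exact ⟨ι x, hx, ⟨x, rfl⟩⟩
    have hfG : f.1 = fun v : V => G (Phi v.1) := by
      apply hdense.equalizer f.2 (hG.comp (Phi_cont.comp continuous_subtype_val))
      funext x
      show f.1 (ι x) = G (Phi (stoneCechUnit x))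
      rw [Phi_unit, hGg]
    have hfP : ∀ y, f.1 (P y) = G y := by
      intro y
      rw [hfG]
      show G (Phi (pre y)) = G y
      rw [hpre]
    by_cases h0 : f.1 z0 < 0
    · have h0' : G (fun _ => false) < 0 := by
        rw [← hfP]; exact h0
      have hop : IsOpen {y | G y < 0} := isOpen_lt hG continuous_const
      obtain ⟨I, u, hu, hsub⟩ := isOpen_pi_iff.1 hop _ h0'
      refine ((I.finite_toSet).image U).subset ?_
      rintro _ ⟨⟨k, rfl⟩, hk⟩
      by_contra hcon
      have hkI : k ∉ I := fun hkI => hcon ⟨k, hkI, rfl⟩
      have h1 : G (e k) < 0 := by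
        apply hsub
        intro l hl
        have hlk : l ≠ k := fun h' => hkI (h' ▸ hl)
        have h2 : e k l = false := by simp [e, hlk]
        rw [h2]
        exact (hu l hl).2
      have h2 := hk.1
      rw [hfP] at h2
      linarith
    · convert Set.finite_empty (α := Set {f : V → ℝ // Continuous f})
      ext W
      simp only [Set.mem_setOf_eq, Set.mem_empty_iff_false, iff_false, not_and]
      rintro ⟨k, rfl⟩ hk
      exact h0 hk.2

end Pool.Agent.S14036
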