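import Pool.Statements.S14126
import Pool.Agent.PVD.AsmM
import Pool.Agent.Helper47_PVD.Frozen

set_option autoImplicit false
open MeasureTheory
open Pool Pool.MP_e25c73_gt

namespace Pool.Agent.S14126

/-- The negation of the preceding statement: For every n ≥ 3, two convex bodies in n-space are equal if, for every unit vector u, their projections onto the hyperplane orthogonal to u have equal (n−1)-volume and equal centroid. -/
theorem result :
    ¬ (∀ n : ℕ, 3 ≤ n → ∀ K L : Set (EuclideanSpace ℝ (Fin n)),
      IsCompact K → Convex ℝ K → (interior K).Nonempty →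
      IsCompact L → Convex ℝ L → (interior L).Nonempty →
      (∀ u : EuclideanSpace ℝ (Fin n), ‖u‖ = 1 →
        (MeasureTheory.Measure.hausdorffMeasure ((n : ℝ) - 1)
            ((fun x : EuclideanSpace ℝ (Fin n) => x - (inner ℝ x u) • u) '' K)
          = MeasureTheory.Measure.hausdorffMeasure ((n : ℝ) - 1)
            ((fun x : EuclideanSpace ℝ (Fin n) => x - (inner ℝ x u) • u) '' L)) ∧
        ((MeasureTheory.Measure.hausdorffMeasure ((n : ℝ) - 1)
            ((fun x : EuclideanSpace ℝ (Fin n) => x - (inner ℝ x u) • u) '' K)).toReal⁻¹ •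
          ∫ x in ((fun x : EuclideanSpace ℝ (Fin n) => x - (inner ℝ x u) • u) '' K), x
            ∂(MeasureTheory.Measure.hausdorffMeasure ((n : ℝ) - 1))
          = (MeasureTheory.Measure.hausdorffMeasure ((n : ℝ) - 1)
            ((fun x : EuclideanSpace ℝ (Fin n) => x - (inner ℝ x u) • u) '' L)).toReal⁻¹ •
          ∫ x in ((fun x : EuclideanSpace ℝ (Fin n) => x - (inner ℝ x u) • u) '' L), x
            ∂(MeasureTheory.Measure.hausdorffMeasure ((n : ℝ) - 1)))) →
      K = L) := by
  exact _root_.PVD.H47.frozen Pool.Agent.PVD.M.neg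

end Pool.Agent.S14126
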