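import Pool.Statements.S14139
import Pool.Agent.Helper48_VMX.All

set_option autoImplicit false
open Matrix
open Pool Pool.MP_e54c4c_gt

namespace Pool.Agent.S14139

/-- If a discrete group preserving a properly convex open cone acts convex cocompactly on the associated projective domain and is not word hyperbolic, then some k≥2 gives a properly embedded, maximal k-simplex preserved by a subgroup isomorphic to Z^k. -/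
theorem result :
  ∀ (n : ℕ) (C : Set (Fin n → ℝ)) (Γ : Subgroup (GL (Fin n) ℝ)),
    IsOpen C → Convex ℝ C → C.Nonempty → (0 : Fin n → ℝ) ∉ C →
    (∀ x ∈ C, ∀ t : ℝ, 0 < t → t • x ∈ C) →
    (∀ v : Fin n → ℝ, v ∈ closure C → -v ∈ closure C → v = 0) →
    DiscreteTopology Γ →
    (∀ g ∈ Γ, |Matrix.det (g : Matrix (Fin n) (Fin n) ℝ)| = 1 ∧
        ∀ x ∈ C, (g : Matrix (Fin n) (Fin n) ℝ) *ᵥ x ∈ C) →
    (∃ y : Fin n → ℝ, y ∈ C ∧ ∃ t : ℝ, 0 < t ∧ ∃ w ∈ convexHull ℝ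
        {u : Fin n → ℝ | ‖u‖ = 1 ∧ u ∈ closure C ∧ u ∉ C ∧ ∃ x ∈ C,
          u ∈ closure {z : Fin n → ℝ | ∃ g ∈ Γ,
            z = ‖(g : Matrix (Fin n) (Fin n) ℝ) *ᵥ x‖⁻¹ • ((g : Matrix (Fin n) (Fin n) ℝ) *ᵥ x)}},
        y = t • w) →
    (∃ K : Set (Fin n → ℝ), IsCompact K ∧ K ⊆ C ∧
      ∀ y : Fin n → ℝ, (y ∈ C ∧ ∃ t : ℝ, 0 < t ∧ ∃ w ∈ convexHull ℝ
        {u : Fin n → ℝ | ‖u‖ = 1 ∧ u ∈ closure C ∧ u ∉ C ∧ ∃ x ∈ C,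
          u ∈ closure {z : Fin n → ℝ | ∃ g ∈ Γ,
            z = ‖(g : Matrix (Fin n) (Fin n) ℝ) *ᵥ x‖⁻¹ • ((g : Matrix (Fin n) (Fin n) ℝ) *ᵥ x)}},
        y = t • w) →
        ∃ g ∈ Γ, ∃ t : ℝ, 0 < t ∧ t • ((g : Matrix (Fin n) (Fin n) ℝ) *ᵥ y) ∈ K) →
    (¬ ∃ S : Finset ↥Γ, Subgroup.closure (S : Set ↥Γ) = ⊤ ∧ ∃ δ : ℕ,
        ∀ x y z w : ↥Γ,
          (SimpleGraph.fromRel fun a b : ↥Γ => a⁻¹ * b ∈ S).dist x y
            + (SimpleGraph.fromRel fun a b : ↥Γ => a⁻¹ * b ∈ S).dist z w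
          ≤ max ((SimpleGraph.fromRel fun a b : ↥Γ => a⁻¹ * b ∈ S).dist x z
                  + (SimpleGraph.fromRel fun a b : ↥Γ => a⁻¹ * b ∈ S).dist y w)
                ((SimpleGraph.fromRel fun a b : ↥Γ => a⁻¹ * b ∈ S).dist x w
                  + (SimpleGraph.fromRel fun a b : ↥Γ => a⁻¹ * b ∈ S).dist y z)
            + 2 * δ) →
    ∃ k : ℕ, 2 ≤ k ∧ ∃ v : Fin (k + 1) → (Fin n → ℝ), LinearIndependent ℝ v ∧
      {y : Fin n → ℝ | ∃ c : Fin (k + 1) → ℝ, (∀ i, 0 < c i) ∧ y = ∑ i, c i • v i} ⊆ C ∧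
      closure {y : Fin n → ℝ | ∃ c : Fin (k + 1) → ℝ, (∀ i, 0 < c i) ∧ y = ∑ i, c i • v i} ∩ C
        ⊆ {y : Fin n → ℝ | ∃ c : Fin (k + 1) → ℝ, (∀ i, 0 < c i) ∧ y = ∑ i, c i • v i} ∧
      (∀ (m : ℕ) (w : Fin (m + 1) → (Fin n → ℝ)), LinearIndependent ℝ w →
        {y : Fin n → ℝ | ∃ c : Fin (m + 1) → ℝ, (∀ i, 0 < c i) ∧ y = ∑ i, c i • w i} ⊆ C →
        closure {y : Fin n → ℝ | ∃ c : Fin (m + 1) → ℝ, (∀ i, 0 < c i) ∧ y = ∑ i, c i • w i} ∩ C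
          ⊆ {y : Fin n → ℝ | ∃ c : Fin (m + 1) → ℝ, (∀ i, 0 < c i) ∧ y = ∑ i, c i • w i} →
        {y : Fin n → ℝ | ∃ c : Fin (k + 1) → ℝ, (∀ i, 0 < c i) ∧ y = ∑ i, c i • v i}
          ⊆ {y : Fin n → ℝ | ∃ c : Fin (m + 1) → ℝ, (∀ i, 0 < c i) ∧ y = ∑ i, c i • w i} →
        {y : Fin n → ℝ | ∃ c : Fin (m + 1) → ℝ, (∀ i, 0 < c i) ∧ y = ∑ i, c i • w i}
          ⊆ {y : Fin n → ℝ | ∃ c : Fin (k + 1) → ℝ, (∀ i, 0 < c i) ∧ y = ∑ i, c i • v i}) ∧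
      ∃ A : Subgroup (GL (Fin n) ℝ), A ≤ Γ ∧
        Nonempty (↥A ≃* Multiplicative (Fin k → ℤ)) ∧
        ∀ a ∈ A, ∀ y ∈ {y : Fin n → ℝ | ∃ c : Fin (k + 1) → ℝ, (∀ i, 0 < c i) ∧ y = ∑ i, c i • v i},
          (a : Matrix (Fin n) (Fin n) ℝ) *ᵥ y ∈
            {y : Fin n → ℝ | ∃ c : Fin (k + 1) → ℝ, (∀ i, 0 < c i) ∧ y = ∑ i, c i • v i} := by
  intro n C Γ h1 h2 h3 h4 h5 h6 h7 h8 h9 h10 hyp
  have h : Pool.Agent.PFS.CC C Γ :=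
    { isOpen := h1
      convex := h2
      nonempty := h3
      zero := h4
      smul := h5
      salient := h6
      disc := h7
      det := fun g hg => (h8 g hg).1
      mem := fun g hg => (h8 g hg).2
      core := h9
      cocompact := by
        obtain ⟨K, hK1, hK2, hK3⟩ := h10
        exact ⟨K, hK1, hK2, fun y hy hy' => hK3 y ⟨hy, hy'⟩⟩ }
  obtain ⟨k, hk, w, hw, c1, c2, c3, c4, c5⟩ := Pool.Agent.VMX.H48.concl_of_fnl Pool.Agent.VMX.H48.fFnl n C Γ h hyp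
  exact ⟨k, hk, w, c1, c2, c3, c4, c5⟩

end Pool.Agent.S14139
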