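import Pool.Statements.S14232
import Pool.Agent.Helper36_M1D.FKm
import Pool.Agent.Helper36_M1D.TAUm
import Pool.Agent.Helper36_M1D.FinalM
import Pool.Agent.Helper5_M1D.Ind
import Pool.Agent.Helper9_M1D.Indt
import Pool.Agent.Helper14_M1D.Cross
import Pool.Agent.Helper14_M1D.Cell
import Pool.Agent.Helper18_M1D.Bsand
import Pool.Agent.Helper18_M1D.Bcp
import Pool.Agent.Helper21_M1D.Cnt
import Pool.Agent.Helper25_M1D.Erd
import Pool.Agent.Helper25_M1D.Sum
import Pool.Agent.Helper81_M1D.Piecek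
import Pool.Agent.Helper85_M1D.Swell
import Pool.Agent.Helper85_M1D.Td
import Pool.Agent.Helper85_M1D.Zdim
import Pool.Agent.Helper9_M1D.Dimx

set_option autoImplicit false
open Pool Pool.MP_f54fa5_gt

namespace Pool.Agent.S14232

/-- The negation of the preceding statement: For every regular space with a basis that is a countable union of closure-preserving families, and every n ≥ 0, covering dimension ≤ n holds iff large inductive dimension ≤ n, i.e. dim X = Ind X. -/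
theorem result :
    ¬ (∀ (X : Type) [TopologicalSpace X] [T3Space X],
    (∃ B : ℕ → Set (Set X), TopologicalSpace.IsTopologicalBasis (⋃ n, B n) ∧
      ∀ n, ∀ F ⊆ B n, closure (⋃₀ F) = ⋃ U ∈ F, closure U) →
    ∀ n : ℕ,
      ((∀ (k : ℕ) (U : Fin k → Set X), (∀ i, IsOpen (U i)) → (⋃ i, U i) = Set.univ →
          ∃ (m : ℕ) (V : Fin m → Set X), (∀ j, IsOpen (V j)) ∧ (⋃ j, V j) = Set.univ ∧
            (∀ j, ∃ i, V j ⊆ U i) ∧ ∀ x : X, {j : Fin m | x ∈ V j}.ncard ≤ n + 1) ↔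
        Nat.rec (motive := fun _ => Set X → Prop) (fun S => S = ∅)
          (fun (_ : ℕ) (P : Set X → Prop) (S : Set X) =>
            ∀ A O : Set X, IsClosed A → IsOpen O → A ∩ S ⊆ O →
              ∃ W : Set X, IsOpen W ∧ A ∩ S ⊆ W ∩ S ∧ closure (W ∩ S) ∩ S ⊆ O ∧
                P {x : X | x ∈ closure (W ∩ S) ∧ x ∈ S ∧ x ∉ W})
          (n + 1) Set.univ)) := by
  have hFK : MD.FK := MD.fk
  have hTAU : MD.TAU := MD.tau hFK
  have hSW : MD.SWELL := MD.swell
  have hSUBT : MD.SUBT := MD.H21.subt (MD.H21.dim1 MD.H14.cellThm)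
  have hZ : MD.ZDIM := MD.zdim hFK hTAU (MD.H25.sum hSW)
    (MD.H81.piecek hFK hTAU MD.td hSUBT) (MD.H21.piecem hFK hTAU hSUBT)
  have hD : MD.DIMX := MD.H9.dimx hFK hTAU (MD.H21.cnt hFK hTAU) hSW hZ
  have hB : MD.BASE := MD.bcp hFK hTAU (MD.bsand hFK)
  have hI : MD.INDX := MD.H5.indx hTAU (MD.H5.indnt hFK hTAU)
    (MD.H9.indt hFK hTAU MD.H14.cross MD.H25.erd)
  exact MD.final hTAU.t3 hB hD hI

end Pool.Agent.S14232
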