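import Pool.Statements.S14290
-- import your own Pool.Agent.* helpers here

set_option autoImplicit false
open Pool Pool.MP_fcdf0e_gt

namespace Pool.Agent.S14290

open Set

variable {W : Type} [LinearOrder W] [WellFoundedLT W]

/-- Closed elements for `f`. -/
def Cl (f : W → W) : Set W := {w | (∃ ξ, ξ < w) ∧ ∀ ξ, ξ < w → f ξ < w}

/-- `P` holds on a club. -/
def Evt (P : W → Prop) : Prop := ∃ f : W → W, ∀ w ∈ Cl f, P w

def Bd (w : W) (p : List (W × W)) : Prop := ∀ q ∈ p, q.1 < w ∧ q.2 < w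

/-- The two hypotheses on `W`. -/
structure Om (W : Type) [LinearOrder W] : Prop where
  ctb : ∀ a : W, (Set.Iio a).Countable
  bdd : ∀ s : Set W, s.Countable → ∃ b, ∀ a ∈ s, a < b

section basics

variable (hW : Om W)

include hW

omit [WellFoundedLT W] in
lemma Iic_ctb (a : W) : (Set.Iic a).Countable := by
  rw [← Set.Iio_insert]
  exact (hW.ctb a).insert a

omit [WellFoundedLT W] in
lemma clos (g : ℕ → List (W × W) → W → W → W) :
    ∃ f : W → W, ∀ w ∈ Cl f, ∀ n p c, Bd w p → c < w → w ∈ Cl (g n p c) := by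
  classical
  have key : ∀ ξ : W, ∃ b : W, ∀ (n : ℕ) (p : List (W × W)) (c d : W),
      (∀ q ∈ p, q.1 ≤ ξ ∧ q.2 ≤ ξ) → c ≤ ξ → d ≤ ξ → g n p c d < b := by
    intro ξ
    have : Countable (Set.Iic ξ) := (Iic_ctb hW ξ).to_subtype
    let F : ℕ × List (Set.Iic ξ × Set.Iic ξ) × Set.Iic ξ × Set.Iic ξ → W := fun z =>
      g z.1 (z.2.1.map (fun q => ((q.1 : W), (q.2 : W)))) z.2.2.1 z.2.2.2
    obtain ⟨b, hb⟩ := hW.bdd (Set.range F) (Set.countable_range F)
    refine ⟨b, ?_⟩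
    intro n p c d hp hc hd
    apply hb
    have hl : ∃ p' : List (Set.Iic ξ × Set.Iic ξ),
        p'.map (fun q => ((q.1 : W), (q.2 : W))) = p := by
      clear hb
      induction p with
      | nil => exact ⟨[], rfl⟩
      | cons q p ih =>
        obtain ⟨p', hp'⟩ := ih (fun r hr => hp r (List.mem_cons_of_mem _ hr))
        have hq := hp q (List.mem_cons_self)
        refine ⟨(⟨q.1, hq.1⟩, ⟨q.2, hq.2⟩) :: p', ?_⟩
        simp [hp']
    obtain ⟨p', hp'⟩ := hl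
    exact ⟨(n, p', ⟨c, hc⟩, ⟨d, hd⟩), by simp only [F]; rw [hp']⟩
  choose f hf using key
  refine ⟨f, ?_⟩
  intro w hw n p c hp hc
  refine ⟨hw.1, ?_⟩
  intro d hd
  have hmax : ∃ ξ, ξ < w ∧ (∀ q ∈ p, q.1 ≤ ξ ∧ q.2 ≤ ξ) ∧ c ≤ ξ ∧ d ≤ ξ := by
    clear hf hw
    induction p with
    | nil => exact ⟨max c d, max_lt hc hd, by simp, le_max_left _ _, le_max_right _ _⟩
    | cons q p ih =>
      obtain ⟨ξ, h1, h2, h3, h4⟩ := ih (fun r hr => hp r (List.mem_cons_of_mem _ hr))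
      have hq := hp q (List.mem_cons_self)
      refine ⟨max ξ (max q.1 q.2), max_lt h1 (max_lt hq.1 hq.2), ?_, h3.trans (le_max_left _ _),
        h4.trans (le_max_left _ _)⟩
      intro r hr
      rcases List.mem_cons.1 hr with rfl | hr
      · exact ⟨(le_max_left _ _).trans (le_max_right _ _),
          (le_max_right _ _).trans (le_max_right _ _)⟩
      · exact ⟨(h2 r hr).1.trans (le_max_left _ _), (h2 r hr).2.trans (le_max_left _ _)⟩
  obtain ⟨ξ, h1, h2, h3, h4⟩ := hmax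
  exact (hf ξ n p c d h2 h3 h4).trans (hw.2 ξ h1)

omit [WellFoundedLT W] in
/-- A common function for countably many. -/
lemma clos_nat (g : ℕ → W → W) :
    ∃ f : W → W, ∀ w ∈ Cl f, ∀ n, w ∈ Cl (g n) := by
  obtain ⟨f, hf⟩ := clos hW (fun n _ _ => g n)
  refine ⟨f, fun w hw n => ?_⟩
  obtain ⟨ξ, hξ⟩ := hw.1
  exact hf w hw n [] ξ (by simp [Bd]) hξ

omit [WellFoundedLT W] in
lemma evt_all {Q : ℕ → List (W × W) → W → W → Prop} (h : ∀ n p c, Evt (Q n p c)) :
    Evt (fun w => ∀ n p c, Bd w p → c < w → Q n p c w) := by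
  choose g hg using h
  obtain ⟨f, hf⟩ := clos hW g
  exact ⟨f, fun w hw n p c hp hc => hg n p c w (hf w hw n p c hp hc)⟩

lemma unbdd (f : W → W) (b : W) : ∃ w ∈ Cl f, b < w := by
  have key : ∀ ξ : W, ∃ b : W, ξ < b ∧ ∀ η ≤ ξ, f η < b := by
    intro ξ
    obtain ⟨b, hb⟩ := hW.bdd (insert ξ (f '' Set.Iic ξ)) (((Iic_ctb hW ξ).image f).insert _)
    exact ⟨b, hb ξ (Set.mem_insert _ _), fun η hη => hb _ (Set.mem_insert_of_mem _ ⟨η, hη, rfl⟩)⟩
  choose h h1 h2 using key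
  let s : ℕ → W := fun n => h^[n] b
  have hs : ∀ n, s (n + 1) = h (s n) := fun n => Function.iterate_succ_apply' h n b
  obtain ⟨c, hc⟩ := hW.bdd (Set.range s) (Set.countable_range s)
  have hne : {w : W | ∀ n, s n < w}.Nonempty := ⟨c, fun n => hc _ ⟨n, rfl⟩⟩
  obtain ⟨w, hw, hmin⟩ := WellFounded.has_min (wellFounded_lt (α := W)) _ hne
  refine ⟨w, ⟨⟨s 0, hw 0⟩, ?_⟩, hw 0⟩
  intro ξ hξ
  have : ∃ n, ξ ≤ s n := by
    by_contra hcon
    push Not at hcon
    exact hmin ξ hcon hξ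
  obtain ⟨n, hn⟩ := this
  calc f ξ < h (s n) := h2 _ _ hn
    _ = s (n + 1) := (hs n).symm
    _ < w := hw _

omit [WellFoundedLT W] hW in
lemma pos_unbdd {P : W → Prop} (h : ¬ Evt (fun w => ¬ P w)) (b : W) : ∃ w, b < w ∧ P w := by
  by_contra hcon
  push Not at hcon
  apply h
  refine ⟨fun _ => b, fun w hw => ?_⟩
  obtain ⟨ξ, hξ⟩ := hw.1
  exact hcon w (hw.2 ξ hξ)

end basics

/-- The points. -/
def Pt (W : Type) [LinearOrder W] : Type := {x : ℕ → W // StrictMono x ∧ ∃ w, w < x 0}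

def nb (y : ℕ → W) (n : ℕ) (δ : ℕ → W) : Set (Pt W) :=
  {x | (∀ i, i ≤ n → y i < x.1 (i + 1)) ∧ ∃ j, j ≤ n + 1 ∧ (∀ i, i < j → x.1 i = y i) ∧
    ∀ i, j ≤ i → i ≤ n → δ i < x.1 i ∧ x.1 i < y i}

omit [WellFoundedLT W] in
lemma lt_suc (x : Pt W) (i : ℕ) : x.1 i < x.1 (i + 1) := x.2.1 (Nat.lt_succ_self i)

omit [WellFoundedLT W] in
lemma exists_low (x : Pt W) : ∃ δ : ℕ → W, ∀ i, δ i < x.1 i := by
  obtain ⟨w, hw⟩ := x.2.2
  exact ⟨fun _ => w, fun i => hw.trans_le (x.2.1.monotone (Nat.zero_le i))⟩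

omit [WellFoundedLT W] in
lemma mem_nb (y : Pt W) (n : ℕ) (δ : ℕ → W) : y ∈ nb y.1 n δ :=
  ⟨fun i _ => lt_suc y i, n + 1, le_rfl, fun _ _ => rfl, fun i h1 h2 => by omega⟩

omit [WellFoundedLT W] in
lemma nb_mono (y : ℕ → W) {n N : ℕ} {δ Δ : ℕ → W} (hn : n ≤ N) (hδ : ∀ i, i ≤ n → δ i ≤ Δ i) :
    nb y N Δ ⊆ nb y n δ := by
  rintro x ⟨h1, j, hj, h2, h3⟩
  refine ⟨fun i hi => h1 i (hi.trans hn), ?_⟩
  by_cases hjn : j ≤ n + 1
  · exact ⟨j, hjn, h2, fun i h4 h5 => ⟨(hδ i h5).trans_lt (h3 i h4 (h5.trans hn)).1,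
      (h3 i h4 (h5.trans hn)).2⟩⟩
  · exact ⟨n + 1, le_rfl, fun i hi => h2 i (by omega), fun i h4 h5 => by omega⟩

instance top : TopologicalSpace (Pt W) where
  IsOpen U := ∀ y ∈ U, ∃ n δ, (∀ i, δ i < y.1 i) ∧ nb y.1 n δ ⊆ U
  isOpen_univ := by
    intro y _
    obtain ⟨δ, hδ⟩ := exists_low y
    exact ⟨0, δ, hδ, Set.subset_univ _⟩
  isOpen_inter := by
    rintro s t hs ht y ⟨hys, hyt⟩
    obtain ⟨n, δ, h1, h2⟩ := hs y hys
    obtain ⟨n', δ', h1', h2'⟩ := ht y hyt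
    refine ⟨max n n', fun i => max (δ i) (δ' i), fun i => max_lt (h1 i) (h1' i), ?_⟩
    exact Set.subset_inter
      ((nb_mono y.1 (le_max_left _ _) (fun i _ => le_max_left _ _)).trans h2)
      ((nb_mono y.1 (le_max_right _ _) (fun i _ => le_max_right _ _)).trans h2')
  isOpen_sUnion := by
    rintro S hS y ⟨U, hU, hy⟩
    obtain ⟨n, δ, h1, h2⟩ := hS U hU y hy
    exact ⟨n, δ, h1, h2.trans (Set.subset_sUnion_of_mem hU)⟩

omit [WellFoundedLT W] in
lemma isOpen_def (U : Set (Pt W)) :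
    IsOpen U ↔ ∀ y ∈ U, ∃ n δ, (∀ i, δ i < y.1 i) ∧ nb y.1 n δ ⊆ U := Iff.rfl

omit [WellFoundedLT W] in
lemma isOpen_nb (y : Pt W) (n : ℕ) (δ : ℕ → W) (hδ : ∀ i, δ i < y.1 i) :
    IsOpen (nb y.1 n δ) := by
  rw [isOpen_def]
  rintro x ⟨h1, j, hj, h2, h3⟩
  obtain ⟨ε, hε⟩ := exists_low x
  have hδx : ∀ i, i ≤ n → δ i < x.1 i := by
    intro i hi
    by_cases hij : i < j
    · rw [h2 i hij]; exact hδ i
    · exact (h3 i (by omega) hi).1
  refine ⟨n + 1, fun i => if i ≤ n then (if i = 0 then δ i else max (δ i) (y.1 (i - 1)))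
    else (if i = n + 1 then y.1 n else ε i), ?_, ?_⟩
  · intro i
    by_cases hi : i ≤ n
    · by_cases hi0 : i = 0
      · subst hi0
        simpa using hδx 0 (Nat.zero_le n)
      · simp only [hi, hi0, if_true, if_false]
        refine max_lt (hδx i hi) ?_
        have := h1 (i - 1) (by omega)
        rwa [Nat.sub_add_cancel (by omega)] at this
    · by_cases hi1 : i = n + 1
      · subst hi1
        simpa using h1 n le_rfl
      · simp only [hi, hi1, if_false]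
        exact hε i
  · rintro z ⟨k1, j', hj', k2, k3⟩
    refine ⟨?_, min j j', (min_le_left _ _).trans hj, ?_, ?_⟩
    · intro i hi
      by_cases hij : i + 1 < j'
      · rw [k2 _ hij]; exact h1 i hi
      · have := (k3 (i + 1) (by omega) (by omega)).1
        by_cases hin : i + 1 ≤ n
        · simp only [hin, if_true, Nat.add_eq_zero_iff, one_ne_zero, and_false, if_false,
            Nat.add_sub_cancel] at this
          exact (le_max_right _ _).trans_lt this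
        · have hin' : i = n := by omega
          subst hin'
          simpa using this
    · intro i hi
      rw [k2 i (lt_of_lt_of_le hi (min_le_right _ _)), h2 i (lt_of_lt_of_le hi (min_le_left _ _))]
    · intro i hi hin
      have hk : j' ≤ i → δ i < z.1 i ∧ z.1 i < x.1 i := by
        intro hji
        obtain ⟨h4, h5⟩ := k3 i hji (by omega)
        refine ⟨?_, h5⟩
        by_cases hi0 : i = 0
        · subst hi0; simpa using h4
        · simp only [hin, hi0, if_true, if_false] at h4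
          exact (le_max_left _ _).trans_lt h4
      by_cases hij : i < j
      · have hj'i : j' ≤ i := by
          rcases min_le_iff.1 hi with h | h
          · omega
          · exact h
        have := hk hj'i
        exact ⟨this.1, this.2.trans_eq (h2 i hij)⟩
      · obtain ⟨h4, h5⟩ := h3 i (by omega) hin
        by_cases hij' : i < j'
        · rw [k2 i hij']; exact ⟨h4, h5⟩
        · have := hk (by omega)
          exact ⟨this.1, this.2.trans h5⟩

/-- The list of pairs `(y i, e i)` for `i < l`. -/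
def pr (y e : ℕ → W) (l : ℕ) : List (W × W) := (List.range l).map (fun i => (y i, e i))

omit [LinearOrder W] [WellFoundedLT W] in
lemma pr_succ (y e : ℕ → W) (l : ℕ) : pr y e (l + 1) = pr y e l ++ [(y l, e l)] := by
  simp [pr, List.range_succ]

omit [LinearOrder W] [WellFoundedLT W] in
lemma length_pr (y e : ℕ → W) (l : ℕ) : (pr y e l).length = l := by simp [pr]

omit [LinearOrder W] [WellFoundedLT W] in
lemma mem_pr {y e : ℕ → W} {l : ℕ} {q : W × W} :
    q ∈ pr y e l ↔ ∃ i, i < l ∧ (y i, e i) = q := by simp [pr]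

omit [LinearOrder W] [WellFoundedLT W] in
/-- Recursive construction of a sequence. -/
lemma exists_seq (step : List W → W) (b : ℕ → W) (k : ℕ) :
    ∃ y : ℕ → W, (∀ i, i < k → y i = b i) ∧ ∀ i, k ≤ i → y i = step ((List.range i).map y) := by
  let L : ℕ → List W := fun n => Nat.rec [] (fun i l => l ++ [if i < k then b i else step l]) n
  have hL : ∀ i, L (i + 1) = L i ++ [if i < k then b i else step (L i)] := fun i => rfl
  let y : ℕ → W := fun i => if i < k then b i else step (L i)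
  have hy : ∀ i, L i = (List.range i).map y := by
    intro i
    induction i with
    | zero => rfl
    | succ i ih =>
      rw [hL, List.range_succ, List.map_append, ← ih]
      rfl
  refine ⟨y, fun i hi => by simp [y, hi], fun i hi => ?_⟩
  rw [← hy i]
  simp [y, not_lt.2 hi]

/-- The rank condition: `r` more steps lead to a point with `ν = n`. -/
def R (ν : Pt W → ℕ) (δ : Pt W → ℕ → W) (n : ℕ) : ℕ → List (W × W) → Prop
  | 0, p => ∃ (a : Pt W) (e : ℕ → W), ν a = n ∧ p = pr a.1 e (n + 1) ∧ ∀ i, i ≤ n → δ a i ≤ e i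
  | r + 1, p => ∃ c, ¬ Evt (fun w => ¬ R ν δ n r (p ++ [(w, c)]))

lemma claim (hW : Om W) (ν : Pt W → ℕ) (δ : Pt W → ℕ → W) (hδ : ∀ a i, δ a i < a.1 i)
    (k : ℕ) (b : Pt W) (hb : ∀ a : Pt W, (∀ i, i < k → a.1 i = b.1 i) → k ≤ ν a) :
    ∃ n, k ≤ n ∧ ∃ p : List (W × W), p.map Prod.fst = (List.range k).map b.1 ∧
      (∀ q ∈ p, q.2 < q.1) ∧ R ν δ n (n + 1 - k) p := by
  classical
  by_contra hcon
  push Not at hcon
  let Inv : List W → Prop := fun t => ∀ n, k ≤ n → t.length ≤ n + 1 → ∀ p : List (W × W),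
    p.map Prod.fst = t → (∀ q ∈ p, q.2 < q.1) → ¬ R ν δ n (n + 1 - t.length) p
  have hstep : ∀ t : List W, Inv t → ∃ w, (∃ ξ, ξ < w) ∧ (∀ z ∈ t, z < w) ∧ Inv (t ++ [w]) := by
    intro t ht
    have h1 : ∀ (n : ℕ) (p : List (W × W)) (c : W), Evt (fun w => k ≤ n → t.length + 1 ≤ n + 1 →
        p.map Prod.fst = t → (∀ q ∈ p, q.2 < q.1) →
        ¬ R ν δ n (n + 1 - (t.length + 1)) (p ++ [(w, c)])) := by
      intro n p c
      by_cases h : k ≤ n ∧ t.length + 1 ≤ n + 1 ∧ p.map Prod.fst = t ∧ (∀ q ∈ p, q.2 < q.1)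
      · obtain ⟨h2, h3, h4, h5⟩ := h
        have h6 := ht n h2 (by omega) p h4 h5
        have h7 : n + 1 - t.length = (n + 1 - (t.length + 1)) + 1 := by omega
        rw [h7, R] at h6
        push Not at h6
        obtain ⟨f, hf⟩ := h6 c
        exact ⟨f, fun w hw _ _ _ _ => hf w hw⟩
      · exact ⟨id, fun w _ h2 h3 h4 h5 => absurd ⟨h2, h3, h4, h5⟩ h⟩
    obtain ⟨f, hf⟩ := evt_all hW h1
    obtain ⟨z, hz⟩ := hW.bdd {z | z ∈ t} (List.finite_toSet t).countable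
    obtain ⟨w, hw, hzw⟩ := unbdd hW f z
    have hlt : ∀ z ∈ t, z < w := fun x hx => (hz x hx).trans hzw
    refine ⟨w, hw.1, hlt, ?_⟩
    intro n hkn hn p' hp' hval
    rw [List.length_append, List.length_singleton] at hn ⊢
    obtain ⟨p, q, rfl⟩ : ∃ p q, p' = p ++ [q] := by
      have hne : p' ≠ [] := by
        rintro rfl
        simp at hp'
      exact ⟨p'.dropLast, p'.getLast hne, (List.dropLast_append_getLast hne).symm⟩
    rw [List.map_append, List.map_singleton] at hp'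
    obtain ⟨hp1, hp2⟩ := List.append_inj' hp' rfl
    have hq1 : q.1 = w := by simpa using hp2
    have hval1 : ∀ r ∈ p, r.2 < r.1 := fun r hr => hval r (List.mem_append_left _ hr)
    have hq2 : q.2 < w := by
      rw [← hq1]; exact hval q (List.mem_append_right _ (List.mem_singleton_self _))
    have hBd : Bd w p := by
      intro r hr
      have : r.1 < w := hlt _ (by rw [← hp1]; exact List.mem_map_of_mem hr)
      exact ⟨this, (hval1 r hr).trans this⟩
    have := hf w hw n p q.2 hBd hq2 hkn hn hp1 hval1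
    rwa [← hq1] at this
  have hne : Nonempty W := ⟨b.1 0⟩
  choose! step hs1 hs2 hs3 using hstep
  obtain ⟨y, hy1, hy2⟩ := exists_seq step b.1 k
  have hInv : ∀ l, k ≤ l → Inv ((List.range l).map y) := by
    intro l hl
    induction l, hl using Nat.le_induction with
    | base =>
      intro n hn _ p hp hval
      have h1 : (List.range k).map y = (List.range k).map b.1 := by
        apply List.map_congr_left
        intro i hi
        exact hy1 i (List.mem_range.1 hi)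
      rw [List.length_map, List.length_range]
      exact hcon n hn p (hp.trans h1) hval
    | succ l hl ih =>
      rw [List.range_succ, List.map_append, List.map_singleton, hy2 l hl]
      exact hs3 _ ih
  have hmono : ∀ i, y i < y (i + 1) := by
    intro i
    by_cases hi : i + 1 < k
    · rw [hy1 i (by omega), hy1 (i + 1) hi]; exact lt_suc b i
    · rw [hy2 (i + 1) (by omega)]
      exact hs2 _ (hInv _ (by omega)) _ (by
        rw [List.mem_map]; exact ⟨i, List.mem_range.2 (Nat.lt_succ_self i), rfl⟩)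
  have hlow : ∃ w, w < y 0 := by
    rcases Nat.eq_zero_or_pos k with hk | hk
    · rw [hy2 0 (by omega)]
      exact hs1 _ (hInv _ (by omega))
    · rw [hy1 0 hk]; exact b.2.2
  let Y : Pt W := ⟨y, strictMono_nat_of_lt_succ hmono, hlow⟩
  have hk : k ≤ ν Y := hb Y hy1
  have h1 := hInv (ν Y + 1) (by omega) (ν Y) hk (by simp) (pr y (δ Y) (ν Y + 1))
    (by simp [pr, Function.comp_def]) (by
      intro q hq
      obtain ⟨i, _, rfl⟩ := mem_pr.1 hq
      exact hδ Y i)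
  apply h1
  rw [List.length_map, List.length_range, Nat.sub_self, R]
  exact ⟨Y, δ Y, rfl, rfl, fun _ _ => le_rfl⟩

lemma gen (hW : Om W) (ν : Pt W → ℕ) (δ : Pt W → ℕ → W) (hδ : ∀ a i, δ a i < a.1 i) :
    ∃ f : W → W, ∀ (k : ℕ) (b : Pt W) (u : ℕ → W), Monotone u → (∀ i, i < k → b.1 i < u k) →
      ∃ a : Pt W, (∀ i, i < k → a.1 i = b.1 i) ∧
        ∀ i, k ≤ i → i ≤ ν a → u i ≤ a.1 i ∧ (∀ w ∈ Cl f, u i < w → a.1 i < w) ∧
          ∀ w ∈ Cl f, (∀ i', i' < k → b.1 i' < w) → (k < i → u (i - 1) < w) → δ a i < w := by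
  classical
  rcases isEmpty_or_nonempty W with hemp | hne
  · exact ⟨id, fun k b => (hemp.false (b.1 0)).elim⟩
  have h1 : ∀ (n : ℕ) (p : List (W × W)), ∃ c, R ν δ n (n - p.length + 1) p →
      ¬ Evt (fun w => ¬ R ν δ n (n - p.length) (p ++ [(w, c)])) := by
    intro n p
    by_cases h : R ν δ n (n - p.length + 1) p
    · rw [R] at h
      obtain ⟨c, hc⟩ := h
      exact ⟨c, fun _ => hc⟩
    · exact ⟨Classical.arbitrary W, fun h' => absurd h' h⟩
  choose E hE using h1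
  have h2 : ∀ (n : ℕ) (p : List (W × W)) (u : W), ∃ w, R ν δ n (n - p.length + 1) p →
      u < w ∧ R ν δ n (n - p.length) (p ++ [(w, E n p)]) := by
    intro n p u
    by_cases h : R ν δ n (n - p.length + 1) p
    · obtain ⟨w, hw⟩ := pos_unbdd (hE n p h) u
      exact ⟨w, fun _ => hw⟩
    · exact ⟨Classical.arbitrary W, fun h' => absurd h' h⟩
  choose Nx hNx using h2
  obtain ⟨f, hf⟩ := clos hW (fun n p c _ => max (E n p) (Nx n p c))
  have hfE : ∀ w ∈ Cl f, ∀ n p, Bd w p → E n p < w := by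
    intro w hw n p hp
    obtain ⟨ξ, hξ⟩ := hw.1
    exact (le_max_left _ _).trans_lt ((hf w hw n p ξ hp hξ).2 ξ hξ)
  have hfN : ∀ w ∈ Cl f, ∀ n p u, Bd w p → u < w → Nx n p u < w := by
    intro w hw n p u hp hu
    exact (le_max_right _ _).trans_lt ((hf w hw n p u hp hu).2 u hu)
  refine ⟨f, ?_⟩
  intro k b u hu hbu
  by_cases hex : ∃ a : Pt W, (∀ i, i < k → a.1 i = b.1 i) ∧ ν a < k
  · obtain ⟨a, ha, hak⟩ := hex
    exact ⟨a, ha, fun i h3 h4 => by omega⟩
  push Not at hex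
  obtain ⟨n, hkn, p0, hp0, hval, hR0⟩ := claim hW ν δ hδ k b hex
  have hlen0 : p0.length = k := by
    have := congrArg List.length hp0
    simpa using this
  let P : ℕ → List (W × W) := fun m =>
    Nat.rec p0 (fun m q => q ++ [(Nx n q (u (k + m)), E n q)]) m
  have hP0 : P 0 = p0 := rfl
  have hPs : ∀ m, P (m + 1) = P m ++ [(Nx n (P m) (u (k + m)), E n (P m))] := fun m => rfl
  have hlen : ∀ m, (P m).length = k + m := by
    intro m
    induction m with
    | zero => exact hlen0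
    | succ m ih => rw [hPs, List.length_append, ih]; rfl
  have hR : ∀ m, m ≤ n + 1 - k → R ν δ n (n + 1 - k - m) (P m) := by
    intro m
    induction m with
    | zero => intro _; exact hR0
    | succ m ih =>
      intro hm
      have h3 := ih (by omega)
      have h4 : n + 1 - k - m = n - (P m).length + 1 := by rw [hlen]; omega
      rw [h4] at h3
      have h5 := (hNx n (P m) (u (k + m)) h3).2
      have h6 : n + 1 - k - (m + 1) = n - (P m).length := by rw [hlen]; omega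
      rw [h6, hPs]
      exact h5
  have hfin := hR (n + 1 - k) le_rfl
  rw [Nat.sub_self, R] at hfin
  obtain ⟨a, e, hνa, hPa, hδe⟩ := hfin
  have hPm : ∀ d m, m + d = n + 1 - k → P m = pr a.1 e (k + m) := by
    intro d
    induction d with
    | zero =>
      intro m hm
      have : m = n + 1 - k := by omega
      subst this
      rw [hPa]
      congr 1
      omega
    | succ d ih =>
      intro m hm
      have h3 := ih (m + 1) (by omega)
      rw [hPs, ← Nat.add_assoc, pr_succ] at h3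
      exact (List.append_inj' h3 rfl).1
  have hPm' : ∀ m, m ≤ n + 1 - k → P m = pr a.1 e (k + m) := fun m hm =>
    hPm (n + 1 - k - m) m (by omega)
  have hstep : ∀ m, m < n + 1 - k →
      a.1 (k + m) = Nx n (P m) (u (k + m)) ∧ e (k + m) = E n (P m) := by
    intro m hm
    have h3 := hPm' (m + 1) hm
    rw [hPs, ← Nat.add_assoc, pr_succ] at h3
    have h4 := (List.append_inj' h3 rfl).2
    simp only [List.cons.injEq, Prod.mk.injEq, and_true] at h4
    exact ⟨h4.1.symm, h4.2.symm⟩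
  have hab : ∀ i, i < k → a.1 i = b.1 i := by
    intro i hi
    have h3 := hPm' 0 (Nat.zero_le _)
    rw [hP0] at h3
    rw [h3] at hp0
    simp only [pr, Nat.add_zero, List.map_map] at hp0
    have h4 := List.map_inj_left.1 hp0 i (List.mem_range.2 hi)
    exact h4
  have hBd : ∀ w ∈ Cl f, (∀ i', i' < k → b.1 i' < w) → ∀ m, (∀ m', m' < m → u (k + m') < w) →
      Bd w (P m) := by
    intro w hw hbw m
    induction m with
    | zero =>
      intro _ q hq
      have h3 : q.1 ∈ p0.map Prod.fst := List.mem_map_of_mem hq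
      rw [hp0, List.mem_map] at h3
      obtain ⟨i, hi, hi'⟩ := h3
      have h4 : q.1 < w := by rw [← hi']; exact hbw i (List.mem_range.1 hi)
      exact ⟨h4, (hval q hq).trans h4⟩
    | succ m ih =>
      intro hm
      have h3 := ih (fun m' hm' => hm m' (by omega))
      intro q hq
      rw [hPs, List.mem_append, List.mem_singleton] at hq
      rcases hq with hq | rfl
      · exact h3 q hq
      · exact ⟨hfN w hw n _ _ h3 (hm m (Nat.lt_succ_self m)), hfE w hw n _ h3⟩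
  refine ⟨a, hab, ?_⟩
  intro i hki hia
  obtain ⟨m, rfl⟩ := Nat.exists_eq_add_of_le hki
  rw [hνa] at hia
  have hm : m < n + 1 - k := by omega
  obtain ⟨ha, he⟩ := hstep m hm
  have h3 := hR m hm.le
  have h4 : n + 1 - k - m = n - (P m).length + 1 := by rw [hlen]; omega
  rw [h4] at h3
  refine ⟨?_, ?_, ?_⟩
  · rw [ha]; exact (hNx n (P m) (u (k + m)) h3).1.le
  · intro w hw huw
    rw [ha]
    refine hfN w hw n _ _ (hBd w hw ?_ m ?_) huw
    · intro i' hi'
      exact (hbu i' hi').trans ((hu (Nat.le_add_right k m)).trans_lt huw)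
    · intro m' hm'
      exact (hu (by omega)).trans_lt huw
  · intro w hw hbw huw
    refine (hδe (k + m) (by omega)).trans_lt ?_
    rw [he]
    refine hfE w hw n _ (hBd w hw hbw m ?_)
    intro m' hm'
    exact (hu (by omega)).trans_lt (huw (by omega))

lemma exists_num (hW : Om W) (f : W → W) :
    ∃ num : W → ℕ, ∀ (m : ℕ) (μ : W), ∃ θ, (∃ ξ, ξ < μ) → θ < μ ∧
      (μ ∉ Cl f → ∀ l, l < μ → num l ≤ m → l ≤ θ) := by
  classical
  have h1 : ∀ l : W, ∃ ρ, (ρ ∈ Cl f ∧ l < ρ) ∧ ∀ ρ', ρ' ∈ Cl f → l < ρ' → ρ ≤ ρ' := by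
    intro l
    obtain ⟨w, hw, hlw⟩ := unbdd hW f l
    obtain ⟨ρ, hρ, hmin⟩ := WellFounded.has_min (wellFounded_lt (α := W))
      {ρ | ρ ∈ Cl f ∧ l < ρ} ⟨w, hw, hlw⟩
    exact ⟨ρ, hρ, fun ρ' h2 h3 => not_lt.1 (hmin ρ' ⟨h2, h3⟩)⟩
  choose π hπ1 hπ2 using h1
  have h2 : ∀ ρ : W, ∃ h : W → ℕ, Set.InjOn h (Set.Iio ρ) := fun ρ =>
    Set.countable_iff_exists_injOn.1 (hW.ctb ρ)
  choose h hh using h2
  refine ⟨fun l => h (π l) l, ?_⟩
  intro m μ
  by_cases hμ : ∃ ξ, ξ < μ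
  swap
  · exact ⟨μ, fun h3 => absurd h3 hμ⟩
  by_cases hμC : μ ∈ Cl f
  · obtain ⟨ξ, hξ⟩ := hμ
    exact ⟨ξ, fun _ => ⟨hξ, fun h3 => absurd hμC h3⟩⟩
  have h3 : ∃ ξ, ξ < μ ∧ μ ≤ f ξ := by
    by_contra hcon
    push Not at hcon
    exact hμC ⟨hμ, hcon⟩
  obtain ⟨ξ, hξ, hfξ⟩ := h3
  have h4 : ∀ l, ξ ≤ l → l < μ → π l = π ξ := by
    intro l hl hlμ
    apply le_antisymm
    · apply hπ2 l _ (hπ1 ξ).1
      exact hlμ.trans_le (hfξ.trans ((hπ1 ξ).1.2 ξ (hπ1 ξ).2).le)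
    · exact hπ2 ξ _ (hπ1 l).1 (hl.trans_lt (hπ1 l).2)
  let S : Set W := {l | ξ ≤ l ∧ l < μ ∧ h (π ξ) l ≤ m}
  have hSfin : S.Finite := by
    apply Set.Finite.of_finite_image (f := h (π ξ))
    · apply (Set.finite_Iic m).subset
      rintro _ ⟨l, hl, rfl⟩
      exact hl.2.2
    · apply (hh (π ξ)).mono
      intro l hl
      have := (hπ1 l).2
      rw [h4 l hl.1 hl.2.1] at this
      exact this
  have hS' : (insert ξ S).Finite := hSfin.insert ξ
  obtain ⟨θ, hθ, hmax⟩ := Set.exists_max_image (insert ξ S) id hS' ⟨ξ, Set.mem_insert _ _⟩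
  refine ⟨θ, fun _ => ⟨?_, fun _ l hl hnum => ?_⟩⟩
  · rcases hθ with rfl | hθ
    · exact hξ
    · exact hθ.2.1
  · rcases le_total ξ l with h5 | h5
    · have : h (π ξ) l ≤ m := by rw [← h4 l h5 hl]; exact hnum
      exact hmax l (Set.mem_insert_of_mem _ ⟨h5, hl, this⟩)
    · exact h5.trans (hmax ξ (Set.mem_insert _ _))

/-- Every assignment of basic neighbourhoods is captured. -/
lemma capture (hW : Om W) (ν : Pt W → ℕ) (δ : Pt W → ℕ → W) (hδ : ∀ a i, δ a i < a.1 i) :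
    ∃ θ : ℕ → W → W, (∀ m μ, (∃ ξ, ξ < μ) → θ m μ < μ) ∧
      ∀ x : Pt W, ∃ (m : ℕ) (A : Finset (Pt W)), ∀ y : Pt W, x ∈ nb y.1 m (fun i => θ m (y.1 i)) →
        ∃ a ∈ A, y ∈ nb a.1 (ν a) (δ a) := by
  classical
  obtain ⟨f, hf⟩ := gen hW ν δ hδ
  obtain ⟨num, hnum⟩ := exists_num hW f
  choose θ hθ using hnum
  refine ⟨θ, fun m μ h => (hθ m μ h).1, ?_⟩
  intro x
  have hxm : StrictMono x.1 := x.2.1
  have h1 : ∀ j : ℕ, ∃ a : Pt W, (∀ i, i < j → a.1 i = x.1 i) ∧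
        ∀ i, j ≤ i → i ≤ ν a → x.1 (i + 1) ≤ a.1 i ∧
          (∀ w ∈ Cl f, x.1 (i + 1) < w → a.1 i < w) ∧
          ∀ w ∈ Cl f, (∀ i', i' < j → x.1 i' < w) → (j < i → x.1 (i - 1 + 1) < w) → δ a i < w :=
    fun j => hf j x (fun i => x.1 (i + 1)) (fun i i' h => hxm.monotone (by omega))
      (fun i hi => hxm (by omega))
  choose a ha1 ha2 using h1
  let N : ℕ := (Finset.range (ν x + 1)).sup (fun j => ν (a j))
  have hN : ∀ j, j ≤ ν x → ν (a j) ≤ N := fun j hj =>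
    Finset.le_sup (f := fun j => ν (a j)) (Finset.mem_range.2 (by omega))
  let M : ℕ := max (N + 1) ((Finset.range (N + 2)).sup (fun i => num (x.1 i)))
  have hM1 : N + 1 ≤ M := le_max_left _ _
  have hM2 : ∀ i, i ≤ N + 1 → num (x.1 i) ≤ M := fun i hi =>
    (Finset.le_sup (f := fun i => num (x.1 i)) (Finset.mem_range.2 (by omega))).trans
      (le_max_right _ _)
  refine ⟨M, insert x ((Finset.range (ν x + 1)).image a), ?_⟩
  rintro y ⟨h1, j, hj, h2, h3⟩
  by_cases hjx : ν x < j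
  · refine ⟨x, Finset.mem_insert_self _ _, ?_, ν x + 1, le_rfl, fun i hi => (h2 i (by omega)).symm,
      fun i h4 h5 => by omega⟩
    intro i hi
    rw [h2 i (by omega)]
    exact lt_suc y i
  push Not at hjx
  have hC : ∀ i, j ≤ i → i ≤ N + 1 → y.1 i ∈ Cl f := by
    intro i hji hiN
    by_contra hcon
    obtain ⟨h4, h5⟩ := h3 i hji (by omega)
    have hlow : ∃ ξ, ξ < y.1 i := ⟨_, h5⟩
    have := (hθ M (y.1 i) hlow).2 hcon (x.1 i) h5 (hM2 i hiN)
    exact absurd this (not_le.2 h4)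
  refine ⟨a j, Finset.mem_insert_of_mem (Finset.mem_image_of_mem _ (Finset.mem_range.2 (by omega))),
    ?_, ?_⟩
  · intro i hi
    by_cases hij : i < j
    · rw [ha1 j i hij, h2 i hij]; exact lt_suc y i
    · have hiN : i ≤ N := hi.trans (hN j hjx)
      exact (ha2 j i (by omega) hi).2.1 _ (hC (i + 1) (by omega) (by omega))
        (h3 (i + 1) (by omega) (by omega)).2
  · by_cases hjn : j ≤ ν (a j) + 1
    · refine ⟨j, hjn, fun i hi => by rw [ha1 j i hi, h2 i hi], ?_⟩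
      intro i hji hi
      have hiN : i ≤ N := hi.trans (hN j hjx)
      obtain ⟨h4, h5, h6⟩ := ha2 j i hji hi
      have hxy : x.1 i < y.1 i := (h3 i hji (by omega)).2
      refine ⟨?_, ?_⟩
      · apply h6 _ (hC i hji (by omega))
        · intro i' hi'
          exact (hxm (by omega : i' < i)).trans hxy
        · intro hij
          rw [Nat.sub_add_cancel (by omega)]
          exact hxy
      · exact (h1 i (by omega)).trans_le h4
    · refine ⟨ν (a j) + 1, le_rfl, fun i hi => ?_, fun i h4 h5 => by omega⟩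
      rw [ha1 j i (by omega), h2 i (by omega)]

lemma hyp (hW : Om W) (𝒰 : Set (Set (Pt W))) (ho : ∀ U ∈ 𝒰, IsOpen U) (hc : ⋃₀ 𝒰 = Set.univ)
    (hd : DirectedOn (· ⊆ ·) 𝒰) :
    ∃ 𝒩 : ℕ → Set (Set (Pt W)), ⋃₀ (⋃ n, 𝒩 n) = Set.univ ∧
      ∀ n, ∃ Φ : Set (Pt W) → Set (Pt W), (∀ N ∈ 𝒩 n, Φ N ∈ 𝒰) ∧
        ∀ 𝓜 ⊆ 𝒩 n, closure (⋃₀ 𝓜) ⊆ ⋃₀ (Φ '' 𝓜) := by
  classical
  have h1 : ∀ y : Pt W, ∃ (U : Set (Pt W)) (n : ℕ) (δ : ℕ → W), U ∈ 𝒰 ∧ (∀ i, δ i < y.1 i) ∧
      nb y.1 n δ ⊆ U := by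
    intro y
    have : y ∈ ⋃₀ 𝒰 := hc ▸ Set.mem_univ y
    obtain ⟨U, hU, hyU⟩ := this
    obtain ⟨n, δ, h2, h3⟩ := (isOpen_def U).1 (ho U hU) y hyU
    exact ⟨U, n, δ, hU, h2, h3⟩
  choose U ν δ hU hδ hnb using h1
  obtain ⟨θ, hθ1, hθ2⟩ := capture hW ν δ hδ
  let V : ℕ → Pt W → Set (Pt W) := fun m y => nb y.1 m (fun i => θ m (y.1 i))
  have hVo : ∀ m y, IsOpen (V m y) := fun m y =>
    isOpen_nb y m _ (fun i => hθ1 m (y.1 i) ((exists_low y).elim fun d hd => ⟨_, hd i⟩))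
  have hVm : ∀ m y, y ∈ V m y := fun m y => mem_nb y m _
  let N : ℕ → Set (Pt W) → Set (Pt W) := fun m B => {x | ∀ y, x ∈ V m y → y ∈ B}
  refine ⟨fun m => (N m) '' 𝒰, ?_, ?_⟩
  · rw [Set.eq_univ_iff_forall]
    intro x
    obtain ⟨m, A, hA⟩ := hθ2 x
    have hdir : ∀ A : Finset (Pt W), ∃ B ∈ 𝒰, ∀ a ∈ A, U a ⊆ B := by
      intro A
      induction A using Finset.induction_on with
      | empty => exact ⟨U x, hU x, by simp⟩
      | insert a A _ ih =>
        obtain ⟨B, hB, hAB⟩ := ih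
        obtain ⟨B', hB', h2, h3⟩ := hd (U a) (hU a) B hB
        refine ⟨B', hB', fun c hc => ?_⟩
        rcases Finset.mem_insert.1 hc with rfl | hc
        · exact h2
        · exact (hAB c hc).trans h3
    obtain ⟨B, hB, hAB⟩ := hdir A
    refine ⟨N m B, Set.mem_iUnion.2 ⟨m, B, hB, rfl⟩, ?_⟩
    intro y hxy
    obtain ⟨a, ha, hya⟩ := hA y hxy
    exact hAB a ha (hnb a hya)
  · intro m
    have h2 : ∀ S : Set (Pt W), ∃ B, S ∈ N m '' 𝒰 → B ∈ 𝒰 ∧ N m B = S := by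
      intro S
      by_cases hS : S ∈ N m '' 𝒰
      · obtain ⟨B, hB, hBS⟩ := hS
        exact ⟨B, fun _ => ⟨hB, hBS⟩⟩
      · exact ⟨∅, fun h => absurd h hS⟩
    choose Φ hΦ using h2
    refine ⟨Φ, fun S hS => (hΦ S hS).1, ?_⟩
    intro 𝓜 h𝓜 z hz
    obtain ⟨x, hxz, S, hS, hxS⟩ := mem_closure_iff.1 hz (V m z) (hVo m z) (hVm m z)
    refine ⟨Φ S, ⟨S, hS, rfl⟩, ?_⟩
    have h3 := (hΦ S (h𝓜 hS)).2
    rw [← h3] at hxS
    exact hxS z hxz

/-- The special cover. -/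
def Ub (β : W) : Set (Pt W) := {x | x.1 0 ≤ β ∧ β < x.1 1}

omit [WellFoundedLT W] in
lemma isOpen_Ub (β : W) : IsOpen (Ub β) := by
  rw [isOpen_def]
  rintro y ⟨h1, h2⟩
  obtain ⟨δ, hδ⟩ := exists_low y
  refine ⟨1, fun i => if i = 1 then β else δ i, ?_, ?_⟩
  · intro i
    by_cases hi : i = 1
    · subst hi; simpa using h2
    · simp only [hi, if_false]; exact hδ i
  · rintro x ⟨k1, j, hj, k2, k3⟩
    refine ⟨?_, ?_⟩
    · by_cases h0 : 0 < j
      · rw [k2 0 h0]; exact h1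
      · exact (k3 0 (by omega) (by omega)).2.le.trans h1
    · by_cases h0 : 1 < j
      · rw [k2 1 h0]; exact h2
      · have := (k3 1 (by omega) (by omega)).1
        simpa using this

lemma concl_fails (hW : Om W) (hne : Nonempty W)
    (h : ∀ 𝒰 : Set (Set (Pt W)), (∀ U ∈ 𝒰, IsOpen U) → ⋃₀ 𝒰 = Set.univ →
          ∃ 𝒢 : ℕ → Set (Set (Pt W)),
            (∀ n, (∀ G ∈ 𝒢 n, IsOpen G ∧ ∃ U ∈ 𝒰, G ⊆ U) ∧ ⋃₀ (𝒢 n) = Set.univ) ∧
            ∀ x : Pt W, ∃ n, {G | G ∈ 𝒢 n ∧ x ∈ G}.Finite) : False := by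
  classical
  obtain ⟨𝒢, h𝒢, hfin⟩ := h (Set.range (Ub (W := W)))
    (by rintro _ ⟨β, rfl⟩; exact isOpen_Ub β)
    (by
      rw [Set.eq_univ_iff_forall]
      intro x
      exact ⟨Ub (x.1 0), ⟨_, rfl⟩, le_rfl, lt_suc x 0⟩)
  have h1 : ∀ (m : ℕ) (y : Pt W), ∃ (G : Set (Pt W)) (n : ℕ) (δ : ℕ → W), G ∈ 𝒢 m ∧ y ∈ G ∧
      (∀ i, δ i < y.1 i) ∧ nb y.1 n δ ⊆ G := by
    intro m y
    have : y ∈ ⋃₀ (𝒢 m) := (h𝒢 m).2 ▸ Set.mem_univ y
    obtain ⟨G, hG, hyG⟩ := this
    obtain ⟨n, δ, h2, h3⟩ := (isOpen_def G).1 ((h𝒢 m).1 G hG).1 y hyG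
    exact ⟨G, n, δ, hG, hyG, h2, h3⟩
  choose G ν δ hG hyG hδ hnb using h1
  have h2 : ∀ m (S : Set (Pt W)), ∃ β : W, S ∈ 𝒢 m → S ⊆ Ub β := by
    intro m S
    by_cases hS : S ∈ 𝒢 m
    · obtain ⟨_, ⟨β, rfl⟩, hβ⟩ := ((h𝒢 m).1 S hS).2
      exact ⟨β, fun _ => hβ⟩
    · exact ⟨Classical.arbitrary W, fun h => absurd h hS⟩
  choose β hβ using h2
  have h3 := fun m => gen hW (ν m) (δ m) (hδ m)
  choose f hf using h3
  obtain ⟨f0, hf0⟩ := clos_nat hW f
  have h4 : ∀ ξ : W, ∃ ζ, ξ < ζ := by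
    intro ξ
    obtain ⟨b, hb⟩ := hW.bdd {ξ} (Set.countable_singleton ξ)
    exact ⟨b, hb ξ rfl⟩
  choose s hs using h4
  obtain ⟨g, hg⟩ := clos_nat hW (fun n => if n = 0 then f0 else s)
  have hg0 : ∀ w ∈ Cl g, ∀ m, w ∈ Cl (f m) := fun w hw m =>
    hf0 w (by simpa using hg w hw 0) m
  have hg1 : ∀ w ∈ Cl g, ∀ ξ, ξ < w → s ξ < w := fun w hw =>
    (by simpa using hg w hw 1 : w ∈ Cl s).2
  have h5 := unbdd hW g
  choose nx hnx1 hnx2 using h5
  let w0 : W := Classical.arbitrary W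
  let xs : ℕ → W := fun n => nx^[n + 1] w0
  have hxs : ∀ n, xs (n + 1) = nx (xs n) := fun n => Function.iterate_succ_apply' nx (n + 1) w0
  have hxC : ∀ n, xs n ∈ Cl g := by
    intro n
    have : xs n = nx (nx^[n] w0) := Function.iterate_succ_apply' nx n w0
    rw [this]; exact hnx1 _
  let x : Pt W := ⟨xs, strictMono_nat_of_lt_succ (fun n => by rw [hxs]; exact hnx2 _), (hxC 0).1⟩
  obtain ⟨m, hm⟩ := hfin x
  have h6 : ∃ ζ : W, ζ < x.1 1 ∧ x.1 0 ≤ ζ ∧ ∀ S, S ∈ 𝒢 m → x ∈ S → β m S ≤ ζ := by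
    obtain ⟨ζ, hζ, hmax⟩ := Set.exists_max_image
      (insert (x.1 0) ((β m) '' {G | G ∈ 𝒢 m ∧ x ∈ G})) id ((hm.image _).insert _)
      ⟨x.1 0, Set.mem_insert _ _⟩
    refine ⟨ζ, ?_, hmax _ (Set.mem_insert _ _), fun S h7 h8 =>
      hmax _ (Set.mem_insert_of_mem _ ⟨S, ⟨h7, h8⟩, rfl⟩)⟩
    rcases hζ with rfl | ⟨S, ⟨h7, h8⟩, rfl⟩
    · exact lt_suc x 0
    · exact (hβ m S h7 h8).2
  obtain ⟨ζ, hζ1, hζ2, hζ3⟩ := h6
  let u : ℕ → W := fun i => if i = 0 then s ζ else s (x.1 i)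
  have hu0 : u 0 = s ζ := rfl
  have hux : ∀ i, x.1 i < u i := by
    intro i
    by_cases hi : i = 0
    · subst hi; exact hζ2.trans_lt (hs ζ)
    · simp only [u, hi, if_false]; exact hs _
  have hux' : ∀ i, u i < x.1 (i + 1) := by
    intro i
    by_cases hi : i = 0
    · subst hi; exact hg1 _ (hxC 1) _ hζ1
    · simp only [u, hi, if_false]; exact hg1 _ (hxC (i + 1)) _ (lt_suc x i)
  have humono : Monotone u := monotone_nat_of_le_succ (fun i => ((hux' i).trans (hux (i + 1))).le)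
  obtain ⟨y, -, hy⟩ := hf m 0 x u humono (fun i hi => absurd hi (Nat.not_lt_zero i))
  have hxy : x ∈ nb y.1 (ν m y) (δ m y) := by
    refine ⟨fun i hi => ?_, 0, Nat.zero_le _, fun i hi => absurd hi (Nat.not_lt_zero i), fun i _ hi => ?_⟩
    · exact (hy i (Nat.zero_le i) hi).2.1 _ (hg0 _ (hxC (i + 1)) m) (hux' i)
    · obtain ⟨h7, h8, h9⟩ := hy i (Nat.zero_le i) hi
      refine ⟨h9 _ (hg0 _ (hxC i) m) (fun i' hi' => absurd hi' (Nat.not_lt_zero i')) (fun h0 => ?_),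
        (hux i).trans_le h7⟩
      have := hux' (i - 1)
      rwa [Nat.sub_add_cancel (by omega)] at this
  have hxG : x ∈ G m y := hnb m y hxy
  have h10 : β m (G m y) ≤ ζ := hζ3 _ (hG m y) hxG
  have h11 : y.1 0 ≤ β m (G m y) := (hβ m (G m y) (hG m y) (hyG m y)).1
  have h12 : u 0 ≤ y.1 0 := (hy 0 le_rfl (Nat.zero_le _)).1
  exact absurd (h12.trans (h11.trans h10)) (not_le.2 (hs ζ))

lemma om_omega1 : Om (Cardinal.aleph 1).ord.ToType := by
  have h1 : ∀ a : (Cardinal.aleph 1).ord.ToType, (Set.Iio a).Countable := by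
    intro a
    have h := Cardinal.mk_Iio_lt a (by rw [Cardinal.mk_ord_toType]; exact (Ordinal.type_toType _).symm)
    rw [Cardinal.mk_ord_toType] at h
    have h' : Cardinal.mk (Set.Iio a) < Order.succ Cardinal.aleph0 :=
      h.trans_eq Cardinal.succ_aleph0.symm
    exact Cardinal.le_aleph0_iff_set_countable.1 (Order.lt_succ_iff.1 h')
  refine ⟨h1, ?_⟩
  intro s hs
  by_contra hcon
  push Not at hcon
  have h2 : (Set.univ : Set (Cardinal.aleph 1).ord.ToType) ⊆ ⋃ a ∈ s, Set.Iic a := by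
    intro b _
    obtain ⟨a, ha, hab⟩ := hcon b
    exact Set.mem_iUnion₂.2 ⟨a, ha, hab⟩
  have h3 : (Set.univ : Set (Cardinal.aleph 1).ord.ToType).Countable := by
    apply Set.Countable.mono h2
    apply Set.Countable.biUnion hs
    intro a _
    rw [← Set.Iio_insert]
    exact (h1 a).insert a
  have h4 := Cardinal.le_aleph0_iff_set_countable.2 h3
  rw [Cardinal.mk_univ, Cardinal.mk_ord_toType] at h4
  exact absurd h4 (not_le.2 Cardinal.aleph0_lt_aleph_one)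

/-- The negation of the preceding statement: For every topological space: if each directed open cover has a covering refinement that is a countable union of families cushioned in the cover, then every open cover has a sequence of open refining covers with each point in finitely many members of one of them. -/
theorem result :
    ¬ (∀ (X : Type) [TopologicalSpace X],
      (∀ 𝒰 : Set (Set X), (∀ U ∈ 𝒰, IsOpen U) → ⋃₀ 𝒰 = Set.univ →
          DirectedOn (· ⊆ ·) 𝒰 →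
          ∃ 𝒩 : ℕ → Set (Set X), ⋃₀ (⋃ n, 𝒩 n) = Set.univ ∧
            ∀ n, ∃ Φ : Set X → Set X, (∀ N ∈ 𝒩 n, Φ N ∈ 𝒰) ∧
              ∀ 𝓜 ⊆ 𝒩 n, closure (⋃₀ 𝓜) ⊆ ⋃₀ (Φ '' 𝓜)) →
      (∀ 𝒰 : Set (Set X), (∀ U ∈ 𝒰, IsOpen U) → ⋃₀ 𝒰 = Set.univ →
          ∃ 𝒢 : ℕ → Set (Set X),
            (∀ n, (∀ G ∈ 𝒢 n, IsOpen G ∧ ∃ U ∈ 𝒰, G ⊆ U) ∧ ⋃₀ (𝒢 n) = Set.univ) ∧
            ∀ x : X, ∃ n, {G | G ∈ 𝒢 n ∧ x ∈ G}.Finite)) := by
  intro hmain
  have hW : Om (Cardinal.aleph 1).ord.ToType := om_omega1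
  have hne : Nonempty (Cardinal.aleph 1).ord.ToType := by
    obtain ⟨b, -⟩ := hW.bdd ∅ Set.countable_empty
    exact ⟨b⟩
  exact concl_fails hW hne (hmain (Pt (Cardinal.aleph 1).ord.ToType) (hyp hW))

end Pool.Agent.S14290
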