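import Pool.Statements.S14648
import Pool.Agent.Helper95_DC.Final

set_option autoImplicit false
open Pool Pool.MP_45e9b0_lc

namespace Pool.Agent.S14648

/-- The negation of the preceding statement: For every countably infinite group G, every Borel G-action on a standard Borel space with all orbits infinite has an orbit relation Borel reducible to the orbit relation of some Borel G-action with infinite orbits that is compressible. -/
theorem result :
    ¬ (∀ (G : Type) [Group G] [Countable G] [Infinite G],
    ∀ (X : Type) [MeasurableSpace X] [StandardBorelSpace X] [MulAction G X],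
      (∀ g : G, Measurable (fun x : X => g • x)) →
      (∀ x : X, (MulAction.orbit G x).Infinite) →
      ∃ (Y : Type) (_ : MeasurableSpace Y) (_ : StandardBorelSpace Y) (_ : MulAction G Y),
        (∀ g : G, Measurable (fun y : Y => g • y)) ∧
        (∀ y : Y, (MulAction.orbit G y).Infinite) ∧
        (∃ c : Y → Y, Measurable c ∧ Function.Injective c ∧
          (∀ y : Y, c y ∈ MulAction.orbit G y) ∧
          (∀ y : Y, ∃ z ∈ MulAction.orbit G y, ∀ w : Y, c w ≠ z)) ∧
        (∃ f : X → Y, Measurable f ∧
          ∀ x x' : X, (x' ∈ MulAction.orbit G x ↔ f x' ∈ MulAction.orbit G (f x)))) := by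
  intro h
  obtain ⟨G, _, hc, hi, hG⟩ := Pool.Agent.Helper95_DC.exists_not_dynCompressible
  exact hG (h G)

end Pool.Agent.S14648
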