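import Pool.Statements.S14999
-- import your own Pool.Agent.* helpers here

set_option autoImplicit false
open Pool Pool.MP_8565d5_lc

namespace Pool.Agent.S14999

open Finset

/-- `x ^ 2 ^ i` only depends on `i` modulo `t` in the field with `2 ^ t` elements. -/
theorem pow_mod (t : ℕ) (ht : t ≠ 0) (x : GaloisField 2 t) (i : ℕ) :
    x ^ 2 ^ i = x ^ 2 ^ (i % t) := by
  have hx : ∀ (y : GaloisField 2 t) (n : ℕ), y ^ (2 ^ t) ^ n = y := by
    intro y n
    have hc := GaloisField.card 2 t ht
    have := Fintype.ofFinite (GaloisField 2 t)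
    have hc' : Fintype.card (GaloisField 2 t) = 2 ^ t := by
      rw [← hc, Nat.card_eq_fintype_card]
    have := FiniteField.pow_card_pow n y (K := GaloisField 2 t)
    rwa [hc'] at this
  conv_lhs => rw [← Nat.div_add_mod i t, pow_add, pow_mul, pow_mul, hx]

/-- The degree set: binary weight at most two, no two cyclically adjacent ones. -/
def D (t : ℕ) : Finset ℕ :=
  insert 0 (((range t).image (fun i => 2 ^ i)) ∪
    (((range t ×ˢ range t).filter (fun p => p.1 + 2 ≤ p.2 ∧ p.2 + 2 ≤ p.1 + t)).image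
      (fun p => 2 ^ p.1 + 2 ^ p.2)))

theorem mem_D {t d : ℕ} : d ∈ D t ↔ d = 0 ∨ (∃ i, i < t ∧ d = 2 ^ i) ∨
    (∃ a b, b < t ∧ a + 2 ≤ b ∧ b + 2 ≤ a + t ∧ d = 2 ^ a + 2 ^ b) := by
  unfold D
  simp only [mem_insert, mem_union, mem_image, mem_range, mem_filter, mem_product, Prod.exists]
  constructor
  · rintro (h | ⟨i, hi, rfl⟩ | ⟨a, b, ⟨⟨ha, hb⟩, h1, h2⟩, rfl⟩)
    · exact Or.inl h
    · exact Or.inr (Or.inl ⟨i, hi, rfl⟩)
    · exact Or.inr (Or.inr ⟨a, b, hb, h1, h2, rfl⟩)
  · rintro (h | ⟨i, hi, rfl⟩ | ⟨a, b, hb, h1, h2, rfl⟩)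
    · exact Or.inl h
    · exact Or.inr (Or.inl ⟨i, hi, rfl⟩)
    · exact Or.inr (Or.inr ⟨a, b, ⟨⟨by omega, hb⟩, h1, h2⟩, rfl⟩)

theorem digitsum_two_mul (n : ℕ) : (Nat.digits 2 (2 * n)).sum = (Nat.digits 2 n).sum := by
  rcases Nat.eq_zero_or_pos n with rfl | hn
  · simp
  · rw [Nat.digits_def' (by norm_num) (by omega)]
    have h1 : 2 * n % 2 = 0 := by omega
    have h2 : 2 * n / 2 = n := by omega
    rw [h1, h2]; simp

theorem digitsum_two_pow_mul (a n : ℕ) :
    (Nat.digits 2 (2 ^ a * n)).sum = (Nat.digits 2 n).sum := by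
  induction a with
  | zero => simp
  | succ a ih => rw [pow_succ', mul_assoc, digitsum_two_mul, ih]

theorem digitsum_one_add (n : ℕ) : (Nat.digits 2 (1 + 2 * n)).sum = 1 + (Nat.digits 2 n).sum := by
  rw [Nat.digits_def' (by norm_num) (by omega)]
  have h1 : (1 + 2 * n) % 2 = 1 := by omega
  have h2 : (1 + 2 * n) / 2 = n := by omega
  rw [h1, h2]; simp

theorem digitsum_two_pow (a : ℕ) : (Nat.digits 2 (2 ^ a)).sum = 1 := by
  have := digitsum_two_pow_mul a 1
  simpa using this

theorem digitsum_two_pow_add (a b : ℕ) (h : a < b) :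
    (Nat.digits 2 (2 ^ a + 2 ^ b)).sum = 2 := by
  obtain ⟨c, rfl⟩ : ∃ c, b = a + (c + 1) := ⟨b - a - 1, by omega⟩
  have : 2 ^ a + 2 ^ (a + (c + 1)) = 2 ^ a * (1 + 2 * 2 ^ c) := by
    rw [pow_add, pow_succ']; ring
  rw [this, digitsum_two_pow_mul, digitsum_one_add, digitsum_two_pow]

theorem two_pow_add_lt {a b t : ℕ} (h : a < b) (hb : b < t) : 2 ^ a + 2 ^ b < 2 ^ t := by
  have h1 : 2 ^ a < 2 ^ b := Nat.pow_lt_pow_right (by norm_num) h
  have h2 : 2 ^ (b + 1) ≤ 2 ^ t := Nat.pow_le_pow_right (by norm_num) (by omega)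
  rw [pow_succ] at h2
  omega

theorem D_small {t d : ℕ} (hd : d ∈ D t) : d < 2 ^ t ∧ (Nat.digits 2 d).sum ≤ 2 := by
  rcases mem_D.1 hd with rfl | ⟨i, hi, rfl⟩ | ⟨a, b, hb, h1, h2, rfl⟩
  · exact ⟨by positivity, by simp⟩
  · exact ⟨Nat.pow_lt_pow_right (by norm_num) hi, by rw [digitsum_two_pow]; norm_num⟩
  · exact ⟨two_pow_add_lt (by omega) hb, by rw [digitsum_two_pow_add _ _ (by omega)]⟩

theorem testBit_two_pow_add {a b : ℕ} (h : a < b) (i : ℕ) :
    (2 ^ a + 2 ^ b).testBit i = true ↔ i = a ∨ i = b := by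
  have hab : 2 ^ a + 2 ^ b = 2 ^ b ||| 2 ^ a := by
    have := Nat.two_pow_add_eq_or_of_lt (i := b) (b := 2 ^ a)
      (Nat.pow_lt_pow_right (by norm_num) h) 1
    rw [mul_one] at this
    rw [add_comm, this]
  rw [hab, Nat.testBit_or, Nat.testBit_two_pow, Nat.testBit_two_pow, Bool.or_eq_true,
    decide_eq_true_iff, decide_eq_true_iff]
  constructor
  · rintro (h | h)
    · exact Or.inr h.symm
    · exact Or.inl h.symm
  · rintro (h | h)
    · exact Or.inr h.symm
    · exact Or.inl h.symm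

theorem three_notMem {t : ℕ} : 3 ∉ D t := by
  intro h
  rcases mem_D.1 h with h | ⟨i, hi, h⟩ | ⟨a, b, hb, h1, h2, h⟩
  · omega
  · have := digitsum_two_pow i
    rw [← h] at this
    norm_num at this
  · have h3 : 2 ^ 2 ≤ 2 ^ b := Nat.pow_le_pow_right (by norm_num) (by omega)
    have h4 : 0 < 2 ^ a := by positivity
    omega

theorem D_rot {t d : ℕ} (ht : 5 ≤ t) (hd : d ∈ D t) (hd0 : d ≠ 0) :
    (2 * d - 1) % (2 ^ t - 1) + 1 ∈ D t := by
  have hpt : 2 ^ 5 ≤ 2 ^ t := Nat.pow_le_pow_right (by norm_num) ht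
  rcases mem_D.1 hd with rfl | ⟨i, hi, rfl⟩ | ⟨a, b, hb, h1, h2, rfl⟩
  · exact absurd rfl hd0
  · by_cases hi' : i + 1 < t
    · have h3 : 2 ^ (i + 1) < 2 ^ t := Nat.pow_lt_pow_right (by norm_num) hi'
      have h4 : 0 < 2 ^ i := by positivity
      rw [pow_succ] at h3
      rw [Nat.mod_eq_of_lt (by omega)]
      refine mem_D.2 (Or.inr (Or.inl ⟨i + 1, hi', ?_⟩))
      rw [pow_succ]; omega
    · have h3 : 2 * 2 ^ i = 2 ^ t := by
        rw [← pow_succ']; congr 1; omega
      rw [h3, Nat.mod_self]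
      exact mem_D.2 (Or.inr (Or.inl ⟨0, by omega, by simp⟩))
  · by_cases hb' : b + 1 < t
    · have h3 := two_pow_add_lt (a := a + 1) (b := b + 1) (t := t) (by omega) hb'
      have h4 : 0 < 2 ^ a := by positivity
      rw [pow_succ, pow_succ] at h3
      rw [Nat.mod_eq_of_lt (by omega)]
      refine mem_D.2 (Or.inr (Or.inr ⟨a + 1, b + 1, hb', by omega, by omega, ?_⟩))
      rw [pow_succ, pow_succ]; omega
    · have h3 : 2 ^ t = 2 ^ b * 2 := by
        rw [← pow_succ]; congr 1; omega
      have h5 : 2 ^ (a + 2) ≤ 2 ^ b := Nat.pow_le_pow_right (by norm_num) h1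
      have h4 : 0 < 2 ^ a := by positivity
      have h6 : 2 * (2 ^ a + 2 ^ b) - 1 = 2 * 2 ^ a + (2 ^ t - 1) := by omega
      rw [h6, Nat.add_mod_right, Nat.mod_eq_of_lt (by rw [pow_add] at h5; omega)]
      refine mem_D.2 (Or.inr (Or.inr ⟨0, a + 1, by omega, by omega, by omega, ?_⟩))
      rw [pow_succ]; omega

theorem D_shadow {t d e : ℕ} (hd : d ∈ D t)
    (h : ∀ i : ℕ, e.testBit i = true → d.testBit i = true) : e ∈ D t := by
  rcases mem_D.1 hd with rfl | ⟨i, hi, rfl⟩ | ⟨a, b, hb, h1, h2, rfl⟩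
  · have : e = 0 := by
      apply Nat.eq_of_testBit_eq
      intro i
      have := h i
      simp only [Nat.zero_testBit] at this ⊢
      simpa using this
    rw [this]; exact hd
  · by_cases hi' : e.testBit i = true
    · have : e = 2 ^ i := by
        apply Nat.eq_of_testBit_eq
        intro j
        rw [Nat.testBit_two_pow]
        by_cases hij : i = j
        · subst hij; simpa using hi'
        · have := h j
          rw [Nat.testBit_two_pow] at this
          simp only [hij, decide_false] at this ⊢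
          simpa using this
      rw [this]; exact hd
    · have : e = 0 := by
        apply Nat.eq_of_testBit_eq
        intro j
        rw [Nat.zero_testBit]
        by_cases hij : i = j
        · subst hij; simpa using hi'
        · have := h j
          rw [Nat.testBit_two_pow] at this
          simp only [hij, decide_false] at this
          simpa using this
      rw [this]; exact mem_D.2 (Or.inl rfl)
  · have hbits : ∀ j, e.testBit j = true → j = a ∨ j = b := fun j hj =>
      (testBit_two_pow_add (by omega) j).1 (h j hj)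
    have key : ∀ j, j ≠ a → j ≠ b → e.testBit j = false := by
      intro j hja hjb
      by_contra hc
      rcases hbits j (by simpa using hc) with h | h
      · exact hja h
      · exact hjb h
    cases hea : e.testBit a <;> cases heb : e.testBit b
    · have : e = 0 := by
        apply Nat.eq_of_testBit_eq
        intro j
        rw [Nat.zero_testBit]
        by_cases hja : j = a
        · rw [hja, hea]
        by_cases hjb : j = b
        · rw [hjb, heb]
        exact key j hja hjb
      rw [this]; exact mem_D.2 (Or.inl rfl)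
    · have : e = 2 ^ b := by
        apply Nat.eq_of_testBit_eq
        intro j
        rw [Nat.testBit_two_pow]
        by_cases hjb : j = b
        · rw [hjb, heb]; simp
        by_cases hja : j = a
        · rw [hja, hea]; simp; omega
        rw [key j hja hjb]; simp; omega
      rw [this]; exact mem_D.2 (Or.inr (Or.inl ⟨b, hb, rfl⟩))
    · have : e = 2 ^ a := by
        apply Nat.eq_of_testBit_eq
        intro j
        rw [Nat.testBit_two_pow]
        by_cases hja : j = a
        · rw [hja, hea]; simp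
        by_cases hjb : j = b
        · rw [hjb, heb]; simp; omega
        rw [key j hja hjb]; simp; omega
      rw [this]; exact mem_D.2 (Or.inr (Or.inl ⟨a, by omega, rfl⟩))
    · have : e = 2 ^ a + 2 ^ b := by
        apply Nat.eq_of_testBit_eq
        intro j
        have h3 := testBit_two_pow_add (a := a) (b := b) (by omega) j
        by_cases hja : j = a
        · rw [hja] at h3 ⊢; rw [hea]; simpa using h3.symm
        by_cases hjb : j = b
        · rw [hjb] at h3 ⊢; rw [heb]; simpa using h3.symm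
        rw [key j hja hjb]
        have : ¬ ((2 ^ a + 2 ^ b).testBit j = true) := by
          rw [h3]; tauto
        simpa using this
      rw [this]; exact hd

/-- The functions spanned by the monomials with exponent in `D t`. -/
def InP (t : ℕ) (f : GaloisField 2 t → ZMod 2) : Prop :=
  ∃ c : ℕ → GaloisField 2 t, ∀ x : GaloisField 2 t,
    algebraMap (ZMod 2) (GaloisField 2 t) (f x) = ∑ d ∈ D t, c d * x ^ d

theorem inP_of_sum {t : ℕ} {f : GaloisField 2 t → ZMod 2} {ι : Type} (s : Finset ι)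
    (e : ι → ℕ) (a : ι → GaloisField 2 t) (he : ∀ i ∈ s, e i ∈ D t)
    (hf : ∀ x, algebraMap (ZMod 2) (GaloisField 2 t) (f x) = ∑ i ∈ s, a i * x ^ e i) :
    InP t f := by
  classical
  refine ⟨fun d => ∑ i ∈ s with e i = d, a i, fun x => ?_⟩
  rw [hf x, ← Finset.sum_fiberwise_of_maps_to he]
  refine Finset.sum_congr rfl fun d _ => ?_
  rw [Finset.sum_mul]
  refine Finset.sum_congr rfl fun i hi => ?_
  rw [(Finset.mem_filter.1 hi).2]

/-- The property as a linear subspace. -/
def P (t : ℕ) : Submodule (ZMod 2) (GaloisField 2 t → ZMod 2) where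
  carrier := {f | InP t f}
  zero_mem' := ⟨fun _ => 0, fun x => by simp⟩
  add_mem' := by
    rintro f g ⟨c, hc⟩ ⟨c', hc'⟩
    refine ⟨fun d => c d + c' d, fun x => ?_⟩
    simp only [Pi.add_apply, map_add, hc, hc', add_mul, Finset.sum_add_distrib]
  smul_mem' := by
    rintro r f ⟨c, hc⟩
    refine ⟨fun d => algebraMap (ZMod 2) (GaloisField 2 t) r * c d, fun x => ?_⟩
    simp only [Pi.smul_apply, smul_eq_mul, map_mul, hc, Finset.mul_sum, mul_assoc]

theorem mem_P {t : ℕ} {f : GaloisField 2 t → ZMod 2} : f ∈ P t ↔ InP t f := Iff.rfl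

/-- absolute trace -/
noncomputable def tr (t : ℕ) : GaloisField 2 t →ₗ[ZMod 2] ZMod 2 :=
  Algebra.trace (ZMod 2) (GaloisField 2 t)

theorem algebraMap_tr {t : ℕ} (ht : t ≠ 0) (x : GaloisField 2 t) :
    algebraMap (ZMod 2) (GaloisField 2 t) (tr t x) = ∑ i ∈ range t, x ^ 2 ^ i := by
  unfold tr
  rw [FiniteField.algebraMap_trace_eq_sum_pow, GaloisField.finrank 2 ht, Nat.card_zmod]

theorem tr_nondeg {t : ℕ} (z : GaloisField 2 t) (hz : ∀ a, tr t (a * z) = 0) :
    z = 0 := by
  have h := traceForm_nondegenerate (ZMod 2) (GaloisField 2 t)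
  have h2 := h.2 z
  apply h2
  intro a
  rw [Algebra.traceForm_apply]
  exact hz a

theorem quad_mem {t j : ℕ} (ht : t ≠ 0) (hj : 2 ≤ j) (hj' : j + 2 ≤ t) (a : GaloisField 2 t) :
    (fun x => tr t (a * x ^ (1 + 2 ^ j))) ∈ P t := by
  refine inP_of_sum (range t) (fun i => 2 ^ i + 2 ^ ((i + j) % t)) (fun i => a ^ 2 ^ i) ?_ ?_
  · intro i hi
    have hi := mem_range.1 hi
    by_cases h : i + j < t
    · rw [Nat.mod_eq_of_lt h]
      exact mem_D.2 (Or.inr (Or.inr ⟨i, i + j, h, by omega, by omega, rfl⟩))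
    · have h3 : (i + j) % t = i + j - t := by
        rw [Nat.mod_eq_sub_mod (by omega), Nat.mod_eq_of_lt (by omega)]
      rw [h3]
      exact mem_D.2 (Or.inr (Or.inr ⟨i + j - t, i, hi, by omega, by omega, add_comm _ _⟩))
  · intro x
    rw [algebraMap_tr ht]
    refine Finset.sum_congr rfl fun i _ => ?_
    rw [mul_pow, ← pow_mul, add_mul, one_mul, pow_add, pow_add, ← pow_mod t ht, ← pow_add 2 j i,
      add_comm j i]

open Polynomial in
theorem cubic_notMem {t : ℕ} (ht : 5 ≤ t) : (fun x => tr t (x ^ 3)) ∉ P t := by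
  rintro ⟨c, hc⟩
  have ht0 : t ≠ 0 := by omega
  have := Fintype.ofFinite (GaloisField 2 t)
  have hcard : Fintype.card (GaloisField 2 t) = 2 ^ t := by
    rw [← GaloisField.card 2 t ht0, Nat.card_eq_fintype_card]
  let Q : (GaloisField 2 t)[X] := ∑ d ∈ D t, C (c d) * X ^ d -
    ∑ i ∈ range t, X ^ (2 ^ i + 2 ^ ((i + 1) % t))
  have hQ : Q = 0 := by
    apply Polynomial.eq_zero_of_natDegree_lt_card_of_eval_eq_zero Q (f := id)
      Function.injective_id
    · intro x
      simp only [Q, id, eval_sub, eval_finsetSum, eval_mul, eval_C, eval_pow, eval_X]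
      rw [← hc x, algebraMap_tr ht0, sub_eq_zero]
      refine Finset.sum_congr rfl fun i _ => ?_
      rw [pow_add, ← pow_mod t ht0, ← pow_mul, ← pow_add, pow_succ]
      congr 1; ring
    · rw [hcard]
      have hd : ∀ d, d < 2 ^ t → d ≤ 2 ^ t - 1 := fun d hd => by omega
      refine lt_of_le_of_lt (b := 2 ^ t - 1) ?_ (by have : 0 < 2 ^ t := by positivity
                                                    omega)
      refine (natDegree_sub_le _ _).trans (max_le ?_ ?_)
      · refine natDegree_sum_le_of_forall_le _ _ fun d hd' => ?_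
        exact (natDegree_C_mul_X_pow_le _ _).trans (hd _ (D_small hd').1)
      · refine natDegree_sum_le_of_forall_le _ _ fun i hi => ?_
        rw [natDegree_X_pow]
        apply hd
        have hi := mem_range.1 hi
        by_cases h : i + 1 < t
        · rw [Nat.mod_eq_of_lt h]
          exact two_pow_add_lt (by omega) h
        · have h3 : (i + 1) % t = 0 := by
            have : i + 1 = t := by omega
            rw [this, Nat.mod_self]
          rw [h3, add_comm]
          exact two_pow_add_lt (by omega) hi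
  have h3 : Q.coeff 3 = -1 := by
    simp only [Q, coeff_sub, finsetSum_coeff, coeff_C_mul, coeff_X_pow]
    have h1 : ∑ d ∈ D t, c d * (if 3 = d then (1 : GaloisField 2 t) else 0) = 0 := by
      refine Finset.sum_eq_zero fun d hd => ?_
      rw [if_neg, mul_zero]
      rintro rfl
      exact three_notMem hd
    have h2 : ∑ i ∈ range t, (if 3 = 2 ^ i + 2 ^ ((i + 1) % t) then (1 : GaloisField 2 t) else 0)
        = 1 := by
      rw [Finset.sum_eq_single 0]
      · rw [if_pos]
        rw [Nat.mod_eq_of_lt (by omega)]; norm_num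
      · intro i hi hi0
        rw [if_neg]
        have hi := mem_range.1 hi
        intro h
        by_cases h' : i + 1 < t
        · rw [Nat.mod_eq_of_lt h'] at h
          have : 2 ^ 2 ≤ 2 ^ (i + 1) := Nat.pow_le_pow_right (by norm_num) (by omega)
          have : 0 < 2 ^ i := by positivity
          omega
        · have h3 : (i + 1) % t = 0 := by
            have : i + 1 = t := by omega
            rw [this, Nat.mod_self]
          rw [h3] at h
          have : 2 ^ 2 ≤ 2 ^ i := Nat.pow_le_pow_right (by norm_num) (by omega)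
          omega
      · intro h
        exact absurd (mem_range.2 (by omega)) h
    rw [h1, h2]; simp
  rw [hQ] at h3
  simp at h3

/-- The rank argument. -/
theorem rank_arg {t k : ℕ} (ht : k + 2 < t) (w : Fin k → GaloisField 2 t)
    (hw : ∀ i, w i ^ 2 = w i) (α : Fin k → GaloisField 2 t)
    (hj : ∀ j, 2 ≤ j → j + 2 ≤ t → ∑ i, w i * α i ^ (1 + 2 ^ j) = 0) :
    ∑ i, w i * α i ^ 3 = 0 := by
  by_contra hne
  have hw' : ∀ i n, w i ^ 2 ^ n = w i := by
    intro i n
    induction n with
    | zero => simp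
    | succ n ih => rw [pow_succ, pow_mul, ih, hw]
  -- power sums
  have hz : ∀ a j, ∑ i, w i * (α i ^ 2 ^ a * α i ^ 2 ^ (a + j)) =
      (∑ i, w i * α i ^ (1 + 2 ^ j)) ^ 2 ^ a := by
    intro a j
    rw [sum_pow_char_pow 2 a]
    refine Finset.sum_congr rfl fun i _ => ?_
    have he : (1 + 2 ^ j) * 2 ^ a = 2 ^ a + 2 ^ (a + j) := by ring
    rw [mul_pow, hw', ← pow_mul, he, pow_add (α i)]
  obtain ⟨n, rfl⟩ : ∃ n, t = n + 2 := ⟨t - 2, by omega⟩
  let U : Matrix (Fin n) (Fin k) (GaloisField 2 (n + 2)) :=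
    Matrix.of fun a i => w i * α i ^ 2 ^ (a : ℕ)
  let W : Matrix (Fin k) (Fin n) (GaloisField 2 (n + 2)) :=
    Matrix.of fun i b => α i ^ 2 ^ ((b : ℕ) + 1)
  have hUW : ∀ a b, (U * W) a b = ∑ i, w i * (α i ^ 2 ^ (a : ℕ) * α i ^ 2 ^ ((b : ℕ) + 1)) := by
    intro a b
    rw [Matrix.mul_apply]
    refine Finset.sum_congr rfl fun i _ => ?_
    simp only [U, W, Matrix.of_apply, mul_assoc]
  have hlow : (U * W).IsLowerTriangular := by
    intro a b hab
    have hab' : (a : ℕ) < b := by simpa using hab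
    rw [hUW]
    obtain ⟨c, hc⟩ : ∃ c, (b : ℕ) + 1 = a + c := ⟨b + 1 - a, by omega⟩
    rw [hc, hz, hj c (by omega) (by have := b.2; omega)]
    simp
  have hdiag : ∀ a, (U * W) a a ≠ 0 := by
    intro a
    rw [hUW, hz]
    exact pow_ne_zero _ (by simpa using hne)
  have hdet : (U * W).det ≠ 0 := by
    rw [Matrix.det_of_isLowerTriangular _ hlow]
    exact Finset.prod_ne_zero_iff.2 fun a _ => hdiag a
  have hunit : IsUnit (U * W) := by
    rw [Matrix.isUnit_iff_isUnit_det]
    exact isUnit_iff_ne_zero.2 hdet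
  have hr := Matrix.rank_of_isUnit _ hunit
  have hr1 := Matrix.rank_mul_le_left U W
  have hr2 := Matrix.rank_le_card_width U
  rw [hr] at hr1
  simp only [Fintype.card_fin] at hr1 hr2
  omega

theorem main (k t : ℕ) (ht : k + 2 < t) (ht5 : 5 ≤ t) :
    ¬ ∃ C : Set ((Fin k → GaloisField 2 t) × Set (Fin k → ZMod 2)),
          ∀ f : GaloisField 2 t → ZMod 2,
            ((∃ c : ℕ → GaloisField 2 t, ∀ x : GaloisField 2 t,
                algebraMap (ZMod 2) (GaloisField 2 t) (f x) = ∑ d ∈ D t, c d * x ^ d) ↔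
              ∀ p ∈ C, (fun i => f (p.1 i)) ∈ p.2) := by
  rintro ⟨C, hC⟩
  have ht0 : t ≠ 0 := by omega
  have hC' : ∀ f : GaloisField 2 t → ZMod 2, f ∈ P t ↔ ∀ p ∈ C, (fun i => f (p.1 i)) ∈ p.2 := hC
  apply cubic_notMem ht5
  rw [hC']
  intro p hp
  by_contra hnot
  -- restriction map
  let R : (GaloisField 2 t → ZMod 2) →ₗ[ZMod 2] (Fin k → ZMod 2) :=
    LinearMap.funLeft (ZMod 2) (ZMod 2) p.1
  have hR : ∀ f, R f = fun i => f (p.1 i) := fun f => rfl
  have hnm : R (fun x => tr t (x ^ 3)) ∉ (P t).map R := by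
    rintro ⟨g, hg, hgf⟩
    apply hnot
    have h1 := (hC' g).1 hg p hp
    rw [hR, hR] at hgf
    rw [hgf] at h1
    exact h1
  obtain ⟨φ, hφ, hφ'⟩ := Submodule.exists_le_ker_of_notMem hnm
  have hφg : ∀ g, φ (R g) = ∑ i, φ (Pi.single i 1) * g (p.1 i) := by
    intro g
    rw [LinearMap.pi_apply_eq_sum_univ φ (R g)]
    refine Finset.sum_congr rfl fun i _ => ?_
    rw [hR, smul_eq_mul, mul_comm]
    congr 2
    ext j
    simp [Pi.single_apply, eq_comm]
  let w : Fin k → GaloisField 2 t := fun i => algebraMap (ZMod 2) _ (φ (Pi.single i 1))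
  have hlin : ∀ (q : GaloisField 2 t → GaloisField 2 t),
      φ (R (fun x => tr t (q x))) = tr t (∑ i, w i * q (p.1 i)) := by
    intro q
    rw [hφg, map_sum]
    refine Finset.sum_congr rfl fun i _ => ?_
    simp only [w]
    rw [← Algebra.smul_def, map_smul, smul_eq_mul]
  have hz : ∀ j, 2 ≤ j → j + 2 ≤ t → ∑ i, w i * p.1 i ^ (1 + 2 ^ j) = 0 := by
    intro j hj hj'
    apply tr_nondeg
    intro a
    have h1 : φ (R (fun x => tr t (a * x ^ (1 + 2 ^ j)))) = 0 := by
      have := hφ' (Submodule.mem_map_of_mem (f := R) (quad_mem ht0 hj hj' a))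
      simpa using this
    rw [hlin (fun x => a * x ^ (1 + 2 ^ j))] at h1
    rw [← h1, Finset.mul_sum]
    congr 1
    exact Finset.sum_congr rfl fun i _ => by ring
  have h3 := rank_arg ht w (fun i => by
    have h2 : ∀ z : ZMod 2, z ^ 2 = z := by decide
    simp only [w]
    rw [← map_pow, h2]) p.1 hz
  apply hφ
  rw [hlin (fun x => x ^ 3), h3, map_zero]

/-- For every k there is a prime t and a proper subset D of the weight-at-most-2 exponents below 2^t, closed under doubling mod 2^t−1 and under binary shadows, such that the F_2-valued functions on F_{2^t} spanned by x^d, d in D, admit no characterization by k-point constraints. -/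
theorem result :
    ∀ k : ℕ, ∃ t : ℕ, t.Prime ∧ ∃ D : Finset ℕ,
      (∀ d ∈ D, d < 2 ^ t ∧ (Nat.digits 2 d).sum ≤ 2) ∧
      (∃ d : ℕ, d < 2 ^ t ∧ (Nat.digits 2 d).sum ≤ 2 ∧ d ∉ D) ∧
      (∀ d ∈ D, d ≠ 0 → (2 * d - 1) % (2 ^ t - 1) + 1 ∈ D) ∧
      (∀ d ∈ D, ∀ e : ℕ, (∀ i : ℕ, e.testBit i = true → d.testBit i = true) → e ∈ D) ∧
      ¬ ∃ C : Set ((Fin k → GaloisField 2 t) × Set (Fin k → ZMod 2)),
          ∀ f : GaloisField 2 t → ZMod 2,
            ((∃ c : ℕ → GaloisField 2 t, ∀ x : GaloisField 2 t,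
                algebraMap (ZMod 2) (GaloisField 2 t) (f x) = ∑ d ∈ D, c d * x ^ d) ↔
              ∀ p ∈ C, (fun i => f (p.1 i)) ∈ p.2) := by
  intro k
  obtain ⟨t, ht, hp⟩ := Nat.exists_infinite_primes (k + 5)
  refine ⟨t, hp, D t, fun d hd => D_small hd, ⟨3, ?_, ?_, three_notMem⟩,
    fun d hd hd0 => D_rot (by omega) hd hd0, fun d hd e he => D_shadow hd he,
    main k t (by omega) (by omega)⟩
  · have : 2 ^ 5 ≤ 2 ^ t := Nat.pow_le_pow_right (by norm_num) (by omega)
    omega
  · norm_num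

end Pool.Agent.S14999
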