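import Pool.Statements.S15063
import Pool.Agent.Helper71_HNF.Main

set_option autoImplicit false
open MeasureTheory
open Pool Pool.MP_921371_lc

namespace Pool.Agent.S15063

/-- In every non-locally-compact Polish group, every Haar null set is generalized Haar null, and some set is generalized Haar null (inside a universally measurable set all of whose two-sided translates are null for one probability measure) but not Haar null. -/
theorem result :
    ∀ (G : Type) [Group G] [TopologicalSpace G] [IsTopologicalGroup G] [PolishSpace G]
      [MeasurableSpace G] [BorelSpace G],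
      ¬ LocallyCompactSpace G →
        (∀ A : Set G,
          (∃ B : Set G, MeasurableSet B ∧ A ⊆ B ∧
            ∃ μ : Measure G, IsProbabilityMeasure μ ∧
              ∀ g h : G, μ ((fun x => g * x * h) '' B) = 0) →
          (∃ B : Set G,
            (∀ ν : Measure G, IsProbabilityMeasure ν → NullMeasurableSet B ν) ∧ A ⊆ B ∧
            ∃ μ : Measure G, IsProbabilityMeasure μ ∧
              ∀ g h : G, μ ((fun x => g * x * h) '' B) = 0)) ∧
        ∃ A : Set G,
          (∃ B : Set G,
            (∀ ν : Measure G, IsProbabilityMeasure ν → NullMeasurableSet B ν) ∧ A ⊆ B ∧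
            ∃ μ : Measure G, IsProbabilityMeasure μ ∧
              ∀ g h : G, μ ((fun x => g * x * h) '' B) = 0) ∧
          ¬ (∃ B : Set G, MeasurableSet B ∧ A ⊆ B ∧
            ∃ μ : Measure G, IsProbabilityMeasure μ ∧
              ∀ g h : G, μ ((fun x => g * x * h) '' B) = 0) := by
  exact Pool.Agent.HNF.fin_of Pool.Agent.HNF.main

end Pool.Agent.S15063
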