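import Pool.Statements.S15301
import Pool.Agent.Helper95_PA.Can
import Pool.Agent.Helper95_PA.Final
import Pool.Agent.Helper51_PA.Fam
import Pool.Agent.Helper51_PA.Gen
import Pool.Agent.Helper55_PA.PA
import Pool.Agent.Helper76_PA.D2

set_option autoImplicit false
open FirstOrder FirstOrder.Language
open Pool Pool.MP_bd9d66_lc

namespace Pool.Agent.S15301

/-- For every finite lattice L: if L is isomorphic to the lattice of elementary substructures between M and N for some models M ≼ N of PA, then the dual of L is also such a lattice for some models M' ≼ N' of PA. -/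
theorem result :
    ∀ (L : Type) [Lattice L] [Finite L],
      (∃ (N : Type) (_ : Language.ring.Structure N),
        (∀ x : N, Structure.funMap FirstOrder.Ring.addFunc ![x, Structure.funMap FirstOrder.Ring.oneFunc ![] ]
            ≠ Structure.funMap FirstOrder.Ring.zeroFunc ![]) ∧
        (∀ x y : N, Structure.funMap FirstOrder.Ring.addFunc ![x, Structure.funMap FirstOrder.Ring.oneFunc ![] ]
            = Structure.funMap FirstOrder.Ring.addFunc ![y, Structure.funMap FirstOrder.Ring.oneFunc ![] ] → x = y) ∧
        (∀ x : N, Structure.funMap FirstOrder.Ring.addFunc ![x, Structure.funMap FirstOrder.Ring.zeroFunc ![] ] = x) ∧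
        (∀ x y : N, Structure.funMap FirstOrder.Ring.addFunc
            ![x, Structure.funMap FirstOrder.Ring.addFunc ![y, Structure.funMap FirstOrder.Ring.oneFunc ![] ] ]
            = Structure.funMap FirstOrder.Ring.addFunc
              ![Structure.funMap FirstOrder.Ring.addFunc ![x, y], Structure.funMap FirstOrder.Ring.oneFunc ![] ]) ∧
        (∀ x : N, Structure.funMap FirstOrder.Ring.mulFunc ![x, Structure.funMap FirstOrder.Ring.zeroFunc ![] ]
            = Structure.funMap FirstOrder.Ring.zeroFunc ![]) ∧
        (∀ x y : N, Structure.funMap FirstOrder.Ring.mulFunc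
            ![x, Structure.funMap FirstOrder.Ring.addFunc ![y, Structure.funMap FirstOrder.Ring.oneFunc ![] ] ]
            = Structure.funMap FirstOrder.Ring.addFunc ![Structure.funMap FirstOrder.Ring.mulFunc ![x, y], x]) ∧
        (∀ x : N, Structure.funMap FirstOrder.Ring.negFunc ![x] = Structure.funMap FirstOrder.Ring.zeroFunc ![]) ∧
        (∀ S : Set N, (Set.univ : Set N).Definable Language.ring {v : Fin 1 → N | v 0 ∈ S} →
            Structure.funMap FirstOrder.Ring.zeroFunc ![] ∈ S →
            (∀ x ∈ S, Structure.funMap FirstOrder.Ring.addFunc ![x, Structure.funMap FirstOrder.Ring.oneFunc ![] ] ∈ S) →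
            ∀ x : N, x ∈ S) ∧
        ∃ M : Language.ring.ElementarySubstructure N,
          Nonempty ({K : Language.ring.ElementarySubstructure N // M ≤ K} ≃o L)) →
      (∃ (N : Type) (_ : Language.ring.Structure N),
        (∀ x : N, Structure.funMap FirstOrder.Ring.addFunc ![x, Structure.funMap FirstOrder.Ring.oneFunc ![] ]
            ≠ Structure.funMap FirstOrder.Ring.zeroFunc ![]) ∧
        (∀ x y : N, Structure.funMap FirstOrder.Ring.addFunc ![x, Structure.funMap FirstOrder.Ring.oneFunc ![] ]
            = Structure.funMap FirstOrder.Ring.addFunc ![y, Structure.funMap FirstOrder.Ring.oneFunc ![] ] → x = y) ∧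
        (∀ x : N, Structure.funMap FirstOrder.Ring.addFunc ![x, Structure.funMap FirstOrder.Ring.zeroFunc ![] ] = x) ∧
        (∀ x y : N, Structure.funMap FirstOrder.Ring.addFunc
            ![x, Structure.funMap FirstOrder.Ring.addFunc ![y, Structure.funMap FirstOrder.Ring.oneFunc ![] ] ]
            = Structure.funMap FirstOrder.Ring.addFunc
              ![Structure.funMap FirstOrder.Ring.addFunc ![x, y], Structure.funMap FirstOrder.Ring.oneFunc ![] ]) ∧
        (∀ x : N, Structure.funMap FirstOrder.Ring.mulFunc ![x, Structure.funMap FirstOrder.Ring.zeroFunc ![] ]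
            = Structure.funMap FirstOrder.Ring.zeroFunc ![]) ∧
        (∀ x y : N, Structure.funMap FirstOrder.Ring.mulFunc
            ![x, Structure.funMap FirstOrder.Ring.addFunc ![y, Structure.funMap FirstOrder.Ring.oneFunc ![] ] ]
            = Structure.funMap FirstOrder.Ring.addFunc ![Structure.funMap FirstOrder.Ring.mulFunc ![x, y], x]) ∧
        (∀ x : N, Structure.funMap FirstOrder.Ring.negFunc ![x] = Structure.funMap FirstOrder.Ring.zeroFunc ![]) ∧
        (∀ S : Set N, (Set.univ : Set N).Definable Language.ring {v : Fin 1 → N | v 0 ∈ S} →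
            Structure.funMap FirstOrder.Ring.zeroFunc ![] ∈ S →
            (∀ x ∈ S, Structure.funMap FirstOrder.Ring.addFunc ![x, Structure.funMap FirstOrder.Ring.oneFunc ![] ] ∈ S) →
            ∀ x : N, x ∈ S) ∧
        ∃ M : Language.ring.ElementarySubstructure N,
          Nonempty ({K : Language.ring.ElementarySubstructure N // M ≤ K} ≃o Lᵒᵈ)) := by
  intro L _ _ h
  obtain ⟨N, sN, -, -, -, -, -, -, -, -, M, ⟨e⟩⟩ := h
  have hne : Nonempty L := ⟨e ⟨M, le_rfl⟩⟩
  obtain ⟨N', sN', ⟨h1, h2, h3, h4, h5, h6, h7, h8⟩, M', hM'⟩ :=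
    Pool.Agent.Helper95_PA.final
      (Pool.Agent.Helper51_PA.fam_of_can Pool.Agent.Helper95_PA.canStatement)
      Pool.Agent.Helper51_PA.gen Pool.Agent.Helper55_PA.base Pool.Agent.Helper76_PA.iso Lᵒᵈ
  exact ⟨N', sN', h1, h2, h3, h4, h5, h6, h7, h8, M', hM'⟩

end Pool.Agent.S15301
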