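import Pool.Statements.S15562
import Pool.Agent.Helper1_NP9.All
-- import your own Pool.Agent.* helpers here

set_option autoImplicit false
open Pool Pool.MP_e935e7_lc

namespace Pool.Agent.S15562

/-- The negation of the preceding statement: 10 is the least n such that some integer polynomial in n unknowns has, as its positive values over natural-number inputs, exactly the primes. -/
theorem result :
    ¬ (IsLeast
      {n : ℕ | ∃ f : MvPolynomial (Fin n) ℤ,
        ∀ p : ℕ, 0 < p →
          ((∃ x : Fin n → ℕ, MvPolynomial.eval (fun i => (x i : ℤ)) f = (p : ℤ)) ↔ p.Prime)}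
      10) := by
  rintro ⟨-, hmin⟩
  have h9 := hmin Pool.Agent.NP9.H1.nine
  omega

end Pool.Agent.S15562
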