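import Pool.Statements.S17048
import Pool.Agent.Helper71_SP.Assemble
import Pool.Agent.Helper91_SP.Final

set_option autoImplicit false
open Pool Pool.MP_5968ce_nt

namespace Pool.Agent.S17048

/-- The negation of the preceding statement: For every ε>0 and all large k, any k consecutive integers n+1..n+k include one whose part made of primes below k is at most εk; i.e. max over n of min over i of A(n+i,k) is o(k). -/
theorem result :
    ¬ (∀ ε : ℝ, 0 < ε → ∃ K : ℕ, ∀ k : ℕ, K ≤ k → ∀ n : ℕ,
      ∃ i ∈ Finset.Icc 1 k,
        ((∏ p ∈ (Finset.range k).filter Nat.Prime, p ^ ((n + i).factorization p) : ℕ) : ℝ)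
          ≤ ε * (k : ℝ)) :=
  Pool.Agent.Helper91_SP.final (fun a b ha hb => Pool.Agent.Helper71_SP.tb a b ha hb)

end Pool.Agent.S17048
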