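import Pool.Statements.S17215
import Pool.Agent.Helper27_QL.Main

set_option autoImplicit false
open Matrix
open Pool Pool.MP_6429f2_nt

namespace Pool.Agent.S17215

/-- For n≥4, a nondegenerate real quadratic form Q and a nonzero linear form L: if each Q+βL² is indefinite and each nonzero αQ+βL² is not a multiple of a rational form, then (Q(x),L(x)) over primitive integer x is dense in ℝ². -/
theorem result :
    ∀ n : ℕ, 4 ≤ n →
    ∀ A : Matrix (Fin n) (Fin n) ℝ, A.IsSymm → A.det ≠ 0 →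
    ∀ l : Fin n → ℝ, l ≠ 0 →
    (∀ β : ℝ, (∃ x : Fin n → ℝ, 0 < x ⬝ᵥ A *ᵥ x + β * (l ⬝ᵥ x) ^ 2) ∧
              (∃ y : Fin n → ℝ, y ⬝ᵥ A *ᵥ y + β * (l ⬝ᵥ y) ^ 2 < 0)) →
    (∀ α β : ℝ, (α, β) ≠ (0, 0) →
      ¬ ∃ c : ℝ, ∃ B : Matrix (Fin n) (Fin n) ℚ,
        α • A + β • Matrix.vecMulVec l l = c • B.map (fun q : ℚ => (q : ℝ))) →
    Dense {p : ℝ × ℝ | ∃ x : Fin n → ℤ, x ≠ 0 ∧ Finset.univ.gcd x = 1 ∧
      p = ((fun i => (x i : ℝ)) ⬝ᵥ A *ᵥ (fun i => (x i : ℝ)),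
           l ⬝ᵥ (fun i => (x i : ℝ)))} := by
  exact QL.Main.main

end Pool.Agent.S17215
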