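import Pool.Statements.S18870
import Pool.Agent.Helper60_CentralBinom.Main

set_option autoImplicit false
open Pool Pool.MP_eca08d_nt

namespace Pool.Agent.S18870

/-- The negation of the preceding statement: Every natural number n greater than 1 equals a^2 + b^2 + C(2c,c) + C(2d,d) for some natural numbers a, b, c, d (zero allowed). -/
theorem result :
    ¬ (∀ n : ℕ, 1 < n →
      ∃ a b c d : ℕ, n = a ^ 2 + b ^ 2 + Nat.centralBinom c + Nat.centralBinom d) := by
  intro h
  obtain ⟨a, b, c, d, habcd⟩ := h Pool.Agent.Helper60.CentralBinom.bigN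
    (by norm_num [Pool.Agent.Helper60.CentralBinom.bigN])
  exact Pool.Agent.Helper60.CentralBinom.bigN_not_rep a b c d habcd

end Pool.Agent.S18870
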