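import Pool.Statements.S18989
import Pool.Agent.F5S.Top
import Pool.Agent.F5S.Assembly
import Pool.Agent.Helper46_F5N.FinA
import Pool.Agent.Helper46_F5H.Mat
import Pool.Agent.Helper90_F5H.C_ASM
import Pool.Agent.Helper36_F5H.F2i
import Pool.Agent.Helper67_F5H.CKV
import Pool.Agent.Helper92_F5H.NUM
import Pool.Agent.Helper33_F5H.Int
import Pool.Agent.Helper68_F5.Kc2
import Pool.Agent.Helper36_F5H.KC2

set_option autoImplicit false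
open MeasureTheory
open Pool Pool.MP_f5cbfa_nt

namespace Pool.Agent.S18989

/-- For Lebesgue-almost every positive definite binary quadratic form Q and all a<b, c<d, the number of admissible triples with norms below T and Q-differences in (a,b), (c,d), divided by c_Q T², tends to (b−a)(d−c). -/
theorem result :
    ∀ᵐ v : ℝ × ℝ × ℝ ∂(volume : Measure (ℝ × ℝ × ℝ)),
      0 < v.1 → 0 < v.1 * v.2.2 - v.2.1 ^ 2 →
      ∀ q : ℝ × ℝ → ℝ,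
      (∀ z : ℝ × ℝ, q z = v.1 * z.1 ^ 2 + 2 * v.2.1 * z.1 * z.2 + v.2.2 * z.2 ^ 2) →
      ∀ Q : ℤ × ℤ → ℝ, (∀ x : ℤ × ℤ, Q x = q ((x.1 : ℝ), (x.2 : ℝ))) →
      ∀ n : ℤ × ℤ → ℝ, (∀ x : ℤ × ℤ, n x = (x.1 : ℝ) ^ 2 + (x.2 : ℝ) ^ 2) →
      ∀ a b c d : ℝ, a < b → c < d →
        Filter.Tendsto
          (fun T : ℝ =>
            ((Set.ncard {t : (ℤ × ℤ) × (ℤ × ℤ) × (ℤ × ℤ) |
                t.1 ≠ t.2.1 ∧ t.1 ≠ -t.2.1 ∧ t.1 ≠ t.2.2 ∧ t.1 ≠ -t.2.2 ∧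
                t.2.1 ≠ t.2.2 ∧ t.2.1 ≠ -t.2.2 ∧
                n t.1 < T ^ 2 ∧ n t.2.1 < T ^ 2 ∧ n t.2.2 < T ^ 2 ∧
                a < Q t.1 - Q t.2.1 ∧ Q t.1 - Q t.2.1 < b ∧
                c < Q t.2.1 - Q t.2.2 ∧ Q t.2.1 - Q t.2.2 < d} : ℕ) : ℝ) /
              ((∫ y in {y : ℝ × ℝ | y.1 ^ 2 + y.2 ^ 2 < 1},
                  (deriv (fun s : ℝ =>
                      (volume {z : ℝ × ℝ | z.1 ^ 2 + z.2 ^ 2 < 1 ∧ q z < s}).toReal)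
                    (q y)) ^ 2) * T ^ 2))
          Filter.atTop (nhds ((b - a) * (d - c))) := by
  exact Pool.Agent.F5S.top Pool.Agent.F5S.Assembly.fin (Pool.Agent.Helper46_F5N.FinA.hard_of
    (Pool.Agent.F5H.BC.H90.asm Pool.Agent.F5H.F2.f2 Pool.Agent.F5H.BC.H67.kv
      Pool.Agent.F5H.BC.H46.mat Pool.Agent.Helper68_F5.kc1stmt Pool.Agent.F5H.K2.kc2
      Pool.Agent.F5H.BC.H92.num Pool.Agent.F5H.BC.H33.int))

end Pool.Agent.S18989
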