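import Pool.Statements.S19305
import Pool.Agent.Helper95_SOS.Link

set_option autoImplicit false
open Pool Pool.MP_4dda08_pr

namespace Pool.Agent.S19305

/-- For every α>4 there is β₀>0 so that for all β in (0,β₀), in the long-range SOS model on ℤ² with zero boundary outside the box [−N,N]², the mean square height at the origin tends to infinity as N grows. -/
theorem result :
    ∀ α : ℝ, 4 < α → ∃ β₀ : ℝ, 0 < β₀ ∧ ∀ β : ℝ, 0 < β → β < β₀ →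
      Filter.Tendsto
        (fun N : ℕ =>
          (∑' ψ : {ψ : ℤ × ℤ → ℤ // ∀ x : ℤ × ℤ, ((N : ℤ) < |x.1| ∨ (N : ℤ) < |x.2|) → ψ x = 0},
              ((ψ.1 (0, 0) : ℝ)) ^ 2 *
                Real.exp (-β * ∑' p : (ℤ × ℤ) × (ℤ × ℤ),
                  if p.1 = p.2 then (0 : ℝ) else
                    |((ψ.1 p.1 : ℝ) - (ψ.1 p.2 : ℝ))| /
                      (Real.sqrt ((((p.1.1 - p.2.1 : ℤ)) : ℝ) ^ 2 + (((p.1.2 - p.2.2 : ℤ)) : ℝ) ^ 2)) ^ α))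
          /
          (∑' ψ : {ψ : ℤ × ℤ → ℤ // ∀ x : ℤ × ℤ, ((N : ℤ) < |x.1| ∨ (N : ℤ) < |x.2|) → ψ x = 0},
              Real.exp (-β * ∑' p : (ℤ × ℤ) × (ℤ × ℤ),
                  if p.1 = p.2 then (0 : ℝ) else
                    |((ψ.1 p.1 : ℝ) - (ψ.1 p.2 : ℝ))| /
                      (Real.sqrt ((((p.1.1 - p.2.1 : ℤ)) : ℝ) ^ 2 + (((p.1.2 - p.2.2 : ℤ)) : ℝ) ^ 2)) ^ α)))
        Filter.atTop Filter.atTop := by
  intro α hα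
  have hq : 2 < α / 2 := by linarith
  obtain ⟨β₀, hβ₀, hv⟩ := Pool.Agent.Helper95_SOS.var_bound hq
  refine ⟨β₀, hβ₀, fun β hβ hβ1 => ?_⟩
  rw [Filter.tendsto_atTop]
  intro b
  -- choose the number of scales
  obtain ⟨K, hK⟩ := exists_nat_ge (max 10 (25 * b))
  have hG := Pool.Agent.Helper95_SOS.Gk_ge K
  have hK1 : (10:ℝ) ≤ K := le_trans (le_max_left _ _) hK
  have hK2 : 25 * b ≤ K := le_trans (le_max_right _ _) hK
  have hG40 : 40 ≤ Pool.Agent.Helper95_SOS.Gk Pool.Agent.Helper95_SOS.aa K := by linarith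
  rw [Filter.eventually_atTop]
  refine ⟨(2 * Pool.Agent.Helper95_SOS.Rk K + Pool.Agent.Helper95_SOS.lam K).toNat, fun N hN => ?_⟩
  have hN' : 2 * Pool.Agent.Helper95_SOS.Rk K + Pool.Agent.Helper95_SOS.lam K ≤ (N : ℤ) :=
    Int.toNat_le.mp hN
  have h0 : (0 : Pool.Agent.Helper95_SOS.Pt) ∈ Pool.Agent.Helper95_SOS.bx (N : ℤ) := by
    rw [Pool.Agent.Helper95_SOS.mem_bx]
    simp [Pool.Agent.Helper95_SOS.nm]
  have key := hv β hβ hβ1 K hG40 N hN' ⟨0, h0⟩ rfl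
  -- rewrite the sums
  have e : ∀ φ : Pool.Agent.Helper95_SOS.Ix (N : ℤ) → ℤ,
      Real.exp (-β * ∑' p : (ℤ × ℤ) × (ℤ × ℤ),
        if p.1 = p.2 then (0 : ℝ) else
          |((((Pool.Agent.Helper95_SOS.confEquiv N φ).1 p.1 : ℤ) : ℝ) -
            (((Pool.Agent.Helper95_SOS.confEquiv N φ).1 p.2 : ℤ) : ℝ))| /
            (Real.sqrt ((((p.1.1 - p.2.1 : ℤ)) : ℝ) ^ 2 + (((p.1.2 - p.2.2 : ℤ)) : ℝ) ^ 2)) ^ α) =
      Pool.Agent.Helper95_SOS.sosw β (α / 2) φ := by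
    intro φ
    have h := Pool.Agent.Helper95_SOS.energy_eq (β := β) hq φ
    rw [mul_div_cancel₀ α (two_ne_zero' ℝ)] at h
    rw [Pool.Agent.Helper95_SOS.confEquiv_val]
    unfold Pool.Agent.Helper95_SOS.sosw
    rw [← h]
  have hZ : (∑' ψ : {ψ : ℤ × ℤ → ℤ // ∀ x : ℤ × ℤ, ((N : ℤ) < |x.1| ∨ (N : ℤ) < |x.2|) → ψ x = 0},
              Real.exp (-β * ∑' p : (ℤ × ℤ) × (ℤ × ℤ),
                  if p.1 = p.2 then (0 : ℝ) else
                    |((ψ.1 p.1 : ℝ) - (ψ.1 p.2 : ℝ))| /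
                      (Real.sqrt ((((p.1.1 - p.2.1 : ℤ)) : ℝ) ^ 2 + (((p.1.2 - p.2.2 : ℤ)) : ℝ) ^ 2)) ^ α)) =
      ∑' φ : Pool.Agent.Helper95_SOS.Ix (N : ℤ) → ℤ, Pool.Agent.Helper95_SOS.sosw β (α / 2) φ := by
    rw [← (Pool.Agent.Helper95_SOS.confEquiv N).tsum_eq]
    exact tsum_congr e
  have hA : (∑' ψ : {ψ : ℤ × ℤ → ℤ // ∀ x : ℤ × ℤ, ((N : ℤ) < |x.1| ∨ (N : ℤ) < |x.2|) → ψ x = 0},
              ((ψ.1 (0, 0) : ℝ)) ^ 2 *
                Real.exp (-β * ∑' p : (ℤ × ℤ) × (ℤ × ℤ),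
                  if p.1 = p.2 then (0 : ℝ) else
                    |((ψ.1 p.1 : ℝ) - (ψ.1 p.2 : ℝ))| /
                      (Real.sqrt ((((p.1.1 - p.2.1 : ℤ)) : ℝ) ^ 2 + (((p.1.2 - p.2.2 : ℤ)) : ℝ) ^ 2)) ^ α)) =
      ∑' φ : Pool.Agent.Helper95_SOS.Ix (N : ℤ) → ℤ, ((φ ⟨0, h0⟩ : ℤ) : ℝ) ^ 2 *
        Pool.Agent.Helper95_SOS.sosw β (α / 2) φ := by
    rw [← (Pool.Agent.Helper95_SOS.confEquiv N).tsum_eq]
    refine tsum_congr (fun φ => ?_)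
    rw [e φ]
    congr 2
    rw [Pool.Agent.Helper95_SOS.confEquiv_val]
    have := Pool.Agent.Helper95_SOS.extz_in φ ⟨0, h0⟩
    exact_mod_cast this
  rw [hZ, hA]
  have hs := Pool.Agent.Helper95_SOS.sosw_summable (N := (N : ℤ)) hβ hq
  have hZpos : 0 < ∑' φ : Pool.Agent.Helper95_SOS.Ix (N : ℤ) → ℤ, Pool.Agent.Helper95_SOS.sosw β (α / 2) φ :=
    hs.tsum_pos (fun φ => (Real.exp_pos _).le) 0 (Real.exp_pos _)
  rw [le_div_iff₀ hZpos]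
  refine le_trans ?_ key
  apply mul_le_mul_of_nonneg_right _ hZpos.le
  linarith

end Pool.Agent.S19305
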