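import Pool.Statements.S19349
-- import your own Pool.Agent.* helpers here
import Pool.Agent.Helper50_SFT.T1
import Pool.Agent.Helper50_SFT.G
import Pool.Agent.Helper50_SFT.F4
import Pool.Agent.Helper50_SFT.Final
import Pool.Agent.Helper8_SFT.E1
import Pool.Agent.Helper8_SFT.E2
import Pool.Agent.Helper62_SFT.LB
import Pool.Agent.Helper62_SFT.X
import Pool.Agent.Helper93_SFT.F1
import Pool.Agent.Helper93_SFT.F3
import Pool.Agent.Helper98_SFT.F2
import Pool.Agent.Helper98_SFT.T2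

set_option autoImplicit false
open MeasureTheory
open scoped ENNReal
open Pool Pool.MP_5e5085_pr

namespace Pool.Agent.S19349

/-- For some d at least 2 there is a finite-type shift on Z^d with some finitary factor of an iid field, such that every finitary factor of iid landing in it has coding radius R with E[R^a] infinite for every a greater than 0. -/
theorem result :
    ∃ d : ℕ, 2 ≤ d ∧ ∃ k : ℕ, ∃ F : Finset (Fin d → ℤ), ∃ A : Set (F → Fin k),
      (∃ μ : Measure ℝ, ∃ _hμ : IsProbabilityMeasure μ,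
        ∃ f : ((Fin d → ℤ) → ℝ) → Fin k, Measurable f ∧
          (∀ᵐ y ∂(Measure.infinitePi (fun _ : (Fin d → ℤ) => μ)),
            ∃ r : ℕ, ∀ y' : (Fin d → ℤ) → ℝ,
              (∀ u : Fin d → ℤ, ‖u‖ ≤ (r : ℝ) → y' u = y u) → f y' = f y) ∧
          (∀ᵐ y ∂(Measure.infinitePi (fun _ : (Fin d → ℤ) => μ)),
            ∀ v : Fin d → ℤ, (fun u : F => f (fun w => y (w + (v + u.1)))) ∈ A)) ∧
      (∀ μ : Measure ℝ, ∀ _hμ : IsProbabilityMeasure μ,
        ∀ f : ((Fin d → ℤ) → ℝ) → Fin k, Measurable f →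
          (∀ᵐ y ∂(Measure.infinitePi (fun _ : (Fin d → ℤ) => μ)),
            ∃ r : ℕ, ∀ y' : (Fin d → ℤ) → ℝ,
              (∀ u : Fin d → ℤ, ‖u‖ ≤ (r : ℝ) → y' u = y u) → f y' = f y) →
          (∀ᵐ y ∂(Measure.infinitePi (fun _ : (Fin d → ℤ) => μ)),
            ∀ v : Fin d → ℤ, (fun u : F => f (fun w => y (w + (v + u.1)))) ∈ A) →
          ∀ α : ℝ, 0 < α →
            ∫⁻ y, ((sInf {r : ℕ | ∀ y' : (Fin d → ℤ) → ℝ,
                (∀ u : Fin d → ℤ, ‖u‖ ≤ (r : ℝ) → y' u = y u) → f y' = f y} : ℕ) : ℝ≥0∞) ^ α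
              ∂(Measure.infinitePi (fun _ : (Fin d → ℤ) => μ)) = ∞) := by
  have hX := Helper62_SFT.X Helper98_SFT.toeplitz
    (Helper50_SFT.f4 Helper93_SFT.piece_statement Helper98_SFT.layer Helper93_SFT.choose)
  have hR := Helper8_SFT.read Helper8_SFT.glue Helper50_SFT.t1
  exact ⟨2, le_rfl, Fintype.card Helper50_SFT.Cell, Helper50_SFT.box 100, Helper50_SFT.AA,
    Helper50_SFT.exist_part hX,
    fun μ hμ f hf h1 h2 α hα =>
      Helper50_SFT.lower_part hR Helper50_SFT.g Helper62_SFT.LB μ hμ f hf h1 h2 α hα⟩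

end Pool.Agent.S19349
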