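import Pool.Statements.S19710
import Pool.Agent.Helper1_ERGM.Final

set_option autoImplicit false
open Classical
open Pool Pool.MP_e8d6cf_pr

namespace Pool.Agent.S19710

/-- The negation of the preceding statement: If L(u)=αu³/3+hu−entropy(u) has exactly two maximisers u1≠u2 on [0,1], then under the graph law ∝exp(h·edges+(α/n)·triangles) on n vertices, 6·triangles/n³ converges in law to κ·δ(u1³)+(1−κ)·δ(u2³), κ as given. -/
theorem result :
    ¬ (∀ α h u₁ u₂ : ℝ,
      u₁ ∈ Set.Icc (0:ℝ) 1 → u₂ ∈ Set.Icc (0:ℝ) 1 → u₁ ≠ u₂ →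
      (∀ v ∈ Set.Icc (0:ℝ) 1,
          α * v ^ 3 / 3 + h * v - (v * Real.log v + (1 - v) * Real.log (1 - v))
            ≤ α * u₁ ^ 3 / 3 + h * u₁ - (u₁ * Real.log u₁ + (1 - u₁) * Real.log (1 - u₁))) →
      (α * u₂ ^ 3 / 3 + h * u₂ - (u₂ * Real.log u₂ + (1 - u₂) * Real.log (1 - u₂))
          = α * u₁ ^ 3 / 3 + h * u₁ - (u₁ * Real.log u₁ + (1 - u₁) * Real.log (1 - u₁))) →
      (∀ v ∈ Set.Icc (0:ℝ) 1,
          α * v ^ 3 / 3 + h * v - (v * Real.log v + (1 - v) * Real.log (1 - v))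
            = α * u₁ ^ 3 / 3 + h * u₁ - (u₁ * Real.log u₁ + (1 - u₁) * Real.log (1 - u₁)) →
          v = u₁ ∨ v = u₂) →
      ∀ f : ℝ → ℝ, Continuous f → (∃ C : ℝ, ∀ x, |f x| ≤ C) →
        Filter.Tendsto
          (fun n : ℕ =>
            (∑ G : SimpleGraph (Fin n),
                Real.exp (h * (G.edgeFinset.card : ℝ) + α / (n : ℝ) * ((G.cliqueFinset 3).card : ℝ))
                  * f (6 * ((G.cliqueFinset 3).card : ℝ) / (n : ℝ) ^ 3))
            / (∑ G : SimpleGraph (Fin n),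
                Real.exp (h * (G.edgeFinset.card : ℝ) + α / (n : ℝ) * ((G.cliqueFinset 3).card : ℝ))))
          Filter.atTop
          (nhds
            ((Real.sqrt ((1 - 2 * α * u₁ ^ 2 * (1 - u₁))⁻¹)
                / (Real.sqrt ((1 - 2 * α * u₁ ^ 2 * (1 - u₁))⁻¹)
                    + Real.sqrt ((1 - 2 * α * u₂ ^ 2 * (1 - u₂))⁻¹))) * f (u₁ ^ 3)
              + (1 - Real.sqrt ((1 - 2 * α * u₁ ^ 2 * (1 - u₁))⁻¹)
                / (Real.sqrt ((1 - 2 * α * u₁ ^ 2 * (1 - u₁))⁻¹)
                    + Real.sqrt ((1 - 2 * α * u₂ ^ 2 * (1 - u₂))⁻¹))) * f (u₂ ^ 3)))) := by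
  intro H
  obtain ⟨h, u₁, u₂, hu₁, hu₂, hlt, hmax, heq, huniq, hu₁1, hu₁3, hu₂e⟩ :=
    Helper1_ERGM.exists_coexistence
  -- the functional in the two notations
  have hL : ∀ v : ℝ, 300 * v ^ 3 / 3 + h * v - (v * Real.log v + (1 - v) * Real.log (1 - v))
      = Helper1_ERGM.Lf h v := by
    intro v
    unfold Helper1_ERGM.Lf Real.binEntropy
    rw [Real.log_inv, Real.log_inv]
    ring
  have hη0 := Helper1_ERGM.eta_pos
  have hη1 := Helper1_ERGM.eta_small
  have hηdef : 2 * Helper1_ERGM.eta = Real.exp (-193) := by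
    unfold Helper1_ERGM.eta; ring
  set η : ℝ := Helper1_ERGM.eta with hη
  -- the test function
  set f : ℝ → ℝ := fun x => max 0 (min 1 (x - (1 - η))) with hf
  have hfc : Continuous f := by rw [hf]; fun_prop
  have hf0 : ∀ x, 0 ≤ f x := fun x => le_max_left _ _
  have hf1 : ∀ x, f x ≤ 1 := fun x => max_le zero_le_one (min_le_left _ _)
  have hfb : ∃ C : ℝ, ∀ x, |f x| ≤ C := ⟨1, fun x => by rw [abs_of_nonneg (hf0 x)]; exact hf1 x⟩
  have hfz : ∀ x, x ≤ 1 - η → f x = 0 := by
    intro x hx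
    rw [hf]
    apply max_eq_left
    exact (min_le_right _ _).trans (by linarith)
  have lim := H 300 h u₁ u₂ hu₁ hu₂ hlt.ne
    (fun v hv => by rw [hL, hL]; exact hmax v hv)
    (by rw [hL, hL]; exact heq)
    (fun v hv hv' => by rw [hL, hL] at hv'; exact huniq v hv hv') f hfc hfb
  -- the actual limit is zero
  have lim0 : Filter.Tendsto
      (fun n : ℕ =>
        (∑ G : SimpleGraph (Fin n),
            Real.exp (h * (G.edgeFinset.card : ℝ) + 300 / (n : ℝ) * ((G.cliqueFinset 3).card : ℝ))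
              * f (6 * ((G.cliqueFinset 3).card : ℝ) / (n : ℝ) ^ 3))
        / (∑ G : SimpleGraph (Fin n),
            Real.exp (h * (G.edgeFinset.card : ℝ) + 300 / (n : ℝ) * ((G.cliqueFinset 3).card : ℝ))))
      Filter.atTop (nhds 0) := by
    have hbound : Filter.Tendsto (fun n : ℕ => Real.exp 90 * ((n:ℝ) ^ 2 * (3 * Real.exp (-90)) ^ n))
        Filter.atTop (nhds (Real.exp 90 * 0)) := by
      apply Filter.Tendsto.const_mul
      apply tendsto_pow_const_mul_const_pow_of_abs_lt_one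
      rw [abs_of_nonneg (by positivity)]
      have h1 : Real.exp (-90) * Real.exp 90 = 1 := by rw [← Real.exp_add]; norm_num
      have h2 : (91:ℝ) ≤ Real.exp 90 := by
        have := Real.add_one_le_exp (90:ℝ)
        linarith
      nlinarith [Real.exp_pos (-90:ℝ)]
    rw [mul_zero] at hbound
    refine tendsto_of_tendsto_of_tendsto_of_le_of_le' tendsto_const_nhds hbound ?_ ?_
    · refine Filter.Eventually.of_forall fun n => ?_
      apply div_nonneg
      · exact Finset.sum_nonneg fun G _ => mul_nonneg (Real.exp_pos _).le (hf0 _)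
      · exact Finset.sum_nonneg fun G _ => (Real.exp_pos _).le
    · filter_upwards [Filter.eventually_ge_atTop 2] with n hn
      have hn' : (2:ℝ) ≤ n := by exact_mod_cast hn
      have hn0 : (0:ℝ) < n := by linarith
      set Lmax : ℝ := Helper1_ERGM.Lf h u₁ with hLmax
      have low := Helper1_ERGM.lower_bound hn 300 h u₁ hu₁.1 hu₁1
      have up := Helper1_ERGM.dense_le hn h Lmax (by
        intro p hp0 hp1
        have := hmax p ⟨hp0, hp1⟩
        rw [← hL p] at this
        exact this)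
      have hLu : 300 * u₁ ^ 3 / 3 + h * u₁ - Helper1_ERGM.Iv u₁ = Lmax := by
        rw [hLmax, ← hL u₁]; rfl
      rw [hLu] at low
      have num : (∑ G : SimpleGraph (Fin n),
            Real.exp (h * (G.edgeFinset.card : ℝ) + 300 / (n : ℝ) * ((G.cliqueFinset 3).card : ℝ))
              * f (6 * ((G.cliqueFinset 3).card : ℝ) / (n : ℝ) ^ 3))
          ≤ ∑ G : SimpleGraph (Fin n), (if (1 - η) * (n.choose 2 : ℕ) ≤ G.edgeFinset.card then
              Real.exp (Helper1_ERGM.Ham 300 h G) else 0) := by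
        apply Finset.sum_le_sum
        intro G _
        by_cases hG : (1 - η) * (n.choose 2 : ℕ) ≤ (G.edgeFinset.card : ℝ)
        · rw [if_pos hG]
          calc _ ≤ Real.exp (h * (G.edgeFinset.card : ℝ)
                + 300 / (n : ℝ) * ((G.cliqueFinset 3).card : ℝ)) * 1 :=
                mul_le_mul_of_nonneg_left (hf1 _) (Real.exp_pos _).le
            _ = _ := by rw [mul_one]; rfl
        · rw [if_neg hG]
          have e1 := Helper1_ERGM.six_T_le G
          have e2 : 6 * ((G.cliqueFinset 3).card : ℝ) / (n : ℝ) ^ 3 ≤ 1 - η := by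
            rw [div_le_iff₀ (by positivity)]
            push Not at hG
            rw [Nat.cast_choose_two] at hG
            have e3 : n * (2 * (G.edgeFinset.card : ℝ)) ≤ n * (2 * ((1 - η) * (n * (n - 1) / 2))) := by
              apply mul_le_mul_of_nonneg_left _ hn0.le
              linarith
            have e4 : n * (2 * ((1 - η) * (n * (n - 1) / 2))) ≤ (1 - η) * (n:ℝ) ^ 3 := by
              have : (1 - η) * (n:ℝ) ^ 3 - n * (2 * ((1 - η) * (n * (n - 1) / 2)))
                  = (1 - η) * (n:ℝ) ^ 2 := by ring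
              have h2 : 0 ≤ (1 - η) * (n:ℝ) ^ 2 := mul_nonneg (by linarith) (by positivity)
              linarith
            linarith
          rw [hfz _ e2, mul_zero]
      have den : 0 < Real.exp (n * (n - 1) / 2 * Lmax - (n - 1) * (300 / 3) * u₁ ^ 3) :=
        Real.exp_pos _
      have low' : Real.exp (n * (n - 1) / 2 * Lmax - (n - 1) * (300 / 3) * u₁ ^ 3)
          ≤ ∑ G : SimpleGraph (Fin n),
            Real.exp (h * (G.edgeFinset.card : ℝ) + 300 / (n : ℝ) * ((G.cliqueFinset 3).card : ℝ)) :=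
        low
      calc _ ≤ (n ^ 2 * (Real.exp ((n * (n - 1) / 2) * Lmax - (n - 1) * 90.5) * 3 ^ n))
            / Real.exp (n * (n - 1) / 2 * Lmax - (n - 1) * (300 / 3) * u₁ ^ 3) := by
            apply div_le_div₀ (by positivity) (num.trans up) den low'
        _ = n ^ 2 * 3 ^ n * Real.exp (-(n - 1) * 90.5 + (n - 1) * (300 / 3) * u₁ ^ 3) := by
            rw [div_eq_iff den.ne', mul_assoc, ← Real.exp_add]
            ring_nf
        _ ≤ n ^ 2 * 3 ^ n * Real.exp (90 + (-90) * n) := by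
            apply mul_le_mul_of_nonneg_left _ (by positivity)
            apply Real.exp_le_exp.mpr
            have : (n - 1 : ℝ) * (300 / 3) * u₁ ^ 3 ≤ (n - 1) * (300 / 3) * (1 / 200) :=
              mul_le_mul_of_nonneg_left hu₁3 (mul_nonneg (by linarith) (by norm_num))
            linarith
        _ = Real.exp 90 * ((n:ℝ) ^ 2 * (3 * Real.exp (-90)) ^ n) := by
            rw [Real.exp_add, mul_pow, ← Real.exp_nat_mul, mul_comm (n:ℝ) (-90)]
            ring
  -- uniqueness of the limit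
  have hlimeq := tendsto_nhds_unique lim lim0
  have hfu₁ : f (u₁ ^ 3) = 0 := hfz _ (by linarith)
  have hu₂1 : u₂ ≤ 1 := hu₂.2
  have hu₂0 : 0 ≤ u₂ := hu₂.1
  have hfu₂ : 0 < f (u₂ ^ 3) := by
    rw [hf]
    apply lt_max_of_lt_right
    apply lt_min zero_lt_one
    have : 1 - 3 * (1 - u₂) ≤ u₂ ^ 3 := by nlinarith [mul_nonneg hu₂0 (sq_nonneg (1 - u₂)), sq_nonneg (1 - u₂)]
    linarith
  rw [hfu₁, mul_zero, zero_add] at hlimeq
  have hpos2 : 0 < Real.sqrt ((1 - 2 * 300 * u₂ ^ 2 * (1 - u₂))⁻¹) := by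
    apply Real.sqrt_pos.mpr
    apply inv_pos.mpr
    have h1 : u₂ ^ 2 ≤ 1 := by nlinarith
    have h2 : 1 - u₂ ≤ 1 / 19000 := by linarith
    have h3 : 0 ≤ 1 - u₂ := by linarith
    nlinarith [mul_le_mul h1 h2 h3 zero_le_one]
  have hnn1 : 0 ≤ Real.sqrt ((1 - 2 * 300 * u₁ ^ 2 * (1 - u₁))⁻¹) := Real.sqrt_nonneg _
  rcases mul_eq_zero.mp hlimeq with h1 | h1
  · have h2 : Real.sqrt ((1 - 2 * 300 * u₁ ^ 2 * (1 - u₁))⁻¹)
        / (Real.sqrt ((1 - 2 * 300 * u₁ ^ 2 * (1 - u₁))⁻¹)
        + Real.sqrt ((1 - 2 * 300 * u₂ ^ 2 * (1 - u₂))⁻¹)) = 1 := by linarith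
    rw [div_eq_one_iff_eq (by linarith)] at h2
    linarith
  · linarith

end Pool.Agent.S19710
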