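import Pool.Statements.S19765
import Pool.Agent.Helper47_BS.Fin
import Pool.Agent.Helper47_BS.Jordan

set_option autoImplicit false
open Pool Pool.MP_fc5efa_pr

namespace Pool.Agent.S19765

/-- Every connected bounded-degree graph properly embedded in the plane with all faces triangles and positive edge Cheeger constant has some p < 1/2 at which Bernoulli(p) site percolation has an infinite open cluster with positive probability, i.e. p_c < 1/2. -/
theorem result :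
  ∀ (V : Type) (G : SimpleGraph V),
    G.Connected →
    (∃ D : ℕ, ∀ v : V, (G.neighborSet v).Finite ∧ (G.neighborSet v).ncard ≤ D) →
    (∃ (φ : V → ℂ) (γ : V → V → ℝ → ℂ),
      Function.Injective φ ∧
      (∀ u v, G.Adj u v → ContinuousOn (γ u v) (Set.Icc 0 1) ∧ Set.InjOn (γ u v) (Set.Icc 0 1) ∧
          γ u v 0 = φ u ∧ γ u v 1 = φ v ∧ γ u v '' Set.Icc 0 1 = γ v u '' Set.Icc 0 1) ∧
      (∀ u v w, G.Adj u v → ∀ s ∈ Set.Icc (0:ℝ) 1, γ u v s = φ w → w = u ∨ w = v) ∧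
      (∀ u v x y, G.Adj u v → G.Adj x y → ∀ s ∈ Set.Icc (0:ℝ) 1, ∀ t ∈ Set.Icc (0:ℝ) 1,
          γ u v s = γ x y t → (u = x ∧ v = y) ∨ (u = y ∧ v = x) ∨ ∃ w, γ u v s = φ w) ∧
      (∀ K : Set ℂ, IsCompact K →
          {p : V × V | G.Adj p.1 p.2 ∧ (γ p.1 p.2 '' Set.Icc 0 1 ∩ K).Nonempty}.Finite) ∧
      (∀ z : ℂ, (∀ u v, G.Adj u v → z ∉ γ u v '' Set.Icc 0 1) →
          ∃ a b c, G.Adj a b ∧ G.Adj b c ∧ G.Adj c a ∧
            frontier (connectedComponentIn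
                {y : ℂ | ∀ u v, G.Adj u v → y ∉ γ u v '' Set.Icc 0 1} z) =
              γ a b '' Set.Icc 0 1 ∪ γ b c '' Set.Icc 0 1 ∪ γ c a '' Set.Icc 0 1)) →
    (∃ h : ℝ, 0 < h ∧ ∀ S : Set V, S.Finite → S.Nonempty →
        h * (S.ncard : ℝ) ≤ ({p : V × V | p.1 ∈ S ∧ p.2 ∉ S ∧ G.Adj p.1 p.2}.ncard : ℝ)) →
    ∃ (p : NNReal) (hp : p ≤ 1), p < 1/2 ∧
      0 < MeasureTheory.Measure.infinitePi (fun _ : V => (PMF.bernoulli p hp).toMeasure)
        {ω : V → Bool | ∃ S : Set V, S.Infinite ∧ (∀ v ∈ S, ω v = true) ∧ (G.induce S).Connected} := by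
  exact Pool.Agent.BS.H47.mainAsm
    (Pool.Agent.BS.H47.topo' Pool.Agent.BS.H47.incS Pool.Agent.BS.H47.wndS Pool.Agent.BS.H47.jordanS)
    Pool.Agent.BS.H47.flow' Pool.Agent.BS.H47.perBelow'

end Pool.Agent.S19765
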